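import Mathlib

section

/-!
Definitions for the theorem on generic exponential points (`SC`, strong closedness): if `V` is
irreducible, its projection to `ℂⁿ` is dominant (or of codimension one, ...), and
`dim M·V > rank M` for all integral matrices `M ≠ 0`, then `V` has exponential points which are
generic over a given countable field.
-/

namespace Pool.Agent.Lib.MP_209724_lc.SC

open MvPolynomial

/-- The field of constants of a family of derivations. -/
def consts {k L κ : Type*} [Field k] [Field L] [Algebra k L] (D : κ → Derivation k L L) :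
    IntermediateField k L where
  carrier := {a | ∀ l, D l a = 0}
  mul_mem' := by
    intro a b ha hb l
    rw [Derivation.leibniz, ha l, hb l, smul_zero, smul_zero, add_zero]
  add_mem' := by
    intro a b ha hb l
    rw [map_add, ha l, hb l, add_zero]
  algebraMap_mem' := fun c l => Derivation.map_algebraMap _ _
  inv_mem' := by
    intro a ha l
    rw [Derivation.leibniz_inv, ha l, smul_zero]

theorem mem_consts {k L κ : Type*} [Field k] [Field L] [Algebra k L] {D : κ → Derivation k L L}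
    {a : L} : a ∈ consts D ↔ ∀ l, D l a = 0 := Iff.rfl

/-- The derivations of a family are linear over its constants. -/
def toConsts {k L κ : Type*} [Field k] [Field L] [Algebra k L] (D : κ → Derivation k L L) (l : κ) :
    Derivation (consts D) L L :=
  Derivation.mk'
    { toFun := D l
      map_add' := (D l).map_add
      map_smul' := fun b a => by
        rw [Algebra.smul_def, RingHom.id_apply, Derivation.leibniz, Algebra.smul_def]
        change (b : L) • D l a + a • D l (b : L) = (b : L) * D l a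
        rw [b.2 l, smul_zero, add_zero, smul_eq_mul] }
    (fun a b => (D l).leibniz a b)

@[simp] theorem toConsts_apply {k L κ : Type*} [Field k] [Field L] [Algebra k L]
    (D : κ → Derivation k L L) (l : κ) (a : L) : toConsts D l a = D l a := rfl

/-- `F(v, exp v)`. -/
noncomputable def expG {k : Type} [Field k] [Algebra k ℂ] {m : ℕ}
    (F : MvPolynomial (Fin m ⊕ Fin m) k) (v : Fin m → ℂ) : ℂ :=
  aeval (Sum.elim v fun i => Complex.exp (v i)) F

/-- The derivation `∂/∂x i + y i ∂/∂y i` of `k[x, y]`. -/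
noncomputable def eD {k : Type} [Field k] {m : ℕ} (i : Fin m)
    (F : MvPolynomial (Fin m ⊕ Fin m) k) : MvPolynomial (Fin m ⊕ Fin m) k :=
  pderiv (Sum.inl i) F + X (Sum.inr i) * pderiv (Sum.inr i) F

/-- Compositions of derivations. -/
def word {k L : Type} [Field k] [Field L] [Algebra k L] {e : ℕ} (D : Fin e → Derivation k L L)
    (α : List (Fin e)) (a : L) : L :=
  α.foldr (fun l b => D l b) a

/-- The coordinates of nondegenerate solutions of square systems of exponential polynomials over `k`,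
some of the variables having been given values in `ℚ(i)`. -/
def eclSet (k : Type) [Field k] [Algebra k ℂ] : Set ℂ :=
  {t | ∃ (m r : ℕ) (F : Fin r → MvPolynomial (Fin m ⊕ Fin m) k) (J : Fin r → Fin m)
      (v : Fin m → ℂ) (i₀ : Fin m), (∀ j, expG (F j) v = 0) ∧
      Matrix.det (fun a b => expG (eD (J b) (F a)) v) ≠ 0 ∧
      (∀ i, i ∉ Set.range J → ∃ p q : ℚ, v i = p + q * Complex.I) ∧ t = v i₀}

/-- `dim B·V > rank B` for all `B ≠ 0`, with transcendence degrees over `k`. -/
def Strict (k : Type) {F : Type} [Field k] [Field F] [Algebra k F] {n : ℕ} (x y : Fin n → F) :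
    Prop :=
  ∀ B : Matrix (Fin n) (Fin n) ℤ, B ≠ 0 →
    ∃ s : Fin ((B.map (Int.cast : ℤ → ℚ)).rank + 1) → F, AlgebraicIndependent k s ∧
      ∀ a, s a ∈ Set.range (fun i => ∑ j, (B i j : F) * x j) ∪
        Set.range fun i => ∏ j, y j ^ B i j

end Pool.Agent.Lib.MP_209724_lc.SC
end

section

/-!
Definitions for the theorem on one-parameter leaves (`OV`).

`K` is a field of transcendence degree two over `ℂ` with transcendence basis `z = (u, τ)`. Elements
of `K` are regarded as algebraic functions of `(u, τ)`; their values are given by homomorphisms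
`A → ℂ` on finitely generated subalgebras `A` of `K`. We work on the domains where `u` is close to
`2πi j` and `τ = exp y`, `y` close to `N log j`, with `N` large: so `τ` is much larger than `u`.
-/

namespace Pool.Agent.Lib.MP_209724_lc.OV

open MvPolynomial Filter Topology Metric

/-- `ψ` is a homomorphism on the algebra `A` (its values outside `A` are irrelevant). -/
def IsHomOn {K : Type} [Field K] [Algebra ℂ K] (A : Subalgebra ℂ K) (ψ : K → ℂ) : Prop :=
  ∃ φ : A →ₐ[ℂ] ℂ, ∀ a : A, ψ a = φ a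

/-- `z` is a transcendence basis of `K` over `ℂ` (with two elements). -/
def IsBase {K : Type} [Field K] [Algebra ℂ K] (z : Fin 2 → K) : Prop :=
  AlgebraicIndependent ℂ z ∧ Algebra.IsAlgebraic (Algebra.adjoin ℂ (Set.range z)) K

/-- `dU`, `dT` are the derivations dual to `z`. -/
def IsDual {K : Type} [Field K] [Algebra ℂ K] (z : Fin 2 → K) (dU dT : Derivation ℂ K K) : Prop :=
  dU (z 0) = 1 ∧ dU (z 1) = 0 ∧ dT (z 0) = 0 ∧ dT (z 1) = 1

/-- `f` is algebraic over `ℂ(u)`. -/
def AlgOver {K : Type} [Field K] [Algebra ℂ K] (u f : K) : Prop :=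
  IsAlgebraic (Algebra.adjoin ℂ {u}) f

/-- `f` is a constant. -/
def IsConst {K : Type} [Field K] [Algebra ℂ K] (f : K) : Prop := ∃ c : ℂ, f = algebraMap ℂ K c

/-- `f` is in `ℚ u + ℂ`. -/
def RatLin {K : Type} [Field K] [Algebra ℂ K] (u f : K) : Prop :=
  ∃ (q : ℚ) (c : ℂ), f = algebraMap ℂ K (q : ℂ) * u + algebraMap ℂ K c

/-- The domain of the `(u, y)`, `y = log τ`: `|u - 2πi j| < j`, `|Re y - N log j| < B`,
`|Im y| < B`. -/
def Dom (N : ℕ) (B : ℝ) (j : ℕ) : Set (ℂ × ℂ) :=
  {p | ‖p.1 - 2 * Real.pi * Complex.I * j‖ < j ∧ |p.2.re - N * Real.log j| < B ∧ |p.2.im| < B}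

/-- The strip in which the parameter `ζ = y - N log j` of the leaves varies. -/
def strip : Set ℂ := {ζ | |ζ.re| < 1 ∧ |ζ.im| < 4}

/-- The derivation `τ d/dτ` along the leaves `exp u = σ(u, τ)`. -/
noncomputable def leafD {K : Type} [Field K] [Algebra ℂ K] (z : Fin 2 → K)
    (dU dT : Derivation ℂ K K) (σ : K) : Derivation ℂ K K :=
  z 1 • dT + (z 1 * dT σ / (σ - dU σ)) • dU

/-- The derivation `d/dκ` along `u = 2πi κ + log s(u)`. -/
noncomputable def kD {K : Type} [Field K] [Algebra ℂ K] (dU : Derivation ℂ K K) (s : K) :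
    Derivation ℂ K K :=
  (algebraMap ℂ K (2 * Real.pi * Complex.I) * s / (s - dU s)) • dU

/-- The value at `y` of the polynomial obtained by applying `ψ` to the coefficients of `f`. -/
noncomputable def evalC {K κ : Type} [Fintype κ] [Field K] (ψ : K → ℂ) (f : MvPolynomial κ K)
    (y : κ → ℂ) : ℂ :=
  ∑ m ∈ f.support, ψ (f.coeff m) * ∏ i, y i ^ m i

/-- Existence of exponential points of arbitrarily large norm on the locus of `(ξ, η)`, whose
first component is Zariski dense in the locus of `ξ`. -/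
def HasExp {ι M : Type} [Fintype ι] [Field M] [Algebra ℂ M] (ξ η : ι → M) : Prop :=
  ∀ c : MvPolynomial ι ℂ, aeval ξ c ≠ 0 → ∀ R : ℝ, ∃ x : ι → ℂ, R < ‖x‖ ∧ eval x c ≠ 0 ∧
    ∀ f : MvPolynomial (ι ⊕ ι) ℂ, aeval (Sum.elim ξ η) f = 0 →
      eval (Sum.elim x fun i => Complex.exp (x i)) f = 0

/-- Zariski density of the exponential points of large norm on the locus of `(ξ, η)`. -/
def HasExpD {ι M : Type} [Fintype ι] [Field M] [Algebra ℂ M] (ξ η : ι → M) : Prop :=
  ∀ D : MvPolynomial (ι ⊕ ι) ℂ, aeval (Sum.elim ξ η) D ≠ 0 → ∀ R : ℝ, ∃ x : ι → ℂ, R < ‖x‖ ∧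
    eval (Sum.elim x fun i => Complex.exp (x i)) D ≠ 0 ∧
    ∀ f : MvPolynomial (ι ⊕ ι) ℂ, aeval (Sum.elim ξ η) f = 0 →
      eval (Sum.elim x fun i => Complex.exp (x i)) f = 0

section IsHomOn

variable {K : Type} [Field K] [Algebra ℂ K] {A : Subalgebra ℂ K} {ψ : K → ℂ}

theorem IsHomOn.add (h : IsHomOn A ψ) {a b : K} (ha : a ∈ A) (hb : b ∈ A) :
    ψ (a + b) = ψ a + ψ b := by
  obtain ⟨φ, hφ⟩ := h
  rw [show a + b = ((⟨a, ha⟩ + ⟨b, hb⟩ : A) : K) from rfl, hφ, map_add, ← hφ, ← hφ]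

theorem IsHomOn.mul (h : IsHomOn A ψ) {a b : K} (ha : a ∈ A) (hb : b ∈ A) :
    ψ (a * b) = ψ a * ψ b := by
  obtain ⟨φ, hφ⟩ := h
  rw [show a * b = ((⟨a, ha⟩ * ⟨b, hb⟩ : A) : K) from rfl, hφ, map_mul, ← hφ, ← hφ]

theorem IsHomOn.sub (h : IsHomOn A ψ) {a b : K} (ha : a ∈ A) (hb : b ∈ A) :
    ψ (a - b) = ψ a - ψ b := by
  obtain ⟨φ, hφ⟩ := h
  rw [show a - b = ((⟨a, ha⟩ - ⟨b, hb⟩ : A) : K) from rfl, hφ, map_sub, ← hφ, ← hφ]

theorem IsHomOn.neg (h : IsHomOn A ψ) {a : K} (ha : a ∈ A) : ψ (-a) = -ψ a := by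
  obtain ⟨φ, hφ⟩ := h
  rw [show -a = ((-⟨a, ha⟩ : A) : K) from rfl, hφ, map_neg, ← hφ]

theorem IsHomOn.const (h : IsHomOn A ψ) (c : ℂ) : ψ (algebraMap ℂ K c) = c := by
  obtain ⟨φ, hφ⟩ := h
  have := hφ (algebraMap ℂ A c)
  rw [AlgHom.commutes] at this
  exact this

theorem IsHomOn.zero (h : IsHomOn A ψ) : ψ 0 = 0 := by
  simpa using h.const 0

theorem IsHomOn.one (h : IsHomOn A ψ) : ψ 1 = 1 := by
  simpa using h.const 1

theorem IsHomOn.pow (h : IsHomOn A ψ) {a : K} (ha : a ∈ A) (n : ℕ) : ψ (a ^ n) = ψ a ^ n := by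
  obtain ⟨φ, hφ⟩ := h
  rw [show a ^ n = ((⟨a, ha⟩ ^ n : A) : K) from rfl, hφ, map_pow, ← hφ]

theorem IsHomOn.sum (h : IsHomOn A ψ) {ι : Type*} (s : Finset ι) (f : ι → K)
    (hf : ∀ i ∈ s, f i ∈ A) : ψ (∑ i ∈ s, f i) = ∑ i ∈ s, ψ (f i) := by
  classical
  induction s using Finset.induction_on with
  | empty => simpa using h.zero
  | insert a s ha ih =>
    rw [Finset.sum_insert ha, Finset.sum_insert ha,
      h.add (hf a (Finset.mem_insert_self a s))
        (sum_mem fun i hi => hf i (Finset.mem_insert_of_mem hi)),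
      ih fun i hi => hf i (Finset.mem_insert_of_mem hi)]

theorem IsHomOn.prod (h : IsHomOn A ψ) {ι : Type*} (s : Finset ι) (f : ι → K)
    (hf : ∀ i ∈ s, f i ∈ A) : ψ (∏ i ∈ s, f i) = ∏ i ∈ s, ψ (f i) := by
  classical
  induction s using Finset.induction_on with
  | empty => simpa using h.one
  | insert a s ha ih =>
    rw [Finset.prod_insert ha, Finset.prod_insert ha,
      h.mul (hf a (Finset.mem_insert_self a s))
        (prod_mem fun i hi => hf i (Finset.mem_insert_of_mem hi)),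
      ih fun i hi => hf i (Finset.mem_insert_of_mem hi)]

theorem IsHomOn.inv (h : IsHomOn A ψ) {a : K} (ha : a ∈ A) (ha' : a⁻¹ ∈ A) :
    ψ a⁻¹ = (ψ a)⁻¹ := by
  by_cases h0 : a = 0
  · rw [h0, inv_zero, h.zero, inv_zero]
  · have h1 := h.mul ha ha'
    rw [mul_inv_cancel₀ h0, h.one] at h1
    exact (eq_inv_of_mul_eq_one_right h1.symm)

theorem IsHomOn.ne_zero (h : IsHomOn A ψ) {a : K} (ha : a ∈ A) (ha' : a⁻¹ ∈ A) (h0 : a ≠ 0) :
    ψ a ≠ 0 := by
  have h1 := h.mul ha ha'
  rw [mul_inv_cancel₀ h0, h.one] at h1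
  intro h2
  rw [h2, zero_mul] at h1
  exact one_ne_zero h1

theorem IsHomOn.mono {B : Subalgebra ℂ K} (h : IsHomOn A ψ) (hBA : B ≤ A) : IsHomOn B ψ := by
  obtain ⟨φ, hφ⟩ := h
  exact ⟨φ.comp (Subalgebra.inclusion hBA), fun a => hφ ⟨a, hBA a.2⟩⟩

theorem IsHomOn.aeval (h : IsHomOn A ψ) {σ : Type*} (p : MvPolynomial σ ℂ) (x : σ → K)
    (hx : ∀ i, x i ∈ A) : ψ (MvPolynomial.aeval x p) = eval (fun i => ψ (x i)) p := by
  obtain ⟨φ, hφ⟩ := h
  have h1 : MvPolynomial.aeval x p = ((MvPolynomial.aeval (fun i => (⟨x i, hx i⟩ : A)) p : A) : K) :=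
    (MvPolynomial.comp_aeval_apply (fun i => (⟨x i, hx i⟩ : A)) A.val p).symm
  rw [h1, hφ]
  have h2 := MvPolynomial.comp_aeval_apply (fun i => (⟨x i, hx i⟩ : A)) φ p
  rw [h2, MvPolynomial.aeval_eq_eval]
  have h3 : (fun i => φ ⟨x i, hx i⟩) = fun i => ψ (x i) := by
    funext i
    rw [← hφ]
  rw [h3]

end IsHomOn

end Pool.Agent.Lib.MP_209724_lc.OV
end
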