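import Mathlib
import Pool.Agent.Lib.MP_209724_lc.OV.Defs
import Pool.Agent.Lib.MP_209724_lc.MV.Branch
import Pool.Agent.Lib.MP_209724_lc.SC.Ed10
import Pool.Agent.Lib.MP_209724_lc.MV.Idem
import Pool.Agent.Lib.MP_209724_lc.SC.FF1
import Pool.Agent.Lib.MP_209724_lc.SC.FF3

section

namespace Pool.Agent.Lib.MP_209724_lc.OV

open MvPolynomial Filter Topology Metric

/-- Elementary bounds on `Dom`. -/
private theorem poly_reg_dom {N : ℕ} {B : ℝ} {j : ℕ} (hj : 1 ≤ j) {p : ℂ × ℂ}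
    (hp : p ∈ Dom N B j) :
    (j : ℝ) ≤ ‖p.1‖ ∧ ‖p.1‖ ≤ 8 * j ∧ Real.exp (-B) * (j : ℝ) ^ N ≤ ‖Complex.exp p.2‖ ∧
      ‖Complex.exp p.2‖ ≤ Real.exp B * (j : ℝ) ^ N := by
  obtain ⟨h1, h2, h3⟩ := hp
  have hjpos : (0 : ℝ) < j := by exact_mod_cast hj
  have hnorm : ‖(2 * Real.pi * Complex.I * j : ℂ)‖ = 2 * Real.pi * j := by
    simp [abs_of_pos Real.pi_pos]
  have hpi3 := Real.pi_gt_three
  have hpi4 := Real.pi_lt_d2
  have ha : ‖(2 * Real.pi * Complex.I * j : ℂ)‖ ≤ ‖p.1‖ + ‖p.1 - 2 * Real.pi * Complex.I * j‖ := by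
    have := norm_sub_le p.1 (p.1 - 2 * Real.pi * Complex.I * j)
    rwa [sub_sub_cancel] at this
  have hb : ‖p.1‖ ≤ ‖(2 * Real.pi * Complex.I * j : ℂ)‖ + ‖p.1 - 2 * Real.pi * Complex.I * j‖ := by
    have := norm_add_le (2 * Real.pi * Complex.I * j : ℂ) (p.1 - 2 * Real.pi * Complex.I * j)
    rwa [add_sub_cancel] at this
  rw [hnorm] at ha hb
  have hpow : (j : ℝ) ^ N = Real.exp (N * Real.log j) := by
    rw [mul_comm, Real.exp_mul, Real.exp_log hjpos, Real.rpow_natCast]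
  rw [abs_lt] at h2
  refine ⟨by nlinarith, by nlinarith, ?_, ?_⟩
  · rw [Complex.norm_exp, hpow, ← Real.exp_add]
    exact Real.exp_le_exp.2 (by linarith)
  · rw [Complex.norm_exp, hpow, ← Real.exp_add]
    exact Real.exp_le_exp.2 (by linarith)

private theorem poly_reg_eval (c : MvPolynomial (Fin 2) ℂ) (x t : ℂ) :
    eval ![x, t] c = ∑ m ∈ c.support, c.coeff m * (x ^ m 0 * t ^ m 1) := by
  rw [MvPolynomial.eval_eq']
  refine Finset.sum_congr rfl fun m _ => ?_
  rw [Fin.prod_univ_two]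
  simp

/-- OV-1: bounds for polynomials in `(u, τ)` on the domains `Dom N B j` when `N` is large.

Proof. Write `c = ∑_{q ≤ Q} c_q(u) τ ^ q` with `c_Q ≠ 0` a polynomial in `u` of degree `e`. On
`Dom N B j` we have `5 j ≤ |u| ≤ 8 j` (as `2π - 1 > 5`, `2π + 1 < 8`), `|τ| = |exp y| = exp (Re y)`
with `exp(-B) j ^ N ≤ |τ| ≤ exp(B) j ^ N`. For `j` large `|c_Q(u)| ≥ κ > 0` (indeed `≥ κ j ^ e`), and
`|c_q(u)| ≤ K j ^ P` for all `q`, with `P` the largest `u`-degree. So
`|c| ≥ κ |τ| ^ Q - ∑_{q < Q} K j ^ P |τ| ^ q ≥ |τ| ^ Q (κ - Q K j ^ P / |τ|)` if `|τ| ≥ 1` (if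
`Q = 0` there is no sum), which is at least `κ / 2 * |τ| ^ Q ≥ κ / 2` as soon as `N > P` and `j` is
large. Upper bound: `|c| ≤ (Q + 1) K j ^ P (exp B * j ^ N) ^ Q`. Take `N₀ = P + 1` and `C` large
(depending on `N`), `j ^ (-C) ≤ κ / 2` for large `j` if `C ≥ 1`. -/
theorem poly_reg (c : MvPolynomial (Fin 2) ℂ) (hc : c ≠ 0) (B : ℝ) :
    ∃ N₀ : ℕ, ∀ N ≥ N₀, ∃ C : ℝ, ∀ᶠ j : ℕ in atTop, ∀ p ∈ Dom N B j,
      (j : ℝ) ^ (-C) ≤ ‖eval ![p.1, Complex.exp p.2] c‖ ∧
        ‖eval ![p.1, Complex.exp p.2] c‖ ≤ (j : ℝ) ^ C := by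
  classical
  -- the leading monomial
  have hsupp : c.support.Nonempty := by
    rw [Finset.nonempty_iff_ne_empty]
    exact fun h => hc (MvPolynomial.support_eq_empty.1 h)
  obtain ⟨m1, hm1, hmax1⟩ := c.support.exists_max_image (fun m => m 1) hsupp
  obtain ⟨ms, hms, hmax2⟩ := (c.support.filter (fun m => m 1 = m1 1)).exists_max_image
    (fun m => m 0) ⟨m1, by simp [hm1]⟩
  rw [Finset.mem_filter] at hms
  obtain ⟨hms, hmsQ⟩ := hms
  set a : ℝ := ‖c.coeff ms‖ with ha_def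
  have ha : 0 < a := by
    rw [ha_def, norm_pos_iff]
    exact MvPolynomial.mem_support_iff.1 hms
  set P : ℕ := c.support.sup (fun m => m 0 + m 1) with hP
  have hPle : ∀ m ∈ c.support, m 0 ≤ P ∧ m 1 ≤ P := by
    intro m hm
    have := Finset.le_sup (f := fun m : Fin 2 →₀ ℕ => m 0 + m 1) hm
    constructor <;> omega
  set S : ℝ := ∑ m ∈ c.support, ‖c.coeff m‖ with hS
  have hSpos : 0 < S := by
    refine lt_of_lt_of_le ha ?_
    exact Finset.single_le_sum (f := fun m => ‖c.coeff m‖) (fun i _ => norm_nonneg _) hms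
  set K : ℝ := 8 ^ P * Real.exp |B| with hK
  have hKpos : 0 < K := by positivity
  have hK1 : 1 ≤ K := by
    have h1 : (1 : ℝ) ≤ 8 ^ P := one_le_pow₀ (by norm_num)
    have h2 : (1 : ℝ) ≤ Real.exp |B| := Real.one_le_exp (abs_nonneg B)
    nlinarith
  refine ⟨P + 1, fun N hN => ⟨((P + N * P + 1 : ℕ) : ℝ), ?_⟩⟩
  -- conditions on j
  have hE1 : ∀ᶠ j : ℕ in atTop, 1 ≤ j := eventually_ge_atTop 1
  have hE2 : ∀ᶠ j : ℕ in atTop, Real.exp B ≤ (j : ℝ) :=
    tendsto_natCast_atTop_atTop.eventually_ge_atTop _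
  have hE3 : ∀ᶠ j : ℕ in atTop, 2 * S * K / a ≤ (j : ℝ) :=
    tendsto_natCast_atTop_atTop.eventually_ge_atTop _
  have hE4 : ∀ᶠ j : ℕ in atTop, 2 / a ≤ (j : ℝ) :=
    tendsto_natCast_atTop_atTop.eventually_ge_atTop _
  have hE5 : ∀ᶠ j : ℕ in atTop, S * 8 ^ P * (Real.exp B) ^ P ≤ (j : ℝ) :=
    tendsto_natCast_atTop_atTop.eventually_ge_atTop _
  filter_upwards [hE1, hE2, hE3, hE4, hE5] with j h1 h2 h3 h4 h5
  intro p hp
  obtain ⟨hx1, hx2, ht1, ht2⟩ := poly_reg_dom h1 hp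
  have hj1 : (1 : ℝ) ≤ j := by exact_mod_cast h1
  have hjpos : (0 : ℝ) < j := by linarith
  generalize hxx : p.1 = x at *
  generalize htt : Complex.exp p.2 = t at *
  have hx0 : 1 ≤ ‖x‖ := le_trans hj1 hx1
  have hBexp : Real.exp (-B) * Real.exp B = 1 := by
    rw [← Real.exp_add]; simp
  have ht0 : 1 ≤ ‖t‖ := by
    refine le_trans ?_ ht1
    have h6 : (j : ℝ) ≤ (j : ℝ) ^ N := le_self_pow₀ hj1 (by omega)
    calc (1 : ℝ) = Real.exp (-B) * Real.exp B := hBexp.symm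
      _ ≤ Real.exp (-B) * (j : ℝ) ^ N :=
        mul_le_mul_of_nonneg_left (h2.trans h6) (Real.exp_pos _).le
  constructor
  · -- lower bound
    have key : ∀ m ∈ c.support.erase ms,
        ‖c.coeff m * (x ^ m 0 * t ^ m 1)‖ * j ≤ ‖c.coeff m‖ * (K * (‖x‖ ^ ms 0 * ‖t‖ ^ ms 1)) := by
      intro m hm
      rw [Finset.mem_erase] at hm
      obtain ⟨hne, hm⟩ := hm
      rw [norm_mul, norm_mul, norm_pow, norm_pow, mul_assoc]
      refine mul_le_mul_of_nonneg_left ?_ (norm_nonneg _)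
      have hle1 : m 1 ≤ ms 1 := by rw [hmsQ]; exact hmax1 m hm
      rcases hle1.lt_or_eq with hlt | heq
      · -- `m 1 < Q`
        have h7 : ‖x‖ ^ m 0 ≤ 8 ^ P * (j : ℝ) ^ P := by
          calc ‖x‖ ^ m 0 ≤ ‖x‖ ^ P := pow_le_pow_right₀ hx0 (hPle m hm).1
            _ ≤ (8 * j) ^ P := pow_le_pow_left₀ (norm_nonneg _) hx2 _
            _ = _ := by rw [mul_pow]
        have h8 : (j : ℝ) ^ (P + 1) ≤ Real.exp |B| * ‖t‖ := by
          calc (j : ℝ) ^ (P + 1) ≤ (j : ℝ) ^ N := pow_le_pow_right₀ hj1 hN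
            _ = Real.exp B * (Real.exp (-B) * (j : ℝ) ^ N) := by
              rw [← mul_assoc, mul_comm (Real.exp B), hBexp, one_mul]
            _ ≤ Real.exp B * ‖t‖ := mul_le_mul_of_nonneg_left ht1 (Real.exp_pos _).le
            _ ≤ Real.exp |B| * ‖t‖ :=
              mul_le_mul_of_nonneg_right (Real.exp_le_exp.2 (le_abs_self B)) (norm_nonneg _)
        calc ‖x‖ ^ m 0 * ‖t‖ ^ m 1 * j ≤ (8 ^ P * (j : ℝ) ^ P) * ‖t‖ ^ m 1 * j := by gcongr
          _ = 8 ^ P * (j : ℝ) ^ (P + 1) * ‖t‖ ^ m 1 := by ring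
          _ ≤ 8 ^ P * (Real.exp |B| * ‖t‖) * ‖t‖ ^ m 1 := by gcongr
          _ = K * (1 * ‖t‖ ^ (m 1 + 1)) := by rw [hK]; ring
          _ ≤ K * (‖x‖ ^ ms 0 * ‖t‖ ^ ms 1) := by
            refine mul_le_mul_of_nonneg_left ?_ hKpos.le
            exact mul_le_mul (one_le_pow₀ hx0) (pow_le_pow_right₀ ht0 hlt) (by positivity)
              (by positivity)
      · -- `m 1 = Q`
        have hle0 : m 0 ≤ ms 0 := hmax2 m (Finset.mem_filter.2 ⟨hm, by rw [heq, hmsQ]⟩)
        have hlt0 : m 0 < ms 0 := by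
          rcases hle0.lt_or_eq with h | h
          · exact h
          · exact absurd (Finsupp.ext fun i => by fin_cases i <;> assumption) hne
        rw [heq]
        calc ‖x‖ ^ m 0 * ‖t‖ ^ ms 1 * j ≤ ‖x‖ ^ m 0 * ‖t‖ ^ ms 1 * ‖x‖ := by gcongr
          _ = ‖x‖ ^ (m 0 + 1) * ‖t‖ ^ ms 1 := by ring
          _ ≤ ‖x‖ ^ ms 0 * ‖t‖ ^ ms 1 := by
            refine mul_le_mul_of_nonneg_right ?_ (by positivity)
            exact pow_le_pow_right₀ hx0 hlt0
          _ = 1 * (‖x‖ ^ ms 0 * ‖t‖ ^ ms 1) := (one_mul _).symm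
          _ ≤ K * (‖x‖ ^ ms 0 * ‖t‖ ^ ms 1) :=
            mul_le_mul_of_nonneg_right hK1 (by positivity)
    set M : ℝ := ‖x‖ ^ ms 0 * ‖t‖ ^ ms 1 with hM
    have hM1 : 1 ≤ M := one_le_mul_of_one_le_of_one_le (one_le_pow₀ hx0) (one_le_pow₀ ht0)
    rw [poly_reg_eval, ← Finset.add_sum_erase _ _ hms]
    have hsum : ‖∑ m ∈ c.support.erase ms, c.coeff m * (x ^ m 0 * t ^ m 1)‖ * j ≤
        S * (K * M) := by
      calc ‖∑ m ∈ c.support.erase ms, c.coeff m * (x ^ m 0 * t ^ m 1)‖ * j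
          ≤ (∑ m ∈ c.support.erase ms, ‖c.coeff m * (x ^ m 0 * t ^ m 1)‖) * j := by
            gcongr
            exact norm_sum_le _ _
        _ = ∑ m ∈ c.support.erase ms, ‖c.coeff m * (x ^ m 0 * t ^ m 1)‖ * j := by
            rw [Finset.sum_mul]
        _ ≤ ∑ m ∈ c.support.erase ms, ‖c.coeff m‖ * (K * M) := Finset.sum_le_sum key
        _ ≤ ∑ m ∈ c.support, ‖c.coeff m‖ * (K * M) := by
            refine Finset.sum_le_sum_of_subset_of_nonneg (Finset.erase_subset _ _) ?_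
            intro i _ _
            positivity
        _ = S * (K * M) := by rw [Finset.sum_mul]
    have hlead : ‖c.coeff ms * (x ^ ms 0 * t ^ ms 1)‖ = a * M := by
      rw [norm_mul, norm_mul, norm_pow, norm_pow]
    have hsum2 : ‖∑ m ∈ c.support.erase ms, c.coeff m * (x ^ m 0 * t ^ m 1)‖ ≤ a * M / 2 := by
      have h9 : S * (K * M) ≤ (a * M / 2) * j := by
        rw [div_le_iff₀ ha] at h3
        nlinarith
      exact le_of_mul_le_mul_right (hsum.trans h9) hjpos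
    have htri : ‖c.coeff ms * (x ^ ms 0 * t ^ ms 1)‖ ≤
        ‖c.coeff ms * (x ^ ms 0 * t ^ ms 1) +
          ∑ m ∈ c.support.erase ms, c.coeff m * (x ^ m 0 * t ^ m 1)‖ +
        ‖∑ m ∈ c.support.erase ms, c.coeff m * (x ^ m 0 * t ^ m 1)‖ := by
      have := norm_sub_le (c.coeff ms * (x ^ ms 0 * t ^ ms 1) +
          ∑ m ∈ c.support.erase ms, c.coeff m * (x ^ m 0 * t ^ m 1))
        (∑ m ∈ c.support.erase ms, c.coeff m * (x ^ m 0 * t ^ m 1))
      rwa [add_sub_cancel_right] at this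
    have hge : a / 2 ≤ ‖c.coeff ms * (x ^ ms 0 * t ^ ms 1) +
          ∑ m ∈ c.support.erase ms, c.coeff m * (x ^ m 0 * t ^ m 1)‖ := by
      rw [hlead] at htri
      nlinarith
    refine le_trans ?_ hge
    rw [Real.rpow_neg hjpos.le, Real.rpow_natCast]
    have h10 : (j : ℝ) ≤ (j : ℝ) ^ (P + N * P + 1) := le_self_pow₀ hj1 (by omega)
    have h11 : 2 / a ≤ (j : ℝ) ^ (P + N * P + 1) := h4.trans h10
    rw [inv_le_comm₀ (by positivity) (by positivity)]
    rwa [inv_div]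
  · -- upper bound
    rw [poly_reg_eval, Real.rpow_natCast]
    calc ‖∑ m ∈ c.support, c.coeff m * (x ^ m 0 * t ^ m 1)‖
        ≤ ∑ m ∈ c.support, ‖c.coeff m * (x ^ m 0 * t ^ m 1)‖ := norm_sum_le _ _
      _ ≤ ∑ m ∈ c.support, ‖c.coeff m‖ * ((8 * j) ^ P * (Real.exp B * (j : ℝ) ^ N) ^ P) := by
          refine Finset.sum_le_sum fun m hm => ?_
          rw [norm_mul, norm_mul, norm_pow, norm_pow]
          refine mul_le_mul_of_nonneg_left ?_ (norm_nonneg _)
          refine mul_le_mul ?_ ?_ (by positivity) (by positivity)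
          · exact (pow_le_pow_right₀ hx0 (hPle m hm).1).trans
              (pow_le_pow_left₀ (norm_nonneg _) hx2 _)
          · exact (pow_le_pow_right₀ ht0 (hPle m hm).2).trans
              (pow_le_pow_left₀ (norm_nonneg _) ht2 _)
      _ = S * 8 ^ P * (Real.exp B) ^ P * (j : ℝ) ^ (P + N * P) := by
          rw [← Finset.sum_mul, ← hS]
          ring
      _ ≤ j * (j : ℝ) ^ (P + N * P) := by gcongr
      _ = (j : ℝ) ^ (P + N * P + 1) := by ring

end Pool.Agent.Lib.MP_209724_lc.OV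
end

section

namespace Pool.Agent.Lib.MP_209724_lc.OV

open MvPolynomial Filter Topology Metric

variable {K : Type} [Field K] [Algebra ℂ K]

/-- two terms of a vanishing sum which balance -/
private lemma balance (T : Finset ℕ) (u : ℕ → ℂ) (hu : ∀ t ∈ T, u t ≠ 0) (hT : T.Nonempty)
    (h : ∑ t ∈ T, u t = 0) : ∃ t₁ ∈ T, ∃ t₂ ∈ T, t₁ ≠ t₂ ∧
      |Real.log ‖u t₁‖ - Real.log ‖u t₂‖| ≤ Real.log T.card := by
  classical
  obtain ⟨t₁, ht₁, hmax⟩ := Finset.exists_max_image T (fun t => ‖u t‖) hT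
  have hsum : u t₁ = -∑ t ∈ T.erase t₁, u t := by
    rw [← Finset.add_sum_erase T u ht₁] at h
    exact eq_neg_of_add_eq_zero_left h
  have hne : (T.erase t₁).Nonempty := by
    rw [Finset.nonempty_iff_ne_empty]
    intro he
    rw [he, Finset.sum_empty, neg_zero] at hsum
    exact hu t₁ ht₁ hsum
  obtain ⟨t₂, ht₂, hmax₂⟩ := Finset.exists_max_image (T.erase t₁) (fun t => ‖u t‖) hne
  rw [Finset.mem_erase] at ht₂
  refine ⟨t₁, ht₁, t₂, ht₂.2, ht₂.1.symm, ?_⟩
  have h1 : ‖u t₁‖ ≤ T.card * ‖u t₂‖ := by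
    rw [hsum, norm_neg]
    refine (norm_sum_le _ _).trans ?_
    refine (Finset.sum_le_sum fun t ht => hmax₂ t ht).trans ?_
    rw [Finset.sum_const, nsmul_eq_mul]
    refine mul_le_mul_of_nonneg_right ?_ (norm_nonneg _)
    exact_mod_cast Finset.card_le_card (Finset.erase_subset _ _)
  have hp1 : 0 < ‖u t₁‖ := norm_pos_iff.mpr (hu _ ht₁)
  have hp2 : 0 < ‖u t₂‖ := norm_pos_iff.mpr (hu _ ht₂.2)
  have hcard : (0 : ℝ) < T.card := by exact_mod_cast hT.card_pos
  have h2 : Real.log ‖u t₂‖ ≤ Real.log ‖u t₁‖ := Real.log_le_log hp2 (hmax _ ht₂.2)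
  have h3 : Real.log ‖u t₁‖ ≤ Real.log T.card + Real.log ‖u t₂‖ := by
    rw [← Real.log_mul hcard.ne' hp2.ne']
    exact Real.log_le_log hp1 h1
  rw [abs_of_nonneg (by linarith)]
  linarith

/-- OV-2: bounds for the values of an algebraic function `f ≠ 0` on the domains `Dom N B j`.

Proof. (Compare `HS.tame_bound`.) Since `f` is algebraic over `ℂ[z]` and `f ≠ 0` there are
polynomials `a_0, …, a_d ∈ ℂ[u, τ]` (`MvPolynomial (Fin 2) ℂ`), `a_0 ≠ 0`, `a_d ≠ 0`, `d ≥ 1`, with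
`∑ aeval z (a_k) * f ^ k = 0` (divide by a power of `f`; use
`IsAlgebraic.exists_nonzero_coeff_and_aeval_eq_zero`, and `hz.1.aevalEquiv` or
`Algebra.adjoin_range_eq_range_aeval` to write the coefficients as polynomials in `z`; `d ≥ 1`
because otherwise `aeval z (a_0) = 0`). Apply `poly_reg` to `a_0`, `a_d` and all nonzero `a_k`:
for `N ≥ N₀` there is `C` with `j ^ (-C) ≤ |a_0|, |a_d|` and `|a_k| ≤ j ^ C` at `(u, exp y)`,
`(u, y) ∈ Dom N B j`, `j` large. For `ψ` as in the statement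
`∑ a_k(u, exp y) ψ(f) ^ k = 0` (`IsHomOn` on `A`, which contains `ℂ[z]` and `f`). Upper bound: if
`|ψ f| > 1` then `|a_d| |ψ f| ≤ ∑_{k < d} |a_k|`, so `|ψ f| ≤ d * j ^ (2 C)`. Lower bound: if
`|ψ f| < 1` then `|a_0| ≤ |ψ f| ∑_{k ≥ 1} |a_k|`, so `|ψ f| ≥ j ^ (-2 C) / d`. Absorb `d` in the
exponent for large `j`. -/
theorem tame_reg {z : Fin 2 → K} (hz : IsBase z) {f : K} (hf : f ≠ 0) (B : ℝ) :
    ∃ N₀ : ℕ, ∀ N ≥ N₀, ∃ C : ℝ, ∀ᶠ j : ℕ in atTop, ∀ p ∈ Dom N B j,
      ∀ (A : Subalgebra ℂ K) (ψ : K → ℂ), IsHomOn A ψ → (∀ i, z i ∈ A) → f ∈ A →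
        ψ (z 0) = p.1 → ψ (z 1) = Complex.exp p.2 →
        (j : ℝ) ^ (-C) ≤ ‖ψ f‖ ∧ ‖ψ f‖ ≤ (j : ℝ) ^ C := by
  classical
  obtain ⟨q, hq0, hq⟩ := (hz.2.isAlgebraic f).exists_nonzero_coeff_and_aeval_eq_zero
    (mem_nonZeroDivisors_of_ne_zero hf)
  set T := q.support with hT
  have h0T : 0 ∈ T := Polynomial.mem_support_iff.mpr hq0
  set a : ℕ → MvPolynomial (Fin 2) ℂ := fun k => hz.1.aevalEquiv.symm (q.coeff k) with ha
  have haz : ∀ k, aeval z (a k) = ((q.coeff k : Algebra.adjoin ℂ (Set.range z)) : K) := by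
    intro k
    have := hz.1.algebraMap_aevalEquiv (a k)
    rw [← this]
    simp [ha]
  have ha0 : ∀ k ∈ T, a k ≠ 0 := by
    intro k hk h0
    have h1 : q.coeff k ≠ 0 := Polynomial.mem_support_iff.mp hk
    apply h1
    have := haz k
    rw [h0, map_zero] at this
    exact Subtype.ext this.symm
  have hrel : ∑ k ∈ T, aeval z (a k) * f ^ k = 0 := by
    rw [Polynomial.aeval_eq_sum_range] at hq
    have h1 : ∑ k ∈ T, aeval z (a k) * f ^ k =
        ∑ k ∈ T, (q.coeff k : Algebra.adjoin ℂ (Set.range z)) • f ^ k := by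
      refine Finset.sum_congr rfl fun k _ => ?_
      rw [haz, Algebra.smul_def]
      rfl
    rw [h1]
    have h2 : ∑ k ∈ T, (q.coeff k : Algebra.adjoin ℂ (Set.range z)) • f ^ k =
        ∑ k ∈ Finset.range (q.natDegree + 1), q.coeff k • f ^ k := by
      refine Finset.sum_subset ?_ ?_
      · intro k hk
        exact Finset.mem_range_succ_iff.mpr (Polynomial.le_natDegree_of_mem_supp k hk)
      · intro k _ hk
        rw [Polynomial.notMem_support_iff.mp hk, zero_smul]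
    rw [h2, hq]
  choose! N₀ hN₀ using fun k (hk : k ∈ T) => poly_reg (a k) (ha0 k hk) B
  refine ⟨∑ k ∈ T, N₀ k, fun N hN => ?_⟩
  have hN' : ∀ k ∈ T, N₀ k ≤ N := fun k hk =>
    (Finset.single_le_sum (f := N₀) (fun k _ => Nat.zero_le _) hk).trans hN
  choose! C hC using fun k (hk : k ∈ T) => hN₀ k hk N (hN' k hk)
  set C' : ℝ := ∑ k ∈ T, |C k| with hC'
  have hCle : ∀ k ∈ T, C k ≤ C' := fun k hk => (le_abs_self _).trans
    (Finset.single_le_sum (f := fun k => |C k|) (fun k _ => abs_nonneg _) hk)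
  have hall : ∀ᶠ j : ℕ in atTop, ∀ k ∈ T, ∀ p ∈ Dom N B j,
      (j : ℝ) ^ (-C k) ≤ ‖eval ![p.1, Complex.exp p.2] (a k)‖ ∧
        ‖eval ![p.1, Complex.exp p.2] (a k)‖ ≤ (j : ℝ) ^ C k := by
    rw [Filter.eventually_all_finset]
    exact fun k hk => hC k hk
  refine ⟨2 * C' + 1, ?_⟩
  filter_upwards [hall, eventually_ge_atTop 1, eventually_ge_atTop T.card] with j hj hj1 hjT
  intro p hp A ψ hψ hzA hfA hz0 hz1
  have hj1' : (1 : ℝ) ≤ j := by exact_mod_cast hj1
  have hj0 : (0 : ℝ) < j := by linarith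
  have hlj : 0 ≤ Real.log j := Real.log_nonneg hj1'
  set x : Fin 2 → ℂ := ![p.1, Complex.exp p.2] with hx
  have hxz : (fun i => ψ (z i)) = x := by
    funext i
    fin_cases i
    · simpa [hx] using hz0
    · simpa [hx] using hz1
  have haA : ∀ r : MvPolynomial (Fin 2) ℂ, aeval z r ∈ A := by
    intro r
    have h1 : aeval z r ∈ Algebra.adjoin ℂ (Set.range z) := by
      rw [Algebra.adjoin_range_eq_range_aeval]
      exact ⟨r, rfl⟩
    refine (Algebra.adjoin_le ?_) h1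
    rintro _ ⟨i, rfl⟩
    exact hzA i
  have hψa : ∀ r : MvPolynomial (Fin 2) ℂ, ψ (aeval z r) = eval x r := by
    intro r
    rw [hψ.aeval r z hzA, hxz]
  set Y : ℂ := ψ f with hY
  have hsumY : ∑ k ∈ T, eval x (a k) * Y ^ k = 0 := by
    have := congrArg ψ hrel
    rw [hψ.zero, hψ.sum T _ (fun k _ => A.mul_mem (haA _) (A.pow_mem hfA k))] at this
    rw [← this]
    refine Finset.sum_congr rfl fun k _ => ?_
    rw [hψ.mul (haA _) (A.pow_mem hfA k), hψ.pow hfA, hψa]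
  have hbd : ∀ k ∈ T, |Real.log ‖eval x (a k)‖| ≤ C' * Real.log j ∧ eval x (a k) ≠ 0 := by
    intro k hk
    obtain ⟨h1, h2⟩ := hj k hk p hp
    have hpos : 0 < ‖eval x (a k)‖ := lt_of_lt_of_le (Real.rpow_pos_of_pos hj0 _) h1
    have h3 := Real.log_le_log hpos h2
    have h4 := Real.log_le_log (Real.rpow_pos_of_pos hj0 _) h1
    rw [Real.log_rpow hj0] at h3 h4
    have h5 : C k * Real.log j ≤ C' * Real.log j :=
      mul_le_mul_of_nonneg_right (hCle k hk) hlj
    refine ⟨abs_le.mpr ⟨by linarith, by linarith⟩, norm_pos_iff.mp hpos⟩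
  have hY0 : Y ≠ 0 := by
    intro h0
    rw [h0, Finset.sum_eq_single_of_mem 0 h0T (fun k _ hk => by rw [zero_pow hk, mul_zero]),
      pow_zero, mul_one] at hsumY
    exact (hbd 0 h0T).2 hsumY
  obtain ⟨t₁, ht₁, t₂, ht₂, hne, hlog⟩ := balance T (fun k => eval x (a k) * Y ^ k)
    (fun k hk => mul_ne_zero (hbd k hk).2 (pow_ne_zero _ hY0)) ⟨0, h0T⟩ hsumY
  have hlg : ∀ k ∈ T, Real.log ‖eval x (a k) * Y ^ k‖ =
      Real.log ‖eval x (a k)‖ + k * Real.log ‖Y‖ := by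
    intro k hk
    rw [norm_mul, norm_pow, Real.log_mul (norm_ne_zero_iff.mpr (hbd k hk).2)
      (pow_ne_zero _ (norm_ne_zero_iff.mpr hY0)), Real.log_pow]
  simp only [hlg t₁ ht₁, hlg t₂ ht₂] at hlog
  have hYp : 0 < ‖Y‖ := norm_pos_iff.mpr hY0
  have hcard : Real.log T.card ≤ Real.log j := by
    refine Real.log_le_log ?_ (by exact_mod_cast hjT)
    exact_mod_cast Finset.card_pos.mpr ⟨0, h0T⟩
  set y := Real.log ‖Y‖ with hy
  have hkey : |y| ≤ (2 * C' + 1) * Real.log j := by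
    have hd1 : 1 ≤ |(t₁ : ℝ) - t₂| := by
      have : (1 : ℤ) ≤ |(t₁ : ℤ) - t₂| := Int.one_le_abs (sub_ne_zero.mpr (by exact_mod_cast hne))
      exact_mod_cast this
    have h2 : |((t₁ : ℝ) - t₂) * y| ≤ (2 * C' + 1) * Real.log j := by
      have e1 := abs_le.mp (hbd t₁ ht₁).1
      have e2 := abs_le.mp (hbd t₂ ht₂).1
      have e3 := abs_le.mp hlog
      rw [abs_le]
      constructor <;> nlinarith [e1.1, e1.2, e2.1, e2.2, e3.1, e3.2]
    rw [abs_mul] at h2
    calc |y| = 1 * |y| := (one_mul _).symm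
      _ ≤ |(t₁ : ℝ) - t₂| * |y| := mul_le_mul_of_nonneg_right hd1 (abs_nonneg _)
      _ ≤ _ := h2
  have hYe : ‖Y‖ = Real.exp y := (Real.exp_log hYp).symm
  obtain ⟨k1, k2⟩ := abs_le.mp hkey
  rw [hYe, Real.rpow_def_of_pos hj0, Real.rpow_def_of_pos hj0]
  exact ⟨Real.exp_le_exp.mpr (by linarith), Real.exp_le_exp.mpr (by linarith)⟩

end Pool.Agent.Lib.MP_209724_lc.OV
end

section

namespace Pool.Agent.Lib.MP_209724_lc.OV

open MvPolynomial Filter Topology Metric

variable {K : Type} [Field K] [Algebra ℂ K]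

private theorem cr_not_mem_vars {σ : Type} (i : σ) (H : MvPolynomial σ ℂ) (h : pderiv i H = 0) :
    i ∉ H.vars := by
  classical
  intro hi
  obtain ⟨d, hd, hid⟩ := (MvPolynomial.mem_vars_iff_mem_support i).1 hi
  have h1 := coeff_pderiv (i := i) H (d - Finsupp.single i 1)
  rw [h, coeff_zero] at h1
  have hdi : d i ≠ 0 := Finsupp.mem_support_iff.1 hid
  have h2 : d - Finsupp.single i 1 + Finsupp.single i 1 = d := by
    apply tsub_add_cancel_of_le
    rw [Finsupp.single_le_iff]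
    omega
  rw [h2] at h1
  rcases mul_eq_zero.1 h1.symm with h3 | h3
  · exact (MvPolynomial.mem_support_iff.1 hd) h3
  · exact Nat.cast_add_one_ne_zero _ h3

private theorem cr_degree_lt {σ : Type} (i : σ) (H : MvPolynomial σ ℂ) (h : pderiv i H ≠ 0) :
    (pderiv i H).totalDegree < H.totalDegree := by
  classical
  have key : ∀ m ∈ (pderiv i H).support, (m.sum fun _ e => e) + 1 ≤ H.totalDegree := by
    intro m hm
    have h1 : coeff m (pderiv i H) ≠ 0 := MvPolynomial.mem_support_iff.1 hm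
    rw [coeff_pderiv] at h1
    have h2 : m + Finsupp.single i 1 ∈ H.support :=
      MvPolynomial.mem_support_iff.2 (left_ne_zero_of_mul h1)
    have h3 := MvPolynomial.le_totalDegree h2
    rw [Finsupp.sum_add_index' (fun _ => rfl) (fun _ _ _ => rfl), Finsupp.sum_single_index rfl]
      at h3
    exact h3
  obtain ⟨m, hm⟩ := MvPolynomial.ne_zero_iff.1 h
  have hm' := MvPolynomial.mem_support_iff.2 hm
  have h0 := key m hm'
  rw [MvPolynomial.totalDegree, Finset.sup_lt_iff (by rw [bot_eq_zero]; omega)]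
  intro m hm
  have := key m hm
  omega

/-- Chain rule for derivations. -/
private theorem cr_chain {σ : Type} [Fintype σ] (D : Derivation ℂ K K) (w : σ → K)
    (G : MvPolynomial σ ℂ) : D (aeval w G) = ∑ o, aeval w (pderiv o G) * D (w o) := by
  classical
  induction G using MvPolynomial.induction_on with
  | C c =>
    simp [aeval_C]
  | add p q hp hq =>
    rw [map_add, map_add, hp, hq, ← Finset.sum_add_distrib]
    refine Finset.sum_congr rfl fun o _ => ?_
    rw [map_add, map_add, add_mul]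
  | mul_X p i hp =>
    rw [map_mul, aeval_X, Derivation.leibniz, hp, smul_eq_mul, smul_eq_mul]
    have h1 : ∀ o, aeval w (pderiv o (p * X i)) * D (w o) =
        aeval w p * ((if o = i then 1 else 0) * D (w o)) +
          w i * (aeval w (pderiv o p) * D (w o)) := by
      intro o
      rw [Derivation.leibniz, smul_eq_mul, smul_eq_mul, pderiv_X]
      by_cases h : o = i
      · subst h
        simp [Pi.single_eq_same]
        ring
      · simp [h, Pi.single_apply, Ne.symm h]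
        ring
    rw [Finset.sum_congr rfl fun o _ => h1 o, Finset.sum_add_distrib, ← Finset.mul_sum,
      ← Finset.mul_sum]
    congr 2
    simp

/-- The directional derivatives of a holomorphic function of two variables are continuous. -/
private theorem cr_cont {U : Set (ℂ × ℂ)} (hU : IsOpen U) {F : ℂ × ℂ → ℂ}
    (hF : DifferentiableOn ℂ F U) (v : ℂ × ℂ) : ContinuousOn (fun q => fderiv ℂ F q v) U := by
  intro p hp
  refine ContinuousAt.continuousWithinAt ?_
  obtain ⟨r, hr, hrU⟩ := Metric.nhds_basis_closedBall.mem_iff.1 (hU.mem_nhds hp)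
  have hv : 0 < 1 + ‖v‖ := by positivity
  obtain ⟨ρ, hρ, hρr⟩ : ∃ ρ : ℝ, 0 < ρ ∧ ρ + ρ * ‖v‖ ≤ r :=
    ⟨r / (1 + ‖v‖), by positivity, by
      rw [← mul_one_add, div_mul_cancel₀ _ hv.ne']⟩
  have hmem : ∀ q ∈ ball p ρ, ∀ ζ ∈ ball (0 : ℂ) ρ, q + ζ • v ∈ closedBall p r := by
    intro q hq ζ hζ
    rw [mem_closedBall, dist_eq_norm]
    rw [mem_ball, dist_eq_norm] at hq
    rw [mem_ball_zero_iff] at hζ
    calc ‖q + ζ • v - p‖ = ‖(q - p) + ζ • v‖ := by congr 1; abel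
      _ ≤ ‖q - p‖ + ‖ζ • v‖ := norm_add_le _ _
      _ ≤ ρ + ρ * ‖v‖ := by rw [norm_smul]; gcongr
      _ ≤ r := hρr
  have hdat : ∀ q ∈ ball p ρ, ∀ ζ ∈ ball (0 : ℂ) ρ, DifferentiableAt ℂ F (q + ζ • v) :=
    fun q hq ζ hζ => (hF _ (hrU (hmem q hq ζ hζ))).differentiableAt
      (hU.mem_nhds (hrU (hmem q hq ζ hζ)))
  have hline : ∀ (q : ℂ × ℂ) (ζ : ℂ), HasDerivAt (fun ζ : ℂ => q + ζ • v) v ζ := by
    intro q ζ
    have h1 : HasDerivAt (fun ζ : ℂ => ζ • v) ((1 : ℂ) • v) ζ := (hasDerivAt_id ζ).smul_const v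
    rw [one_smul] at h1
    exact h1.const_add q
  have hdiffq : ∀ q ∈ ball p ρ, DifferentiableOn ℂ (fun ζ : ℂ => F (q + ζ • v)) (ball 0 ρ) := by
    intro q hq ζ hζ
    exact (DifferentiableAt.comp ζ (hdat q hq ζ hζ)
      (hline q ζ).differentiableAt).differentiableWithinAt
  have huc : UniformContinuousOn F (closedBall p r) :=
    (isCompact_closedBall p r).uniformContinuousOn_of_continuous (hF.continuousOn.mono hrU)
  have hunif : TendstoUniformlyOn (fun q (ζ : ℂ) => F (q + ζ • v)) (fun ζ => F (p + ζ • v))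
      (𝓝 p) (ball 0 ρ) := by
    rw [Metric.tendstoUniformlyOn_iff]
    intro ε hε
    obtain ⟨δ, hδ, hδ'⟩ := Metric.uniformContinuousOn_iff.1 huc ε hε
    filter_upwards [ball_mem_nhds p hδ, ball_mem_nhds p hρ] with q hq hq2 ζ hζ
    apply hδ' _ (hmem p (mem_ball_self hρ) ζ hζ) _ (hmem q hq2 ζ hζ)
    rw [dist_add_right, dist_comm]
    exact hq
  have h2 := hunif.tendstoLocallyUniformlyOn.deriv
    (by filter_upwards [ball_mem_nhds p hρ] with q hq using hdiffq q hq) isOpen_ball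
  have h3 := h2.tendsto_at (mem_ball_self hρ)
  have hder : ∀ q ∈ ball p ρ, deriv (fun ζ : ℂ => F (q + ζ • v)) 0 = fderiv ℂ F q v := by
    intro q hq
    have h4 := (hdat q hq 0 (mem_ball_self hρ)).hasFDerivAt
    have h5 := h4.comp_hasDerivAt (0 : ℂ) (hline q 0)
    have h6 : q + (0 : ℂ) • v = q := by rw [zero_smul, add_zero]
    rw [h6] at h5
    exact h5.deriv
  rw [ContinuousAt, ← hder p (mem_ball_self hρ)]
  refine h3.congr' ?_
  filter_upwards [ball_mem_nhds p hρ] with q hq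
  exact hder q hq

/-- OV-4: the partial derivatives of the values of `f ∈ K` are the values of the derivatives.

Proof. Let `H ∈ ℂ[X_0, X_1, Y]` (for example `MvPolynomial (Fin 3) ℂ` or
`Polynomial (MvPolynomial (Fin 2) ℂ)`) be a nonzero relation `H(z 0, z 1, f) = 0` of minimal degree
in `Y`; then `H_Y(z 0, z 1, f) ≠ 0` (characteristic zero; `Y` occurs in `H` because `z` is
algebraically independent; minimality). Apply the derivations: `H_0(z, f) + H_Y(z, f) dU f = 0`,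
`H_1(z, f) + H_Y(z, f) dT f = 0` in `K`. All these elements lie in `A`, so for `p ∈ U`
`H_Y(p.1, exp p.2, Φ p f) * Φ p (dU f) = - H_0(p.1, exp p.2, Φ p f)` and the same with `dT`, `H_1`. On
the other hand `H(q.1, exp q.2, Φ q f) = 0` for all `q ∈ U`; differentiate at `p ∈ U` in the
direction `(a, b)`:
`H_0(…) a + H_1(…) exp(p.2) b + H_Y(…) (fderiv ℂ (fun q => Φ q f) p (a, b)) = 0`. Hence
`H_Y(p.1, exp p.2, Φ p f) * (fderiv … - a Φ p (dU f) - b exp(p.2) Φ p (dT f)) = 0` for all `p ∈ U`.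
The first factor is `Φ p h` with `h = H_Y(z, f) ∈ A`, `h ≠ 0`, and the second is continuous in `p`
(`Φ · f` is analytic on the open set `U ⊆ ℂ × ℂ`, so is its derivative). It remains to see that the
set of `p ∈ U` with `Φ p h ≠ 0` is dense in `U`: `h` is algebraic over `ℂ[z]`, so there is a relation
`∑ a_k(z) h ^ k = 0` with `a_0 ≠ 0` (`IsAlgebraic.exists_nonzero_coeff_and_aeval_eq_zero`); if
`Φ p h = 0` then `a_0(p.1, exp p.2) = 0`. A nonzero polynomial `a_0` does not vanish identically on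
`{(p.1, exp p.2) : p ∈ V}` for `V ⊆ U` open nonempty: `V` contains a product of two discs, whose image
contains a product of two infinite sets (`exp` is injective on a small disc), use
`MvPolynomial.funext_set` or the like. -/
theorem comp_reg {z : Fin 2 → K} (hz : IsBase z) {dU dT : Derivation ℂ K K}
    (hd : IsDual z dU dT) {U : Set (ℂ × ℂ)} (hU : IsOpen U) (A : Subalgebra ℂ K)
    (h0 : ∀ i, z i ∈ A) (Φ : ℂ × ℂ → K → ℂ)
    (hΦ : ∀ p ∈ U, IsHomOn A (Φ p) ∧ Φ p (z 0) = p.1 ∧ Φ p (z 1) = Complex.exp p.2)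
    (hdiff : ∀ f ∈ A, DifferentiableOn ℂ (fun p => Φ p f) U) {f : K} (hf : f ∈ A)
    (hfU : dU f ∈ A) (hfT : dT f ∈ A) : ∀ p ∈ U, ∀ a b : ℂ,
      fderiv ℂ (fun q => Φ q f) p (a, b) =
        a * Φ p (dU f) + b * (Complex.exp p.2 * Φ p (dT f)) := by
  classical
  have hadj : ∀ x ∈ Algebra.adjoin ℂ (Set.range z), x ∈ A := by
    have : Algebra.adjoin ℂ (Set.range z) ≤ A := Algebra.adjoin_le (by
      rintro _ ⟨i, rfl⟩
      exact h0 i)
    exact fun x hx => this hx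
  have halgK : ∀ x : K, IsAlgebraic (Algebra.adjoin ℂ (Set.range z)) x := fun x =>
    hz.2.isAlgebraic x
  obtain ⟨w, hw⟩ : ∃ w : Option (Fin 2) → K, w = fun o => o.elim f z := ⟨_, rfl⟩
  have hwA : ∀ o, w o ∈ A := by
    intro o
    rw [hw]
    cases o with
    | none => exact hf
    | some i => exact h0 i
  have haeA : ∀ G : MvPolynomial (Option (Fin 2)) ℂ, aeval w G ∈ A := by
    intro G
    induction G using MvPolynomial.induction_on with
    | C c => rw [aeval_C]; exact A.algebraMap_mem c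
    | add p q hp hq => rw [map_add]; exact add_mem hp hq
    | mul_X p o hp => rw [map_mul, aeval_X]; exact mul_mem hp (hwA o)
  -- the relation of minimal degree
  have hex : ∃ H : MvPolynomial (Option (Fin 2)) ℂ, H ≠ 0 ∧ aeval w H = 0 := by
    by_contra hcon
    push Not at hcon
    have hind : AlgebraicIndependent ℂ w := by
      rw [algebraicIndependent_iff]
      intro p hp
      by_contra h0
      exact hcon p h0 hp
    rw [hw, hz.1.option_iff_transcendental] at hind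
    exact hind (halgK f)
  obtain ⟨H, ⟨hH0, hH⟩, hmin⟩ : ∃ H : MvPolynomial (Option (Fin 2)) ℂ,
      (H ≠ 0 ∧ aeval w H = 0) ∧
      ∀ G : MvPolynomial (Option (Fin 2)) ℂ, (G ≠ 0 ∧ aeval w G = 0) →
        H.totalDegree ≤ G.totalDegree := by
    obtain ⟨H, hH, hHm⟩ := (measure (fun H : MvPolynomial (Option (Fin 2)) ℂ =>
      H.totalDegree)).wf.has_min {H | H ≠ 0 ∧ aeval w H = 0} hex
    exact ⟨H, hH, fun G hG => not_lt.1 (hHm G hG)⟩
  have hp0 : pderiv none H ≠ 0 := by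
    intro h0
    have h1 := cr_not_mem_vars none H h0
    obtain ⟨q, hq⟩ := exists_rename_eq_of_vars_subset_range H (some : Fin 2 → Option (Fin 2))
      (Option.some_injective (Fin 2)) (by
        intro o ho
        cases o with
        | none => exact absurd ho h1
        | some j => exact ⟨j, rfl⟩)
    have h2 : aeval z q = 0 := by
      rw [← hH, ← hq, aeval_rename, hw]
      rfl
    have h3 := (algebraicIndependent_iff.1 hz.1) q h2
    rw [h3, map_zero] at hq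
    exact hH0 hq.symm
  obtain ⟨h, hh⟩ : ∃ h : K, h = aeval w (pderiv none H) := ⟨_, rfl⟩
  have hu0 : h ≠ 0 := by
    rw [hh]
    intro h0
    have h1 := hmin _ ⟨hp0, h0⟩
    have h2 := cr_degree_lt none H hp0
    omega
  have hhA : h ∈ A := by rw [hh]; exact haeA _
  -- the derivations
  have hder : ∀ D : Derivation ℂ K K, h * D f + (aeval w (pderiv (some 0) H) * D (z 0) +
      aeval w (pderiv (some 1) H) * D (z 1)) = 0 := by
    intro D
    have h1 := cr_chain D w H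
    rw [hH, map_zero, Fintype.sum_option, Fin.sum_univ_two] at h1
    rw [hh, h1]
    rw [hw]
    simp only [Option.elim]
  have hdU := hder dU
  have hdT := hder dT
  rw [hd.1, hd.2.1, mul_one, mul_zero, add_zero] at hdU
  rw [hd.2.2.1, hd.2.2.2, mul_one, mul_zero, zero_add] at hdT
  -- values
  obtain ⟨F, hF⟩ : ∃ F : (ℂ × ℂ) → ℂ, F = fun q => Φ q f := ⟨_, rfl⟩
  have hFdiff : DifferentiableOn ℂ F U := by rw [hF]; exact hdiff f hf
  obtain ⟨P, hP⟩ : ∃ P : (ℂ × ℂ) → (Option (Fin 2) → ℂ), P = fun p o =>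
      o.elim (F p) ![p.1, Complex.exp p.2] := ⟨_, rfl⟩
  have hΦe : ∀ p ∈ U, ∀ G : MvPolynomial (Option (Fin 2)) ℂ, Φ p (aeval w G) = eval (P p) G := by
    intro p hp G
    rw [(hΦ p hp).1.aeval G w hwA]
    congr 2
    rw [hP, hF, hw]
    funext o
    rcases o with _ | i
    · rfl
    · fin_cases i
      · exact (hΦ p hp).2.1
      · exact (hΦ p hp).2.2
  have hzero : ∀ y ∈ U, eval (P y) H = 0 := by
    intro y hy
    rw [← hΦe y hy, hH, (hΦ y hy).1.zero]
  -- the main identity, multiplied by the value of `h`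
  have hmain : ∀ p ∈ U, ∀ a b : ℂ, Φ p h * (fderiv ℂ F p (a, b) -
      (a * Φ p (dU f) + b * (Complex.exp p.2 * Φ p (dT f)))) = 0 := by
    intro p hp a b
    have hFd : HasFDerivAt F (fderiv ℂ F p) p :=
      (hFdiff.differentiableAt (hU.mem_nhds hp)).hasFDerivAt
    let P' : (ℂ × ℂ) →L[ℂ] (Option (Fin 2) → ℂ) := ContinuousLinearMap.pi (fun o =>
      (o.elim (fderiv ℂ F p) ![ContinuousLinearMap.fst ℂ ℂ ℂ,
        Complex.exp p.2 • ContinuousLinearMap.snd ℂ ℂ ℂ] : (ℂ × ℂ) →L[ℂ] ℂ))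
    have hPd : HasFDerivAt P P' p := by
      rw [hasFDerivAt_pi']
      intro o
      rcases o with _ | i
      · rw [hP]; exact hFd
      · fin_cases i
        · rw [hP]
          exact hasFDerivAt_fst
        · rw [hP]
          exact (Complex.hasDerivAt_exp p.2).comp_hasFDerivAt p hasFDerivAt_snd
    have hcomp := (MV.branch_hasFDerivAt_eval H (P p)).comp p hPd
    have hconst : HasFDerivAt ((fun v : Option (Fin 2) → ℂ => eval v H) ∘ P)
        (0 : (ℂ × ℂ) →L[ℂ] ℂ) p := by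
      refine (hasFDerivAt_const (0:ℂ) p).congr_of_eventuallyEq ?_
      filter_upwards [hU.mem_nhds hp] with y hy
      exact hzero y hy
    have huniq := hcomp.unique hconst
    have happ := congrArg (fun L : (ℂ × ℂ) →L[ℂ] ℂ => L (a, b)) huniq
    have h1 : (∑ o : Option (Fin 2), eval (P p) (pderiv o H) * (P' (a, b)) o) = 0 := by
      simpa [ContinuousLinearMap.comp_apply] using happ
    rw [Fintype.sum_option, Fin.sum_univ_two] at h1
    have e0 : (P' (a, b)) none = fderiv ℂ F p (a, b) := rfl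
    have e1 : (P' (a, b)) (some 0) = a := rfl
    have e2 : (P' (a, b)) (some 1) = Complex.exp p.2 * b := rfl
    rw [e0, e1, e2, ← hΦe p hp, ← hΦe p hp, ← hΦe p hp, ← hh] at h1
    have hU1 : Φ p h * Φ p (dU f) + Φ p (aeval w (pderiv (some 0) H)) = 0 := by
      rw [← (hΦ p hp).1.mul hhA hfU, ← (hΦ p hp).1.add (mul_mem hhA hfU) (haeA _), hdU,
        (hΦ p hp).1.zero]
    have hT1 : Φ p h * Φ p (dT f) + Φ p (aeval w (pderiv (some 1) H)) = 0 := by
      rw [← (hΦ p hp).1.mul hhA hfT, ← (hΦ p hp).1.add (mul_mem hhA hfT) (haeA _), hdT,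
        (hΦ p hp).1.zero]
    linear_combination h1 - a * hU1 - (Complex.exp p.2 * b) * hT1
  -- the values of `h` do not vanish identically near a point
  have hdense : ∀ p ∈ U, ∃ᶠ q in 𝓝 p, Φ q h ≠ 0 := by
    intro p hp hcon
    have hcon' : ∀ᶠ q in 𝓝 p, Φ q h = 0 := by
      filter_upwards [hcon] with q hq
      exact not_not.1 hq
    obtain ⟨ε, hε, hball⟩ := Metric.eventually_nhds_iff_ball.1 (hcon'.and (hU.mem_nhds hp))
    obtain ⟨t, ht, r, hr0, hrt⟩ := (halgK h).exists_nonzero_eq_adjoin_mul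
      (mem_nonZeroDivisors_of_ne_zero hu0)
    have htA : t ∈ A := by
      refine Algebra.adjoin_induction (p := fun x _ => x ∈ A) ?_ ?_ ?_ ?_ ht
      · intro x hx
        rw [Set.mem_singleton_iff.1 hx]
        exact hhA
      · intro x
        exact hadj _ x.2
      · intro x y _ _ hx hy
        exact add_mem hx hy
      · intro x y _ _ hx hy
        exact mul_mem hx hy
    obtain ⟨a₀, ha₀⟩ : ∃ a₀ : MvPolynomial (Fin 2) ℂ, aeval z a₀ = (r : K) := by
      have h1 : ∀ x ∈ Algebra.adjoin ℂ (Set.range z), ∃ a₀ : MvPolynomial (Fin 2) ℂ,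
          aeval z a₀ = x := by
        rw [Algebra.adjoin_range_eq_range_aeval]
        exact fun x hx => hx
      exact h1 _ r.2
    have ha₀0 : a₀ ≠ 0 := by
      rintro rfl
      rw [map_zero] at ha₀
      exact hr0 (Subtype.ext ha₀.symm)
    have hval : ∀ q ∈ ball p ε, eval ![q.1, Complex.exp q.2] a₀ = 0 := by
      intro q hq
      obtain ⟨hq0, hqU⟩ := hball q hq
      have h1 : Φ q (aeval z a₀) = eval (fun i => Φ q (z i)) a₀ := (hΦ q hqU).1.aeval a₀ z h0
      have h2 : (fun i => Φ q (z i)) = ![q.1, Complex.exp q.2] := by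
        funext i
        fin_cases i
        · exact (hΦ q hqU).2.1
        · exact (hΦ q hqU).2.2
      rw [h2] at h1
      rw [← h1, ha₀]
      have h3 : (r : K) = h * t := hrt.symm
      rw [h3, (hΦ q hqU).1.mul hhA htA, hq0, zero_mul]
    refine ha₀0 (MvPolynomial.funext_set (fun i : Fin 2 => if i = 0 then ball p.1 ε else
      (fun s : ℝ => Complex.exp (p.2 + s)) '' Set.Ioo 0 ε) ?_ ?_)
    · intro i
      fin_cases i
      · have h1 : (ball p.1 ε).Nontrivial := by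
          refine ⟨p.1, mem_ball_self hε, p.1 + (ε / 2 : ℝ), ?_, ?_⟩
          · rw [mem_ball, dist_eq_norm, add_sub_cancel_left, Complex.norm_real, Real.norm_eq_abs,
              abs_of_pos (by linarith)]
            linarith
          · intro h
            have h2 : ((ε / 2 : ℝ) : ℂ) = 0 := by
              linear_combination -h
            rw [Complex.ofReal_eq_zero] at h2
            linarith
        exact infinite_of_mem_nhds p.1 (ball_mem_nhds p.1 hε)
      · show ((fun s : ℝ => Complex.exp (p.2 + s)) '' Set.Ioo 0 ε).Infinite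
        refine (Set.Ioo_infinite hε).image ?_
        intro s hs s' hs' heq
        simp only at heq
        rw [Complex.exp_add, Complex.exp_add] at heq
        have h2 := mul_left_cancel₀ (Complex.exp_ne_zero p.2) heq
        rw [← Complex.ofReal_exp, ← Complex.ofReal_exp] at h2
        exact Real.exp_injective (Complex.ofReal_injective h2)
    · intro x hx
      have hx0 : x 0 ∈ ball p.1 ε := by simpa using hx 0 (Set.mem_univ _)
      have hx1 : x 1 ∈ (fun s : ℝ => Complex.exp (p.2 + s)) '' Set.Ioo 0 ε := by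
        simpa using hx 1 (Set.mem_univ _)
      obtain ⟨s, hs, hs'⟩ := hx1
      have h1 : ((x 0, p.2 + s) : ℂ × ℂ) ∈ ball p ε := by
        rw [mem_ball, Prod.dist_eq, max_lt_iff]
        refine ⟨hx0, ?_⟩
        simp only
        rw [dist_eq_norm, add_sub_cancel_left, Complex.norm_real, Real.norm_eq_abs,
          abs_of_pos hs.1]
        exact hs.2
      have h2 := hval _ h1
      have h3 : x = ![x 0, Complex.exp (p.2 + s)] := by
        funext i
        fin_cases i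
        · rfl
        · exact hs'.symm
      rw [map_zero, h3]
      exact h2
  -- conclusion by continuity
  intro p hp a b
  rw [← hF]
  obtain ⟨g, hg⟩ : ∃ g : ℂ × ℂ → ℂ, g = fun q => fderiv ℂ F q (a, b) -
      (a * Φ q (dU f) + b * (Complex.exp q.2 * Φ q (dT f))) := ⟨_, rfl⟩
  have hgc : ContinuousAt g p := by
    rw [hg]
    have h1 : ContinuousAt (fun q => fderiv ℂ F q (a, b)) p :=
      (cr_cont hU hFdiff (a, b)).continuousAt (hU.mem_nhds hp)
    have h2 : ContinuousAt (fun q => Φ q (dU f)) p :=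
      (hdiff _ hfU).continuousOn.continuousAt (hU.mem_nhds hp)
    have h3 : ContinuousAt (fun q => Φ q (dT f)) p :=
      (hdiff _ hfT).continuousOn.continuousAt (hU.mem_nhds hp)
    fun_prop
  have hg0 : g p = 0 := by
    by_contra hne
    have h1 : ∀ᶠ q in 𝓝 p, g q ≠ 0 := hgc.eventually_ne hne
    obtain ⟨q, hq1, hq2, hq3⟩ := ((hdense p hp).and_eventually
      (h1.and (hU.mem_nhds hp))).exists
    have h2 := hmain q hq3 a b
    rw [hg] at hq2
    exact mul_ne_zero hq1 hq2 h2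
  rw [hg] at hg0
  exact sub_eq_zero.1 hg0

end Pool.Agent.Lib.MP_209724_lc.OV
end

section

namespace Pool.Agent.Lib.MP_209724_lc.OV

open MvPolynomial Filter Topology Metric

private theorem lgr_open (N : ℕ) (B : ℝ) (j : ℕ) : IsOpen (Dom N B j) := by
  have h1 : IsOpen {p : ℂ × ℂ | ‖p.1 - 2 * Real.pi * Complex.I * j‖ < (j : ℝ)} :=
    isOpen_lt (by fun_prop) continuous_const
  have h2 : IsOpen {p : ℂ × ℂ | |p.2.re - N * Real.log j| < B} :=
    isOpen_lt (by fun_prop) continuous_const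
  have h3 : IsOpen {p : ℂ × ℂ | |p.2.im| < B} :=
    isOpen_lt (by fun_prop) continuous_const
  exact h1.inter (h2.inter h3)

private theorem lgr_convex (N : ℕ) (B : ℝ) (j : ℕ) : Convex ℝ (Dom N B j) := by
  have h1 : Convex ℝ {p : ℂ × ℂ | ‖p.1 - 2 * Real.pi * Complex.I * j‖ < (j : ℝ)} := by
    have h := (convex_ball (2 * Real.pi * Complex.I * j : ℂ) (j : ℝ)).linear_preimage
      (LinearMap.fst ℝ ℂ ℂ)
    have e : {p : ℂ × ℂ | ‖p.1 - 2 * Real.pi * Complex.I * j‖ < (j : ℝ)} =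
        ⇑(LinearMap.fst ℝ ℂ ℂ) ⁻¹' ball (2 * Real.pi * Complex.I * j : ℂ) (j : ℝ) := by
      ext p
      simp [mem_ball, dist_eq_norm]
    rw [e]
    exact h
  have h2 : Convex ℝ {p : ℂ × ℂ | |p.2.re - N * Real.log j| < B} := by
    have h := (convex_ball (N * Real.log j : ℝ) B).linear_preimage
      (Complex.reLm ∘ₗ LinearMap.snd ℝ ℂ ℂ)
    have e : {p : ℂ × ℂ | |p.2.re - N * Real.log j| < B} =
        ⇑(Complex.reLm ∘ₗ LinearMap.snd ℝ ℂ ℂ) ⁻¹' ball (N * Real.log j : ℝ) B := by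
      ext p
      simp [mem_ball, Real.dist_eq]
    rw [e]
    exact h
  have h3 : Convex ℝ {p : ℂ × ℂ | |p.2.im| < B} := by
    have h := (convex_ball (0 : ℝ) B).linear_preimage
      (Complex.imLm ∘ₗ LinearMap.snd ℝ ℂ ℂ)
    have e : {p : ℂ × ℂ | |p.2.im| < B} =
        ⇑(Complex.imLm ∘ₗ LinearMap.snd ℝ ℂ ℂ) ⁻¹' ball (0 : ℝ) B := by
      ext p
      simp [mem_ball, Real.dist_eq]
    rw [e]
    exact h
  exact h1.inter (h2.inter h3)

/-- OV-9: logarithms of functions of polynomial size on `Dom N 6 j`.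

Proof. `Dom N 6 j` is open and convex (a product of a ball and a rectangle), so `MV.exists_log` gives
`G₀` with `exp G₀ = F`; subtract `2πi` times the integer nearest to `Im G₀(p_j) / 2π`,
`p_j = (2πi j, N log j)`. Then `|Re G| = |log |F|| ≤ C log j =: L` on `Dom N 6 j` (WLOG `C ≥ 0`;
`j ≥ 2`). (a) For fixed `y` with `|Re y - N log j| < 1`, `|Im y| < 4` the function `G(·, y)` is
differentiable on `ball (2πi j) j`, so `HS.bc_lip` gives
`|G(x, y) - G(x', y)| ≤ 16 L / j * |x - x'|` on the ball of radius `j / 2`. (b) For fixed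
`x = 2πi j` the function `G(x, ·)` is differentiable on the rectangle `|Re y - N log j| < 6`,
`|Im y| < 6`; for `y₀` in the rectangle with `5` instead of `6`, `HS.bc_lip` on `ball y₀ 1` shows that
`G(x, ·)` has derivative of norm at most `16 L` at `y₀`; so (mean value inequality, convexity)
`|G(x, y) - G(x, N log j)| ≤ 16 L * 5 = 80 L` for `y` in the rectangle of the statement. With
`|Re G(p_j)| ≤ L`, `|Im G(p_j)| ≤ π` the claim follows with `C' = 81 C + 20` (`log j ≥ 1 / 2`, say).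
-/
theorem log_reg (C : ℝ) (N : ℕ) : ∃ C' : ℝ, 0 ≤ C' ∧ ∀ᶠ j : ℕ in atTop, ∀ F : ℂ × ℂ → ℂ,
    DifferentiableOn ℂ F (Dom N 6 j) →
    (∀ p ∈ Dom N 6 j, (j : ℝ) ^ (-C) ≤ ‖F p‖ ∧ ‖F p‖ ≤ (j : ℝ) ^ C) →
    ∃ G : ℂ × ℂ → ℂ, DifferentiableOn ℂ G (Dom N 6 j) ∧
      (∀ p ∈ Dom N 6 j, Complex.exp (G p) = F p) ∧
      ∀ y : ℂ, |y.re - N * Real.log j| < 1 → |y.im| < 4 →
        ‖G (2 * Real.pi * Complex.I * j, y)‖ ≤ C' * Real.log j ∧
        ∀ x ∈ ball (2 * Real.pi * Complex.I * j : ℂ) (j / 2),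
          ∀ x' ∈ ball (2 * Real.pi * Complex.I * j : ℂ) (j / 2),
            ‖G (x, y) - G (x', y)‖ ≤ C' * Real.log j / j * ‖x - x'‖ := by
  set C1 : ℝ := max C 0 with hC1
  have hC10 : 0 ≤ C1 := le_max_right _ _
  refine ⟨41 * C1 + 8, by positivity, ?_⟩
  filter_upwards [eventually_ge_atTop 2] with j hj F hF hFb
  have hj1 : (1 : ℝ) ≤ j := by exact_mod_cast (by omega : 1 ≤ j)
  have hj2 : (2 : ℝ) ≤ j := by exact_mod_cast hj
  have hj0 : (0 : ℝ) < j := by linarith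
  have hlog : 1 / 2 ≤ Real.log j := by
    have h1 : Real.log 2 ≤ Real.log j := Real.log_le_log (by norm_num) hj2
    have h2 := Real.log_two_gt_d9
    linarith
  have hlog0 : 0 ≤ Real.log j := by linarith
  set a : ℝ := N * Real.log j with ha
  set c : ℂ := 2 * Real.pi * Complex.I * j with hc
  set L : ℝ := C1 * Real.log j with hL
  have hL0 : 0 ≤ L := mul_nonneg hC10 hlog0
  have hF0 : ∀ p ∈ Dom N 6 j, F p ≠ 0 := by
    intro p hp h0
    have h1 := (hFb p hp).1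
    rw [h0, norm_zero] at h1
    exact absurd h1 (not_le.2 (Real.rpow_pos_of_pos hj0 _))
  obtain ⟨G₀, hG₀d, hG₀⟩ := MV.exists_log (lgr_open N 6 j) (lgr_convex N 6 j) hF hF0
  set pj : ℂ × ℂ := (c, (a : ℂ)) with hpj
  set m : ℤ := round ((G₀ pj).im / (2 * Real.pi)) with hm
  have hre : ∀ p ∈ Dom N 6 j, |(G₀ p).re| ≤ L := by
    intro p hp
    have h1 : ‖F p‖ = Real.exp (G₀ p).re := by rw [← hG₀ p hp, Complex.norm_exp]
    obtain ⟨h2, h3⟩ := hFb p hp
    rw [h1, Real.rpow_def_of_pos hj0, Real.exp_le_exp] at h2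
    rw [h1, Real.rpow_def_of_pos hj0, Real.exp_le_exp] at h3
    have h4 : C ≤ C1 := le_max_left _ _
    have h5 : Real.log j * C ≤ L := by
      rw [hL, mul_comm]
      exact mul_le_mul_of_nonneg_right h4 hlog0
    rw [abs_le]
    constructor <;> linarith
  have hpi := Real.pi_pos
  have him : |(G₀ pj - 2 * Real.pi * Complex.I * m).im| ≤ Real.pi := by
    have h1 : (G₀ pj - 2 * Real.pi * Complex.I * m).im =
        2 * Real.pi * ((G₀ pj).im / (2 * Real.pi) - m) := by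
      have h2 : (2 * Real.pi * Complex.I * m : ℂ).im = 2 * Real.pi * m := by
        simp
      rw [Complex.sub_im, h2]
      field_simp
    have h3 := abs_sub_round ((G₀ pj).im / (2 * Real.pi))
    rw [h1, abs_mul, abs_of_pos (by positivity : 0 < 2 * Real.pi)]
    rw [← hm] at h3
    nlinarith
  have hzre : (2 * Real.pi * Complex.I * m : ℂ).re = 0 := by
    simp
  set G : ℂ × ℂ → ℂ := fun p => G₀ p - 2 * Real.pi * Complex.I * m with hG
  have hGd : DifferentiableOn ℂ G (Dom N 6 j) := hG₀d.sub_const _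
  have hGre : ∀ p ∈ Dom N 6 j, |(G p).re| ≤ L := by
    intro p hp
    have : (G p).re = (G₀ p).re := by
      simp only [hG, Complex.sub_re, hzre, sub_zero]
    rw [this]
    exact hre p hp
  have hmem : ∀ x y : ℂ, ‖x - c‖ < j → |y.re - a| < 6 → |y.im| < 6 → (x, y) ∈ Dom N 6 j :=
    fun x y h1 h2 h3 => ⟨h1, h2, h3⟩
  refine ⟨G, hGd, ?_, ?_⟩
  · intro p hp
    have h1 : Complex.exp (2 * Real.pi * Complex.I * m) = 1 := by
      rw [Complex.exp_eq_one_iff]
      exact ⟨m, by ring⟩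
    simp only [hG, Complex.exp_sub, h1, div_one]
    exact hG₀ p hp
  · intro y hy1 hy2
    constructor
    · have hstep : ∀ y₀ y₁ : ℂ, |y₀.re - a| < 1 → |y₀.im| < 4 → ‖y₁ - y₀‖ < 1 →
          ‖G (c, y₁) - G (c, y₀)‖ ≤ 8 * L := by
        intro y₀ y₁ h1 h2 h3
        have hsub : ∀ y' ∈ ball y₀ (2 : ℝ), (c, y') ∈ Dom N 6 j := by
          intro y' hy'
          rw [mem_ball, dist_eq_norm] at hy'
          have hr : |(y' - y₀).re| ≤ ‖y' - y₀‖ := Complex.abs_re_le_norm _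
          have hi : |(y' - y₀).im| ≤ ‖y' - y₀‖ := Complex.abs_im_le_norm _
          rw [Complex.sub_re] at hr
          rw [Complex.sub_im] at hi
          apply hmem
          · simpa using hj0
          · rw [abs_lt] at h1 ⊢
            rw [abs_le] at hr
            constructor <;> linarith [hr.1, hr.2, h1.1, h1.2]
          · rw [abs_lt] at h2 ⊢
            rw [abs_le] at hi
            constructor <;> linarith [hi.1, hi.2, h2.1, h2.2]
        have h4 := HS.bc_lip (x₀ := y₀) (ρ := 2) (K := L) (by norm_num)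
          (g := fun y' => G (c, y')) (by
            apply hGd.comp
            · fun_prop
            · exact hsub) (fun y' hy' => hGre _ (hsub y' hy'))
          y₁ (by rw [mem_ball, dist_eq_norm]; linarith) y₀ (mem_ball_self (by norm_num))
        have h5 : (16 * L / 2) * ‖y₁ - y₀‖ ≤ 8 * L := by
          have := norm_nonneg (y₁ - y₀)
          nlinarith
        exact h4.trans h5
      have hw : ‖y - a‖ < 5 := by
        have h1 := Complex.norm_le_abs_re_add_abs_im (y - a)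
        have h2 : (y - a).re = y.re - a := by simp
        have h3 : (y - a).im = y.im := by simp
        rw [h2, h3] at h1
        linarith
      set w : ℂ := (y - a) / 5 with hw5
      have hwn : ‖w‖ < 1 := by
        rw [hw5, norm_div]
        have : ‖(5 : ℂ)‖ = 5 := by simp
        rw [this, div_lt_one (by norm_num)]
        exact hw
      have hwre : w.re = (y.re - a) / 5 := by
        have : w = ((1 / 5 : ℝ) : ℂ) * (y - a) := by rw [hw5]; push_cast; ring
        rw [this, Complex.re_ofReal_mul]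
        simp
        ring
      have hwim : w.im = y.im / 5 := by
        have : w = ((1 / 5 : ℝ) : ℂ) * (y - a) := by rw [hw5]; push_cast; ring
        rw [this, Complex.im_ofReal_mul]
        simp
        ring
      have hst : ∀ t : ℝ, 0 ≤ t → t ≤ 4 →
          ‖G (c, a + ((t + 1 : ℝ) : ℂ) * w) - G (c, a + (t : ℂ) * w)‖ ≤ 8 * L := by
        intro t ht0 ht4
        apply hstep
        · have h1 : ((a : ℂ) + (t : ℂ) * w).re - a = t * ((y.re - a) / 5) := by
            rw [Complex.add_re, Complex.re_ofReal_mul, Complex.ofReal_re, hwre]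
            ring
          rw [h1, abs_mul, abs_of_nonneg ht0, abs_div, abs_of_pos (by norm_num : (0 : ℝ) < 5)]
          have := abs_nonneg (y.re - a)
          nlinarith
        · have h1 : ((a : ℂ) + (t : ℂ) * w).im = t * (y.im / 5) := by
            rw [Complex.add_im, Complex.im_ofReal_mul, Complex.ofReal_im, hwim]
            ring
          rw [h1, abs_mul, abs_of_nonneg ht0, abs_div, abs_of_pos (by norm_num : (0 : ℝ) < 5)]
          have := abs_nonneg y.im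
          nlinarith
        · have h1 : ((a : ℂ) + ((t + 1 : ℝ) : ℂ) * w) - (a + (t : ℂ) * w) = w := by
            push_cast
            ring
          rw [h1]
          exact hwn
      have e0 := hst 0 (by norm_num) (by norm_num)
      have e1 := hst 1 (by norm_num) (by norm_num)
      have e2 := hst 2 (by norm_num) (by norm_num)
      have e3 := hst 3 (by norm_num) (by norm_num)
      have e4 := hst 4 (by norm_num) (by norm_num)
      norm_num at e0 e1 e2 e3 e4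
      have hy5 : (a : ℂ) + 5 * w = y := by rw [hw5]; ring
      rw [hy5] at e4
      have hpn : ‖G (c, (a : ℂ))‖ ≤ L + Real.pi := by
        have h1 := Complex.norm_le_abs_re_add_abs_im (G (c, (a : ℂ)))
        have h2 : |(G (c, (a : ℂ))).re| ≤ L := by
          apply hGre
          apply hmem
          · simpa using hj0
          · simp
          · simp
        have h3 : |(G (c, (a : ℂ))).im| ≤ Real.pi := him
        linarith
      have htot : ‖G (c, y)‖ ≤ 40 * L + (L + Real.pi) := by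
        have hdec : G (c, y) = (G (c, y) - G (c, a + 4 * w)) + (G (c, a + 4 * w) - G (c, a + 3 * w))
            + (G (c, a + 3 * w) - G (c, a + 2 * w)) + (G (c, a + 2 * w) - G (c, a + w))
            + (G (c, a + w) - G (c, (a : ℂ))) + G (c, (a : ℂ)) := by ring
        rw [hdec]
        refine (norm_add_le _ _).trans ?_
        refine (add_le_add ((norm_add_le _ _).trans (add_le_add ((norm_add_le _ _).trans
          (add_le_add ((norm_add_le _ _).trans (add_le_add (norm_add_le _ _) le_rfl)) le_rfl))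
            le_rfl)) le_rfl).trans ?_
        linarith
      have hpi4 := Real.pi_le_four
      calc ‖G (c, y)‖ ≤ 40 * L + (L + Real.pi) := htot
        _ ≤ (41 * C1 + 8) * Real.log j := by
          rw [hL]
          nlinarith
    · intro x hx x' hx'
      have hsub : ∀ z ∈ ball c (j : ℝ), (z, y) ∈ Dom N 6 j := by
        intro z hz
        rw [mem_ball, dist_eq_norm] at hz
        exact hmem z y hz (by linarith) (by linarith)
      have h4 := HS.bc_lip (x₀ := c) (ρ := (j : ℝ)) (K := L) hj0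
        (g := fun z => G (z, y)) (by
          apply hGd.comp
          · fun_prop
          · exact hsub) (fun z hz => hGre _ (hsub z hz)) x hx x' hx'
      refine h4.trans ?_
      apply mul_le_mul_of_nonneg_right _ (norm_nonneg _)
      apply div_le_div_of_nonneg_right _ hj0.le
      rw [hL]
      nlinarith

end Pool.Agent.Lib.MP_209724_lc.OV
end

section

namespace Pool.Agent.Lib.MP_209724_lc.OV

open MvPolynomial Filter Topology Metric

variable {K : Type} [Field K] [Algebra ℂ K]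

private theorem famreg_isOpen (N : ℕ) (B : ℝ) (j : ℕ) : IsOpen (Dom N B j) := by
  have h1 : IsOpen {p : ℂ × ℂ | ‖p.1 - 2 * Real.pi * Complex.I * j‖ < j} :=
    isOpen_lt (by fun_prop) continuous_const
  have h2 : IsOpen {p : ℂ × ℂ | |p.2.re - N * Real.log j| < B} :=
    isOpen_lt ((Complex.continuous_re.comp continuous_snd).sub continuous_const).abs
      continuous_const
  have h3 : IsOpen {p : ℂ × ℂ | |p.2.im| < B} :=
    isOpen_lt (Complex.continuous_im.comp continuous_snd).abs continuous_const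
  exact h1.inter (h2.inter h3)

private theorem famreg_convex (N : ℕ) (B : ℝ) (j : ℕ) : Convex ℝ (Dom N B j) := by
  intro p hp q hq a b ha hb hab
  obtain ⟨p1, p2, p3⟩ := hp
  obtain ⟨q1, q2, q3⟩ := hq
  refine ⟨?_, ?_, ?_⟩
  · have h1 := (convex_ball (2 * Real.pi * Complex.I * j : ℂ) (j : ℝ))
      (x := p.1) (by rwa [mem_ball, dist_eq_norm]) (y := q.1) (by rwa [mem_ball, dist_eq_norm])
      ha hb hab
    rw [mem_ball, dist_eq_norm] at h1
    exact h1
  · have h1 := (convex_ball ((N : ℝ) * Real.log j) B)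
      (x := p.2.re) (by rwa [mem_ball, Real.dist_eq]) (y := q.2.re) (by rwa [mem_ball, Real.dist_eq])
      ha hb hab
    rw [mem_ball, Real.dist_eq] at h1
    have e : (a • p + b • q).2.re = a • p.2.re + b • q.2.re := by simp
    rw [e]
    exact h1
  · have h1 := (convex_ball (0 : ℝ) B)
      (x := p.2.im) (by rwa [mem_ball, Real.dist_eq, sub_zero]) (y := q.2.im)
      (by rwa [mem_ball, Real.dist_eq, sub_zero]) ha hb hab
    rw [mem_ball, Real.dist_eq, sub_zero] at h1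
    have e : (a • p + b • q).2.im = a • p.2.im + b • q.2.im := by simp
    rw [e]
    exact h1

/-- OV-3: analytic families of homomorphisms over the domains `Dom N B j`.

Proof. `HS.exists_sheets z hz.1 A hA h0 halg` gives `b ≠ 0` and `HS.exists_hom` gives `c ≠ 0`
(`halg` from `hz.2`). Take `N₀` from `poly_reg (b * c)`; for `N ≥ N₀` and `j` large (also `j ≥ 1`)
`eval ![u, exp y] (b * c) ≠ 0` on `Dom N B j` (it is at least `j ^ (-C) > 0`). `D = Dom N B j` is
open and convex in `E = ℂ × ℂ`, `Z p = ![p.1, exp p.2]` is analytic. If `B ≤ 0` the set is empty and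
there is nothing to prove (any `Φ`); otherwise `p₀ = (2πi j, N log j) ∈ D`. `exists_hom` gives `φ₀`
with `φ₀ (z i) = Z p₀ i` and `exists_sheets` gives `Φ' : ℂ × ℂ → (A →ₐ[ℂ] ℂ)`. Put
`Φ p f = if h : f ∈ A then Φ' p ⟨f, h⟩ else 0`. -/
theorem fam_reg {z : Fin 2 → K} (hz : IsBase z) (A : Subalgebra ℂ K) (hA : A.FG)
    (h0 : ∀ i, z i ∈ A) (B : ℝ) :
    ∃ N₀ : ℕ, ∀ N ≥ N₀, ∀ᶠ j : ℕ in atTop, ∃ Φ : ℂ × ℂ → K → ℂ,
      (∀ p ∈ Dom N B j, IsHomOn A (Φ p) ∧ Φ p (z 0) = p.1 ∧ Φ p (z 1) = Complex.exp p.2) ∧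
        ∀ f ∈ A, DifferentiableOn ℂ (fun p => Φ p f) (Dom N B j) := by
  classical
  have halg : ∀ x ∈ A, IsAlgebraic (Algebra.adjoin ℂ (Set.range z)) x := fun x _ =>
    hz.2.isAlgebraic x
  obtain ⟨b, hb, hsh⟩ := HS.exists_sheets z hz.1 A hA h0 halg
  obtain ⟨c, hc, hex⟩ := HS.exists_hom z hz.1 A hA h0 halg
  obtain ⟨N₀, hN₀⟩ := poly_reg (b * c) (mul_ne_zero hb hc) B
  refine ⟨N₀, fun N hN => ?_⟩
  obtain ⟨C, hC⟩ := hN₀ N hN
  filter_upwards [hC, eventually_ge_atTop 1] with j hj hj1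
  have hjpos : (0 : ℝ) < j := by exact_mod_cast hj1
  have hne : ∀ p ∈ Dom N B j, eval ![p.1, Complex.exp p.2] (b * c) ≠ 0 := by
    intro p hp
    rw [← norm_pos_iff]
    exact lt_of_lt_of_le (Real.rpow_pos_of_pos hjpos _) (hj p hp).1
  rcases le_or_gt B 0 with hB | hB
  · refine ⟨fun _ _ => 0, ?_, ?_⟩
    · intro p hp
      exact absurd (lt_of_le_of_lt (abs_nonneg _) hp.2.2) (not_lt.2 hB)
    · intro f _
      exact differentiableOn_const 0
  set D := Dom N B j with hD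
  set Z : ℂ × ℂ → Fin 2 → ℂ := fun p => ![p.1, Complex.exp p.2] with hZ
  have hZa : ∀ i, AnalyticOnNhd ℂ (fun p => Z p i) D := by
    intro i p _
    fin_cases i
    · exact analyticAt_fst
    · exact analyticAt_snd.cexp
  have hmul : ∀ p ∈ D, eval (Z p) b ≠ 0 ∧ eval (Z p) c ≠ 0 := by
    intro p hp
    have h := hne p hp
    rw [map_mul] at h
    exact ⟨left_ne_zero_of_mul h, right_ne_zero_of_mul h⟩
  have hp₀ : ((2 * Real.pi * Complex.I * j, ((N * Real.log j : ℝ) : ℂ)) : ℂ × ℂ) ∈ D := by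
    refine ⟨?_, ?_, ?_⟩
    · show ‖2 * Real.pi * Complex.I * j - 2 * Real.pi * Complex.I * j‖ < (j : ℝ)
      rw [sub_self, norm_zero]
      exact hjpos
    · show |((N * Real.log j : ℝ) : ℂ).re - N * Real.log j| < B
      rw [Complex.ofReal_re, sub_self, abs_zero]
      exact hB
    · show |((N * Real.log j : ℝ) : ℂ).im| < B
      rw [Complex.ofReal_im, abs_zero]
      exact hB
  obtain ⟨φ₀, hφ₀⟩ := hex (Z (2 * Real.pi * Complex.I * j, ((N * Real.log j : ℝ) : ℂ)))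
    (hmul _ hp₀).2
  obtain ⟨Φ', -, h1, h2⟩ := hsh (ℂ × ℂ) D (famreg_isOpen N B j) (famreg_convex N B j) Z hZa
    (fun p hp => (hmul p hp).1) _ hp₀ φ₀ hφ₀
  refine ⟨fun p f => if h : f ∈ A then Φ' p ⟨f, h⟩ else 0, ?_, ?_⟩
  · intro p hp
    refine ⟨⟨Φ' p, fun a => ?_⟩, ?_, ?_⟩
    · simp
    · simp only [h0 0, dif_pos]
      exact h1 p hp 0
    · simp only [h0 1, dif_pos]
      exact h1 p hp 1
  · intro f hf
    simp only [hf, dif_pos]
    exact (h2 ⟨f, hf⟩).differentiableOn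

end Pool.Agent.Lib.MP_209724_lc.OV
end

section

namespace Pool.Agent.Lib.MP_209724_lc.OV

open MvPolynomial Filter Topology Metric

variable {K : Type} [Field K] [Algebra ℂ K]

/-- The domains `Dom N B j` are open. -/
theorem isOpen_Dom_kl (N : ℕ) (B : ℝ) (j : ℕ) : IsOpen (Dom N B j) := by
  unfold Dom
  refine IsOpen.and ?_ (IsOpen.and ?_ ?_)
  · exact isOpen_lt (by fun_prop) continuous_const
  · exact isOpen_lt (by fun_prop) continuous_const
  · exact isOpen_lt (by fun_prop) continuous_const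

/-- The centre of `Dom N B j`. -/
noncomputable def ctr_kl (N j : ℕ) : ℂ × ℂ :=
  (2 * Real.pi * Complex.I * j, ((N * Real.log j : ℝ) : ℂ))

theorem ctr_mem_kl {N j : ℕ} {B : ℝ} (hB : 0 < B) (hj : 0 < j) : ctr_kl N j ∈ Dom N B j := by
  refine ⟨?_, ?_, ?_⟩
  · simp [ctr_kl, hj]
  · simp only [ctr_kl, Complex.ofReal_re, sub_self, abs_zero]
    exact hB
  · simp only [ctr_kl, Complex.ofReal_im, abs_zero]
    exact hB

/-- The logarithmic derivative of `F = exp G` is bounded by the Lipschitz constant of `G`. -/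
theorem ld_bound_kl {N j : ℕ} (hj : 0 < j) {F G : ℂ × ℂ → ℂ} {L : ℝ} (hL : 0 ≤ L)
    (hG : DifferentiableOn ℂ G (Dom N 6 j)) (hexp : ∀ p ∈ Dom N 6 j, Complex.exp (G p) = F p)
    (hlip : ∀ x ∈ ball (2 * Real.pi * Complex.I * j : ℂ) (j / 2),
          ∀ x' ∈ ball (2 * Real.pi * Complex.I * j : ℂ) (j / 2),
            ‖G (x, ((N * Real.log j : ℝ) : ℂ)) - G (x', ((N * Real.log j : ℝ) : ℂ))‖ ≤
              L * ‖x - x'‖) :
    ‖fderiv ℂ F (ctr_kl N j) (1, 0) / F (ctr_kl N j)‖ ≤ L := by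
  have hmem : ctr_kl N j ∈ Dom N 6 j := ctr_mem_kl (by norm_num) hj
  have hnhds : Dom N 6 j ∈ 𝓝 (ctr_kl N j) := (isOpen_Dom_kl N 6 j).mem_nhds hmem
  have hGd : HasFDerivAt G (fderiv ℂ G (ctr_kl N j)) (ctr_kl N j) :=
    ((hG _ hmem).differentiableAt hnhds).hasFDerivAt
  have hF0 : F (ctr_kl N j) ≠ 0 := by
    rw [← hexp _ hmem]
    exact Complex.exp_ne_zero _
  have hFd : HasFDerivAt F (Complex.exp (G (ctr_kl N j)) • fderiv ℂ G (ctr_kl N j))
      (ctr_kl N j) := by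
    refine hGd.cexp.congr_of_eventuallyEq ?_
    filter_upwards [hnhds] with p hp
    exact (hexp p hp).symm
  rw [hFd.fderiv, hexp _ hmem]
  have h1 : (F (ctr_kl N j) • fderiv ℂ G (ctr_kl N j)) (1, 0) / F (ctr_kl N j) =
      fderiv ℂ G (ctr_kl N j) (1, 0) := by
    simp only [ContinuousLinearMap.smul_apply, smul_eq_mul]
    field_simp
  rw [h1]
  have hline : HasDerivAt (fun x : ℂ => (x, ((N * Real.log j : ℝ) : ℂ))) ((1 : ℂ), (0 : ℂ))
      (2 * Real.pi * Complex.I * j) :=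
    (hasDerivAt_id _).prodMk (hasDerivAt_const _ _)
  have hcomp : HasDerivAt (fun x : ℂ => G (x, ((N * Real.log j : ℝ) : ℂ)))
      (fderiv ℂ G (ctr_kl N j) (1, 0)) (2 * Real.pi * Complex.I * j) :=
    HasFDerivAt.comp_hasDerivAt (2 * Real.pi * Complex.I * j : ℂ) (f := fun x : ℂ =>
      (x, ((N * Real.log j : ℝ) : ℂ))) hGd hline
  refine hcomp.le_of_lip' hL ?_
  have hj' : (0 : ℝ) < (j : ℝ) / 2 := by positivity
  filter_upwards [ball_mem_nhds (2 * Real.pi * Complex.I * j : ℂ) hj'] with x hx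
  exact hlip x hx _ (mem_ball_self hj')

/-- OV-6: logarithmic derivatives are small at infinity: a combination of logarithmic derivatives
with respect to a coordinate `u` is not `1`.

Proof. Let `E` be the derivation of the statement, and let `dU, dT` be dual to `z`
(`exists_dual`); `E = dU` by `der_eq`. Let `A` be generated by `z 0, z 1, ρ₁, ρ₂, ρ₁⁻¹, ρ₂⁻¹, dU ρ_i,
dT ρ_i`. Take `N` larger than the bounds of `fam_reg` (with `B = 6`), `tame_reg` for `ρ₁` and `ρ₂`.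
For `j` large we have `Φ` on `Dom N 6 j`, and `F_i = Φ · ρ_i` satisfies the hypotheses of `log_reg`
with a constant `C` (the maximum of the two). With `G_i` the logarithm,
`∂G_i/∂u = (∂F_i/∂u) / F_i = Φ(dU ρ_i) / Φ(ρ_i)` at `p_j = (2πi j, N log j)` (`comp_reg` with
`(a, b) = (1, 0)`), and by the Lipschitz bound of `log_reg` its norm is at most `C' log j / j`. The
value at `p_j` of the assumed relation `c₁ E ρ₁ / ρ₁ + c₂ E ρ₂ / ρ₂ = 1` (all terms lie in `A`) gives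
`1 ≤ (|c₁| + |c₂|) C' log j / j`, which is false for large `j`. -/
theorem kl {z : Fin 2 → K} (hz : IsBase z) (E : Derivation ℂ K K) (h0 : E (z 0) = 1)
    (h1 : E (z 1) = 0) {ρ₁ ρ₂ : K} (hρ₁ : ρ₁ ≠ 0) (hρ₂ : ρ₂ ≠ 0) (c₁ c₂ : ℂ) :
    algebraMap ℂ K c₁ * (E ρ₁ / ρ₁) + algebraMap ℂ K c₂ * (E ρ₂ / ρ₂) ≠ 1 := by
  obtain ⟨dU, dT, hd⟩ := exists_dual hz
  have hE : ∀ f : K, E f = dU f := by
    intro f
    rw [der_eq hz hd E f, h0, h1, one_mul, zero_mul, add_zero]
  intro hrel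
  set S : Set K := {z 0, z 1, ρ₁, ρ₂, ρ₁⁻¹, ρ₂⁻¹, dU ρ₁, dU ρ₂, dT ρ₁, dT ρ₂} with hS
  set A : Subalgebra ℂ K := Algebra.adjoin ℂ S with hA
  have hAfg : A.FG := by
    refine Subalgebra.fg_def.2 ⟨S, ?_, rfl⟩
    rw [hS]
    exact Set.toFinite _
  have hmem : ∀ x ∈ S, x ∈ A := fun x hx => Algebra.subset_adjoin hx
  have hz0 : z 0 ∈ A := hmem _ (by simp [hS])
  have hz1 : z 1 ∈ A := hmem _ (by simp [hS])
  have hzA : ∀ i, z i ∈ A := by
    intro i
    fin_cases i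
    · exact hz0
    · exact hz1
  have hr1 : ρ₁ ∈ A := hmem _ (by simp [hS])
  have hr2 : ρ₂ ∈ A := hmem _ (by simp [hS])
  have hi1 : ρ₁⁻¹ ∈ A := hmem _ (by simp [hS])
  have hi2 : ρ₂⁻¹ ∈ A := hmem _ (by simp [hS])
  have hu1 : dU ρ₁ ∈ A := hmem _ (by simp [hS])
  have hu2 : dU ρ₂ ∈ A := hmem _ (by simp [hS])
  have ht1 : dT ρ₁ ∈ A := hmem _ (by simp [hS])
  have ht2 : dT ρ₂ ∈ A := hmem _ (by simp [hS])
  obtain ⟨N₀, hfam⟩ := fam_reg hz A hAfg hzA 6
  obtain ⟨N₁, htame₁⟩ := tame_reg hz hρ₁ 6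
  obtain ⟨N₂, htame₂⟩ := tame_reg hz hρ₂ 6
  set N : ℕ := max N₀ (max N₁ N₂) with hN
  obtain ⟨C₁, hC₁⟩ := htame₁ N (by simp [hN])
  obtain ⟨C₂, hC₂⟩ := htame₂ N (by simp [hN])
  set C : ℝ := max C₁ C₂ with hC
  obtain ⟨C', hC'0, hlog⟩ := log_reg C N
  have hsmall : ∀ᶠ j : ℕ in atTop, (‖c₁‖ + ‖c₂‖) * (C' * Real.log j / j) < 1 := by
    have h2 : Tendsto (fun x : ℝ => (‖c₁‖ + ‖c₂‖) * (C' * Real.log x / x)) atTop (𝓝 0) := by
      have h3 : Tendsto (fun x : ℝ => Real.log x / x) atTop (𝓝 0) :=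
        Real.isLittleO_log_id_atTop.tendsto_div_nhds_zero
      have h4 := (h3.const_mul C').const_mul (‖c₁‖ + ‖c₂‖)
      simp only [mul_zero] at h4
      refine h4.congr fun x => ?_
      ring
    exact (h2.comp tendsto_natCast_atTop_atTop).eventually (gt_mem_nhds one_pos)
  obtain ⟨j, hj1, ⟨Φ, hΦ, hΦd⟩, hT1, hT2, hG, hsm⟩ :=
    ((eventually_ge_atTop 1).and ((hfam N (by simp [hN])).and (hC₁.and (hC₂.and
      (hlog.and hsmall))))).exists
  have hj0 : 0 < j := hj1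
  have hjR : (1 : ℝ) ≤ (j : ℝ) := by exact_mod_cast hj1
  -- bounds
  have key : ∀ ρ : K, ρ ∈ A → ρ⁻¹ ∈ A → dU ρ ∈ A → dT ρ ∈ A → ∀ D : ℝ, D ≤ C →
      (∀ p ∈ Dom N 6 j, ∀ (A : Subalgebra ℂ K) (ψ : K → ℂ), IsHomOn A ψ → (∀ i, z i ∈ A) → ρ ∈ A →
        ψ (z 0) = p.1 → ψ (z 1) = Complex.exp p.2 →
        (j : ℝ) ^ (-D) ≤ ‖ψ ρ‖ ∧ ‖ψ ρ‖ ≤ (j : ℝ) ^ D) →
      ‖Φ (ctr_kl N j) (dU ρ) / Φ (ctr_kl N j) ρ‖ ≤ C' * Real.log j / j := by
    intro ρ hr hi hu ht D hD hb
    have hbd : ∀ p ∈ Dom N 6 j, (j : ℝ) ^ (-C) ≤ ‖Φ p ρ‖ ∧ ‖Φ p ρ‖ ≤ (j : ℝ) ^ C := by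
      intro p hp
      obtain ⟨h5, h6⟩ := hb p hp A (Φ p) (hΦ p hp).1 hzA hr (hΦ p hp).2.1 (hΦ p hp).2.2
      refine ⟨le_trans ?_ h5, h6.trans ?_⟩
      · exact Real.rpow_le_rpow_of_exponent_le hjR (by linarith)
      · exact Real.rpow_le_rpow_of_exponent_le hjR hD
    obtain ⟨G, hGd, hGexp, hGl⟩ := hG (fun p => Φ p ρ) (hΦd ρ hr) hbd
    have hlip := (hGl ((N * Real.log j : ℝ) : ℂ)
      (by rw [Complex.ofReal_re, sub_self, abs_zero]; exact one_pos)
      (by rw [Complex.ofReal_im, abs_zero]; norm_num)).2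
    have hL : 0 ≤ C' * Real.log j / j := by
      have := Real.log_nonneg hjR
      positivity
    have h7 := ld_bound_kl hj0 hL hGd hGexp hlip
    have h8 := comp_reg hz hd (isOpen_Dom_kl N 6 j) A hzA Φ hΦ hΦd hr hu ht (ctr_kl N j)
      (ctr_mem_kl (by norm_num) hj0) 1 0
    rw [h8] at h7
    simpa using h7
  have hk1 := key ρ₁ hr1 hi1 hu1 ht1 C₁ (le_max_left _ _) hT1
  have hk2 := key ρ₂ hr2 hi2 hu2 ht2 C₂ (le_max_right _ _) hT2
  have hhom : IsHomOn A (Φ (ctr_kl N j)) := (hΦ _ (ctr_mem_kl (by norm_num) hj0)).1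
  rw [hE, hE, div_eq_mul_inv, div_eq_mul_inv] at hrel
  have hval := congrArg (Φ (ctr_kl N j)) hrel
  have hm1 : dU ρ₁ * ρ₁⁻¹ ∈ A := A.mul_mem hu1 hi1
  have hm2 : dU ρ₂ * ρ₂⁻¹ ∈ A := A.mul_mem hu2 hi2
  have hcA : ∀ c : ℂ, algebraMap ℂ K c ∈ A := fun c => A.algebraMap_mem c
  rw [hhom.add (A.mul_mem (hcA _) hm1) (A.mul_mem (hcA _) hm2), hhom.mul (hcA _) hm1,
    hhom.mul (hcA _) hm2, hhom.mul hu1 hi1, hhom.mul hu2 hi2, hhom.inv hr1 hi1,
    hhom.inv hr2 hi2, hhom.const, hhom.const, hhom.one, ← div_eq_mul_inv, ← div_eq_mul_inv] at hval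
  have hn : (1 : ℝ) ≤ (‖c₁‖ + ‖c₂‖) * (C' * Real.log j / j) := by
    calc (1 : ℝ) = ‖c₁ * (Φ (ctr_kl N j) (dU ρ₁) / Φ (ctr_kl N j) ρ₁) +
          c₂ * (Φ (ctr_kl N j) (dU ρ₂) / Φ (ctr_kl N j) ρ₂)‖ := by rw [hval]; simp
      _ ≤ ‖c₁‖ * ‖Φ (ctr_kl N j) (dU ρ₁) / Φ (ctr_kl N j) ρ₁‖ +
          ‖c₂‖ * ‖Φ (ctr_kl N j) (dU ρ₂) / Φ (ctr_kl N j) ρ₂‖ := by
        refine (norm_add_le _ _).trans ?_
        rw [norm_mul, norm_mul]
      _ ≤ ‖c₁‖ * (C' * Real.log j / j) + ‖c₂‖ * (C' * Real.log j / j) := by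
        gcongr
      _ = (‖c₁‖ + ‖c₂‖) * (C' * Real.log j / j) := by ring
  linarith

/-- OV-6b: the same with an arbitrary nonzero constant.
Proof: divide the constants by `c`; if `c ≠ 0` this is `kl`. -/
theorem kl_const {z : Fin 2 → K} (hz : IsBase z) (E : Derivation ℂ K K) (h0 : E (z 0) = 1)
    (h1 : E (z 1) = 0) {ρ₁ ρ₂ : K} (hρ₁ : ρ₁ ≠ 0) (hρ₂ : ρ₂ ≠ 0) (c₁ c₂ c : ℂ)
    (h : algebraMap ℂ K c₁ * (E ρ₁ / ρ₁) + algebraMap ℂ K c₂ * (E ρ₂ / ρ₂) = algebraMap ℂ K c) :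
    c = 0 := by
  by_contra hc
  refine kl hz E h0 h1 hρ₁ hρ₂ (c₁ / c) (c₂ / c) ?_
  have hc' : algebraMap ℂ K c ≠ 0 := by
    rw [Ne, map_eq_zero_iff _ (algebraMap ℂ K).injective]
    exact hc
  rw [map_div₀, map_div₀, div_mul_eq_mul_div, div_mul_eq_mul_div, ← add_div, h, div_self hc']

/-- OV-6c: if `φ` satisfies `dT φ = 0` and `dU φ = c₁ dU ρ₁ / ρ₁ + c₂ dU ρ₂ / ρ₂` then `φ` is a
constant.
Proof: otherwise `dU φ ≠ 0` (`isConst_of`), `![φ, z 1]` is a basis (`isBase_of_dU`), and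
`E = (dU φ)⁻¹ • dU` satisfies `E φ = 1`, `E (z 1) = 0`; contradiction with `kl`. -/
theorem kl_dU {z : Fin 2 → K} (hz : IsBase z) {dU dT : Derivation ℂ K K} (hd : IsDual z dU dT)
    {φ ρ₁ ρ₂ : K} (hρ₁ : ρ₁ ≠ 0) (hρ₂ : ρ₂ ≠ 0) (c₁ c₂ : ℂ) (hT : dT φ = 0)
    (h : dU φ = algebraMap ℂ K c₁ * (dU ρ₁ / ρ₁) + algebraMap ℂ K c₂ * (dU ρ₂ / ρ₂)) :
    IsConst φ := by
  by_contra hcon
  have hU : dU φ ≠ 0 := fun h1 => hcon (isConst_of hz hd h1 hT)
  refine kl (isBase_of_dU hz hd hU) ((dU φ)⁻¹ • dU) ?_ ?_ hρ₁ hρ₂ c₁ c₂ ?_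
  · simp [hU]
  · simp [hd.2.1]
  · simp only [Derivation.smul_apply, smul_eq_mul]
    rw [← mul_div_assoc, ← mul_div_assoc] at h
    field_simp
    field_simp at h
    linear_combination -h

/-- OV-6d: if `dφ = c₁ dρ₁ / ρ₁ + c₂ dρ₂ / ρ₂` (both partial derivatives) then `φ` is a constant.
Proof: if `dT φ = 0` this is `kl_dU`; otherwise `![φ, z 0]` is a basis (`isBase_of_dT`) and
`E = (dT φ)⁻¹ • dT` contradicts `kl`. -/
theorem kl_d {z : Fin 2 → K} (hz : IsBase z) {dU dT : Derivation ℂ K K} (hd : IsDual z dU dT)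
    {φ ρ₁ ρ₂ : K} (hρ₁ : ρ₁ ≠ 0) (hρ₂ : ρ₂ ≠ 0) (c₁ c₂ : ℂ)
    (hU : dU φ = algebraMap ℂ K c₁ * (dU ρ₁ / ρ₁) + algebraMap ℂ K c₂ * (dU ρ₂ / ρ₂))
    (hT : dT φ = algebraMap ℂ K c₁ * (dT ρ₁ / ρ₁) + algebraMap ℂ K c₂ * (dT ρ₂ / ρ₂)) :
    IsConst φ := by
  by_cases h0 : dT φ = 0
  · exact kl_dU hz hd hρ₁ hρ₂ c₁ c₂ h0 hU
  · exfalso
    refine kl (isBase_of_dT hz hd h0) ((dT φ)⁻¹ • dT) ?_ ?_ hρ₁ hρ₂ c₁ c₂ ?_
    · simp [h0]
    · simp [hd.2.2.1]
    · simp only [Derivation.smul_apply, smul_eq_mul]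
      rw [← mul_div_assoc, ← mul_div_assoc] at hT
      field_simp
      field_simp at hT
      linear_combination -hT

end Pool.Agent.Lib.MP_209724_lc.OV
end
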