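import Mathlib
import Pool.Agent.Lib.MP_209724_lc.OV.Defs
import Pool.Agent.Lib.MP_209724_lc.SC.FF3
import Pool.Agent.Lib.MP_209724_lc.OV.KL
import Pool.Agent.Lib.MP_209724_lc.MV.Final

section

namespace Pool.Agent.Lib.MP_209724_lc.OV

open MvPolynomial Filter Topology Metric

private theorem fi_mem_ball {c : ℂ} {W t : ℝ} (h0 : 0 ≤ t) (h1 : t ≤ W) :
    c + (t : ℂ) ∈ ball c (W + 1) := by
  rw [mem_ball, dist_eq_norm, add_sub_cancel_left, Complex.norm_real, Real.norm_eq_abs,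
    abs_of_nonneg h0]
  linarith

private theorem fi_taylor (g : ℕ → ℂ → ℂ) (c : ℂ) (n : ℕ) (W M : ℝ) (hM : 0 ≤ M)
    (hd : ∀ l < n, ∀ κ ∈ ball c (W + 1), HasDerivAt (g l) (g (l + 1) κ) κ)
    (hb : ∀ κ ∈ ball c (W + 1), ‖g n κ‖ ≤ M) (m : ℕ) : ∀ l, l + m = n → ∀ t : ℝ, 0 ≤ t → t ≤ W →
      ‖g l (c + t) - ∑ i ∈ Finset.range m, g (l + i) c * (t : ℂ) ^ i / (i.factorial : ℂ)‖ ≤
        M * t ^ m := by
  induction m with
  | zero =>
    intro l hl t h0 h1
    have hl' : l = n := by omega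
    rw [Finset.range_zero, Finset.sum_empty, sub_zero, pow_zero, mul_one, hl']
    exact hb _ (fi_mem_ball h0 h1)
  | succ m ih =>
    intro l hl t0 h0 h1
    set h : ℝ → ℂ := fun t => g l (c + t) -
      ∑ i ∈ Finset.range (m + 1), g (l + i) c * (t : ℂ) ^ i / (i.factorial : ℂ) with hh
    have hder : ∀ t : ℝ, 0 ≤ t → t ≤ W → HasDerivAt h
        (g (l + 1) (c + t) -
          ∑ i ∈ Finset.range m, g (l + 1 + i) c * (t : ℂ) ^ i / (i.factorial : ℂ)) t := by
      intro t ht0 ht1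
      have e1 : HasDerivAt (fun t : ℝ => g l (c + t)) (g (l + 1) (c + t)) t := by
        have e2 := hd l (by omega) (c + t) (fi_mem_ball ht0 ht1)
        have e3 : HasDerivAt (fun z : ℂ => g l (c + z)) (g (l + 1) (c + t)) (t : ℂ) :=
          HasDerivAt.comp_const_add c (t : ℂ) e2
        exact e3.comp_ofReal
      have e4 : ∀ i ∈ Finset.range m, HasDerivAt
          (fun t : ℝ => g (l + (i + 1)) c * (t : ℂ) ^ (i + 1) / ((i + 1).factorial : ℂ))
          (g (l + 1 + i) c * (t : ℂ) ^ i / (i.factorial : ℂ)) t := by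
        intro i _
        have e5 : HasDerivAt (fun z : ℂ => g (l + (i + 1)) c * z ^ (i + 1) /
            ((i + 1).factorial : ℂ)) (g (l + 1 + i) c * (t : ℂ) ^ i / (i.factorial : ℂ))
            (t : ℂ) := by
          have e6 := ((hasDerivAt_pow (i + 1) (t : ℂ)).const_mul (g (l + (i + 1)) c)).div_const
            ((i + 1).factorial : ℂ)
          have e7 : g (l + (i + 1)) c * (((i + 1 : ℕ) : ℂ) * (t : ℂ) ^ (i + 1 - 1)) /
              ((i + 1).factorial : ℂ) = g (l + 1 + i) c * (t : ℂ) ^ i / (i.factorial : ℂ) := by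
            have e8 : l + (i + 1) = l + 1 + i := by omega
            have e9 : ((i.factorial : ℕ) : ℂ) ≠ 0 := by exact_mod_cast i.factorial_ne_zero
            have e10 : ((i + 1 : ℕ) : ℂ) ≠ 0 := by exact_mod_cast (Nat.succ_ne_zero i)
            rw [e8, Nat.factorial_succ, Nat.cast_mul, Nat.add_sub_cancel]
            field_simp
          rw [e7] at e6
          exact e6
        exact e5.comp_ofReal
      have e11 := HasDerivAt.fun_sum e4
      have e12 := (e1.sub (e11.add_const (g (l + 0) c * (t : ℂ) ^ 0 / ((0).factorial : ℂ))))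
      have e13 : h = fun s : ℝ => g l (c + s) - (∑ i ∈ Finset.range m,
          g (l + (i + 1)) c * (s : ℂ) ^ (i + 1) / ((i + 1).factorial : ℂ) +
            g (l + 0) c * (t : ℂ) ^ 0 / ((0).factorial : ℂ)) := by
        funext s
        rw [hh]
        simp only
        rw [Finset.sum_range_succ', pow_zero, pow_zero]
      rw [e13]
      exact e12
    have hbound : ∀ t ∈ Set.Ico (0 : ℝ) t0, ‖g (l + 1) (c + t) -
          ∑ i ∈ Finset.range m, g (l + 1 + i) c * (t : ℂ) ^ i / (i.factorial : ℂ)‖ ≤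
        M * t0 ^ m := by
      intro t ht
      refine (ih (l + 1) (by omega) t ht.1 (ht.2.le.trans h1)).trans ?_
      exact mul_le_mul_of_nonneg_left (pow_le_pow_left₀ ht.1 ht.2.le m) hM
    have hfin := norm_image_sub_le_of_norm_deriv_le_segment' (f := h) (a := 0) (b := t0)
      (fun t ht => (hder t ht.1 (ht.2.trans h1)).hasDerivWithinAt) hbound t0
      (Set.right_mem_Icc.2 h0)
    have hzero : h 0 = 0 := by
      rw [hh]
      simp only
      rw [Finset.sum_range_succ']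
      simp
    rw [hzero, sub_zero, sub_zero] at hfin
    rw [pow_succ, ← mul_assoc]
    exact hfin

/-- OV-19: a function whose `L`-th derivative is small, not zero and almost constant takes integral
values at most at `L` of the points `c, c + 1, …, c + W`. (`g l` is the `l`-th derivative of `g 0`.)

Proof. Suppose there are distinct `k_0, …, k_L ∈ {0, …, W}` with `g 0 (c + k_i) ∈ ℤ`. With the Lagrange
weights `w_i = 1 / ∏_{i' ≠ i} (k_i - k_{i'})` (rational numbers) we have `∑ w_i k_i ^ l = 0` for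
`l < L` and `= 1` for `l = L` (the leading coefficient of the interpolation polynomial of `x ^ l`). The
number `D = ∑ w_i g 0 (c + k_i)` times the integer `V = ∏_{i, i' : i ≠ i'} (k_i - k_{i'})` is an
integer, and `0 < |V| ≤ W ^ (L (L + 1))` (if `W = 0` then `L = 0`). By Taylor's formula on the segment
`[c, c + k_i]` (for example `t ↦ g 0 (c + t)`, `t` real, with integral or norm remainder; or iterate the
mean value inequality), `g 0 (c + k_i) = ∑_{l ≤ L} g l c * k_i ^ l / l! + R_i` with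
`|R_i| ≤ W ^ (L + 1) sup |g (L + 1)| ≤ W ^ (L + 1) ε |g L c|`. So
`|D - g L c / L!| ≤ K ε |g L c|`, `K` depending only on `L`, `W`. If `K ε ≤ 1 / (2 L!)`, then
`D ≠ 0` and `|D| ≤ 2 |g L c| ≤ 2 ε`, so `0 < |D V| ≤ 2 ε W ^ (L (L + 1)) < 1` for `ε` small:
contradiction with `D V ∈ ℤ`. (For `L = 0` the statement says that `g 0` takes no integral value: then
`g 0 (c + k) = g 0 c + R`, of norm between `|g 0 c| / 2 > 0` and `2 ε < 1`.) -/
theorem few_integers (L W : ℕ) : ∃ ε : ℝ, 0 < ε ∧ ∀ (g : ℕ → ℂ → ℂ) (c : ℂ),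
    (∀ l ≤ L, ∀ κ ∈ ball c (W + 1), HasDerivAt (g l) (g (l + 1) κ) κ) → g L c ≠ 0 →
    ‖g L c‖ ≤ ε → (∀ κ ∈ ball c (W + 1), ‖g (L + 1) κ‖ ≤ ε * ‖g L c‖) →
    ∀ T : Finset ℕ, (∀ k ∈ T, k ≤ W ∧ ∃ m : ℤ, g 0 (c + k) = m) → T.card ≤ L := by
  classical
  set Q : ℝ := 4 * (L.factorial : ℝ) * (L + 1) * ((W : ℝ) + 1) ^ ((L + 1) * (L + 1)) with hQ
  have hfac : (1 : ℝ) ≤ (L.factorial : ℝ) := by exact_mod_cast L.factorial_pos
  have hL1 : (1 : ℝ) ≤ (L : ℝ) + 1 := by linarith [(Nat.cast_nonneg L : (0 : ℝ) ≤ L)]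
  have hW1 : (1 : ℝ) ≤ (W : ℝ) + 1 := by linarith [(Nat.cast_nonneg W : (0 : ℝ) ≤ W)]
  have hP1 : (1 : ℝ) ≤ ((W : ℝ) + 1) ^ ((L + 1) * (L + 1)) := one_le_pow₀ hW1
  have hQ0 : 0 < Q := by positivity
  refine ⟨1 / Q, by positivity, fun g c hd hgL hsm hsm2 T hT => ?_⟩
  by_contra hcard
  push Not at hcard
  obtain ⟨T', hT'T, hT'⟩ := Finset.exists_subset_card_eq (show L + 1 ≤ T.card from hcard)
  have hT2 : ∀ k ∈ T', k ≤ W ∧ ∃ m : ℤ, g 0 (c + k) = m := fun k hk => hT k (hT'T hk)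
  -- the Taylor polynomial
  set P : Polynomial ℂ := ∑ i ∈ Finset.range (L + 1),
    Polynomial.C (g i c / (i.factorial : ℂ)) * Polynomial.X ^ i with hP
  have hPdeg : P.degree < T'.card := by
    rw [hT', hP, Polynomial.degree_lt_iff_coeff_zero]
    intro k hk
    rw [Polynomial.finsetSum_coeff]
    apply Finset.sum_eq_zero
    intro i hi
    rw [Polynomial.coeff_C_mul, Polynomial.coeff_X_pow, if_neg, mul_zero]
    have := Finset.mem_range.1 hi
    omega
  have hPcoeff : P.coeff (T'.card - 1) = g L c / (L.factorial : ℂ) := by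
    rw [hT', Nat.add_sub_cancel, hP, Polynomial.finsetSum_coeff, Finset.sum_eq_single L]
    · rw [Polynomial.coeff_C_mul, Polynomial.coeff_X_pow, if_pos rfl, mul_one]
    · intro i _ hi
      rw [Polynomial.coeff_C_mul, Polynomial.coeff_X_pow, if_neg (Ne.symm hi), mul_zero]
    · intro h
      exact absurd (Finset.mem_range.2 (Nat.lt_succ_self L)) h
  have hPeval : ∀ x : ℂ, P.eval x =
      ∑ i ∈ Finset.range (L + 1), g (0 + i) c * x ^ i / (i.factorial : ℂ) := by
    intro x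
    rw [hP, Polynomial.eval_finsetSum]
    refine Finset.sum_congr rfl (fun i _ => ?_)
    rw [Polynomial.eval_mul, Polynomial.eval_C, Polynomial.eval_pow, Polynomial.eval_X, zero_add]
    ring
  have hinj : Set.InjOn (fun k : ℕ => (k : ℂ)) (T' : Set ℕ) := fun a _ b _ h => Nat.cast_injective h
  have hlag := Lagrange.coeff_eq_sum hinj hPdeg
  rw [hPcoeff] at hlag
  -- integers
  set pr : ℕ → ℤ := fun k => ∏ j ∈ T'.erase k, ((k : ℤ) - (j : ℤ)) with hpr
  have hprc : ∀ k, (∏ j ∈ T'.erase k, ((k : ℂ) - (j : ℂ))) = ((pr k : ℤ) : ℂ) := by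
    intro k
    rw [hpr]
    push_cast
    rfl
  have hpr0 : ∀ k, pr k ≠ 0 := by
    intro k
    rw [hpr]
    simp only
    rw [Finset.prod_ne_zero_iff]
    intro j hj h
    have h1 := Finset.ne_of_mem_erase hj
    have h2 : (k : ℤ) = (j : ℤ) := by linarith
    exact h1 (by exact_mod_cast h2.symm)
  have hpr1 : ∀ k, (1 : ℝ) ≤ ‖((pr k : ℤ) : ℂ)‖ := by
    intro k
    rw [Complex.norm_intCast]
    have : (1 : ℤ) ≤ |pr k| := Int.one_le_abs (hpr0 k)
    exact_mod_cast this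
  have hprW : ∀ k ∈ T', ‖((pr k : ℤ) : ℂ)‖ ≤ ((W : ℝ) + 1) ^ L := by
    intro k hk
    rw [← hprc, norm_prod]
    have h1 : ∀ j ∈ T'.erase k, ‖((k : ℂ) - (j : ℂ))‖ ≤ (W : ℝ) + 1 := by
      intro j hj
      have hk1 := (hT2 k hk).1
      have hj1 := (hT2 j (Finset.mem_of_mem_erase hj)).1
      have h3 : ((k : ℂ) - (j : ℂ)) = (((k : ℤ) - (j : ℤ) : ℤ) : ℂ) := by push_cast; rfl
      rw [h3, Complex.norm_intCast]
      have h4 : |((k : ℤ) - (j : ℤ))| ≤ (W : ℤ) := by
        rw [abs_le]; constructor <;> omega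
      have h5 : ((|((k : ℤ) - (j : ℤ))| : ℤ) : ℝ) ≤ (W : ℝ) := by exact_mod_cast h4
      rw [Int.cast_abs] at h5
      linarith
    have h2 := Finset.prod_le_prod (fun (j : ℕ) _ => norm_nonneg ((k : ℂ) - (j : ℂ))) h1
    rw [Finset.prod_const, Finset.card_erase_of_mem hk, hT', Nat.add_sub_cancel] at h2
    exact h2
  set D : ℂ := ∑ k ∈ T', g 0 (c + k) / ((pr k : ℤ) : ℂ) with hD
  have hdiff : D - g L c / (L.factorial : ℂ) =
      ∑ k ∈ T', (g 0 (c + k) - P.eval (k : ℂ)) / ((pr k : ℤ) : ℂ) := by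
    rw [hlag, hD, ← Finset.sum_sub_distrib]
    refine Finset.sum_congr rfl (fun k _ => ?_)
    rw [hprc, sub_div]
  have hM0 : 0 ≤ 1 / Q * ‖g L c‖ := by positivity
  have hR : ∀ k ∈ T', ‖g 0 (c + k) - P.eval (k : ℂ)‖ ≤
      1 / Q * ‖g L c‖ * ((W : ℝ) + 1) ^ (L + 1) := by
    intro k hk
    have h1 : (k : ℝ) ≤ (W : ℝ) := by exact_mod_cast (hT2 k hk).1
    have h2 := fi_taylor g c (L + 1) (W : ℝ) _ hM0
      (fun l hl κ hκ => hd l (by omega) κ hκ) hsm2 (L + 1) 0 (by omega) (k : ℝ)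
      (Nat.cast_nonneg k) h1
    rw [Complex.ofReal_natCast] at h2
    rw [hPeval]
    refine h2.trans (mul_le_mul_of_nonneg_left ?_ hM0)
    exact pow_le_pow_left₀ (Nat.cast_nonneg k) (by linarith) _
  have hnorm : ‖D - g L c / (L.factorial : ℂ)‖ ≤ ‖g L c‖ / (4 * (L.factorial : ℝ)) := by
    rw [hdiff]
    calc ‖∑ k ∈ T', (g 0 (c + k) - P.eval (k : ℂ)) / ((pr k : ℤ) : ℂ)‖
        ≤ ∑ k ∈ T', ‖(g 0 (c + k) - P.eval (k : ℂ)) / ((pr k : ℤ) : ℂ)‖ := norm_sum_le _ _
      _ ≤ ∑ k ∈ T', 1 / Q * ‖g L c‖ * ((W : ℝ) + 1) ^ (L + 1) := by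
        refine Finset.sum_le_sum (fun k hk => ?_)
        rw [norm_div]
        exact (div_le_self (norm_nonneg _) (hpr1 k)).trans (hR k hk)
      _ = ((L : ℝ) + 1) * (1 / Q * ‖g L c‖ * ((W : ℝ) + 1) ^ (L + 1)) := by
        rw [Finset.sum_const, hT', nsmul_eq_mul]; push_cast; ring
      _ ≤ ((L : ℝ) + 1) * (1 / Q * ‖g L c‖ * ((W : ℝ) + 1) ^ ((L + 1) * (L + 1))) := by
        have h1 : ((W : ℝ) + 1) ^ (L + 1) ≤ ((W : ℝ) + 1) ^ ((L + 1) * (L + 1)) :=
          pow_le_pow_right₀ hW1 (Nat.le_mul_of_pos_right _ (Nat.succ_pos L))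
        gcongr
      _ = ‖g L c‖ / (4 * (L.factorial : ℝ)) := by
        rw [hQ]
        field_simp
  have hg0 : 0 < ‖g L c‖ := norm_pos_iff.2 hgL
  have hfacn : ‖g L c / (L.factorial : ℂ)‖ = ‖g L c‖ / (L.factorial : ℝ) := by
    rw [norm_div, Complex.norm_natCast]
  have hD0 : D ≠ 0 := by
    intro h0
    rw [h0, zero_sub, norm_neg, hfacn] at hnorm
    have h1 : ‖g L c‖ / (4 * (L.factorial : ℝ)) < ‖g L c‖ / (L.factorial : ℝ) := by
      apply div_lt_div_of_pos_left hg0 (by positivity) (by linarith)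
    linarith
  have hDle : ‖D‖ ≤ 2 * ‖g L c‖ := by
    have h1 : ‖D‖ ≤ ‖D - g L c / (L.factorial : ℂ)‖ + ‖g L c / (L.factorial : ℂ)‖ := by
      have := norm_add_le (D - g L c / (L.factorial : ℂ)) (g L c / (L.factorial : ℂ))
      rwa [sub_add_cancel] at this
    have h2 : ‖g L c‖ / (L.factorial : ℝ) ≤ ‖g L c‖ := div_le_self hg0.le hfac
    have h3 : ‖g L c‖ / (4 * (L.factorial : ℝ)) ≤ ‖g L c‖ :=
      div_le_self hg0.le (by linarith)
    rw [hfacn] at h1
    linarith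
  -- the integer multiple
  set V : ℤ := ∏ k ∈ T', pr k with hV
  have hV0 : V ≠ 0 := Finset.prod_ne_zero_iff.2 (fun k _ => hpr0 k)
  have hVle : ‖((V : ℤ) : ℂ)‖ ≤ ((W : ℝ) + 1) ^ (L * (L + 1)) := by
    rw [hV, Int.cast_prod, norm_prod]
    have h2 := Finset.prod_le_prod (fun (k : ℕ) _ => norm_nonneg ((pr k : ℤ) : ℂ)) hprW
    rw [Finset.prod_const, hT', ← pow_mul] at h2
    exact h2
  choose! mm hmm using fun k (hk : k ∈ T') => (hT2 k hk).2
  have hDV : D * ((V : ℤ) : ℂ) = ((∑ k ∈ T', mm k * ∏ j ∈ T'.erase k, pr j : ℤ) : ℂ) := by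
    rw [hD, Finset.sum_mul, Int.cast_sum]
    refine Finset.sum_congr rfl (fun k hk => ?_)
    have h1 : V = pr k * ∏ j ∈ T'.erase k, pr j := by
      rw [hV, Finset.mul_prod_erase T' pr hk]
    have h2 : ((pr k : ℤ) : ℂ) ≠ 0 := by exact_mod_cast hpr0 k
    rw [h1, hmm k hk]
    push_cast
    field_simp
  have hne : (∑ k ∈ T', mm k * ∏ j ∈ T'.erase k, pr j : ℤ) ≠ 0 := by
    intro h0
    rw [h0, Int.cast_zero] at hDV
    rcases mul_eq_zero.1 hDV with h | h
    · exact hD0 h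
    · exact hV0 (by exact_mod_cast h)
  have hge : (1 : ℝ) ≤ ‖D * ((V : ℤ) : ℂ)‖ := by
    rw [hDV, Complex.norm_intCast]
    have := Int.one_le_abs hne
    exact_mod_cast this
  have hlt : ‖D * ((V : ℤ) : ℂ)‖ < 1 := by
    rw [norm_mul]
    calc ‖D‖ * ‖((V : ℤ) : ℂ)‖ ≤ (2 * (1 / Q)) * ((W : ℝ) + 1) ^ (L * (L + 1)) := by
          apply mul_le_mul _ hVle (norm_nonneg _) (by positivity)
          linarith
      _ ≤ (2 * (1 / Q)) * ((W : ℝ) + 1) ^ ((L + 1) * (L + 1)) := by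
          have h1 : ((W : ℝ) + 1) ^ (L * (L + 1)) ≤ ((W : ℝ) + 1) ^ ((L + 1) * (L + 1)) :=
            pow_le_pow_right₀ hW1 (Nat.mul_le_mul_right _ (Nat.le_succ L))
          gcongr
      _ = 1 / (2 * (L.factorial : ℝ) * ((L : ℝ) + 1)) := by
          rw [hQ]
          field_simp
          norm_num
      _ < 1 := by
          rw [div_lt_one (by positivity)]
          nlinarith
  linarith

/-- OV-19b: slowly varying functions. If `f` has no zero on `ball c (W + 2)` and `|f'| ≤ ε |f|` there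
with `ε (W + 2) ≤ 1 / 2`, then `|f κ| ≤ 3 |f c|` there.
Proof: `log |f|` (or `f = exp g`, `|g'| ≤ ε`) varies by at most `1 / 2`, and `exp (1 / 2) < 3`. -/
theorem slow {f f' : ℂ → ℂ} {c : ℂ} {W ε : ℝ} (hW : 0 ≤ W) (hε : 0 ≤ ε)
    (hd : ∀ κ ∈ ball c (W + 2), HasDerivAt f (f' κ) κ) (h0 : ∀ κ ∈ ball c (W + 2), f κ ≠ 0)
    (h : ∀ κ ∈ ball c (W + 2), ‖f' κ‖ ≤ ε * ‖f κ‖) (hs : ε * (W + 2) ≤ 1 / 2) :
    ∀ κ ∈ ball c (W + 2), ‖f κ‖ ≤ 3 * ‖f c‖ := by
  intro κ hκ
  have hr : ‖κ - c‖ < W + 2 := by rwa [mem_ball, dist_eq_norm] at hκ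
  set h' : ℝ → ℂ := fun t => f (c + t * (κ - c)) with hh'
  have hmem : ∀ t : ℝ, 0 ≤ t → t ≤ 1 → c + t * (κ - c) ∈ ball c (W + 2) := by
    intro t ht0 ht1
    rw [mem_ball, dist_eq_norm, add_sub_cancel_left, norm_mul, Complex.norm_real,
      Real.norm_eq_abs, abs_of_nonneg ht0]
    calc t * ‖κ - c‖ ≤ 1 * ‖κ - c‖ := mul_le_mul_of_nonneg_right ht1 (norm_nonneg _)
      _ < W + 2 := by rw [one_mul]; exact hr
  have hder : ∀ t : ℝ, 0 ≤ t → t ≤ 1 →
      HasDerivAt h' (f' (c + t * (κ - c)) * (κ - c)) t := by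
    intro t ht0 ht1
    have e1 : HasDerivAt (fun z : ℂ => c + z * (κ - c)) (κ - c) (t : ℂ) := by
      have := ((hasDerivAt_id (t : ℂ)).mul_const (κ - c)).const_add c
      rw [one_mul] at this
      exact this
    have e2 : HasDerivAt (fun z : ℂ => f (c + z * (κ - c)))
        (f' (c + t * (κ - c)) * (κ - c)) (t : ℂ) :=
      HasDerivAt.comp (t : ℂ) (hd _ (hmem t ht0 ht1)) e1
    exact e2.comp_ofReal
  have hg := norm_le_gronwallBound_of_norm_deriv_right_le (f := h')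
    (f' := fun t => f' (c + t * (κ - c)) * (κ - c)) (δ := ‖f c‖) (K := ε * ‖κ - c‖) (ε := 0)
    (a := 0) (b := 1)
    (fun t ht => (hder t ht.1 ht.2).continuousAt.continuousWithinAt)
    (fun t ht => (hder t ht.1 ht.2.le).hasDerivWithinAt)
    (by rw [hh']; simp)
    (by
      intro t ht
      rw [norm_mul, add_zero]
      have := h _ (hmem t ht.1 ht.2.le)
      calc ‖f' (c + t * (κ - c))‖ * ‖κ - c‖ ≤ (ε * ‖f (c + t * (κ - c))‖) * ‖κ - c‖ :=
            mul_le_mul_of_nonneg_right this (norm_nonneg _)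
        _ = ε * ‖κ - c‖ * ‖f (c + t * (κ - c))‖ := by ring)
    1 (Set.right_mem_Icc.2 zero_le_one)
  rw [gronwallBound_ε0] at hg
  have h1 : h' 1 = f κ := by rw [hh']; simp
  rw [h1] at hg
  have h2 : ε * ‖κ - c‖ * (1 - 0) ≤ 1 := by
    have : ε * ‖κ - c‖ ≤ ε * (W + 2) := mul_le_mul_of_nonneg_left hr.le hε
    linarith
  have h3 : Real.exp (ε * ‖κ - c‖ * (1 - 0)) ≤ 3 := by
    calc Real.exp (ε * ‖κ - c‖ * (1 - 0)) ≤ Real.exp 1 := Real.exp_le_exp.2 h2
      _ ≤ 3 := by have := Real.exp_one_lt_d9; linarith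
  calc ‖f κ‖ ≤ ‖f c‖ * Real.exp (ε * ‖κ - c‖ * (1 - 0)) := hg
    _ ≤ ‖f c‖ * 3 := mul_le_mul_of_nonneg_left h3 (norm_nonneg _)
    _ = 3 * ‖f c‖ := by ring

end Pool.Agent.Lib.MP_209724_lc.OV
end

section

namespace Pool.Agent.Lib.MP_209724_lc.OV

open MvPolynomial Filter Topology Metric

variable {K : Type} [Field K] [Algebra ℂ K]

/-- OV-12: an exponential sum of lower order is not too small on a disc.

Proof by induction on the number `L` of terms. Only finitely many elements of `K` occur; `S` is the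
finite set of all of them (see below), and the hypotheses on `Ψ` are needed for the elements of `S`.

`L = 1`: `|Ψ(g) exp(Ψ X)| ≥ exp(-ε Y / 2) exp(-ε Y / 2)`.

`L + 1`: write the index set as `Fin L ∪ {*}` (for example `Fin (L + 1)` with `* = Fin.last L`, the
others `Fin.castSucc i`). Put `r_i = g_i / g_*`, `X'_i = X_i - X_*` and
`g'_i = δ(r_i) + r_i δ(X'_i)`. `g'_i ≠ 0`: otherwise, as `δ(X_* - X_i) = δ(r_i) / r_i` with
`r_i ≠ 0`, contradiction with `hX * i`. The induction hypothesis for `(g', X')` (the differences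
`X'_i - X'_{i'} = X_i - X_{i'}` satisfy the hypothesis) gives a finite set `S'`. `S` consists of `S'` and
of the `g_i`, `r_i`, `X_i`, `X'_i`, `g'_i`, `g_*⁻¹`, `δ r_i`, `δ X'_i` (and everything else that is
needed). Suppose the conclusion fails for some `ε > 0`: for infinitely many `j`,
`|H_j| < exp(-ε Y_j)` on the ball, `H_j = ∑ Ψ(g_i) exp(Ψ(X_i))`. Dividing by
`Ψ(g_*) exp(Ψ(X_*))`, whose norm is at least `exp(-ε Y / 4 - ε Y / 4)` for large `j`, we get
`|1 + ∑_i Ψ(r_i) exp(Ψ(X'_i))| ≤ exp(-ε Y / 2)` on `ball c r` (here `Ψ(X_i) - Ψ(X_*) = Ψ(X'_i)`,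
`Ψ(g_i) / Ψ(g_*) = Ψ(r_i)`). By Cauchy's estimate the derivative, which is
`∑_i Ψ(g'_i) exp(Ψ(X'_i))` by the hypothesis on derivatives for `r_i` and `X'_i`, has norm at most
`(2 / r) exp(-ε Y / 2)` on `ball c (r / 2)`. This contradicts the induction hypothesis on
`ball c (r / 2)` with `ε / 4` in place of `ε`, as `(2 / r) exp(-ε Y / 2) < exp(-ε Y / 4)` for large `j`.
The smallness of the `X'_i` follows from that of the `X_i`.

(Derivative of products and of `exp`: `HasDerivAt` from `DifferentiableOn` on the open ball and the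
formula for `deriv`.) -/
theorem tiny_sum (δ : Derivation ℂ K K) (L : ℕ) (g X : Fin (L + 1) → K) (hg : ∀ i, g i ≠ 0)
    (hX : ∀ i i', i ≠ i' → ∀ ρ : K, ρ ≠ 0 → δ (X i - X i') ≠ δ ρ / ρ) :
    ∃ S : Finset K, ∀ A : Subalgebra ℂ K, (S : Set K) ⊆ A → (∀ f ∈ S, δ f ∈ A) →
      ∀ (Ψ : ℕ → ℂ → K → ℂ) (Y : ℕ → ℝ) (c : ℂ) (r : ℝ), 0 < r → Tendsto Y atTop atTop →
      (∀ᶠ j in atTop, (∀ ζ ∈ ball c r, IsHomOn A (Ψ j ζ)) ∧
        (∀ f ∈ A, DifferentiableOn ℂ (fun ζ => Ψ j ζ f) (ball c r)) ∧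
        ∀ f ∈ S, ∀ ζ ∈ ball c r, deriv (fun ζ => Ψ j ζ f) ζ = Ψ j ζ (δ f)) →
      (∀ ε : ℝ, 0 < ε → ∀ᶠ j in atTop, ∀ f ∈ S, f ≠ 0 → ∀ ζ ∈ ball c r,
        Real.exp (-(ε * Y j)) ≤ ‖Ψ j ζ f‖ ∧ ‖Ψ j ζ f‖ ≤ Real.exp (ε * Y j)) →
      (∀ ε : ℝ, 0 < ε → ∀ᶠ j in atTop, ∀ i, ∀ ζ ∈ ball c r, ‖Ψ j ζ (X i)‖ ≤ ε * Y j) →
      ∀ ε : ℝ, 0 < ε → ∀ᶠ j in atTop, ∃ ζ ∈ ball c r,
        Real.exp (-(ε * Y j)) ≤ ‖∑ i, Ψ j ζ (g i) * Complex.exp (Ψ j ζ (X i))‖ := by
  induction L with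
  | zero =>
    refine ⟨{g 0}, fun A hSA hδA Ψ Y c r hr hY hhom hsmall hXs ε hε => ?_⟩
    filter_upwards [hsmall (ε / 2) (by positivity), hXs (ε / 2) (by positivity)] with j hj1 hj2
    refine ⟨c, mem_ball_self hr, ?_⟩
    rw [Fin.sum_univ_one, norm_mul, Complex.norm_exp]
    have h1 := (hj1 (g 0) (by simp) (hg 0) c (mem_ball_self hr)).1
    have h2 := hj2 0 c (mem_ball_self hr)
    have h3 : -(ε / 2 * Y j) ≤ (Ψ j c (X 0)).re := by
      have := Complex.abs_re_le_norm (Ψ j c (X 0))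
      have h4 := abs_le.1 (this.trans h2)
      exact h4.1
    have h5 : Real.exp (-(ε * Y j)) = Real.exp (-(ε / 2 * Y j)) * Real.exp (-(ε / 2 * Y j)) := by
      rw [← Real.exp_add]; congr 1; ring
    rw [h5]
    exact mul_le_mul h1 (Real.exp_le_exp.2 h3) (Real.exp_pos _).le (norm_nonneg _)
  | succ L ih =>
    classical
    set gs : K := g (Fin.last (L + 1)) with hgs
    have hgs0 : gs ≠ 0 := hg _
    set r' : Fin (L + 1) → K := fun i => g i.castSucc / gs with hr'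
    set X' : Fin (L + 1) → K := fun i => X i.castSucc - X (Fin.last (L + 1)) with hX'
    set g' : Fin (L + 1) → K := fun i => δ (r' i) + r' i * δ (X' i) with hg'
    have hr0 : ∀ i, r' i ≠ 0 := fun i => div_ne_zero (hg _) hgs0
    have hg0 : ∀ i, g' i ≠ 0 := by
      intro i h0
      have h1 : δ (r' i) + r' i * δ (X' i) = 0 := h0
      have h2 : δ (X (Fin.last (L + 1)) - X i.castSucc) = δ (r' i) / r' i := by
        have h3 : X (Fin.last (L + 1)) - X i.castSucc = -(X' i) := by rw [hX']; ring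
        rw [h3, map_neg, eq_div_iff (hr0 i)]
        linear_combination (-1 : K) * h1
      exact hX _ _ (Fin.castSucc_lt_last i).ne' (r' i) (hr0 i) h2
    have hX0 : ∀ i i', i ≠ i' → ∀ ρ : K, ρ ≠ 0 → δ (X' i - X' i') ≠ δ ρ / ρ := by
      intro i i' hii ρ hρ
      have h3 : X' i - X' i' = X i.castSucc - X i'.castSucc := by rw [hX']; ring
      rw [h3]
      exact hX _ _ (fun h => hii (Fin.castSucc_injective _ h)) ρ hρ
    obtain ⟨S', hS'⟩ := ih g' X' hg0 hX0
    refine ⟨S' ∪ (Finset.univ.image g ∪ Finset.univ.image X ∪ Finset.univ.image r' ∪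
      Finset.univ.image X'), fun A hSA hδA Ψ Y c r hr hY hhom hsmall hXs ε hε => ?_⟩
    have hS'S : ∀ f ∈ S', f ∈ S' ∪ (Finset.univ.image g ∪ Finset.univ.image X ∪
        Finset.univ.image r' ∪ Finset.univ.image X') := fun f hf => Finset.mem_union_left _ hf
    have hgS : ∀ i, g i ∈ S' ∪ (Finset.univ.image g ∪ Finset.univ.image X ∪
        Finset.univ.image r' ∪ Finset.univ.image X') := fun i => by simp
    have hXS : ∀ i, X i ∈ S' ∪ (Finset.univ.image g ∪ Finset.univ.image X ∪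
        Finset.univ.image r' ∪ Finset.univ.image X') := fun i => by simp
    have hrS : ∀ i, r' i ∈ S' ∪ (Finset.univ.image g ∪ Finset.univ.image X ∪
        Finset.univ.image r' ∪ Finset.univ.image X') := fun i => by simp
    have hX'S : ∀ i, X' i ∈ S' ∪ (Finset.univ.image g ∪ Finset.univ.image X ∪
        Finset.univ.image r' ∪ Finset.univ.image X') := fun i => by simp
    generalize hSdef : S' ∪ (Finset.univ.image g ∪ Finset.univ.image X ∪
        Finset.univ.image r' ∪ Finset.univ.image X') = S at *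
    have hA : ∀ f ∈ S, f ∈ A := fun f hf => hSA hf
    have hball : ball c (r / 2) ⊆ ball c r := ball_subset_ball (by linarith)
    have hIH := hS' A (fun f hf => hSA (hS'S f hf)) (fun f hf => hδA f (hS'S f hf)) Ψ Y c (r / 2)
      (by positivity) hY
      (hhom.mono fun j hj => ⟨fun ζ hζ => hj.1 ζ (hball hζ), fun f hf => (hj.2.1 f hf).mono hball,
        fun f hf ζ hζ => hj.2.2 f (hS'S f hf) ζ (hball hζ)⟩)
      (fun ε hε => (hsmall ε hε).mono fun j hj f hf hf0 ζ hζ =>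
        hj f (hS'S f hf) hf0 ζ (hball hζ))
      (by
        intro ε hε
        filter_upwards [hhom, hXs (ε / 2) (by positivity)] with j hj1 hj2 i ζ hζ
        have e1 : Ψ j ζ (X' i) = Ψ j ζ (X i.castSucc) - Ψ j ζ (X (Fin.last (L + 1))) :=
          (hj1.1 ζ (hball hζ)).sub (hA _ (hXS _)) (hA _ (hXS _))
        rw [e1]
        calc _ ≤ ‖Ψ j ζ (X i.castSucc)‖ + ‖Ψ j ζ (X (Fin.last (L + 1)))‖ := norm_sub_le _ _
          _ ≤ ε / 2 * Y j + ε / 2 * Y j :=
            add_le_add (hj2 _ ζ (hball hζ)) (hj2 _ ζ (hball hζ))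
          _ = ε * Y j := by ring)
      (ε / 4) (by positivity)
    have hlim : ∀ᶠ j in atTop, Real.exp (-(ε / 4 * Y j)) < r / 4 := by
      have h1 : Tendsto (fun j => Real.exp (-(ε / 4 * Y j))) atTop (𝓝 0) := by
        apply Real.tendsto_exp_neg_atTop_nhds_zero.comp
        exact Tendsto.const_mul_atTop (by positivity) hY
      exact h1.eventually (gt_mem_nhds (by positivity))
    filter_upwards [hhom, hsmall (ε / 4) (by positivity), hXs (ε / 4) (by positivity), hIH, hlim]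
      with j hj1 hj2 hj3 hj4 hj5
    by_contra hcon
    push Not at hcon
    obtain ⟨ζ0, hζ0, hlow⟩ := hj4
    set F : ℂ → ℂ := fun ζ => ∑ i, Ψ j ζ (r' i) * Complex.exp (Ψ j ζ (X' i)) + 1 with hF
    have hFeq : ∀ ζ ∈ ball c r, ∑ i, Ψ j ζ (g i) * Complex.exp (Ψ j ζ (X i)) =
        Ψ j ζ gs * Complex.exp (Ψ j ζ (X (Fin.last (L + 1)))) * F ζ := by
      intro ζ hζ
      have hh := hj1.1 ζ hζ
      rw [Fin.sum_univ_castSucc, hF]
      simp only
      rw [mul_add, mul_one, Finset.mul_sum]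
      congr 1
      refine Finset.sum_congr rfl (fun i _ => ?_)
      have e1 : Ψ j ζ (X' i) = Ψ j ζ (X i.castSucc) - Ψ j ζ (X (Fin.last (L + 1))) :=
        hh.sub (hA _ (hXS _)) (hA _ (hXS _))
      have e2 : Ψ j ζ (g i.castSucc) = Ψ j ζ (r' i) * Ψ j ζ gs := by
        have e3 : g i.castSucc = r' i * gs := (div_mul_cancel₀ _ hgs0).symm
        rw [← hh.mul (hA _ (hrS i)) (hA _ (hgS _)), ← e3]
      rw [e1, e2, Complex.exp_sub]
      have := Complex.exp_ne_zero (Ψ j ζ (X (Fin.last (L + 1))))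
      field_simp
    have hFbound : ∀ ζ ∈ ball c r, ‖F ζ‖ ≤ Real.exp (-(ε / 2 * Y j)) := by
      intro ζ hζ
      have h1 := (hcon ζ hζ).le
      rw [hFeq ζ hζ, norm_mul, norm_mul, Complex.norm_exp] at h1
      have h2 := (hj2 gs (hgS _) hgs0 ζ hζ).1
      have h3 : Real.exp (-(ε / 4 * Y j)) ≤ Real.exp ((Ψ j ζ (X (Fin.last (L + 1)))).re) := by
        apply Real.exp_le_exp.2
        have := Complex.abs_re_le_norm (Ψ j ζ (X (Fin.last (L + 1))))
        exact (abs_le.1 (this.trans (hj3 _ ζ hζ))).1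
      have h4 : Real.exp (-(ε / 4 * Y j)) * Real.exp (-(ε / 4 * Y j)) ≤
          ‖Ψ j ζ gs‖ * Real.exp ((Ψ j ζ (X (Fin.last (L + 1)))).re) :=
        mul_le_mul h2 h3 (Real.exp_pos _).le (norm_nonneg _)
      have h5 : Real.exp (-(ε * Y j)) = (Real.exp (-(ε / 4 * Y j)) * Real.exp (-(ε / 4 * Y j))) *
          Real.exp (-(ε / 2 * Y j)) := by
        rw [← Real.exp_add, ← Real.exp_add]; congr 1; ring
      rw [h5] at h1
      have h6 : (Real.exp (-(ε / 4 * Y j)) * Real.exp (-(ε / 4 * Y j))) * ‖F ζ‖ ≤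
          (Real.exp (-(ε / 4 * Y j)) * Real.exp (-(ε / 4 * Y j))) * Real.exp (-(ε / 2 * Y j)) :=
        (mul_le_mul_of_nonneg_right h4 (norm_nonneg _)).trans h1
      exact le_of_mul_le_mul_left h6 (mul_pos (Real.exp_pos _) (Real.exp_pos _))
    have hder : ∀ f ∈ S, ∀ ζ ∈ ball c r, HasDerivAt (fun ζ => Ψ j ζ f) (Ψ j ζ (δ f)) ζ := by
      intro f hf ζ hζ
      have h1 := ((hj1.2.1 f (hA f hf)).differentiableAt (isOpen_ball.mem_nhds hζ)).hasDerivAt
      rwa [hj1.2.2 f hf ζ hζ] at h1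
    have hFder : ∀ ζ ∈ ball c r, HasDerivAt F
        (∑ i, Ψ j ζ (g' i) * Complex.exp (Ψ j ζ (X' i))) ζ := by
      intro ζ hζ
      have hh := hj1.1 ζ hζ
      have h1 : ∀ i ∈ (Finset.univ : Finset (Fin (L + 1))), HasDerivAt
          (fun ζ => Ψ j ζ (r' i) * Complex.exp (Ψ j ζ (X' i)))
          (Ψ j ζ (g' i) * Complex.exp (Ψ j ζ (X' i))) ζ := by
        intro i _
        have h2 := (hder _ (hrS i) ζ hζ).mul ((hder _ (hX'S i) ζ hζ).cexp)
        have h3 : Ψ j ζ (g' i) = Ψ j ζ (δ (r' i)) + Ψ j ζ (r' i) * Ψ j ζ (δ (X' i)) := by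
          rw [hg']
          simp only
          rw [hh.add (hδA _ (hrS i)) (A.mul_mem (hA _ (hrS i)) (hδA _ (hX'S i))),
            hh.mul (hA _ (hrS i)) (hδA _ (hX'S i))]
        have h5 : Ψ j ζ (g' i) * Complex.exp (Ψ j ζ (X' i)) =
            Ψ j ζ (δ (r' i)) * Complex.exp (Ψ j ζ (X' i)) +
              Ψ j ζ (r' i) * (Complex.exp (Ψ j ζ (X' i)) * Ψ j ζ (δ (X' i))) := by
          rw [h3]
          ring
        rw [h5]
        exact h2
      have h4 := HasDerivAt.fun_sum h1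
      exact h4.add_const 1
    have hsub : closedBall ζ0 (r / 4) ⊆ ball c r := by
      intro z hz
      rw [mem_closedBall] at hz
      rw [mem_ball] at hζ0 ⊢
      calc dist z c ≤ dist z ζ0 + dist ζ0 c := dist_triangle _ _ _
        _ < r := by linarith
    have hC := Complex.norm_deriv_le_of_forall_mem_sphere_norm_le (c := ζ0) (R := r / 4)
      (C := Real.exp (-(ε / 2 * Y j))) (f := F) (by positivity)
      (by
        apply DifferentiableOn.diffContOnCl
        rw [closure_ball _ (by positivity : r / 4 ≠ 0)]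
        intro z hz
        exact (hFder z (hsub hz)).differentiableAt.differentiableWithinAt)
      (fun z hz => hFbound z (hsub (sphere_subset_closedBall hz)))
    rw [(hFder ζ0 (hball hζ0)).deriv] at hC
    have h7 := hlow.trans hC
    rw [le_div_iff₀ (by positivity)] at h7
    have h8 : Real.exp (-(ε / 2 * Y j)) =
        Real.exp (-(ε / 4 * Y j)) * Real.exp (-(ε / 4 * Y j)) := by
      rw [← Real.exp_add]; congr 1; ring
    rw [h8] at h7
    have h9 := le_of_mul_le_mul_left h7 (Real.exp_pos _)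
    linarith

end Pool.Agent.Lib.MP_209724_lc.OV
end

section

namespace Pool.Agent.Lib.MP_209724_lc.OV

open MvPolynomial Filter Topology Metric

variable {K : Type} [Field K] [Algebra ℂ K]

/-- coefficients of `X p'` -/
private theorem coeff_X_mul_derivative (p : Polynomial ℂ) (k : ℕ) :
    (Polynomial.X * Polynomial.derivative p).coeff k = (k : ℂ) * p.coeff k := by
  cases k with
  | zero => simp
  | succ k =>
    rw [Polynomial.coeff_X_mul, Polynomial.coeff_derivative]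
    push_cast
    ring

/-- comparison of leading coefficients -/
private theorem lead_compare (p q : Polynomial ℂ) (hp : p ≠ 0) (hq : q ≠ 0) (e : ℂ)
    (h : q * (Polynomial.X * Polynomial.derivative p) =
      (Polynomial.X * Polynomial.derivative q + Polynomial.C e * q) * p) :
    (p.natDegree : ℂ) = q.natDegree + e := by
  have hder : ∀ r : Polynomial ℂ,
      (Polynomial.X * Polynomial.derivative r).natDegree ≤ r.natDegree := by
    intro r
    rw [Polynomial.natDegree_le_iff_coeff_eq_zero]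
    intro N hN
    rw [coeff_X_mul_derivative, Polynomial.coeff_eq_zero_of_natDegree_lt hN, mul_zero]
  have h1 := congrArg (fun r => Polynomial.coeff r (q.natDegree + p.natDegree)) h
  rw [Polynomial.coeff_mul_add_eq_of_natDegree_le le_rfl (hder p),
    Polynomial.coeff_mul_add_eq_of_natDegree_le (df := q.natDegree) ?_ le_rfl,
    Polynomial.coeff_add, Polynomial.coeff_C_mul, coeff_X_mul_derivative,
    coeff_X_mul_derivative] at h1
  · have hp' : p.coeff p.natDegree ≠ 0 := Polynomial.leadingCoeff_ne_zero.2 hp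
    have hq' : q.coeff q.natDegree ≠ 0 := Polynomial.leadingCoeff_ne_zero.2 hq
    have h2 : (q.coeff q.natDegree * p.coeff p.natDegree) *
        ((p.natDegree : ℂ) - (q.natDegree + e)) = 0 := by
      linear_combination h1
    have h3 := (mul_eq_zero.1 h2).resolve_left (mul_ne_zero hq' hp')
    exact sub_eq_zero.1 h3
  · refine (Polynomial.natDegree_add_le _ _).trans (max_le (hder q) ?_)
    exact Polynomial.natDegree_C_mul_le _ _

/-- the one variable statement -/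
private theorem rat_of_alg {σ ρ : K} (hρ : ρ ≠ 0) (hσ : Transcendental ℂ σ)
    (D : Derivation ℂ K K) (hDσ : D σ = 1) (c : ℂ)
    (hDρ : σ * D ρ = algebraMap ℂ K c * ρ) (halg : IsAlgebraic (Algebra.adjoin ℂ {σ}) ρ) :
    ∃ q : ℚ, c = q := by
  classical
  set e : Polynomial ℂ →+* K := (Polynomial.aeval σ : Polynomial ℂ →ₐ[ℂ] K).toRingHom with he
  have hea : ∀ a : Polynomial ℂ, e a = Polynomial.aeval σ a := fun a => rfl
  -- existence of a relation
  have hex : ∃ n : ℕ, ∃ P : Polynomial (Polynomial ℂ), P ≠ 0 ∧ P.eval₂ e ρ = 0 ∧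
      P.natDegree = n := by
    obtain ⟨p, hp0, hp⟩ := halg
    let φ : Polynomial ℂ →ₐ[ℂ] Algebra.adjoin ℂ {σ} :=
      Polynomial.aeval (⟨σ, Algebra.subset_adjoin (Set.mem_singleton σ)⟩ :
        Algebra.adjoin ℂ ({σ} : Set K))
    have hφ : ∀ a, ((φ a : Algebra.adjoin ℂ ({σ} : Set K)) : K) = Polynomial.aeval σ a := by
      intro a
      exact (Polynomial.aeval_algHom_apply (Algebra.adjoin ℂ ({σ} : Set K)).val
        (⟨σ, Algebra.subset_adjoin (Set.mem_singleton σ)⟩ : Algebra.adjoin ℂ ({σ} : Set K)) a).symm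
    have hsurj : Function.Surjective φ.toRingHom := by
      rintro ⟨x, hx⟩
      rw [Algebra.adjoin_singleton_eq_range_aeval] at hx
      obtain ⟨a, ha⟩ := hx
      exact ⟨a, Subtype.ext ((hφ a).trans ha)⟩
    obtain ⟨P, hP⟩ := Polynomial.map_surjective φ.toRingHom hsurj p
    refine ⟨P.natDegree, P, ?_, ?_, rfl⟩
    · rintro rfl
      exact hp0 (by rw [← hP, Polynomial.map_zero])
    · have hcomp : (algebraMap (Algebra.adjoin ℂ ({σ} : Set K)) K).comp φ.toRingHom = e := by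
        refine RingHom.ext fun a => ?_
        exact hφ a
      rw [← hP, Polynomial.aeval_def, Polynomial.eval₂_map, hcomp] at hp
      exact hp
  -- a relation of minimal degree
  obtain ⟨P, hP0, hP, hPn⟩ := Nat.find_spec hex
  have hmin : ∀ Q : Polynomial (Polynomial ℂ), Q ≠ 0 → Q.eval₂ e ρ = 0 →
      P.natDegree ≤ Q.natDegree := by
    intro Q hQ0 hQ
    rw [hPn]
    exact Nat.find_min' hex ⟨Q, hQ0, hQ, rfl⟩
  set d := P.natDegree with hd
  have hinj : ∀ a : Polynomial ℂ, e a = 0 → a = 0 := by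
    intro a ha
    exact (transcendental_iff.1 hσ) a ha
  -- the constant coefficient is not zero
  have hp0 : P.coeff 0 ≠ 0 := by
    intro h0
    obtain ⟨Q, hQ⟩ := Polynomial.X_dvd_iff.2 h0
    have hQ0 : Q ≠ 0 := by
      rintro rfl
      exact hP0 (by rw [hQ, mul_zero])
    have hQe : Q.eval₂ e ρ = 0 := by
      rw [hQ, Polynomial.eval₂_mul, Polynomial.eval₂_X] at hP
      exact (mul_eq_zero.1 hP).resolve_left hρ
    have h1 := hmin Q hQ0 hQe
    have h2 : d = Q.natDegree + 1 := by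
      rw [hd, hQ, Polynomial.natDegree_X_mul hQ0]
    omega
  have hpd : P.coeff d ≠ 0 := Polynomial.leadingCoeff_ne_zero.2 hP0
  have hd1 : d ≠ 0 := by
    intro h0
    have h1 : P = Polynomial.C (P.coeff 0) := Polynomial.eq_C_of_natDegree_eq_zero h0
    rw [h1, Polynomial.eval₂_C] at hP
    exact hp0 (hinj _ hP)
  -- the derived relation
  set r : ℕ → Polynomial ℂ := fun k => Polynomial.X * Polynomial.derivative (P.coeff k) +
    Polynomial.C ((k : ℂ) * c) * P.coeff k with hr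
  have hsum : ∑ k ∈ Finset.range (d + 1), e (P.coeff k) * ρ ^ k = 0 := by
    rw [← hP, Polynomial.eval₂_eq_sum_range]
  have hDe : ∀ a : Polynomial ℂ, D (e a) = e (Polynomial.derivative a) := by
    intro a
    rw [hea, hea, Derivation.map_aeval, hDσ, smul_eq_mul, mul_one]
  have hDpow : ∀ k : ℕ, σ * D (ρ ^ k) = algebraMap ℂ K ((k : ℂ) * c) * ρ ^ k := by
    intro k
    rw [Derivation.leibniz_pow]
    cases k with
    | zero => simp
    | succ k =>
      rw [Nat.add_sub_cancel, smul_eq_mul, nsmul_eq_mul, map_mul, pow_succ]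
      have h1 : algebraMap ℂ K ((k + 1 : ℕ) : ℂ) = ((k + 1 : ℕ) : K) := map_natCast _ _
      rw [h1]
      linear_combination (((k + 1 : ℕ) : K) * ρ ^ k) * hDρ
  have hrsum : ∑ k ∈ Finset.range (d + 1), e (r k) * ρ ^ k = 0 := by
    have h1 : σ * D (∑ k ∈ Finset.range (d + 1), e (P.coeff k) * ρ ^ k) = 0 := by
      rw [hsum, map_zero, mul_zero]
    rw [map_sum, Finset.mul_sum] at h1
    rw [← h1]
    refine Finset.sum_congr rfl fun k _ => ?_
    have h2 : e (r k) = σ * e (Polynomial.derivative (P.coeff k)) +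
        algebraMap ℂ K ((k : ℂ) * c) * e (P.coeff k) := by
      simp only [hr, map_add, map_mul, hea, Polynomial.aeval_X, Polynomial.aeval_C]
    rw [Derivation.leibniz, hDe, h2]
    simp only [smul_eq_mul]
    linear_combination (-(e (P.coeff k))) * hDpow k
  -- elimination of the leading term
  set Q : Polynomial (Polynomial ℂ) := ∑ k ∈ Finset.range (d + 1),
    Polynomial.monomial k (P.coeff d * r k - r d * P.coeff k) with hQdef
  have hQe : Q.eval₂ e ρ = 0 := by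
    have h1 : ∀ k ∈ Finset.range (d + 1), Polynomial.eval₂ e ρ
        (Polynomial.monomial k (P.coeff d * r k - r d * P.coeff k)) =
        e (P.coeff d) * (e (r k) * ρ ^ k) - e (r d) * (e (P.coeff k) * ρ ^ k) := by
      intro k _
      rw [Polynomial.eval₂_monomial, map_sub, map_mul, map_mul]
      ring
    rw [hQdef, Polynomial.eval₂_finsetSum, Finset.sum_congr rfl h1, Finset.sum_sub_distrib,
      ← Finset.mul_sum, ← Finset.mul_sum, hrsum, hsum, mul_zero, mul_zero, sub_zero]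
  have hQc : ∀ k, Q.coeff k = if k ≤ d then P.coeff d * r k - r d * P.coeff k else 0 := by
    intro k
    rw [hQdef, Polynomial.finsetSum_coeff]
    simp only [Polynomial.coeff_monomial]
    rw [Finset.sum_ite_eq' (Finset.range (d + 1)) k]
    simp only [Finset.mem_range, Nat.lt_succ_iff]
  have hQ0 : Q = 0 := by
    by_contra hQ
    have h1 := hmin Q hQ hQe
    have h2 : Q.natDegree ≤ d := by
      rw [Polynomial.natDegree_le_iff_coeff_eq_zero]
      intro N hN
      rw [hQc, if_neg (by omega)]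
    have h3 : Q.natDegree = d := le_antisymm h2 h1
    have h4 : Q.coeff Q.natDegree ≠ 0 := Polynomial.leadingCoeff_ne_zero.2 hQ
    rw [h3, hQc, if_pos le_rfl] at h4
    exact h4 (by ring)
  have hrel : P.coeff d * r 0 = r d * P.coeff 0 := by
    have h1 := hQc 0
    rw [hQ0, Polynomial.coeff_zero, if_pos (Nat.zero_le _)] at h1
    exact (sub_eq_zero.1 h1.symm)
  have hr0 : r 0 = Polynomial.X * Polynomial.derivative (P.coeff 0) := by
    simp [hr]
  rw [hr0] at hrel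
  have hfin := lead_compare (P.coeff 0) (P.coeff d) hp0 hpd ((d : ℂ) * c) hrel
  have hdC : (d : ℂ) ≠ 0 := Nat.cast_ne_zero.2 hd1
  refine ⟨(((P.coeff 0).natDegree : ℚ) - (P.coeff d).natDegree) / d, ?_⟩
  push_cast
  rw [eq_div_iff hdC, hfin]
  ring

/-- OV-7: if `dρ / ρ = c dσ / σ` with `σ` not constant then `c` is rational.

Proof. One of `dU σ`, `dT σ` is nonzero (`isConst_of`), so `![σ, w]` is a transcendence basis for
`w = z 1` or `w = z 0`. The derivation killing `σ` kills `ρ`, so `ρ` is algebraic over `ℂ[σ]`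
(`algOver_iff`). Let `∑ p_k(σ) ρ^k = 0` be a relation of minimal degree `d`; applying `σ ∂`, with
`∂ σ = 1`, `σ ∂ ρ = c ρ`, and eliminating the leading term one gets
`p_d X p_0' = (X p_d' + d c p_d) p_0`, and the leading coefficients give
`deg p_0 = deg p_d + d c`. -/
theorem kl_rat {z : Fin 2 → K} (hz : IsBase z) {ρ σ : K} (hρ : ρ ≠ 0) (hσ : ¬ IsConst σ) (c : ℂ)
    (h : ∀ E : Derivation ℂ K K, E ρ / ρ = algebraMap ℂ K c * (E σ / σ)) : ∃ q : ℚ, c = q := by
  obtain ⟨w, hw⟩ : ∃ w : K, IsBase ![σ, w] := by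
    obtain ⟨dU, dT, hd⟩ := exists_dual hz
    by_cases hT : dT σ = 0
    · have hU : dU σ ≠ 0 := fun hU => hσ (isConst_of hz hd hU hT)
      exact ⟨z 1, isBase_of_dU hz hd hU⟩
    · exact ⟨z 0, isBase_of_dT hz hd hT⟩
  obtain ⟨D, E, hdual⟩ := exists_dual hw
  obtain ⟨h1, h2, h3, h4⟩ := id hdual
  have hD : D σ = 1 := h1
  have hE : E σ = 0 := h3
  have hσ0 : σ ≠ 0 := by
    rintro rfl
    exact hσ ⟨0, (map_zero _).symm⟩
  have hEρ : E ρ = 0 := by
    have := h E
    rw [hE, zero_div, mul_zero, div_eq_zero_iff] at this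
    exact this.resolve_right hρ
  have halg : IsAlgebraic (Algebra.adjoin ℂ {σ}) ρ := (algOver_iff hw hdual ρ).2 hEρ
  have htr : Transcendental ℂ σ := hw.1.transcendental 0
  refine rat_of_alg hρ htr D hD c ?_ halg
  have h5 := h D
  rw [hD] at h5
  field_simp at h5
  linear_combination h5

end Pool.Agent.Lib.MP_209724_lc.OV
end

section

namespace Pool.Agent.Lib.MP_209724_lc.OV

open MvPolynomial Filter Topology Metric

variable {K : Type} [Field K] [Algebra ℂ K]

/-- A non-zero polynomial is bounded below near infinity. -/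
theorem laTame_poly_lower (a : Polynomial ℂ) (ha : a ≠ 0) :
    ∃ κ R : ℝ, 0 < κ ∧ ∀ x : ℂ, R ≤ ‖x‖ → κ ≤ ‖a.eval x‖ := by
  by_cases hd : 0 < a.degree
  · have h1 : Tendsto (fun x : ℂ => ‖a.eval x‖) (Bornology.cobounded ℂ) atTop :=
      Polynomial.tendsto_norm_atTop a hd tendsto_norm_cobounded_atTop
    have h2 : ∀ᶠ x : ℂ in Bornology.cobounded ℂ, 1 ≤ ‖a.eval x‖ :=
      h1.eventually (eventually_ge_atTop 1)
    rw [(hasBasis_cobounded_norm (E := ℂ)).eventually_iff] at h2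
    obtain ⟨R, -, hR⟩ := h2
    exact ⟨1, R, one_pos, fun x hx => hR hx⟩
  · rw [not_lt] at hd
    rw [Polynomial.eq_C_of_degree_le_zero hd] at ha ⊢
    have hc : a.coeff 0 ≠ 0 := fun h => ha (by rw [h, Polynomial.C_0])
    refine ⟨‖a.coeff 0‖, 0, norm_pos_iff.2 hc, fun x _ => ?_⟩
    rw [Polynomial.eval_C]

/-- A polynomial is bounded above by a power near infinity. -/
theorem laTame_poly_upper (a : Polynomial ℂ) (P : ℕ) (hP : a.natDegree ≤ P) :
    ∃ S : ℝ, 0 ≤ S ∧ ∀ x : ℂ, 1 ≤ ‖x‖ → ‖a.eval x‖ ≤ S * ‖x‖ ^ P := by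
  refine ⟨∑ k ∈ Finset.range (a.natDegree + 1), ‖a.coeff k‖, Finset.sum_nonneg fun _ _ =>
    norm_nonneg _, fun x hx => ?_⟩
  rw [Polynomial.eval_eq_sum_range, Finset.sum_mul]
  refine (norm_sum_le _ _).trans (Finset.sum_le_sum fun k hk => ?_)
  rw [norm_mul, norm_pow]
  refine mul_le_mul_of_nonneg_left (pow_le_pow_right₀ hx ?_) (norm_nonneg _)
  have := Finset.mem_range.1 hk
  omega

/-- Roots of an equation are not too small. -/
theorem laTame_lower (d : ℕ) (a : ℕ → ℂ) (y : ℂ) (hy : ‖y‖ ≤ 1)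
    (h : ∑ k ∈ Finset.range (d + 1), a k * y ^ k = 0) :
    ‖a 0‖ ≤ ‖y‖ * ∑ k ∈ Finset.range (d + 1), ‖a k‖ := by
  rw [Finset.sum_range_succ'] at h
  rw [pow_zero, mul_one] at h
  have h1 : a 0 = - ∑ k ∈ Finset.range d, a (k + 1) * y ^ (k + 1) := by
    linear_combination h
  rw [h1, norm_neg, Finset.mul_sum, Finset.sum_range_succ']
  have h2 : ‖∑ k ∈ Finset.range d, a (k + 1) * y ^ (k + 1)‖ ≤
      ∑ k ∈ Finset.range d, ‖y‖ * ‖a (k + 1)‖ := by
    refine (norm_sum_le _ _).trans (Finset.sum_le_sum fun k _ => ?_)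
    rw [norm_mul, norm_pow, pow_succ]
    have h3 : ‖y‖ ^ k ≤ 1 := pow_le_one₀ (norm_nonneg _) hy
    calc ‖a (k + 1)‖ * (‖y‖ ^ k * ‖y‖) = (‖y‖ * ‖a (k + 1)‖) * ‖y‖ ^ k := by ring
      _ ≤ (‖y‖ * ‖a (k + 1)‖) * 1 := mul_le_mul_of_nonneg_left h3 (by positivity)
      _ = ‖y‖ * ‖a (k + 1)‖ := mul_one _
  have h4 : 0 ≤ ‖y‖ * ‖a 0‖ := by positivity
  linarith

/-- Roots of an equation are not too large. -/
theorem laTame_upper (d : ℕ) (a : ℕ → ℂ) (y : ℂ) (hy : 1 ≤ ‖y‖)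
    (h : ∑ k ∈ Finset.range (d + 1), a k * y ^ k = 0) :
    ‖a d‖ * ‖y‖ ≤ ∑ k ∈ Finset.range (d + 1), ‖a k‖ := by
  have hy0 : y ≠ 0 := by
    intro h0
    rw [h0, norm_zero] at hy
    linarith
  have hb : ∑ k ∈ Finset.range (d + 1), a (d + 1 - 1 - k) * y⁻¹ ^ k = 0 := by
    rw [← Finset.sum_range_reflect] at h
    have h1 : ∑ k ∈ Finset.range (d + 1), a (d + 1 - 1 - k) * y⁻¹ ^ k =
        y⁻¹ ^ d * ∑ k ∈ Finset.range (d + 1), a (d + 1 - 1 - k) * y ^ (d + 1 - 1 - k) := by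
      rw [Finset.mul_sum]
      refine Finset.sum_congr rfl fun k hk => ?_
      have hk' : k ≤ d := by
        have := Finset.mem_range.1 hk
        omega
      obtain ⟨m, rfl⟩ := Nat.exists_eq_add_of_le hk'
      have e : k + m + 1 - 1 - k = m := by omega
      rw [e, pow_add]
      have e2 : y⁻¹ ^ m * y ^ m = 1 := by
        rw [← mul_pow, inv_mul_cancel₀ hy0, one_pow]
      calc a m * y⁻¹ ^ k = a m * y⁻¹ ^ k * (y⁻¹ ^ m * y ^ m) := by rw [e2, mul_one]
        _ = y⁻¹ ^ k * y⁻¹ ^ m * (a m * y ^ m) := by ring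
    rw [h1, h, mul_zero]
  have h2 := laTame_lower d (fun k => a (d + 1 - 1 - k)) y⁻¹ (by
    rw [norm_inv]
    exact inv_le_one_of_one_le₀ hy) hb
  have h3 : ∑ k ∈ Finset.range (d + 1), ‖a (d + 1 - 1 - k)‖ =
      ∑ k ∈ Finset.range (d + 1), ‖a k‖ :=
    Finset.sum_range_reflect (fun k => ‖a k‖) (d + 1)
  rw [h3, norm_inv] at h2
  have h4 : ‖a (d + 1 - 1 - 0)‖ = ‖a d‖ := by simp
  rw [h4] at h2
  have hy1 : 0 < ‖y‖ := by linarith
  calc ‖a d‖ * ‖y‖ ≤ (‖y‖⁻¹ * ∑ k ∈ Finset.range (d + 1), ‖a k‖) * ‖y‖ :=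
        mul_le_mul_of_nonneg_right h2 hy1.le
    _ = ∑ k ∈ Finset.range (d + 1), ‖a k‖ := by field_simp

/-- OV-18: bounds for algebraic functions of one variable.

Proof. `f ≠ 0` is algebraic over `ℂ[u]`: there are `a_0, …, a_d ∈ ℂ[X]` with `a_0 ≠ 0`, `a_d ≠ 0`,
`d ≥ 1`, `∑ a_k(u) f ^ k = 0` (`IsAlgebraic.exists_nonzero_coeff_and_aeval_eq_zero`; `d ≥ 1` because `u`
is transcendental). For `x = ψ u`, `|x|` large: `|a_0(x)|, |a_d(x)| ≥ κ > 0` and `|a_k(x)| ≤ |x| ^ P`.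
Upper bound: if `|ψ f| > 1` then `|a_d(x)| |ψ f| ≤ ∑_{k < d} |a_k(x)|`. Lower bound: if `|ψ f| < 1` then
`|a_0(x)| ≤ |ψ f| ∑_{k ≥ 1} |a_k(x)|`. -/
theorem la_tame {u f : K} (hu : Transcendental ℂ u) (hf : f ≠ 0) (h : AlgOver u f) :
    ∃ C R : ℝ, ∀ (A : Subalgebra ℂ K) (ψ : K → ℂ), IsHomOn A ψ → u ∈ A → f ∈ A → R ≤ ‖ψ u‖ →
      ‖ψ u‖ ^ (-C) ≤ ‖ψ f‖ ∧ ‖ψ f‖ ≤ ‖ψ u‖ ^ C := by
  classical
  obtain ⟨q, hq0, hqf⟩ := h.exists_nonzero_coeff_and_aeval_eq_zero (mem_nonZeroDivisors_of_ne_zero hf)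
  have hq : q ≠ 0 := fun h0 => hq0 (by rw [h0, Polynomial.coeff_zero])
  have hsurj : ∀ b : Algebra.adjoin ℂ {u}, ∃ a : Polynomial ℂ, Polynomial.aeval u a = (b : K) := by
    rintro ⟨b, hb⟩
    rw [Algebra.adjoin_singleton_eq_range_aeval] at hb
    obtain ⟨a, ha⟩ := hb
    exact ⟨a, ha⟩
  choose g hg using hsurj
  set d := q.natDegree with hd
  set a : ℕ → Polynomial ℂ := fun k => g (q.coeff k) with ha
  have ha0 : a 0 ≠ 0 := by
    intro h0
    have h1 := hg (q.coeff 0)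
    simp only [ha] at h0
    rw [h0, map_zero] at h1
    exact hq0 (Subtype.ext h1.symm)
  have had : a d ≠ 0 := by
    intro h0
    have h1 := hg (q.coeff d)
    simp only [ha] at h0
    rw [h0, map_zero] at h1
    have h2 : q.coeff d = 0 := Subtype.ext h1.symm
    exact hq (Polynomial.leadingCoeff_eq_zero.1 h2)
  have hrel : ∑ k ∈ Finset.range (d + 1), Polynomial.aeval u (a k) * f ^ k = 0 := by
    rw [Polynomial.aeval_eq_sum_range] at hqf
    rw [← hqf]
    refine Finset.sum_congr rfl fun k _ => ?_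
    rw [Algebra.smul_def]
    simp only [ha]
    rw [hg]
    rfl
  obtain ⟨κ0, R0, hκ0, hR0⟩ := laTame_poly_lower (a 0) ha0
  obtain ⟨κ1, R1, hκ1, hR1⟩ := laTame_poly_lower (a d) had
  set P := ∑ k ∈ Finset.range (d + 1), (a k).natDegree with hP
  have hPk : ∀ k ∈ Finset.range (d + 1), (a k).natDegree ≤ P := fun k hk =>
    Finset.single_le_sum (f := fun k => (a k).natDegree) (fun _ _ => Nat.zero_le _) hk
  have hup : ∃ S : ℝ, 0 ≤ S ∧ ∀ x : ℂ, 1 ≤ ‖x‖ →
      ∑ k ∈ Finset.range (d + 1), ‖(a k).eval x‖ ≤ S * ‖x‖ ^ P := by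
    have h1 : ∀ k, ∃ S : ℝ, 0 ≤ S ∧ (k ∈ Finset.range (d + 1) → ∀ x : ℂ, 1 ≤ ‖x‖ →
        ‖(a k).eval x‖ ≤ S * ‖x‖ ^ P) := by
      intro k
      by_cases hk : k ∈ Finset.range (d + 1)
      · obtain ⟨S, hS, hS'⟩ := laTame_poly_upper (a k) P (hPk k hk)
        exact ⟨S, hS, fun _ => hS'⟩
      · exact ⟨0, le_rfl, fun h => absurd h hk⟩
    choose S hS hS' using h1
    refine ⟨∑ k ∈ Finset.range (d + 1), S k, Finset.sum_nonneg fun k _ => hS k, fun x hx => ?_⟩
    rw [Finset.sum_mul]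
    exact Finset.sum_le_sum fun k hk => hS' k hk x hx
  obtain ⟨S, hS, hup⟩ := hup
  refine ⟨P + 1, max (max R0 R1) (max 1 (max (S / κ0) (S / κ1))), ?_⟩
  intro A ψ hψ huA hfA hx
  set x := ψ u with hxdef
  have hx0 : R0 ≤ ‖x‖ := ((le_max_left _ _).trans (le_max_left _ _)).trans hx
  have hx1 : R1 ≤ ‖x‖ := ((le_max_right _ _).trans (le_max_left _ _)).trans hx
  have hx2 : 1 ≤ ‖x‖ := ((le_max_left _ _).trans (le_max_right _ _)).trans hx
  have hx3 : S / κ0 ≤ ‖x‖ :=
    (((le_max_left _ _).trans (le_max_right _ _)).trans (le_max_right _ _)).trans hx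
  have hx4 : S / κ1 ≤ ‖x‖ :=
    (((le_max_right _ _).trans (le_max_right _ _)).trans (le_max_right _ _)).trans hx
  have hxpos : 0 < ‖x‖ := by linarith
  have hev : ∀ b : Polynomial ℂ, Polynomial.aeval u b ∈ A ∧
      ψ (Polynomial.aeval u b) = b.eval x := by
    intro b
    have h1 : Polynomial.aeval u b ∈ A := by
      have : Polynomial.aeval u b ∈ Algebra.adjoin ℂ {u} := by
        rw [Algebra.adjoin_singleton_eq_range_aeval]
        exact ⟨b, rfl⟩
      exact (Algebra.adjoin_le (Set.singleton_subset_iff.2 huA)) this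
    refine ⟨h1, ?_⟩
    obtain ⟨φ, hφ⟩ := hψ
    have h2 : Polynomial.aeval u b =
        ((Polynomial.aeval (⟨u, huA⟩ : A) b : A) : K) := by
      have := Polynomial.aeval_algHom_apply A.val (⟨u, huA⟩ : A) b
      exact this
    rw [h2, hφ, ← Polynomial.aeval_algHom_apply φ, ← hφ, Polynomial.coe_aeval_eq_eval]
  have hrel2 : ∑ k ∈ Finset.range (d + 1), (a k).eval x * (ψ f) ^ k = 0 := by
    have h1 := hψ.sum (Finset.range (d + 1)) (fun k => Polynomial.aeval u (a k) * f ^ k)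
      (fun k _ => A.mul_mem (hev (a k)).1 (A.pow_mem hfA k))
    rw [hrel, hψ.zero] at h1
    rw [h1]
    refine Finset.sum_congr rfl fun k _ => ?_
    rw [hψ.mul (hev (a k)).1 (A.pow_mem hfA k), hψ.pow hfA, (hev (a k)).2]
  have hsum := hup x hx2
  have hrp : ‖x‖ ^ ((P : ℝ) + 1) = ‖x‖ ^ (P + 1) := by
    rw [← Real.rpow_natCast]
    push_cast
    rfl
  have hge1 : 1 ≤ ‖x‖ ^ (P + 1) := one_le_pow₀ hx2
  constructor
  · rw [Real.rpow_neg hxpos.le, hrp]
    by_cases hy : ‖ψ f‖ ≤ 1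
    · have h1 := laTame_lower d (fun k => (a k).eval x) (ψ f) hy hrel2
      have h2 : κ0 ≤ ‖ψ f‖ * (S * ‖x‖ ^ P) :=
        (hR0 x hx0).trans (h1.trans (mul_le_mul_of_nonneg_left hsum (norm_nonneg _)))
      have h3 : S ≤ κ0 * ‖x‖ := by
        rw [div_le_iff₀ hκ0] at hx3
        linarith
      have h4 : κ0 ≤ κ0 * (‖ψ f‖ * ‖x‖ ^ (P + 1)) := by
        calc κ0 ≤ ‖ψ f‖ * (S * ‖x‖ ^ P) := h2
          _ ≤ ‖ψ f‖ * ((κ0 * ‖x‖) * ‖x‖ ^ P) := by
              refine mul_le_mul_of_nonneg_left ?_ (norm_nonneg _)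
              exact mul_le_mul_of_nonneg_right h3 (by positivity)
          _ = κ0 * (‖ψ f‖ * ‖x‖ ^ (P + 1)) := by ring
      have h5 : 1 ≤ ‖ψ f‖ * ‖x‖ ^ (P + 1) := by
        by_contra hcon
        rw [not_le] at hcon
        nlinarith
      rw [inv_le_iff_one_le_mul₀ (by positivity)]
      exact h5
    · rw [not_le] at hy
      exact (inv_le_one_of_one_le₀ hge1).trans hy.le
  · rw [hrp]
    by_cases hy : 1 ≤ ‖ψ f‖
    · have h1 := laTame_upper d (fun k => (a k).eval x) (ψ f) hy hrel2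
      have h2 : κ1 * ‖ψ f‖ ≤ S * ‖x‖ ^ P :=
        (mul_le_mul_of_nonneg_right (hR1 x hx1) (norm_nonneg _)).trans (h1.trans hsum)
      have h3 : S ≤ κ1 * ‖x‖ := by
        rw [div_le_iff₀ hκ1] at hx4
        linarith
      have h4 : κ1 * ‖ψ f‖ ≤ κ1 * ‖x‖ ^ (P + 1) := by
        calc κ1 * ‖ψ f‖ ≤ S * ‖x‖ ^ P := h2
          _ ≤ (κ1 * ‖x‖) * ‖x‖ ^ P := mul_le_mul_of_nonneg_right h3 (by positivity)
          _ = κ1 * ‖x‖ ^ (P + 1) := by ring
      exact le_of_mul_le_mul_left h4 hκ1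
    · rw [not_le] at hy
      exact hy.le.trans hge1

end Pool.Agent.Lib.MP_209724_lc.OV
end

section

namespace Pool.Agent.Lib.MP_209724_lc.OV

open MvPolynomial Filter Topology Metric

variable {K : Type} [Field K] [Algebra ℂ K]

/-- the derivatives of `(β - log ρ)` with respect to `κ` -/
noncomputable def kf (dU : Derivation ℂ K K) (s β ρ : K) : ℕ → K
  | 0 => kD dU s β - kD dU s ρ / ρ
  | l + 1 => kD dU s (kf dU s β ρ l)

theorem laAlg_kD_apply (dU : Derivation ℂ K K) (s f : K) :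
    kD dU s f = (algebraMap ℂ K (2 * Real.pi * Complex.I) * s / (s - dU s)) * dU f := by
  simp only [kD, Derivation.smul_apply, smul_eq_mul]

theorem laAlg_dT_kD {z : Fin 2 → K} (hz : IsBase z) {dU dT : Derivation ℂ K K}
    (hd : IsDual z dU dT) {s f : K} (hs : dT s = 0) (hf : dT f = 0) : dT (kD dU s f) = 0 := by
  have h1 : dT (dU f) = 0 := by rw [← der_comm hz hd, hf, map_zero]
  have h2 : dT (dU s) = 0 := by rw [← der_comm hz hd, hs, map_zero]
  rw [laAlg_kD_apply, Derivation.leibniz, h1, Derivation.leibniz_div, Derivation.leibniz, map_sub,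
    Derivation.map_algebraMap, hs, h2]
  simp

theorem laAlg_dT_kf {z : Fin 2 → K} (hz : IsBase z) {dU dT : Derivation ℂ K K}
    (hd : IsDual z dU dT) {s β ρ : K} (hs : dT s = 0) (hβ : dT β = 0) (hρ : dT ρ = 0) (l : ℕ) :
    dT (kf dU s β ρ l) = 0 := by
  induction l with
  | zero =>
    show dT (kD dU s β - kD dU s ρ / ρ) = 0
    rw [map_sub, Derivation.leibniz_div, laAlg_dT_kD hz hd hs hβ, laAlg_dT_kD hz hd hs hρ, hρ]
    simp
  | succ l ih => exact laAlg_dT_kD hz hd hs ih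

/-- OV-20: the algebraic dichotomy for Lemma A.

Proof. Put `w = 2πi s / (s - dU s)` (the denominator is not zero: if `dU s = s`, contradiction with
`kl`), `kD = w • dU`, `w ≠ 0`. Elements `f` algebraic over `ℂ(u)` satisfy `dT f = 0` (`algOver_iff`), and
`dT (dU f) = dU (dT f) = 0` (`der_comm`), so `dT (kf l) = 0` for all `l` (`dT w = 0` too). Note
`kD u - kD s / s = w (1 - dU s / s) = 2πi`. Suppose `kf l = 0` for some `l`; take the least such `l`.
`l = 0`: `dU β = dU ρ / ρ`, so `β` is constant by `kl_dU` (constants `1, 0`): contradiction with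
`¬ RatLin (z 0) β` (`q = 0`).
`l ≥ 1`: `kD (kf (l - 1)) = 0`, so `dU (kf (l - 1)) = 0`, and `kf (l - 1) = c ∈ ℂ` (`isConst_of`),
`c ≠ 0`; put `p = c / (2πi)`, so `c = p (kD u - kD s / s)`.
If `l = 1`: `kD β - kD ρ / ρ = c = p (kD u - kD s / s)`, so `φ = β - p u` satisfies
`dU φ = dU ρ / ρ - p dU s / s` and is constant by `kl_dU`; if `p` were rational this would contradict
`¬ RatLin (z 0) β`. So the second alternative holds.
If `l ≥ 2`: `h = kf (l - 2)` satisfies `kD h = c`, so `φ = h - p u` satisfies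
`dU φ = - p dU s / s` and is constant by `kl_dU`, hence `dU s = 0` (as `p ≠ 0`) and `s` is constant by
`isConst_of` (`dT s = 0`): contradiction. -/
theorem la_alg {z : Fin 2 → K} (hz : IsBase z) {dU dT : Derivation ℂ K K} (hd : IsDual z dU dT)
    {s β ρ : K} (hs : AlgOver (z 0) s) (hs0 : s ≠ 0) (hsc : ¬ IsConst s) (hβ : AlgOver (z 0) β)
    (hβr : ¬ RatLin (z 0) β) (hρ : AlgOver (z 0) ρ) (hρ0 : ρ ≠ 0) :
    (∀ l, kf dU s β ρ l ≠ 0) ∨
      ∃ c : ℂ, kf dU s β ρ 0 = algebraMap ℂ K c ∧ ¬ ∃ q : ℚ, c = 2 * Real.pi * Complex.I * q := by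
  have hTs : dT s = 0 := (algOver_iff hz hd s).1 hs
  have hTβ : dT β = 0 := (algOver_iff hz hd β).1 hβ
  have hTρ : dT ρ = 0 := (algOver_iff hz hd ρ).1 hρ
  have hD : s - dU s ≠ 0 := by
    intro h
    refine kl hz dU hd.1 hd.2.1 hs0 hs0 1 0 ?_
    rw [← sub_eq_zero.1 h]
    simp [hs0]
  have hpi : (2 * Real.pi * Complex.I : ℂ) ≠ 0 := Complex.two_pi_I_ne_zero
  have hpiK : algebraMap ℂ K (2 * Real.pi * Complex.I) ≠ 0 := by
    rw [Ne, map_eq_zero_iff _ (algebraMap ℂ K).injective]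
    exact hpi
  obtain ⟨w, hwd⟩ : ∃ w, w = algebraMap ℂ K (2 * Real.pi * Complex.I) * s / (s - dU s) := ⟨_, rfl⟩
  have hw : w ≠ 0 := by
    rw [hwd]
    exact div_ne_zero (mul_ne_zero hpiK hs0) hD
  have hk : ∀ f, kD dU s f = w * dU f := fun f => by rw [laAlg_kD_apply, hwd]
  -- `w * (1 - dU s / s) = 2 π i`
  have hwu : w * (1 - dU s / s) = algebraMap ℂ K (2 * Real.pi * Complex.I) := by
    rw [hwd]
    field_simp
  by_cases hall : ∀ l, kf dU s β ρ l ≠ 0
  · exact Or.inl hall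
  right
  push Not at hall
  classical
  obtain ⟨l, hl, hmin⟩ : ∃ l, kf dU s β ρ l = 0 ∧ ∀ m < l, kf dU s β ρ m ≠ 0 :=
    ⟨Nat.find hall, Nat.find_spec hall, fun m hm => Nat.find_min hall hm⟩
  rcases l with _ | l
  · exfalso
    have h1 : kD dU s β - kD dU s ρ / ρ = 0 := hl
    rw [hk, hk, mul_div_assoc, ← mul_sub] at h1
    have h2 : dU β - dU ρ / ρ = 0 := (mul_eq_zero.1 h1).resolve_left hw
    have h3 : IsConst β := kl_dU hz hd hρ0 hρ0 1 0 hTβ (by
      rw [← sub_eq_zero.1 h2]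
      simp)
    obtain ⟨c, hc⟩ := h3
    exact hβr ⟨0, c, by rw [hc]; simp⟩
  · have h1 : kD dU s (kf dU s β ρ l) = 0 := hl
    rw [hk] at h1
    have h2 : dU (kf dU s β ρ l) = 0 := (mul_eq_zero.1 h1).resolve_left hw
    obtain ⟨c, hc⟩ := isConst_of hz hd h2 (laAlg_dT_kf hz hd hTs hTβ hTρ l)
    have hc0 : c ≠ 0 := by
      rintro rfl
      exact hmin l (Nat.lt_succ_self l) (by rw [hc, map_zero])
    obtain ⟨p, hp⟩ : ∃ p : ℂ, c = p * (2 * Real.pi * Complex.I) :=
      ⟨c / (2 * Real.pi * Complex.I), by field_simp⟩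
    have hp0 : p ≠ 0 := by
      rintro rfl
      exact hc0 (by rw [hp, zero_mul])
    have hcK : algebraMap ℂ K c = algebraMap ℂ K p *
        (w * (1 - dU s / s)) := by
      rw [hwu, hp, map_mul]
    rcases l with _ | l
    · refine ⟨c, hc, ?_⟩
      rintro ⟨q, hq⟩
      have h3 : kD dU s β - kD dU s ρ / ρ = algebraMap ℂ K c := hc
      rw [hk, hk, hcK, mul_div_assoc, ← mul_sub, mul_left_comm] at h3
      have h4 : dU β - dU ρ / ρ = algebraMap ℂ K p * (1 - dU s / s) := mul_left_cancel₀ hw h3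
      have h5 : IsConst (β - algebraMap ℂ K p * z 0) := by
        refine kl_dU hz hd hρ0 hs0 1 (-p) ?_ ?_
        · rw [map_sub, Derivation.leibniz, hTβ, hd.2.2.1]
          simp
        · rw [map_sub, Derivation.leibniz, hd.1]
          simp only [smul_eq_mul, Derivation.map_algebraMap, mul_zero, add_zero, mul_one, map_one,
            one_mul, map_neg]
          linear_combination h4
      obtain ⟨c', hc'⟩ := h5
      have hpq : p = q := by
        have h6 : p * (2 * Real.pi * Complex.I) = q * (2 * Real.pi * Complex.I) := by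
          rw [← hp, hq]
          ring
        exact mul_right_cancel₀ hpi h6
      exact hβr ⟨q, c', by rw [← hpq, ← hc']; ring⟩
    · exfalso
      have h3 : kD dU s (kf dU s β ρ l) = algebraMap ℂ K c := hc
      rw [hk, hcK, mul_left_comm] at h3
      have h4 : dU (kf dU s β ρ l) = algebraMap ℂ K p * (1 - dU s / s) := mul_left_cancel₀ hw h3
      have h5 : IsConst (kf dU s β ρ l - algebraMap ℂ K p * z 0) := by
        refine kl_dU hz hd hs0 hs0 (-p) 0 ?_ ?_
        · rw [map_sub, Derivation.leibniz, laAlg_dT_kf hz hd hTs hTβ hTρ l, hd.2.2.1]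
          simp
        · rw [map_sub, Derivation.leibniz, hd.1]
          simp only [smul_eq_mul, Derivation.map_algebraMap, mul_zero, add_zero, mul_one, map_zero,
            zero_mul, map_neg]
          linear_combination h4
      obtain ⟨c', hc'⟩ := h5
      have h6 : dU (kf dU s β ρ l - algebraMap ℂ K p * z 0) = 0 := by
        rw [hc', Derivation.map_algebraMap]
      rw [map_sub, Derivation.leibniz, hd.1, h4] at h6
      simp only [smul_eq_mul, Derivation.map_algebraMap, mul_zero, add_zero, mul_one] at h6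
      have hpK : algebraMap ℂ K p ≠ 0 := by
        rw [Ne, map_eq_zero_iff _ (algebraMap ℂ K).injective]
        exact hp0
      have h7 : algebraMap ℂ K p * (dU s / s) = 0 := by linear_combination -h6
      have h8 : dU s / s = 0 := (mul_eq_zero.1 h7).resolve_left hpK
      have h9 : dU s = 0 := by
        rw [div_eq_zero_iff] at h8
        exact h8.resolve_right hs0
      exact hsc (isConst_of hz hd h9 hTs)

/-- OV-20b: `kf l` is algebraic over `ℂ(u)`. Proof: `dT (kf l) = 0`, see `la_alg`. -/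
theorem algOver_kf {z : Fin 2 → K} (hz : IsBase z) {dU dT : Derivation ℂ K K}
    (hd : IsDual z dU dT) {s β ρ : K} (hs : AlgOver (z 0) s) (hβ : AlgOver (z 0) β)
    (hρ : AlgOver (z 0) ρ) (l : ℕ) : AlgOver (z 0) (kf dU s β ρ l) :=
  (algOver_iff hz hd _).2 (laAlg_dT_kf hz hd ((algOver_iff hz hd s).1 hs)
    ((algOver_iff hz hd β).1 hβ) ((algOver_iff hz hd ρ).1 hρ) l)

end Pool.Agent.Lib.MP_209724_lc.OV
end

section

namespace Pool.Agent.Lib.MP_209724_lc.OV

open MvPolynomial Filter Topology Metric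

variable {K : Type} [Field K] [Algebra ℂ K]

/-- OV-8a: the denominator of `leafD` is not zero. Proof: if `σ = dU σ` then `dU σ / σ = 1`,
contradiction with `kl` (with `c₁ = 1`, `c₂ = 0`). -/
theorem leafD_ne {z : Fin 2 → K} (hz : IsBase z) {dU dT : Derivation ℂ K K}
    (hd : IsDual z dU dT) {σ : K} (hσ : σ ≠ 0) : σ - dU σ ≠ 0 := by
  intro h
  refine kl hz dU hd.1 hd.2.1 hσ hσ 1 0 ?_
  rw [← sub_eq_zero.1 h]
  simp [hσ]

/-- OV-8: a special case of Ax's theorem. If, along the leaves `exp u = σ(u, τ)`, the exponential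
of `X ∈ K` is algebraic, then `X ∈ ℚ u + ℂ`, or `σ` and `X` are algebraic over `ℂ(u)`.

Proof. Write `f_u = dU f`, `f_τ = dT f`. The hypothesis says, after multiplication by
`(σ - σ_u) / τ` (nonzero by `leafD_ne`), `(σ - σ_u) P + σ_τ Q = 0` with `P = X_τ - ρ_τ / ρ`,
`Q = X_u - ρ_u / ρ`.
Case 1, `σ_τ = 0`. Then `σ` is algebraic over `ℂ(u)` (`algOver_iff`) and `P = 0`: `X_τ = ρ_τ / ρ`. If
`X_τ ≠ 0`, then `![X, z 0]` is a basis (`isBase_of_dT`) and `E = X_τ⁻¹ • dT` has `E X = 1`, `E u = 0`,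
`E ρ / ρ = 1`: contradiction with `kl`. So `X_τ = 0` and `X` is algebraic over `ℂ(u)`.
Case 2, `σ_τ ≠ 0`. Put `a = - σ_τ / σ ≠ 0`, `b = 1 - σ_u / σ ≠ 0`, `f = Q / b`; then `Q = f b`, `P = f a`.
As `dU`, `dT` commute (`der_comm`), `P_u = Q_τ` and `a_u = b_τ` (computation with the quotient rule),
hence `f_u a = f_τ b`.
Case 2a, `f` not constant: `f_τ ≠ 0` (otherwise `f_u a = 0`, `f_u = 0`, `f` constant by `isConst_of`).
So `![f, z 0]` is a basis (`isBase_of_dT`), hence `![z 0, f]` (`isBase_swap`). The derivation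
`E = dU - (f_u / f_τ) • dT` has `E u = 1`, `E f = 0` and
`E σ / σ = σ_u / σ - (f_u / f_τ) σ_τ / σ = σ_u / σ + (f_u / f_τ) a = σ_u / σ + b = 1`: contradiction with
`kl`.
Case 2b, `f = c ∈ ℂ`: put `φ = X - c u`. Then `φ_τ = ρ_τ / ρ - c σ_τ / σ` and
`φ_u = ρ_u / ρ - c σ_u / σ`, so `φ` is a constant by `kl_d` (constants `1`, `-c`), `X = c u + φ`. Then
`ρ_τ / ρ = c σ_τ / σ` and `ρ_u / ρ = c σ_u / σ`, so by `der_eq` the hypothesis of `kl_rat` holds
(`σ` is not constant as `σ_τ ≠ 0`) and `c ∈ ℚ`: `X ∈ ℚ u + ℂ`. -/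
theorem ax {z : Fin 2 → K} (hz : IsBase z) {dU dT : Derivation ℂ K K} (hd : IsDual z dU dT)
    {σ : K} (hσ : σ ≠ 0) {X ρ : K} (hρ : ρ ≠ 0)
    (h : leafD z dU dT σ X = leafD z dU dT σ ρ / ρ) :
    RatLin (z 0) X ∨ (AlgOver (z 0) σ ∧ AlgOver (z 0) X) := by
  have hw : σ - dU σ ≠ 0 := leafD_ne hz hd hσ
  obtain ⟨hd1, hd2, hd3, hd4⟩ := id hd
  have hT0 : z 1 ≠ 0 := by
    intro h0
    rw [h0, map_zero] at hd4
    exact zero_ne_one hd4
  have hsm : ∀ Y : K, leafD z dU dT σ Y = z 1 * dT Y + (z 1 * dT σ / (σ - dU σ)) * dU Y := by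
    intro Y
    rfl
  rw [hsm, hsm] at h
  have key : (σ - dU σ) * (dT X - dT ρ / ρ) + dT σ * (dU X - dU ρ / ρ) = 0 := by
    field_simp at h ⊢
    linear_combination h
  by_cases hσt : dT σ = 0
  · -- case 1
    right
    have hP : dT X - dT ρ / ρ = 0 := by
      rw [hσt, zero_mul, add_zero] at key
      exact (mul_eq_zero.1 key).resolve_left hw
    refine ⟨(algOver_iff hz hd σ).2 hσt, (algOver_iff hz hd X).2 ?_⟩
    by_contra hX
    refine kl (isBase_of_dT hz hd hX) ((dT X)⁻¹ • dT) ?_ ?_ hρ hρ 1 0 ?_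
    · simp [hX]
    · simp [hd3]
    · have h2 : dT ρ / ρ = dT X := (sub_eq_zero.1 hP).symm
      simp only [Derivation.smul_apply, smul_eq_mul, map_one, one_mul, map_zero, zero_mul, add_zero]
      rw [mul_div_assoc, h2, inv_mul_cancel₀ hX]
  · -- case 2
    left
    set a : K := -(dT σ) / σ with ha
    set b : K := 1 - dU σ / σ with hb
    have ha0 : a ≠ 0 := by
      rw [ha]
      exact div_ne_zero (neg_ne_zero.2 hσt) hσ
    have hbw : b = (σ - dU σ) / σ := by
      rw [hb]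
      field_simp
    have hb0 : b ≠ 0 := by
      rw [hbw]
      exact div_ne_zero hw hσ
    set f : K := (dU X - dU ρ / ρ) / b with hf
    have hQ : dU X - dU ρ / ρ = f * b := by
      rw [hf, div_mul_cancel₀ _ hb0]
    have hP : dT X - dT ρ / ρ = f * a := by
      have h3 : (σ - dU σ) = b * σ := by
        rw [hbw, div_mul_cancel₀ _ hσ]
      have h4 : dT σ = -(a * σ) := by
        rw [ha, div_mul_cancel₀ _ hσ, neg_neg]
      rw [hQ, h3, h4] at key
      have h5 : (b * σ) * ((dT X - dT ρ / ρ) - f * a) = 0 := by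
        linear_combination key
      exact sub_eq_zero.1 ((mul_eq_zero.1 h5).resolve_left (mul_ne_zero hb0 hσ))
    have hcomm : ∀ g : K, dU (dT g) = dT (dU g) := fun g => der_comm hz hd g
    have hlog : ∀ g : K, dU (dT g / g) = dT (dU g / g) := by
      intro g
      rw [Derivation.leibniz_div, Derivation.leibniz_div, hcomm]
      simp only [smul_eq_mul]
      ring
    have hPQ : dU (f * a) = dT (f * b) := by
      rw [← hP, ← hQ, map_sub, map_sub, hlog, hcomm]
    have hab : dU a = dT b := by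
      rw [ha, hb, neg_div, map_neg, map_sub, hlog, Derivation.map_one_eq_zero, zero_sub]
    have hfab : dU f * a = dT f * b := by
      rw [Derivation.leibniz, Derivation.leibniz, hab] at hPQ
      simp only [smul_eq_mul] at hPQ
      linear_combination hPQ
    by_cases hfc : IsConst f
    · -- case 2b
      obtain ⟨c, hc⟩ := hfc
      have hU : dU (X - algebraMap ℂ K c * z 0) = algebraMap ℂ K 1 * (dU ρ / ρ) +
          algebraMap ℂ K (-c) * (dU σ / σ) := by
        rw [map_sub, Derivation.leibniz, Derivation.map_algebraMap, hd1]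
        simp only [smul_eq_mul, mul_one, mul_zero, add_zero, map_one, map_neg, one_mul]
        rw [hc, hb] at hQ
        linear_combination hQ
      have hT : dT (X - algebraMap ℂ K c * z 0) = algebraMap ℂ K 1 * (dT ρ / ρ) +
          algebraMap ℂ K (-c) * (dT σ / σ) := by
        rw [map_sub, Derivation.leibniz, Derivation.map_algebraMap, hd3]
        simp only [smul_eq_mul, mul_zero, add_zero, map_one, map_neg, one_mul, sub_zero]
        rw [hc, ha, neg_div] at hP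
        linear_combination hP
      obtain ⟨C, hC⟩ := kl_d hz hd hρ hσ 1 (-c) hU hT
      rw [hC, Derivation.map_algebraMap] at hU hT
      have hρσ : ∀ E : Derivation ℂ K K, E ρ / ρ = algebraMap ℂ K c * (E σ / σ) := by
        intro E
        rw [der_eq hz hd E ρ, der_eq hz hd E σ]
        simp only [map_one, map_neg, one_mul] at hU hT
        rw [add_div, add_div, mul_div_assoc, mul_div_assoc, mul_div_assoc, mul_div_assoc]
        linear_combination (-E (z 0)) * hU - E (z 1) * hT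
      have hσc : ¬ IsConst σ := by
        rintro ⟨c', hc'⟩
        exact hσt (by rw [hc', Derivation.map_algebraMap])
      obtain ⟨q, hq⟩ := kl_rat hz hρ hσc c hρσ
      exact ⟨q, C, by rw [← hC, hq]; ring⟩
    · -- case 2a
      exfalso
      have hft : dT f ≠ 0 := by
        intro h0
        rw [h0, zero_mul] at hfab
        exact hfc (isConst_of hz hd ((mul_eq_zero.1 hfab).resolve_right ha0) h0)
      refine kl (isBase_swap (isBase_of_dT hz hd hft)) (dU - (dU f / dT f) • dT) ?_ ?_ hσ hσ 1 0 ?_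
      · simp [hd1, hd3]
      · simp [hft]
      · simp only [Derivation.sub_apply, Derivation.smul_apply, smul_eq_mul, map_one, one_mul,
          map_zero, zero_mul, add_zero]
        have h6 : dU f / dT f * a = b := by
          rw [div_mul_eq_mul_div, hfab, mul_div_cancel_left₀ _ hft]
        have h7 : (dU σ - dU f / dT f * dT σ) / σ = dU σ / σ + dU f / dT f * a := by
          rw [ha]
          ring
        rw [h7, h6, hb]
        ring

end Pool.Agent.Lib.MP_209724_lc.OV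
end

section

/-!
Monomials which are algebraic over the function field of the projection.
-/

namespace Pool.Agent.Lib.MP_209724_lc.HS

open MvPolynomial

variable {n : ℕ}

/-- The monomial `y ^ m` is algebraic over the field of rational functions of the projection to
the `x`-space: on the set of zeros `(x, y)` of `Q` with nonzero `y i` it satisfies an equation with
coefficients in `ℂ[x]` which are not all in `Q`. -/
def AlgMon (Q : Ideal (MvPolynomial (Fin n) (MvPolynomial (Fin n) ℂ))) (m : Fin n → ℤ) : Prop :=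
  ∃ F : Polynomial (MvPolynomial (Fin n) ℂ), (∃ j, C (F.coeff j) ∉ Q) ∧
    ∀ x y : Fin n → ℂ, (∀ i, y i ≠ 0) → (∀ f ∈ Q, eval y (map (eval x) f) = 0) →
      (F.map (eval x)).eval (∏ i, y i ^ m i) = 0

private theorem algMon_rel {L : Type} [Field L] [Algebra ℂ L] (ξ : Fin n → L) (y : L)
    (h : IsAlgebraic (IntermediateField.adjoin ℂ (Set.range ξ)) y) :
    ∃ (T : Finset ℕ) (c : ℕ → MvPolynomial (Fin n) ℂ), T.Nonempty ∧
      (∀ t ∈ T, aeval ξ (c t) ≠ 0) ∧ ∑ t ∈ T, aeval ξ (c t) * y ^ t = 0 := by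
  obtain ⟨P, hP0, hP⟩ := h
  obtain ⟨c, p, hc, hp⟩ := MV.denom_finset ξ (fun k => P.coeff k) P.support
  refine ⟨P.support, p, Polynomial.support_nonempty.2 hP0, ?_, ?_⟩
  · intro t ht
    rw [hp t ht]
    refine mul_ne_zero hc ?_
    intro h0
    exact (Polynomial.mem_support_iff.1 ht) (Subtype.ext h0)
  · rw [Polynomial.aeval_def, Polynomial.eval₂_eq_sum, Polynomial.sum_def] at hP
    have h1 : ∑ t ∈ P.support, aeval ξ (p t) * y ^ t = aeval ξ c * ∑ t ∈ P.support,
        algebraMap (IntermediateField.adjoin ℂ (Set.range ξ)) L (P.coeff t) * y ^ t := by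
      rw [Finset.mul_sum]
      refine Finset.sum_congr rfl fun t ht => ?_
      rw [hp t ht, mul_assoc]
      rfl
    rw [h1, hP, mul_zero]

/-- the exponent of `y i` after clearing denominators -/
private def ex (m : Fin n → ℤ) (N t : ℕ) (i : Fin n) : ℕ := (t * m i + N * |m i|).toNat

private theorem ex_eq (m : Fin n → ℤ) {N t : ℕ} (h : t ≤ N) (i : Fin n) :
    ((ex m N t i : ℕ) : ℤ) = t * m i + N * |m i| := by
  unfold ex
  rw [Int.toNat_of_nonneg]
  have h1 : -|m i| ≤ m i := neg_abs_le _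
  have h2 : (t : ℤ) ≤ N := by exact_mod_cast h
  have h3 : (0 : ℤ) ≤ |m i| := abs_nonneg _
  have h4 : (0 : ℤ) ≤ t := Int.natCast_nonneg t
  nlinarith

private theorem prod_ex {K : Type*} [Field K] (m : Fin n → ℤ) {N t : ℕ} (h : t ≤ N)
    (y : Fin n → K) (hy : ∀ i, y i ≠ 0) :
    ∏ i, y i ^ ex m N t i = (∏ i, y i ^ m i) ^ t * ∏ i, y i ^ (N * |m i|) := by
  rw [← Finset.prod_pow, ← Finset.prod_mul_distrib]
  refine Finset.prod_congr rfl fun i _ => ?_
  rw [← zpow_natCast (y i) (ex m N t i), ex_eq m h, zpow_add₀ (hy i), mul_comm (t : ℤ),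
    zpow_mul, zpow_natCast]

theorem algMon_of_isAlgebraic {L : Type} [Field L] [Algebra ℂ L]
    (π : MvPolynomial (Fin n) (MvPolynomial (Fin n) ℂ) →ₐ[ℂ] L)
    (Q : Ideal (MvPolynomial (Fin n) (MvPolynomial (Fin n) ℂ)))
    (hπ0 : ∀ f, π f = 0 ↔ f ∈ Q) (hη0 : ∀ i, π (X i) ≠ 0) (m : Fin n → ℤ)
    (h : IsAlgebraic (IntermediateField.adjoin ℂ (Set.range fun i => π (C (X i))))
      (∏ i, π (X i) ^ m i)) : AlgMon Q m := by
  classical
  obtain ⟨T, c, ⟨t₀, ht₀⟩, hc, hsum⟩ := algMon_rel _ _ h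
  set N : ℕ := T.sup id with hN
  have hTN : ∀ t ∈ T, t ≤ N := fun t ht => Finset.le_sup (f := id) ht
  set F : Polynomial (MvPolynomial (Fin n) ℂ) := ∑ t ∈ T, Polynomial.monomial t (c t) with hF
  have hFc : ∀ j, F.coeff j = if j ∈ T then c j else 0 := by
    intro j
    rw [hF, Polynomial.finsetSum_coeff]
    simp only [Polynomial.coeff_monomial]
    rw [Finset.sum_ite_eq']
  refine ⟨F, ⟨t₀, ?_⟩, ?_⟩
  · rw [hFc, if_pos ht₀, ← hπ0, MV.pi_C]
    exact hc t₀ ht₀
  intro x y hy hQ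
  set f : MvPolynomial (Fin n) (MvPolynomial (Fin n) ℂ) :=
    ∑ t ∈ T, C (c t) * ∏ i, X i ^ ex m N t i with hf
  have hfQ : f ∈ Q := by
    rw [← hπ0, hf, map_sum]
    have h1 : ∀ t ∈ T, π (C (c t) * ∏ i, X i ^ ex m N t i) =
        aeval (fun i => π (C (X i))) (c t) * (∏ i, π (X i) ^ m i) ^ t *
          ∏ i, π (X i) ^ (N * |m i|) := by
      intro t ht
      rw [map_mul, MV.pi_C, map_prod]
      simp only [map_pow]
      rw [prod_ex m (hTN t ht) _ hη0, mul_assoc]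
    rw [Finset.sum_congr rfl h1, ← Finset.sum_mul, hsum, zero_mul]
  have h2 := hQ f hfQ
  rw [hf, map_sum, map_sum] at h2
  have h3 : ∀ t ∈ T, eval y (map (eval x) (C (c t) * ∏ i, X i ^ ex m N t i)) =
      eval x (c t) * (∏ i, y i ^ m i) ^ t * ∏ i, y i ^ (N * |m i|) := by
    intro t ht
    rw [map_mul, map_mul, map_C, eval_C, map_prod, map_prod]
    simp only [map_pow, map_X, eval_X]
    rw [prod_ex m (hTN t ht) _ hy, mul_assoc]
  rw [Finset.sum_congr rfl h3, ← Finset.sum_mul] at h2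
  have h4 : ∏ i, y i ^ (N * |m i|) ≠ 0 :=
    Finset.prod_ne_zero_iff.2 fun i _ => zpow_ne_zero _ (hy i)
  have h5 := (mul_eq_zero.1 h2).resolve_right h4
  rw [hF, Polynomial.map_sum, Polynomial.eval_finsetSum, ← h5]
  refine Finset.sum_congr rfl fun t _ => ?_
  rw [Polynomial.map_monomial, Polynomial.eval_monomial]

end Pool.Agent.Lib.MP_209724_lc.HS
end

section

namespace Pool.Agent.Lib.MP_209724_lc.OV

open MvPolynomial Filter Topology Metric

theorem constDir_preconnected_strip : IsPreconnected strip := by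
  have h : Convex ℝ strip := by
    intro x hx y hy a b ha hb hab
    obtain ⟨hx1, hx2⟩ := hx
    obtain ⟨hy1, hy2⟩ := hy
    rw [abs_lt] at hx1 hx2 hy1 hy2
    have e1 : (a • x + b • y).re = a * x.re + b * y.re := by simp
    have e2 : (a • x + b • y).im = a * x.im + b * y.im := by simp
    refine ⟨?_, ?_⟩
    · rw [e1, abs_lt]
      have h1 : a = 1 - b := by linarith
      subst h1
      rcases hb.eq_or_lt with h2 | h2
      · subst h2
        constructor <;> nlinarith [hx1.1, hx1.2]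
      · constructor <;> nlinarith [mul_nonneg ha (sub_nonneg.2 hx1.1.le),
          mul_nonneg ha (sub_nonneg.2 hx1.2.le), mul_pos h2 (sub_pos.2 hy1.1),
          mul_pos h2 (sub_pos.2 hy1.2)]
    · rw [e2, abs_lt]
      have h1 : a = 1 - b := by linarith
      subst h1
      rcases hb.eq_or_lt with h2 | h2
      · subst h2
        constructor <;> nlinarith [hx2.1, hx2.2]
      · constructor <;> nlinarith [mul_nonneg ha (sub_nonneg.2 hx2.1.le),
          mul_nonneg ha (sub_nonneg.2 hx2.2.le), mul_pos h2 (sub_pos.2 hy2.1),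
          mul_pos h2 (sub_pos.2 hy2.2)]
  exact h.isPreconnected

theorem constDir_sep {q : Type} (Bs : Finset (q → ℂ)) :
    ∃ δ₀ : ℝ, 0 < δ₀ ∧ ∀ b ∈ Bs, ∀ b' ∈ Bs, (∀ i, ‖b i - b' i‖ ≤ 2 * δ₀) → b = b' := by
  have h : ∀ᶠ δ in 𝓝[>] (0 : ℝ), ∀ b ∈ Bs, ∀ b' ∈ Bs, (∀ i, ‖b i - b' i‖ ≤ 2 * δ) → b = b' := by
    rw [Filter.eventually_all_finset]
    intro b _
    rw [Filter.eventually_all_finset]
    intro b' _
    by_cases hb : b = b'
    · exact Eventually.of_forall fun _ _ => hb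
    · obtain ⟨i, hi⟩ : ∃ i, b i ≠ b' i := by
        by_contra hc
        push Not at hc
        exact hb (funext hc)
      have h1 : 0 < ‖b i - b' i‖ / 2 := by
        have := norm_pos_iff.mpr (sub_ne_zero.mpr hi)
        linarith
      filter_upwards [Ioo_mem_nhdsGT h1] with δ hδ hall
      have h2 := hall i
      linarith [hδ.2]
  obtain ⟨δ, h1, h2⟩ := (h.and self_mem_nhdsWithin).exists
  exact ⟨δ, h2, h1⟩

theorem constDir_close {a a' t w : ℂ} {δ : ℝ} (ht : t ≠ 0) (h1 : ‖w - a * t‖ ≤ δ * ‖t‖)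
    (h2 : ‖w - a' * t‖ ≤ δ * ‖t‖) : ‖a - a'‖ ≤ 2 * δ := by
  have h3 : 0 < ‖t‖ := norm_pos_iff.mpr ht
  have h4 : ‖(a - a') * t‖ ≤ ‖w - a' * t‖ + ‖w - a * t‖ := by
    have : (a - a') * t = (w - a' * t) - (w - a * t) := by ring
    rw [this]
    exact norm_sub_le _ _
  rw [norm_mul] at h4
  by_contra hc
  push Not at hc
  nlinarith

/-- OV-16: the direction is constant along a subsequence.

Proof. If `Bs = ∅` the hypothesis is contradictory (`strip` contains `0`). Let `δ₀ > 0` be such that for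
`b ≠ b'` in `Bs` there is `i` with `|b_i - b'_i| > 2 δ₀`. For `j ≥ j₀` (from the hypothesis for `δ₀`,
and such that `ω j`, `τ j` are continuous on `strip` and `τ j` has no zero there) the sets
`U_b = {ζ ∈ strip : ∀ i, |ω j ζ i - b_i τ j ζ| ≤ δ₀ |τ j ζ|}`, `b ∈ Bs`, are relatively closed in
`strip`, pairwise disjoint and cover `strip`; as `strip` is connected (convex), `strip = U_b` for exactly
one `b = β(j)`. As `Bs` is finite there are `b ∈ Bs` and a strictly increasing `φ` with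
`β(φ k) = b` for all `k`. Given `δ > 0`, apply the hypothesis to `min δ δ₀`: for large `k`, each
`ζ ∈ strip` has some `b' ∈ Bs` with `|ω_i - b'_i τ| ≤ min δ δ₀ |τ|`; then `ζ ∈ U_{b'} ∩ U_b`, so
`b' = b`. -/
theorem const_dir {q : Type} [Fintype q] (Bs : Finset (q → ℂ)) (ω : ℕ → ℂ → q → ℂ)
    (τ : ℕ → ℂ → ℂ) (hω : ∀ᶠ j in atTop, ∀ i, ContinuousOn (fun ζ => ω j ζ i) strip)
    (hτ : ∀ᶠ j in atTop, ContinuousOn (τ j) strip) (hτ0 : ∀ᶠ j in atTop, ∀ ζ ∈ strip, τ j ζ ≠ 0)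
    (h : ∀ δ : ℝ, 0 < δ → ∀ᶠ j in atTop, ∀ ζ ∈ strip, ∃ b ∈ Bs, ∀ i,
      ‖ω j ζ i - b i * τ j ζ‖ ≤ δ * ‖τ j ζ‖) :
    ∃ b ∈ Bs, ∃ φ : ℕ → ℕ, StrictMono φ ∧ ∀ δ : ℝ, 0 < δ → ∀ᶠ k in atTop, ∀ ζ ∈ strip, ∀ i,
      ‖ω (φ k) ζ i - b i * τ (φ k) ζ‖ ≤ δ * ‖τ (φ k) ζ‖ := by
  classical
  obtain ⟨δ₀, hδ₀, hsep⟩ := constDir_sep Bs
  have h0 : (0 : ℂ) ∈ strip := by
    constructor <;> simp
  have hev : ∀ᶠ j in atTop, ∃ b ∈ Bs, ∀ ζ ∈ strip, ∀ i,
      ‖ω j ζ i - b i * τ j ζ‖ ≤ δ₀ * ‖τ j ζ‖ := by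
    filter_upwards [hω, hτ, hτ0, h δ₀ hδ₀] with j h1 h2 h3 h4
    obtain ⟨b, hb, hb0⟩ := h4 0 h0
    refine ⟨b, hb, ?_⟩
    have hpc : PreconnectedSpace strip := Subtype.preconnectedSpace constDir_preconnected_strip
    let C : (q → ℂ) → Set strip := fun b => {x | ∀ i, ‖ω j x i - b i * τ j x‖ ≤ δ₀ * ‖τ j x‖}
    have hcl : ∀ b, IsClosed (C b) := by
      intro b
      have : C b = ⋂ i, {x : strip | ‖ω j x i - b i * τ j x‖ ≤ δ₀ * ‖τ j x‖} := by
        ext x
        simp [C]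
      rw [this]
      apply isClosed_iInter
      intro i
      have c1 : Continuous fun x : strip => ω j x i := continuousOn_iff_continuous_restrict.mp (h1 i)
      have c2 : Continuous fun x : strip => τ j x := continuousOn_iff_continuous_restrict.mp h2
      exact isClosed_le (c1.sub (continuous_const.mul c2)).norm (continuous_const.mul c2.norm)
    have hdisj : ∀ b ∈ Bs, ∀ b' ∈ Bs, ∀ x : strip, x ∈ C b → x ∈ C b' → b = b' := by
      intro b hb b' hb' x hx hx'
      apply hsep b hb b' hb'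
      intro i
      exact constDir_close (h3 x x.2) (hx i) (hx' i)
    have hclopen : IsClopen (C b) := by
      refine ⟨hcl b, ?_⟩
      have : C b = (⋃ b' ∈ Bs.erase b, C b')ᶜ := by
        ext x
        simp only [Set.mem_compl_iff, Set.mem_iUnion, not_exists]
        constructor
        · intro hx b' hb' hx'
          rw [Finset.mem_erase] at hb'
          exact hb'.1 (hdisj b hb b' hb'.2 x hx hx').symm
        · intro hx
          obtain ⟨b', hb', hb2⟩ := h4 x x.2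
          by_cases hbb : b' = b
          · subst hbb
            exact hb2
          · exact absurd hb2 (hx b' (Finset.mem_erase.mpr ⟨hbb, hb'⟩))
      rw [this, isOpen_compl_iff]
      exact isClosed_biUnion_finset fun b' _ => hcl b'
    have huniv : C b = Set.univ := hclopen.eq_univ ⟨⟨0, h0⟩, hb0⟩
    intro ζ hζ i
    have : (⟨ζ, hζ⟩ : strip) ∈ C b := by
      rw [huniv]
      trivial
    exact this i
  obtain ⟨b, hb, hfr⟩ : ∃ b ∈ Bs, ∃ᶠ j in atTop, ∀ ζ ∈ strip, ∀ i,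
      ‖ω j ζ i - b i * τ j ζ‖ ≤ δ₀ * ‖τ j ζ‖ := by
    by_contra hc
    have hc' : ∀ᶠ j in atTop, ∀ b ∈ Bs, ¬ ∀ ζ ∈ strip, ∀ i,
        ‖ω j ζ i - b i * τ j ζ‖ ≤ δ₀ * ‖τ j ζ‖ := by
      rw [Filter.eventually_all_finset]
      intro b hb
      exact Filter.not_frequently.mp (fun hf => hc ⟨b, hb, hf⟩)
    obtain ⟨j, ⟨b, hb, h1⟩, h2⟩ := (hev.and hc').exists
    exact h2 b hb h1
  obtain ⟨φ, hφ, hP⟩ := extraction_of_frequently_atTop hfr
  refine ⟨b, hb, φ, hφ, fun δ hδ => ?_⟩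
  have h5 := h (min δ δ₀) (lt_min hδ hδ₀)
  have h6 := hφ.tendsto_atTop.eventually (h5.and hτ0)
  filter_upwards [h6] with k hk ζ hζ i
  obtain ⟨b', hb', hb2⟩ := hk.1 ζ hζ
  have h7 : b = b' := by
    apply hsep b hb b' hb'
    intro i
    refine constDir_close (hk.2 ζ hζ) (hP k ζ hζ i) ((hb2 i).trans ?_)
    exact mul_le_mul_of_nonneg_right (min_le_right _ _) (norm_nonneg _)
  rw [h7]
  exact (hb2 i).trans (mul_le_mul_of_nonneg_right (min_le_left _ _) (norm_nonneg _))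

end Pool.Agent.Lib.MP_209724_lc.OV
end
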