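import Mathlib
import Pool.Agent.Lib.MP_209724_lc.OV.Defs
import Pool.Agent.Lib.MP_209724_lc.SC.FF3
import Pool.Agent.Lib.MP_209724_lc.MV.Idem
import Pool.Agent.Lib.MP_209724_lc.SC.Ed10

section

namespace Pool.Agent.Lib.MP_209724_lc.OV

open MvPolynomial Filter Topology Metric

theorem edge_re (l : ℂ) (θ : ℝ) (w : ℂ) :
    (l * Complex.exp (θ * Complex.I + w)).re = Real.exp w.re *
      ((l * Complex.exp (θ * Complex.I)).re * Real.cos w.im -
        (l * Complex.exp (θ * Complex.I)).im * Real.sin w.im) := by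
  rw [Complex.exp_add, ← mul_assoc, Complex.mul_re, Complex.exp_re, Complex.exp_im]
  ring

theorem edge_tie (Λ : Finset ℂ) (h : 1 < Λ.card) : ∃ θ : ℝ, |θ| ≤ Real.pi ∧
    ∃ l₀ ∈ Λ, ∃ l₁ ∈ Λ, l₀ ≠ l₁ ∧
      (∀ l ∈ Λ, (l * Complex.exp (θ * Complex.I)).re ≤ (l₀ * Complex.exp (θ * Complex.I)).re) ∧
      (∀ l ∈ Λ, (l * Complex.exp (θ * Complex.I)).re ≤ (l₁ * Complex.exp (θ * Complex.I)).re) := by
  classical
  have hne : Λ.Nonempty := Finset.card_pos.1 (by omega)
  obtain ⟨F, hF⟩ : ∃ F : ℂ → ℝ → ℝ, ∀ l θ, F l θ = (l * Complex.exp (θ * Complex.I)).re :=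
    ⟨_, fun _ _ => rfl⟩
  have hc : ∀ l, Continuous (F l) := by
    intro l
    have : F l = fun θ : ℝ => (l * Complex.exp (θ * Complex.I)).re := funext fun θ => hF l θ
    rw [this]
    fun_prop
  obtain ⟨A, hA⟩ : ∃ A : ℂ → Set ℝ, ∀ l θ, θ ∈ A l ↔ ∀ l' ∈ Λ, F l' θ ≤ F l θ :=
    ⟨fun l => {θ | ∀ l' ∈ Λ, F l' θ ≤ F l θ}, fun _ _ => Iff.rfl⟩
  have hcl : ∀ l, IsClosed (A l) := by
    intro l
    have : A l = ⋂ l' ∈ Λ, {θ | F l' θ ≤ F l θ} := by
      ext θ
      simp only [hA, Set.mem_iInter]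
      rfl
    rw [this]
    exact isClosed_biInter fun l' _ => isClosed_le (hc l') (hc l)
  have hex : ∀ θ, ∃ l ∈ Λ, θ ∈ A l := by
    intro θ
    obtain ⟨l, hl, h1⟩ := Finset.exists_max_image Λ (fun l => F l θ) hne
    exact ⟨l, hl, (hA l θ).2 h1⟩
  obtain ⟨l₀, hl₀, h0⟩ := hex 0
  obtain ⟨l₂, hl₂, hne'⟩ := Finset.exists_mem_ne h l₀
  have hclB : IsClosed (⋃ l ∈ Λ.erase l₀, A l) := by
    have := (Λ.erase l₀).finite_toSet.isClosed_biUnion (f := A) fun l _ => hcl l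
    exact this
  have hpi := Real.pi_pos
  obtain ⟨θ, hθ, hθ0, hθ1⟩ := isPreconnected_closed_iff.1
    (isPreconnected_Icc (a := -Real.pi) (b := Real.pi)) (A l₀) (⋃ l ∈ Λ.erase l₀, A l)
    (hcl l₀) hclB (by
      intro θ _
      obtain ⟨l, hl, h1⟩ := hex θ
      rcases eq_or_ne l l₀ with h2 | h2
      · left
        rw [← h2]
        exact h1
      · right
        exact Set.mem_biUnion (Finset.mem_coe.2 (Finset.mem_erase.2 ⟨h2, hl⟩)) h1)
    ⟨0, ⟨by linarith, by linarith⟩, h0⟩ (by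
      have h3 : l₂ - l₀ ≠ 0 := sub_ne_zero.2 hne'
      refine ⟨-Complex.arg (l₂ - l₀), ⟨?_, ?_⟩, ?_⟩
      · have := Complex.arg_le_pi (l₂ - l₀)
        linarith
      · have := Complex.neg_pi_lt_arg (l₂ - l₀)
        linarith
      · obtain ⟨l, hl, h1⟩ := hex (-Complex.arg (l₂ - l₀))
        refine Set.mem_biUnion (Finset.mem_coe.2 (Finset.mem_erase.2 ⟨?_, hl⟩)) h1
        rintro rfl
        have h4 := (hA l _).1 h1 l₂ hl₂
        rw [hF, hF] at h4
        have h5 : (l₂ - l) * Complex.exp (((-Complex.arg (l₂ - l) : ℝ) : ℂ) * Complex.I) =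
            (‖l₂ - l‖ : ℂ) := by
          have h8 := Complex.norm_mul_exp_arg_mul_I (l₂ - l)
          obtain ⟨a, ha⟩ : ∃ a, a = Complex.arg (l₂ - l) := ⟨_, rfl⟩
          rw [← ha] at h8 ⊢
          rw [← h8, mul_assoc, ← Complex.exp_add, h8]
          push_cast
          rw [show (a : ℂ) * Complex.I + -(a : ℂ) * Complex.I = 0 by ring, Complex.exp_zero, mul_one]
        have h6 := congrArg Complex.re h5
        rw [sub_mul, Complex.sub_re, Complex.ofReal_re] at h6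
        have h7 : 0 < ‖l₂ - l‖ := norm_pos_iff.2 h3
        linarith)
  obtain ⟨l₁, hl₁, h1⟩ := Set.mem_iUnion₂.1 hθ1
  refine ⟨θ, abs_le.2 ⟨hθ.1, hθ.2⟩, l₀, hl₀, l₁, (Finset.mem_erase.1 hl₁).2,
    (Finset.mem_erase.1 hl₁).1.symm, ?_, ?_⟩
  · intro l hl
    have := (hA l₀ θ).1 hθ0 l hl
    rwa [hF, hF] at this
  · intro l hl
    have := (hA l₁ θ).1 h1 l hl
    rwa [hF, hF] at this

/-- OV-14: a direction in which two frequencies compete.

Proof. For real `θ` let `m(θ) = max_{l ∈ Λ} Re (l e^{iθ})`. There is `θ ∈ [-π, π]` such that the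
maximum is attained by at least two elements of `Λ`: otherwise the maximizer is unique for every
`θ ∈ [-π, π]`, hence locally constant, hence constant on `[-π, π]`, say `l₀`; but for `l ≠ l₀` in `Λ`
the number `Re ((l₀ - l) e^{iθ})` is negative for some `θ ∈ [-π, π]`. Let `Λ₀` be the set of
maximizers; they lie on a line: `l = l' + i t e^{-iθ}` with `t` real. Let `lp`, `lm` be the two
endpoints (the elements of `Λ₀` with the largest and smallest `Im (l e^{iθ})`). For `l ∈ Λ₀`,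
`l = (1 - a) lp + a lm` with `a ∈ [0, 1]`, so `Re (l e^ζ) ≤ max …`, and for `l ≠ lp` (`a > 0`) it is
smaller than `Re (lp e^ζ)` when `Re (lm e^ζ) < Re (lp e^ζ)`; similarly for `l ≠ lm`. For `l ∉ Λ₀`
the number `Re (l e^ζ)` is smaller than `Re (lp e^ζ)` and `Re (lm e^ζ)` for `ζ` near `iθ`
(continuity); choose `r ≤ 1 / 2` accordingly. Finally, at `ζ = iθ ± i t` with `t > 0` small
`Re ((lp - lm) e^ζ)` is `∓ |lp - lm| sin t` up to the sign. -/
theorem edge (Λ : Finset ℂ) (h : 1 < Λ.card) : ∃ (θ : ℝ) (lp lm : ℂ) (r : ℝ),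
    |θ| ≤ Real.pi ∧ lp ∈ Λ ∧ lm ∈ Λ ∧ 0 < r ∧ r ≤ 1 / 2 ∧
    (∀ ζ ∈ ball (θ * Complex.I) r, ∀ l ∈ Λ,
      (l * Complex.exp ζ).re ≤ max (lp * Complex.exp ζ).re (lm * Complex.exp ζ).re ∧
      ((lm * Complex.exp ζ).re < (lp * Complex.exp ζ).re → l ≠ lp →
        (l * Complex.exp ζ).re < (lp * Complex.exp ζ).re) ∧
      ((lp * Complex.exp ζ).re < (lm * Complex.exp ζ).re → l ≠ lm →
        (l * Complex.exp ζ).re < (lm * Complex.exp ζ).re)) ∧
    (∃ ζ₁ ∈ ball (θ * Complex.I) r, (lm * Complex.exp ζ₁).re < (lp * Complex.exp ζ₁).re) ∧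
    ∃ ζ₂ ∈ ball (θ * Complex.I) r, (lp * Complex.exp ζ₂).re < (lm * Complex.exp ζ₂).re := by
  classical
  obtain ⟨θ, hθ, l₀, hl₀, l₁, hl₁, hne, hm0, hm1⟩ := edge_tie Λ h
  obtain ⟨E, hE⟩ : ∃ E : ℂ, E = Complex.exp (θ * Complex.I) := ⟨_, rfl⟩
  have hE0 : E ≠ 0 := by rw [hE]; exact Complex.exp_ne_zero _
  rw [← hE] at hm0 hm1
  obtain ⟨m, hm⟩ : ∃ m : ℝ, m = (l₀ * E).re := ⟨_, rfl⟩
  rw [← hm] at hm0
  have hm1' : (l₁ * E).re = m := le_antisymm (hm0 l₁ hl₁) (hm ▸ hm1 l₀ hl₀)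
  have hinj : ∀ a b : ℂ, (a * E).re = m → (b * E).re = m → (a * E).im = (b * E).im → a = b := by
    intro a b ha hb hab
    exact mul_right_cancel₀ hE0 (Complex.ext (ha.trans hb.symm) hab)
  have hne0 : (Λ.filter (fun l => (l * E).re = m)).Nonempty :=
    ⟨l₀, Finset.mem_filter.2 ⟨hl₀, hm.symm⟩⟩
  obtain ⟨lp, hlp, hp⟩ := Finset.exists_max_image _ (fun l => (l * E).im) hne0
  obtain ⟨lm, hlm, hm'⟩ := Finset.exists_min_image _ (fun l => (l * E).im) hne0
  rw [Finset.mem_filter] at hlp hlm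
  have hlt : (lm * E).im < (lp * E).im := by
    have a0 := hp l₀ (Finset.mem_filter.2 ⟨hl₀, hm.symm⟩)
    have a1 := hp l₁ (Finset.mem_filter.2 ⟨hl₁, hm1'⟩)
    have b0 := hm' l₀ (Finset.mem_filter.2 ⟨hl₀, hm.symm⟩)
    have b1 := hm' l₁ (Finset.mem_filter.2 ⟨hl₁, hm1'⟩)
    by_contra hcon
    push Not at hcon
    exact hne (hinj l₀ l₁ hm.symm hm1' (by linarith))
  -- neighbourhood for the non-maximizers
  have hev : ∀ᶠ ζ in 𝓝 (θ * Complex.I : ℂ), ∀ l ∈ Λ.filter (fun l => (l * E).re ≠ m),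
      (l * Complex.exp ζ).re < (lp * Complex.exp ζ).re ∧
        (l * Complex.exp ζ).re < (lm * Complex.exp ζ).re := by
    rw [Finset.eventually_all]
    intro l hl
    rw [Finset.mem_filter] at hl
    have hl' : (l * E).re < m := lt_of_le_of_ne (hm0 l hl.1) hl.2
    have hcont : ∀ a : ℂ, Tendsto (fun ζ : ℂ => (a * Complex.exp ζ).re) (𝓝 (θ * Complex.I : ℂ))
        (𝓝 (a * E).re) := by
      intro a
      rw [hE]
      have : Continuous fun ζ : ℂ => (a * Complex.exp ζ).re := by fun_prop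
      exact this.tendsto _
    exact ((hcont l).eventually_lt (hcont lp) (by rw [hlp.2]; exact hl')).and
      ((hcont l).eventually_lt (hcont lm) (by rw [hlm.2]; exact hl'))
  obtain ⟨ε, hε, hball⟩ := Metric.eventually_nhds_iff_ball.1 hev
  have hr0 : 0 < min ε (1 / 2) := lt_min hε (by norm_num)
  have hre : ∀ (l w : ℂ), (l * Complex.exp (θ * Complex.I + w)).re = Real.exp w.re *
      ((l * E).re * Real.cos w.im - (l * E).im * Real.sin w.im) := by
    intro l w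
    rw [edge_re, hE]
  refine ⟨θ, lp, lm, min ε (1 / 2), hθ, hlp.1, hlm.1, hr0, min_le_right _ _, ?_, ?_, ?_⟩
  · intro ζ hζ l hl
    by_cases hlm0 : (l * E).re = m
    · have h1 : ζ = θ * Complex.I + (ζ - θ * Complex.I) := by ring
      obtain ⟨w, hw⟩ : ∃ w, w = ζ - θ * Complex.I := ⟨_, rfl⟩
      rw [← hw] at h1
      rw [h1, hre, hre, hre, hlp.2, hlm.2, hlm0]
      have hexp := Real.exp_pos w.re
      have p1 := hp l (Finset.mem_filter.2 ⟨hl, hlm0⟩)
      have p2 := hm' l (Finset.mem_filter.2 ⟨hl, hlm0⟩)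
      refine ⟨?_, ?_, ?_⟩
      · rcases le_total 0 (Real.sin w.im) with hs | hs
        · refine le_max_of_le_right (mul_le_mul_of_nonneg_left ?_ hexp.le)
          have := mul_le_mul_of_nonneg_right p2 hs
          linarith
        · refine le_max_of_le_left (mul_le_mul_of_nonneg_left ?_ hexp.le)
          have := mul_le_mul_of_nonpos_right p1 hs
          linarith
      · intro hlt1 hnel
        have h2 := lt_of_mul_lt_mul_left hlt1 hexp.le
        have hs : Real.sin w.im < 0 := by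
          by_contra hcon
          push Not at hcon
          have := mul_le_mul_of_nonneg_right hlt.le hcon
          linarith
        have h3 : (l * E).im < (lp * E).im :=
          lt_of_le_of_ne p1 fun h4 => hnel (hinj l lp hlm0 hlp.2 h4)
        refine mul_lt_mul_of_pos_left ?_ hexp
        have := mul_lt_mul_of_neg_right h3 hs
        linarith
      · intro hlt1 hnel
        have h2 := lt_of_mul_lt_mul_left hlt1 hexp.le
        have hs : 0 < Real.sin w.im := by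
          by_contra hcon
          push Not at hcon
          have := mul_le_mul_of_nonpos_right hlt.le hcon
          linarith
        have h3 : (lm * E).im < (l * E).im :=
          lt_of_le_of_ne p2 fun h4 => hnel (hinj l lm hlm0 hlm.2 h4.symm)
        refine mul_lt_mul_of_pos_left ?_ hexp
        have := mul_lt_mul_of_pos_right h3 hs
        linarith
    · have h1 := hball ζ (ball_subset_ball (min_le_left _ _) hζ) l
        (Finset.mem_filter.2 ⟨hl, hlm0⟩)
      exact ⟨le_max_of_le_left h1.1.le, fun _ _ => h1.1, fun _ _ => h1.2⟩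
  · obtain ⟨t, ht⟩ : ∃ t : ℝ, t = min ε (1 / 2) / 2 := ⟨_, rfl⟩
    have ht0 : 0 < t := by rw [ht]; positivity
    have ht1 : t < min ε (1 / 2) := by rw [ht]; linarith
    have ht2 : t < Real.pi := by
      have := min_le_right ε (1 / 2)
      have := Real.pi_gt_three
      linarith
    refine ⟨θ * Complex.I + ((-t : ℝ) : ℂ) * Complex.I, ?_, ?_⟩
    · rw [mem_ball, dist_eq_norm, add_sub_cancel_left, norm_mul, Complex.norm_I, mul_one,
        Complex.norm_real, norm_neg, Real.norm_of_nonneg ht0.le]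
      exact ht1
    · rw [hre, hre, hlp.2, hlm.2]
      refine mul_lt_mul_of_pos_left ?_ (Real.exp_pos _)
      have h1 : (((-t : ℝ) : ℂ) * Complex.I).im = -t := by simp
      rw [h1, Real.sin_neg]
      have := mul_lt_mul_of_pos_right hlt (Real.sin_pos_of_pos_of_lt_pi ht0 ht2)
      linarith
  · obtain ⟨t, ht⟩ : ∃ t : ℝ, t = min ε (1 / 2) / 2 := ⟨_, rfl⟩
    have ht0 : 0 < t := by rw [ht]; positivity
    have ht1 : t < min ε (1 / 2) := by rw [ht]; linarith
    have ht2 : t < Real.pi := by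
      have := min_le_right ε (1 / 2)
      have := Real.pi_gt_three
      linarith
    refine ⟨θ * Complex.I + ((t : ℝ) : ℂ) * Complex.I, ?_, ?_⟩
    · rw [mem_ball, dist_eq_norm, add_sub_cancel_left, norm_mul, Complex.norm_I, mul_one,
        Complex.norm_real, Real.norm_of_nonneg ht0.le]
      exact ht1
    · rw [hre, hre, hlp.2, hlm.2]
      refine mul_lt_mul_of_pos_left ?_ (Real.exp_pos _)
      have h1 : (((t : ℝ) : ℂ) * Complex.I).im = t := by simp
      rw [h1]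
      have := mul_lt_mul_of_pos_right hlt (Real.sin_pos_of_pos_of_lt_pi ht0 ht2)
      linarith

end Pool.Agent.Lib.MP_209724_lc.OV
end

section

namespace Pool.Agent.Lib.MP_209724_lc.OV

open MvPolynomial Filter Topology Metric

/-- evaluation of a binary form in inhomogeneous coordinates -/
private theorem fd_eval (P : MvPolynomial (Fin 2) ℂ) (t : ℂ) :
    (aeval ![(1 : Polynomial ℂ), Polynomial.X] P).eval t = eval ![1, t] P := by
  have h : (Polynomial.evalRingHom t).comp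
      ((aeval ![(1 : Polynomial ℂ), Polynomial.X] : MvPolynomial (Fin 2) ℂ →ₐ[ℂ] Polynomial ℂ) :
        MvPolynomial (Fin 2) ℂ →+* Polynomial ℂ) = eval ![1, t] := by
    refine MvPolynomial.ringHom_ext ?_ ?_
    · intro r
      simp
    · intro i
      fin_cases i <;> simp
  exact congrArg (fun f => f P) h

/-- a binary form at a multiple of a vector -/
private theorem fd_homog {P : MvPolynomial (Fin 2) ℂ} {d : ℕ} (hP : P.IsHomogeneous d)
    (a b : ℂ) (ha : a ≠ 0) : eval ![a, b] P = a ^ d * eval ![1, b / a] P := by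
  rw [eval_eq', eval_eq', Finset.mul_sum]
  refine Finset.sum_congr rfl fun e he => ?_
  have h1 : e 0 + e 1 = d := by
    have h2 := hP (mem_support_iff.1 he)
    rw [Finsupp.weight_apply, Finsupp.sum_fintype _ _ (by simp)] at h2
    simpa [Fin.sum_univ_two] using h2
  rw [Fin.prod_univ_two, Fin.prod_univ_two]
  simp only [Matrix.cons_val_zero, Matrix.cons_val_one, Matrix.cons_val_fin_one, one_pow, one_mul]
  rw [← h1, pow_add, div_pow]
  field_simp

/-- OV-15b: a finite set of directions which contains the common zeros of the forms. If `p i j` are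
nonzero binary forms of positive degrees, then the vectors `λ` with `p i j (λ_i, λ_j) = 0` for all
`i, j` lie on finitely many lines.

Proof. Let `λ ≠ 0` be such a vector, `λ_i ≠ 0`; for every `j` the ratio `t = λ_j / λ_i` is a root of the
polynomial `p i j (1, t)`, which is not zero because `p i j` is homogeneous and nonzero. So
`λ / λ_i` is in the finite set of the vectors whose `j`-th coordinate is a root of
`p i j (1, t)` for all `j` (`Fintype.piFinset`). -/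
theorem finite_directions {q : Type} [Fintype q] (d : q → q → ℕ)
    (p : q → q → MvPolynomial (Fin 2) ℂ) (hd : ∀ i j, 0 < d i j)
    (hp : ∀ i j, (p i j).IsHomogeneous (d i j)) (hp0 : ∀ i j, p i j ≠ 0) :
    ∃ L : Finset (q → ℂ), (∀ v ∈ L, v ≠ 0) ∧ ∀ v : q → ℂ, v ≠ 0 →
      (∀ i j, eval ![v i, v j] (p i j) = 0) → ∃ v' ∈ L, ∃ t : ℂ, t ≠ 0 ∧ v = t • v' := by
  classical
  let Q : q → q → Polynomial ℂ := fun i j => aeval ![(1 : Polynomial ℂ), Polynomial.X] (p i j)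
  have hQe : ∀ i j t, (Q i j).eval t = eval ![1, t] (p i j) := fun i j t => fd_eval _ _
  have hQ0 : ∀ i j, Q i j ≠ 0 := by
    intro i j h
    have h1 : ∀ t, eval ![1, t] (p i j) = 0 := by
      intro t
      rw [← hQe, h, Polynomial.eval_zero]
    have h2 : (X 0 : MvPolynomial (Fin 2) ℂ) * p i j = 0 := by
      apply MvPolynomial.funext
      intro x
      rw [map_mul, eval_X, map_zero]
      by_cases hx : x 0 = 0
      · rw [hx, zero_mul]
      · have e : x = ![x 0, x 1] := by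
          funext k
          fin_cases k <;> rfl
        have h3 : eval x (p i j) = 0 := by
          rw [e, fd_homog (hp i j) _ _ hx, h1, mul_zero]
        rw [h3, mul_zero]
    rcases mul_eq_zero.1 h2 with h3 | h3
    · exact X_ne_zero _ h3
    · exact hp0 i j h3
  refine ⟨(Finset.univ.biUnion fun i => Fintype.piFinset fun j => (Q i j).roots.toFinset).filter
    (fun v => v ≠ 0), fun v hv => (Finset.mem_filter.1 hv).2, ?_⟩
  intro v hv hvz
  obtain ⟨i, hi⟩ := Function.ne_iff.1 hv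
  have hi' : v i ≠ 0 := hi
  refine ⟨fun j => v j / v i, ?_, v i, hi', ?_⟩
  · rw [Finset.mem_filter, Finset.mem_biUnion]
    refine ⟨⟨i, Finset.mem_univ _, ?_⟩, ?_⟩
    · rw [Fintype.mem_piFinset]
      intro j
      rw [Multiset.mem_toFinset, Polynomial.mem_roots (hQ0 i j), Polynomial.IsRoot.def, hQe]
      have h1 := hvz i j
      rw [fd_homog (hp i j) _ _ hi'] at h1
      exact (mul_eq_zero.1 h1).resolve_left (pow_ne_zero _ hi')
    · intro h
      have h1 := congrFun h i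
      simp only [div_self hi', Pi.zero_apply, one_ne_zero] at h1
  · funext j
    simp only [Pi.smul_apply, smul_eq_mul]
    field_simp

end Pool.Agent.Lib.MP_209724_lc.OV
end

section

namespace Pool.Agent.Lib.MP_209724_lc.OV

open MvPolynomial Filter Topology Metric

variable {K : Type} [Field K] [Algebra ℂ K]

/-- three elements are algebraically dependent -/
theorem dirPair_dep {z : Fin 2 → K} (hz : IsBase z) (f g : K) :
    ∃ P : MvPolynomial (Fin 3) ℂ, P ≠ 0 ∧ MvPolynomial.aeval ![z 0, f, g] P = 0 := by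
  have hnot : ¬ AlgebraicIndependent ℂ ![z 0, f, g] := by
    intro h
    have h1 := h.cardinalMk_le_trdeg
    have h2 : Algebra.IsAlgebraic (Algebra.adjoin ℂ (Set.range z)) K := hz.2
    have h3 : Algebra.trdeg ℂ K ≤ Cardinal.mk (Set.range z) :=
      Algebra.IsAlgebraic.trdeg_le_cardinalMk ℂ (Set.range z)
    have h4 : Cardinal.mk (Set.range z) ≤ Cardinal.mk (Fin 2) := Cardinal.mk_range_le
    have h5 := h1.trans (h3.trans h4)
    rw [Cardinal.mk_fin, Cardinal.mk_fin] at h5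
    have h6 : (3 : ℕ) ≤ 2 := by exact_mod_cast h5
    omega
  rw [algebraicIndependent_iff] at hnot
  push Not at hnot
  obtain ⟨P, h1, h2⟩ := hnot
  exact ⟨P, h2, h1⟩

theorem dirPair_aeval {S : Type*} [CommRing S] [Algebra ℂ S] (P : MvPolynomial (Fin 3) ℂ)
    (x : Fin 3 → S) : MvPolynomial.aeval x P =
      ∑ m ∈ P.support, algebraMap ℂ S (P.coeff m) * (x 0 ^ m 0 * x 1 ^ m 1 * x 2 ^ m 2) := by
  rw [aeval_def, eval₂_eq']
  refine Finset.sum_congr rfl fun m _ => ?_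
  rw [Fin.prod_univ_three]

/-- the polynomial is not a polynomial in the first variable only -/
theorem dirPair_deg {z : Fin 2 → K} (hz : IsBase z) (f g : K) (P : MvPolynomial (Fin 3) ℂ)
    (hP : P ≠ 0) (hPz : MvPolynomial.aeval ![z 0, f, g] P = 0) :
    ∃ m ∈ P.support, 0 < m 1 + m 2 := by
  by_contra hcon
  push Not at hcon
  have hind : ∀ {S : Type} [CommRing S] [Algebra ℂ S] (x y : Fin 3 → S), x 0 = y 0 →
      MvPolynomial.aeval x P = MvPolynomial.aeval y P := by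
    intro S _ _ x y hxy
    rw [dirPair_aeval, dirPair_aeval]
    refine Finset.sum_congr rfl fun m hm => ?_
    have h1 := hcon m hm
    have h2 : m 1 = 0 := by omega
    have h3 : m 2 = 0 := by omega
    rw [h2, h3, hxy]
    simp
  have h1 : MvPolynomial.aeval z (MvPolynomial.aeval (![X 0, 0, 0] : Fin 3 → MvPolynomial (Fin 2) ℂ) P)
      = 0 := by
    have h2 := MvPolynomial.comp_aeval_apply (![X 0, 0, 0] : Fin 3 → MvPolynomial (Fin 2) ℂ)
      (MvPolynomial.aeval z : MvPolynomial (Fin 2) ℂ →ₐ[ℂ] K) P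
    rw [h2, ← hPz]
    apply hind
    simp
  have h2 : MvPolynomial.aeval (![X 0, 0, 0] : Fin 3 → MvPolynomial (Fin 2) ℂ) P = 0 := by
    have h3 := (algebraicIndependent_iff.1 hz.1) _ h1
    exact h3
  apply hP
  have h3 : MvPolynomial.aeval (fun _ => X 0 : Fin 2 → MvPolynomial (Fin 3) ℂ)
      (MvPolynomial.aeval (![X 0, 0, 0] : Fin 3 → MvPolynomial (Fin 2) ℂ) P) = P := by
    have h4 := MvPolynomial.comp_aeval_apply (![X 0, 0, 0] : Fin 3 → MvPolynomial (Fin 2) ℂ)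
      (MvPolynomial.aeval (fun _ => X 0 : Fin 2 → MvPolynomial (Fin 3) ℂ)) P
    rw [h4]
    have h5 : P = MvPolynomial.aeval (X : Fin 3 → MvPolynomial (Fin 3) ℂ) P := by
      rw [aeval_X_left_apply]
    conv_rhs => rw [h5]
    apply hind
    simp
  rw [← h3, h2, map_zero]

/-- OV-15a: two algebraic functions `f`, `g` of two variables, one of them `u`: when `(f, g)` is much
larger than `u`, its direction is near one of finitely many.

Proof. `![u, f, g]` is algebraically dependent (transcendence degree two), so there is a nonzero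
`P ∈ ℂ[U, X, Y]` with `P(u, f, g) = 0`. We may assume that the degree `d` of `P` in `(X, Y)` (the largest
`i + j` with `X^i Y^j` occurring) is at least one: if it is `0` then `P ∈ ℂ[U]`, `P(u) = 0`,
contradiction (`u` is transcendental). Let `e` be the largest exponent of `U` in the terms of
`(X, Y)`-degree `d`, and let `p(X, Y)` be the sum of the terms of `P` of the form
`a U^e X^i Y^j`, `i + j = d`, divided by `U^e`: a nonzero homogeneous polynomial of degree `d ≥ 1`. Put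
`N₀ = E + 1` with `E` the degree of `P` in `U`. For `ψ` as in the statement put `ρ = max |ψ f|, |ψ g|`,
`|ψ u| ≥ R ≥ 1`, `ρ ≥ |ψ u| ^ N₀`. In `P(ψ u, ψ f, ψ g) = 0` divide by `(ψ u)^e ρ^d`: the terms of
`(X, Y)`-degree `d` and `U`-degree `< e` contribute at most `K / |ψ u|`; the terms of `(X, Y)`-degree
`< d` at most `K |ψ u|^E / ρ ≤ K / |ψ u|`, with `K` the sum of the norms of the coefficients of `P`.
So `|p(ψ f / ρ, ψ g / ρ)| ≤ K' / R`, which is at most `ε` if `R` is large. -/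
theorem direction_pair {z : Fin 2 → K} (hz : IsBase z) (f g : K) :
    ∃ (d : ℕ) (p : MvPolynomial (Fin 2) ℂ) (N₀ : ℕ), 0 < d ∧ p.IsHomogeneous d ∧ p ≠ 0 ∧
      ∀ ε : ℝ, 0 < ε → ∃ R : ℝ, ∀ (A : Subalgebra ℂ K) (ψ : K → ℂ), IsHomOn A ψ → z 0 ∈ A →
        f ∈ A → g ∈ A → R ≤ ‖ψ (z 0)‖ → ∀ ρ : ℝ, ‖ψ (z 0)‖ ^ N₀ ≤ ρ → ‖ψ f‖ ≤ ρ → ‖ψ g‖ ≤ ρ →
          ‖eval ![ψ f / ρ, ψ g / ρ] p‖ ≤ ε := by
  classical
  obtain ⟨P, hP0, hP⟩ := dirPair_dep hz f g
  obtain ⟨m₀, hm₀, hm₀'⟩ := dirPair_deg hz f g P hP0 hP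
  -- the top degree
  obtain ⟨m₁, hm₁, hmax₁⟩ := P.support.exists_max_image (fun m => m 1 + m 2) ⟨m₀, hm₀⟩
  obtain ⟨d, hd⟩ : ∃ d : ℕ, d = m₁ 1 + m₁ 2 := ⟨_, rfl⟩
  have hdpos : 0 < d := by
    have := hmax₁ m₀ hm₀
    omega
  have hdle : ∀ m ∈ P.support, m 1 + m 2 ≤ d := fun m hm => by
    have := hmax₁ m hm
    omega
  obtain ⟨m₂, hm₂, hmax₂⟩ := (P.support.filter (fun m => m 1 + m 2 = d)).exists_max_image
    (fun m => m 0) ⟨m₁, by rw [Finset.mem_filter]; exact ⟨hm₁, hd.symm⟩⟩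
  obtain ⟨e, he⟩ : ∃ e : ℕ, e = m₂ 0 := ⟨_, rfl⟩
  rw [Finset.mem_filter] at hm₂
  have hele : ∀ m ∈ P.support, m 1 + m 2 = d → m 0 ≤ e := fun m hm hmd => by
    have := hmax₂ m (by rw [Finset.mem_filter]; exact ⟨hm, hmd⟩)
    omega
  obtain ⟨E, hE⟩ : ∃ E : ℕ, ∀ m ∈ P.support, m 0 ≤ E :=
    ⟨P.support.sup (fun m => m 0), fun m hm => Finset.le_sup (f := fun m => m 0) hm⟩
  let T : Finset (Fin 3 →₀ ℕ) := P.support.filter (fun m => m 1 + m 2 = d ∧ m 0 = e)
  let c : (Fin 3 →₀ ℕ) → (Fin 2 →₀ ℕ) := fun m => Finsupp.equivFunOnFinite.symm ![m 1, m 2]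
  have hc0 : ∀ m, c m 0 = m 1 := fun m => by simp [c]
  have hc1 : ∀ m, c m 1 = m 2 := fun m => by simp [c]
  have hT : ∀ m, m ∈ T ↔ m ∈ P.support ∧ m 1 + m 2 = d ∧ m 0 = e := fun m => by
    simp [T, Finset.mem_filter]
  let p : MvPolynomial (Fin 2) ℂ := ∑ m ∈ T, monomial (c m) (P.coeff m)
  have hhom : p.IsHomogeneous d := by
    apply IsHomogeneous.sum
    intro m hm
    apply isHomogeneous_monomial
    rw [Finsupp.degree_eq_sum, Fin.sum_univ_two, hc0, hc1]
    exact ((hT m).1 hm).2.1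
  have hp0 : p ≠ 0 := by
    intro h
    have h1 : coeff (c m₂) p = 0 := by rw [h, coeff_zero]
    have h2 : coeff (c m₂) p = P.coeff m₂ := by
      show coeff (c m₂) (∑ m ∈ T, monomial (c m) (P.coeff m)) = P.coeff m₂
      rw [coeff_sum, Finset.sum_eq_single m₂]
      · rw [coeff_monomial, if_pos rfl]
      · intro m hm hne
        rw [coeff_monomial, if_neg]
        intro hcm
        apply hne
        have h3 := (hT m).1 hm
        have h4 : m 1 = m₂ 1 := by rw [← hc0, ← hc0, hcm]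
        have h5 : m 2 = m₂ 2 := by rw [← hc1, ← hc1, hcm]
        ext i
        fin_cases i
        · show m 0 = m₂ 0
          rw [h3.2.2, he]
        · exact h4
        · exact h5
      · intro hm
        exact absurd ((hT m₂).2 ⟨hm₂.1, hm₂.2, he.symm⟩) hm
    rw [h2] at h1
    exact (mem_support_iff.1 hm₂.1) h1
  refine ⟨d, p, E + 1, hdpos, hhom, hp0, ?_⟩
  intro ε hε
  obtain ⟨Kc, hKc⟩ : ∃ Kc : ℝ, Kc = ∑ m ∈ P.support, ‖P.coeff m‖ := ⟨_, rfl⟩
  have hKc0 : 0 ≤ Kc := by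
    rw [hKc]
    exact Finset.sum_nonneg fun m _ => norm_nonneg _
  refine ⟨max 1 (Kc / ε), ?_⟩
  intro A ψ hψ hz0 hf hg hR ρ hρ hfρ hgρ
  have hU1 : 1 ≤ ‖ψ (z 0)‖ := (le_max_left _ _).trans hR
  have hU2 : Kc / ε ≤ ‖ψ (z 0)‖ := (le_max_right _ _).trans hR
  obtain ⟨u, hu⟩ : ∃ u : ℂ, u = ψ (z 0) := ⟨_, rfl⟩
  rw [← hu] at hU1 hU2 hρ
  have hρ1 : 1 ≤ ρ := (one_le_pow₀ hU1).trans hρ
  have hρ0 : 0 < ρ := by linarith
  have hu0 : 0 < ‖u‖ := by linarith
  -- the relation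
  have hrel : ∑ m ∈ P.support, P.coeff m * (u ^ m 0 * ψ f ^ m 1 * ψ g ^ m 2) = 0 := by
    have hx : ∀ i, (![z 0, f, g] : Fin 3 → K) i ∈ A := by
      intro i
      fin_cases i
      · exact hz0
      · exact hf
      · exact hg
    have h1 := hψ.aeval P ![z 0, f, g] hx
    rw [hP, hψ.zero, eval_eq'] at h1
    rw [h1]
    refine Finset.sum_congr rfl fun m _ => ?_
    rw [Fin.prod_univ_three, hu]
    simp
  have hsplit : ∑ m ∈ T, P.coeff m * (u ^ m 0 * ψ f ^ m 1 * ψ g ^ m 2) =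
      - ∑ m ∈ P.support \ T, P.coeff m * (u ^ m 0 * ψ f ^ m 1 * ψ g ^ m 2) := by
    have hTs : T ⊆ P.support := Finset.filter_subset _ _
    have h1 := Finset.sum_sdiff (f := fun m => P.coeff m * (u ^ m 0 * ψ f ^ m 1 * ψ g ^ m 2)) hTs
    rw [hrel] at h1
    rw [eq_neg_iff_add_eq_zero, add_comm]
    exact h1
  have hρC : (ρ : ℂ) ≠ 0 := by exact_mod_cast hρ0.ne'
  have hev : eval ![ψ f / ρ, ψ g / ρ] p * (u ^ e * (ρ : ℂ) ^ d) =
      ∑ m ∈ T, P.coeff m * (u ^ m 0 * ψ f ^ m 1 * ψ g ^ m 2) := by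
    show eval ![ψ f / ρ, ψ g / ρ] (∑ m ∈ T, monomial (c m) (P.coeff m)) * (u ^ e * (ρ : ℂ) ^ d) = _
    rw [map_sum, Finset.sum_mul]
    refine Finset.sum_congr rfl fun m hm => ?_
    have h3 := (hT m).1 hm
    rw [eval_monomial, Finsupp.prod_fintype _ _ (fun i => pow_zero _), Fin.prod_univ_two, hc0, hc1]
    simp only [Matrix.cons_val_zero, Matrix.cons_val_one]
    rw [div_pow, div_pow, h3.2.2, ← h3.2.1, pow_add]
    field_simp
  have hbound : ∀ m ∈ P.support \ T,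
      ‖P.coeff m * (u ^ m 0 * ψ f ^ m 1 * ψ g ^ m 2)‖ * ‖u‖ ≤
        ‖P.coeff m‖ * (‖u‖ ^ e * ρ ^ d) := by
    intro m hm
    rw [Finset.mem_sdiff, hT] at hm
    have hmd := hdle m hm.1
    rw [norm_mul, norm_mul, norm_mul, norm_pow, norm_pow, norm_pow, mul_assoc]
    apply mul_le_mul_of_nonneg_left _ (norm_nonneg _)
    have h1 : ‖ψ f‖ ^ m 1 * ‖ψ g‖ ^ m 2 ≤ ρ ^ (m 1 + m 2) := by
      rw [pow_add]
      exact mul_le_mul (pow_le_pow_left₀ (norm_nonneg _) hfρ _)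
        (pow_le_pow_left₀ (norm_nonneg _) hgρ _) (by positivity) (by positivity)
    have h2 : ‖u‖ ^ m 0 * ‖ψ f‖ ^ m 1 * ‖ψ g‖ ^ m 2 * ‖u‖ ≤ ‖u‖ ^ (m 0 + 1) * ρ ^ (m 1 + m 2) := by
      calc ‖u‖ ^ m 0 * ‖ψ f‖ ^ m 1 * ‖ψ g‖ ^ m 2 * ‖u‖
          = ‖u‖ ^ (m 0 + 1) * (‖ψ f‖ ^ m 1 * ‖ψ g‖ ^ m 2) := by rw [pow_succ]; ring
        _ ≤ _ := mul_le_mul_of_nonneg_left h1 (by positivity)
    refine h2.trans ?_
    rcases hmd.eq_or_lt with h3 | h3
    · have h4 := hele m hm.1 h3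
      have h5 : m 0 ≠ e := fun h => hm.2 ⟨hm.1, h3, h⟩
      rw [h3]
      apply mul_le_mul_of_nonneg_right _ (by positivity)
      exact pow_le_pow_right₀ hU1 (by omega)
    · calc ‖u‖ ^ (m 0 + 1) * ρ ^ (m 1 + m 2) ≤ ρ * ρ ^ (m 1 + m 2) := by
            apply mul_le_mul_of_nonneg_right _ (by positivity)
            refine le_trans (pow_le_pow_right₀ hU1 ?_) hρ
            have := hE m hm.1
            omega
        _ = ρ ^ (m 1 + m 2 + 1) := by rw [pow_succ]; ring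
        _ ≤ ρ ^ d := pow_le_pow_right₀ hρ1 (by omega)
        _ ≤ ‖u‖ ^ e * ρ ^ d := by
            have h6 : 1 ≤ ‖u‖ ^ e := one_le_pow₀ hU1
            nlinarith [pow_pos hρ0 d]
  have hfin : ‖eval ![ψ f / ρ, ψ g / ρ] p‖ * (‖u‖ ^ e * ρ ^ d) * ‖u‖ ≤
      Kc * (‖u‖ ^ e * ρ ^ d) := by
    have h1 : ‖eval ![ψ f / ρ, ψ g / ρ] p * (u ^ e * (ρ : ℂ) ^ d)‖ =
        ‖eval ![ψ f / ρ, ψ g / ρ] p‖ * (‖u‖ ^ e * ρ ^ d) := by
      rw [norm_mul, norm_mul, norm_pow, norm_pow, Complex.norm_real, Real.norm_of_nonneg hρ0.le]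
    rw [← h1, hev, hsplit, norm_neg]
    calc ‖∑ m ∈ P.support \ T, P.coeff m * (u ^ m 0 * ψ f ^ m 1 * ψ g ^ m 2)‖ * ‖u‖
        ≤ (∑ m ∈ P.support \ T, ‖P.coeff m * (u ^ m 0 * ψ f ^ m 1 * ψ g ^ m 2)‖) * ‖u‖ :=
          mul_le_mul_of_nonneg_right (norm_sum_le _ _) hu0.le
      _ = ∑ m ∈ P.support \ T, ‖P.coeff m * (u ^ m 0 * ψ f ^ m 1 * ψ g ^ m 2)‖ * ‖u‖ := by
          rw [Finset.sum_mul]
      _ ≤ ∑ m ∈ P.support \ T, ‖P.coeff m‖ * (‖u‖ ^ e * ρ ^ d) := Finset.sum_le_sum hbound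
      _ = (∑ m ∈ P.support \ T, ‖P.coeff m‖) * (‖u‖ ^ e * ρ ^ d) := by rw [Finset.sum_mul]
      _ ≤ Kc * (‖u‖ ^ e * ρ ^ d) := by
          apply mul_le_mul_of_nonneg_right _ (by positivity)
          rw [hKc]
          exact Finset.sum_le_sum_of_subset_of_nonneg Finset.sdiff_subset
            (fun m _ _ => norm_nonneg _)
  have hpos : 0 < ‖u‖ ^ e * ρ ^ d := by positivity
  have h1 : ‖eval ![ψ f / ρ, ψ g / ρ] p‖ * ‖u‖ ≤ Kc := by
    by_contra hlt
    push Not at hlt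
    have h2 := mul_lt_mul_of_pos_right hlt hpos
    nlinarith
  have h2 : Kc ≤ ε * ‖u‖ := by
    rw [div_le_iff₀ hε] at hU2
    linarith
  have h3 : ‖eval ![ψ f / ρ, ψ g / ρ] p‖ * ‖u‖ ≤ ε * ‖u‖ := h1.trans h2
  exact le_of_mul_le_mul_right h3 hu0

end Pool.Agent.Lib.MP_209724_lc.OV
end

section

namespace Pool.Agent.Lib.MP_209724_lc.OV

open MvPolynomial Filter Topology Metric

/-- Lipschitz functions converging pointwise on a compact set converge uniformly. -/
private theorem tp_unif {U : Filter ℕ} [U.NeBot] {K : Set ℂ} (hK : IsCompact K)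
    {F : ℕ → ℂ → ℂ} {G : ℂ → ℂ} {L : ℝ} (hL0 : 0 ≤ L)
    (hL : ∀ᶠ j in U, ∀ z ∈ K, ∀ w ∈ K, ‖F j z - F j w‖ ≤ L * ‖z - w‖)
    (hG : ∀ z ∈ K, Tendsto (fun j => F j z) U (𝓝 (G z))) : TendstoUniformlyOn F G U K := by
  have hGL : ∀ z ∈ K, ∀ w ∈ K, ‖G z - G w‖ ≤ L * ‖z - w‖ := by
    intro z hz w hw
    refine le_of_tendsto ((hG z hz).sub (hG w hw)).norm ?_
    filter_upwards [hL] with j hj
    exact hj z hz w hw
  rw [Metric.tendstoUniformlyOn_iff]
  intro ε hε
  set η : ℝ := ε / (4 * (L + 1)) with hη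
  have hη0 : 0 < η := by positivity
  have hLη : ∀ x : ℝ, 0 ≤ x → x < η → L * x ≤ ε / 4 := by
    intro x hx0 hx
    have h1 : L * x ≤ (L + 1) * η := mul_le_mul (by linarith) hx.le hx0 (by linarith)
    have h2 : (L + 1) * η = ε / 4 := by rw [hη]; field_simp
    linarith
  obtain ⟨T, hT⟩ := hK.elim_finite_subcover (fun q : K => ball (q : ℂ) η)
    (fun _ => isOpen_ball) (by
      intro w hw
      exact Set.mem_iUnion.mpr ⟨⟨w, hw⟩, mem_ball_self hη0⟩)
  have hT1 : ∀ᶠ k in U, ∀ q ∈ T, ‖F k (q : ℂ) - G q‖ < ε / 4 := by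
    rw [eventually_all_finset]
    intro q _
    have := (Metric.tendsto_nhds.mp (hG q q.2)) (ε / 4) (by positivity)
    filter_upwards [this] with k hk
    rwa [← dist_eq_norm]
  filter_upwards [hT1, hL] with k h1 h2 w hw
  obtain ⟨q, hqT, hqw⟩ := Set.mem_iUnion₂.mp (hT hw)
  rw [mem_ball, dist_eq_norm] at hqw
  have e1 : ‖F k w - F k q‖ ≤ ε / 4 :=
    (h2 w hw q q.2).trans (hLη _ (norm_nonneg _) hqw)
  have e2 : ‖G q - G w‖ ≤ ε / 4 := by
    refine (hGL q q.2 w hw).trans ?_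
    rw [norm_sub_rev]
    exact hLη _ (norm_nonneg _) hqw
  have e3 := h1 q hqT
  rw [dist_comm, dist_eq_norm]
  have : F k w - G w = (F k w - F k q) + (F k q - G q) + (G q - G w) := by abel
  rw [this]
  have := norm_add₃_le (a := F k w - F k q) (b := F k q - G q) (c := G q - G w)
  linarith

/-- Cauchy estimate: bounded functions are Lipschitz on smaller balls. -/
private theorem tp_lip {F : ℂ → ℂ} {c : ℂ} {r₀ r₁ : ℝ} (h01 : r₀ < r₁)
    (hF : DifferentiableOn ℂ F (ball c r₁)) (hb : ∀ z ∈ ball c r₁, ‖F z‖ ≤ 1) :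
    ∀ z ∈ closedBall c r₀, ∀ w ∈ closedBall c r₀,
      ‖F z - F w‖ ≤ (2 / (r₁ - r₀)) * ‖z - w‖ := by
  have hd : 0 < (r₁ - r₀) / 2 := by linarith
  have hsub : ∀ z ∈ closedBall c r₀, closedBall z ((r₁ - r₀) / 2) ⊆ ball c r₁ := by
    intro z hz w hw
    rw [mem_closedBall] at hz hw
    rw [mem_ball]
    have := dist_triangle w z c
    linarith
  have hder : ∀ z ∈ closedBall c r₀, ‖deriv F z‖ ≤ 2 / (r₁ - r₀) := by
    intro z hz
    have h1 := Complex.norm_deriv_le_of_forall_mem_sphere_norm_le (f := F) (c := z)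
      (R := (r₁ - r₀) / 2) (C := 1) hd (by
        apply DifferentiableOn.diffContOnCl
        rw [closure_ball _ hd.ne']
        exact hF.mono (hsub z hz)) (by
        intro w hw
        exact hb w (hsub z hz (sphere_subset_closedBall hw)))
    refine h1.trans (le_of_eq ?_)
    field_simp
  intro z hz w hw
  rw [norm_sub_rev (F z), norm_sub_rev z]
  refine Convex.norm_image_sub_le_of_norm_deriv_le (s := closedBall c r₀) ?_ hder
    (convex_closedBall c r₀) hz hw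
  intro x hx
  exact hF.differentiableAt (isOpen_ball.mem_nhds (hsub x hx (mem_closedBall_self hd.le)))

/-- The limit of functions with real parts bounded above, normalised at a point. -/
private theorem tp_limit {U : Ultrafilter ℕ} {c : ℂ} {s r₀ r₁ M M' : ℝ} (h0 : s < r₀)
    (h01 : r₀ < r₁) (G : ℕ → ℂ → ℂ) (w : ℕ → ℂ)
    (hd : ∀ᶠ j in (U : Filter ℕ), DifferentiableOn ℂ (G j) (ball c r₁))
    (hM : ∀ᶠ j in (U : Filter ℕ), ∀ z ∈ ball c r₁, (G j z).re ≤ M)
    (hw : ∀ᶠ j in (U : Filter ℕ), w j ∈ closedBall c s)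
    (him : ∀ᶠ j in (U : Filter ℕ), (G j (w j)).im = 0)
    (hre : ∀ᶠ j in (U : Filter ℕ), M' ≤ (G j (w j)).re) :
    ∃ Gl : ℂ → ℂ, DifferentiableOn ℂ Gl (ball c r₀) ∧
      ∀ z ∈ ball c r₀, ∀ ε : ℝ, 0 < ε → ∃ ρ : ℝ, 0 < ρ ∧ ∀ᶠ j in (U : Filter ℕ),
        ∀ x ∈ ball z ρ, ‖G j x - Gl z‖ ≤ ε := by
  classical
  set q : ℕ → ℂ → ℂ := fun j z => ((M : ℂ) + 1 - G j z)⁻¹ with hq
  have hqre : ∀ᶠ j in (U : Filter ℕ), ∀ z ∈ ball c r₁, 1 ≤ ((M : ℂ) + 1 - G j z).re := by
    filter_upwards [hM] with j hj z hz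
    have := hj z hz
    simp only [Complex.sub_re, Complex.add_re, Complex.ofReal_re, Complex.one_re]
    linarith
  have hne : ∀ᶠ j in (U : Filter ℕ), ∀ z ∈ ball c r₁, (M : ℂ) + 1 - G j z ≠ 0 := by
    filter_upwards [hqre] with j hj z hz h
    have := hj z hz
    rw [h] at this
    norm_num at this
  have hqd : ∀ᶠ j in (U : Filter ℕ), DifferentiableOn ℂ (q j) (ball c r₁) := by
    filter_upwards [hd, hne] with j h1 h2
    exact ((differentiableOn_const _).sub h1).inv h2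
  have hqb : ∀ᶠ j in (U : Filter ℕ), ∀ z ∈ ball c r₁, ‖q j z‖ ≤ 1 := by
    filter_upwards [hqre] with j hj z hz
    rw [hq]
    simp only [norm_inv]
    apply inv_le_one_of_one_le₀
    exact (hj z hz).trans (Complex.re_le_norm _)
  have hqpos : ∀ᶠ j in (U : Filter ℕ), ∀ z ∈ ball c r₁, 0 ≤ (q j z).re := by
    filter_upwards [hqre] with j hj z hz
    rw [hq]
    simp only [Complex.inv_re]
    exact div_nonneg (by linarith [hj z hz]) (Complex.normSq_nonneg _)
  -- the limit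
  have hex : ∀ z ∈ ball c r₁, ∃ b : ℂ, Tendsto (fun j => q j z) (U : Filter ℕ) (𝓝 b) := by
    intro z hz
    have hK : IsCompact (closedBall (0 : ℂ) 1) := isCompact_closedBall _ _
    have h1 : ((U.map fun j => q j z : Ultrafilter ℂ) : Filter ℂ) ≤ 𝓟 (closedBall (0 : ℂ) 1) := by
      rw [Ultrafilter.coe_map, le_principal_iff, mem_map]
      filter_upwards [hqb] with j hj
      simpa using hj z hz
    obtain ⟨b, -, hb⟩ := hK.ultrafilter_le_nhds _ h1
    exact ⟨b, hb⟩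
  choose! Q hQ using hex
  have hL := hqb.and hqd |>.mono (fun j hj => tp_lip h01 hj.2 hj.1)
  have hcb : closedBall c r₀ ⊆ ball c r₁ := closedBall_subset_ball h01
  have hunif : TendstoUniformlyOn q Q (U : Filter ℕ) (closedBall c r₀) :=
    tp_unif (isCompact_closedBall _ _) (by positivity [sub_pos.2 h01]) hL
      (fun z hz => hQ z (hcb hz))
  have hQd : DifferentiableOn ℂ Q (ball c r₀) := by
    refine (hunif.mono ball_subset_closedBall).tendstoLocallyUniformlyOn.differentiableOn ?_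
      isOpen_ball
    filter_upwards [hqd] with j hj
    exact hj.mono (ball_subset_ball h01.le)
  have hQre : ∀ z ∈ ball c r₀, 0 ≤ (Q z).re := by
    intro z hz
    have hz1 : z ∈ ball c r₁ := ball_subset_ball h01.le hz
    have h1 : Tendsto (fun j => (q j z).re) (U : Filter ℕ) (𝓝 (Q z).re) :=
      (Complex.continuous_re.tendsto _).comp (hQ z hz1)
    refine ge_of_tendsto h1 ?_
    filter_upwards [hqpos] with j hj
    exact hj z hz1
  -- the limit of the points `w j`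
  obtain ⟨w', hw', hww⟩ : ∃ w' ∈ closedBall c s, Tendsto w (U : Filter ℕ) (𝓝 w') := by
    have hK : IsCompact (closedBall c s) := isCompact_closedBall _ _
    have h1 : ((U.map w : Ultrafilter ℂ) : Filter ℂ) ≤ 𝓟 (closedBall c s) := by
      rw [Ultrafilter.coe_map, le_principal_iff, mem_map]
      filter_upwards [hw] with j hj
      exact hj
    obtain ⟨b, hb, hb'⟩ := hK.ultrafilter_le_nhds _ h1
    exact ⟨b, hb, hb'⟩
  have hw0 : w' ∈ ball c r₀ := closedBall_subset_ball h0 hw'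
  have hQw : 0 < (Q w').re := by
    have h1 : Tendsto (fun j => q j (w j)) (U : Filter ℕ) (𝓝 (Q w')) := by
      refine hunif.tendsto_comp (x := w') ?_ ?_
      · exact (hQd.continuousOn.continuousAt (isOpen_ball.mem_nhds hw0)).continuousWithinAt
      · rw [tendsto_nhdsWithin_iff]
        refine ⟨hww, ?_⟩
        filter_upwards [hw] with j hj
        exact closedBall_subset_closedBall h0.le hj
    have h2 : Tendsto (fun j => (q j (w j)).re) (U : Filter ℕ) (𝓝 (Q w').re) :=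
      (Complex.continuous_re.tendsto _).comp h1
    have h3 : ∀ᶠ j in (U : Filter ℕ), (max (M + 1 - M') 1)⁻¹ ≤ (q j (w j)).re := by
      filter_upwards [hqre, hw, him, hre] with j h1 h2 h3 h4
      have h5 := h1 (w j) (ball_subset_ball h01.le (closedBall_subset_ball h0 h2))
      have h6 : (M : ℂ) + 1 - G j (w j) = (((M : ℂ) + 1 - G j (w j)).re : ℂ) := by
        apply Complex.ext
        · simp
        · simp [h3]
      rw [hq]
      simp only
      rw [h6, ← Complex.ofReal_inv, Complex.ofReal_re]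
      apply inv_anti₀ (by linarith)
      refine le_trans ?_ (le_max_left _ _)
      simp only [Complex.sub_re, Complex.add_re, Complex.ofReal_re, Complex.one_re]
      linarith
    have h4 := ge_of_tendsto h2 h3
    exact lt_of_lt_of_le (by positivity) h4
  have hQne : ∀ z ∈ ball c r₀, Q z ≠ 0 := by
    intro z hz h
    have h1 : DifferentiableOn ℂ (fun x => Complex.exp (-Q x)) (ball c r₀) := hQd.neg.cexp
    have h2 : IsMaxOn (norm ∘ fun x => Complex.exp (-Q x)) (ball c r₀) z := by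
      intro x hx
      simp only [Function.comp, Set.mem_ofPred_eq, Complex.norm_exp, Complex.neg_re]
      rw [h]
      simp only [Complex.zero_re, neg_zero, Real.exp_zero]
      rw [Real.exp_le_one_iff]
      linarith [hQre x hx]
    have h3 := Complex.eqOn_of_isPreconnected_of_isMaxOn_norm (convex_ball c r₀).isPreconnected
      isOpen_ball h1 hz h2 hw0
    have h4 := congrArg norm h3
    simp only [Function.const_apply, Complex.norm_exp, Complex.neg_re, h, Complex.zero_re,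
      neg_zero, Real.exp_zero] at h4
    rw [Real.exp_eq_one_iff] at h4
    linarith
  refine ⟨fun z => (M : ℂ) + 1 - (Q z)⁻¹, (differentiableOn_const _).sub (hQd.inv hQne), ?_⟩
  intro z hz ε hε
  have hcont : ContinuousAt (fun x : ℂ => x⁻¹) (Q z) := continuousAt_inv₀ (hQne z hz)
  obtain ⟨δ, hδ, hδ'⟩ := Metric.continuousAt_iff.1 hcont ε hε
  obtain ⟨ρ₀, hρ₀, hρb⟩ := Metric.isOpen_iff.1 isOpen_ball z hz
  set L : ℝ := 2 / (r₁ - r₀) with hLdef
  have hLpos : 0 < L := by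
    have := sub_pos.2 h01
    positivity
  have hz1 : z ∈ ball c r₁ := ball_subset_ball h01.le hz
  refine ⟨min ρ₀ (δ / (2 * L)), lt_min hρ₀ (by positivity), ?_⟩
  filter_upwards [hL, (Metric.tendsto_nhds.mp (hQ z hz1)) (δ / 2) (by positivity), hne]
    with j h1 h2 h3 x hx
  have hxρ : x ∈ ball z ρ₀ := ball_subset_ball (min_le_left _ _) hx
  have hx0 : x ∈ ball c r₀ := hρb hxρ
  have hxδ : ‖x - z‖ < δ / (2 * L) := by
    rw [mem_ball, dist_eq_norm] at hx
    exact hx.trans_le (min_le_right _ _)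
  have h4 := h1 x (ball_subset_closedBall hx0) z (ball_subset_closedBall hz)
  have h5 : L * ‖x - z‖ < δ / 2 := by
    have := mul_lt_mul_of_pos_left hxδ hLpos
    have h6 : L * (δ / (2 * L)) = δ / 2 := by field_simp
    linarith
  have h7 : dist (q j x) (Q z) < δ := by
    refine (dist_triangle (q j x) (q j z) (Q z)).trans_lt ?_
    rw [dist_eq_norm]
    linarith
  have h8 := hδ' h7
  rw [dist_eq_norm] at h8
  have h9 : (q j x)⁻¹ = (M : ℂ) + 1 - G j x := by rw [hq]; simp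
  rw [h9] at h8
  have h10 : G j x - ((M : ℂ) + 1 - (Q z)⁻¹) = -((M : ℂ) + 1 - G j x - (Q z)⁻¹) := by ring
  rw [h10, norm_neg]
  exact h8.le

/-- OV-13: functions with two different exponential growth regimes have zeros.

Proof. WLOG `f₁`, `f₂` are bounded on the ball (replace `r` by a smaller radius such that `z₁`, `z₂`
are still in the ball). Suppose the conclusion fails: there is a strictly increasing sequence of `j`'s
for which `h j` has no zero in `ball c r`; pass to this sequence. By `MV.exists_log`,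
`h j = exp (g j)` on the ball; put `G_j = g_j / Y_j`. By `hup`, `Re G_j ≤ M` with a constant `M`. By
`hlow₁` there are points `w_j → z₁` with `Re G_j(w_j) ≥ Re f₁(z₁) - ε_j`, `ε_j → 0`. Subtract from
`G_j` the constant `i Im G_j(z₁)`. The functions `M + 1 - Re G_j` are positive and harmonic and bounded
at `w_j`; by the Borel-Carathéodory theorem (Mathlib has it; or Harnack) the `G_j` are uniformly
bounded on every smaller ball, so by Montel/Arzelà-Ascoli a subsequence converges locally uniformly on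
`ball c r` to a holomorphic `G` (compare `HS.montel_strip` for a proof of this kind). By `hup`,
`Re G ≤ max (Re f₁) (Re f₂)` on the ball; by `hlow₁`, `Re G(z₁) ≥ Re f₁(z₁)`, by `hlow₂`
`Re G(z₂) ≥ Re f₂(z₂)`. Near `z₁` we have `Re f₂ < Re f₁`, so `Re (G - f₁) ≤ 0` near `z₁` with equality
at `z₁`: by the maximum principle (open mapping theorem) `G - f₁` is constant near `z₁`, hence on the
ball (identity theorem). In the same way `G - f₂` is constant on the ball. So `f₁ - f₂` is constant,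
which contradicts `h1` and `h2`. (In the formal proof the limit is taken along an ultrafilter for the
bounded functions `1 / (M + 1 - G_j)`.) -/
theorem two_phases {f₁ f₂ : ℂ → ℂ} {c z₁ z₂ : ℂ} {r : ℝ}
    (hf₁ : DifferentiableOn ℂ f₁ (ball c r)) (hf₂ : DifferentiableOn ℂ f₂ (ball c r))
    (hz₁ : z₁ ∈ ball c r) (hz₂ : z₂ ∈ ball c r) (h1 : (f₂ z₁).re < (f₁ z₁).re)
    (h2 : (f₁ z₂).re < (f₂ z₂).re) (h : ℕ → ℂ → ℂ) (Y : ℕ → ℝ) (hY : Tendsto Y atTop atTop)
    (hd : ∀ᶠ j in atTop, DifferentiableOn ℂ (h j) (ball c r))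
    (hup : ∀ ε : ℝ, 0 < ε → ∀ᶠ j in atTop, ∀ z ∈ ball c r,
      ‖h j z‖ ≤ Real.exp (Y j * (max (f₁ z).re (f₂ z).re + ε)))
    (hlow₁ : ∀ ε : ℝ, 0 < ε → ∀ ρ : ℝ, 0 < ρ → ∀ᶠ j in atTop, ∃ z ∈ ball z₁ ρ,
      Real.exp (Y j * ((f₁ z₁).re - ε)) ≤ ‖h j z‖)
    (hlow₂ : ∀ ε : ℝ, 0 < ε → ∀ ρ : ℝ, 0 < ρ → ∀ᶠ j in atTop, ∃ z ∈ ball z₂ ρ,
      Real.exp (Y j * ((f₂ z₂).re - ε)) ≤ ‖h j z‖) :
    ∀ᶠ j in atTop, ∃ z ∈ ball c r, h j z = 0 := by
  classical
  by_contra hcon
  rw [Filter.not_eventually] at hcon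
  have hcon' : ∃ᶠ j in atTop, ∀ z ∈ ball c r, h j z ≠ 0 := by
    refine hcon.mono ?_
    intro j hj z hz hz0
    exact hj ⟨z, hz, hz0⟩
  have hNB : (atTop ⊓ 𝓟 {j : ℕ | ∀ z ∈ ball c r, h j z ≠ 0}).NeBot :=
    Filter.frequently_mem_iff_neBot.1 hcon'
  set U : Ultrafilter ℕ := Ultrafilter.of (atTop ⊓ 𝓟 {j : ℕ | ∀ z ∈ ball c r, h j z ≠ 0}) with hU
  have hUle : (U : Filter ℕ) ≤ atTop ⊓ 𝓟 {j : ℕ | ∀ z ∈ ball c r, h j z ≠ 0} :=
    Ultrafilter.of_le _
  have hUt : (U : Filter ℕ) ≤ atTop := hUle.trans inf_le_left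
  have hU0 : ∀ᶠ j in (U : Filter ℕ), ∀ z ∈ ball c r, h j z ≠ 0 := by
    have := hUle.trans inf_le_right
    exact le_principal_iff.1 this
  -- logarithms
  have hlog : ∀ j, ∃ g : ℂ → ℂ, DifferentiableOn ℂ (h j) (ball c r) →
      (∀ z ∈ ball c r, h j z ≠ 0) →
      DifferentiableOn ℂ g (ball c r) ∧ ∀ z ∈ ball c r, Complex.exp (g z) = h j z := by
    intro j
    by_cases hj : DifferentiableOn ℂ (h j) (ball c r) ∧ ∀ z ∈ ball c r, h j z ≠ 0
    · obtain ⟨g, hg, hg'⟩ := MV.exists_log isOpen_ball (convex_ball c r) hj.1 hj.2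
      exact ⟨g, fun _ _ => ⟨hg, hg'⟩⟩
    · exact ⟨0, fun a b => absurd ⟨a, b⟩ hj⟩
  choose g hg using hlog
  have hgd : ∀ᶠ j in (U : Filter ℕ), DifferentiableOn ℂ (g j) (ball c r) ∧
      ∀ z ∈ ball c r, Complex.exp (g j z) = h j z := by
    filter_upwards [hUt hd, hU0] with j a b
    exact hg j a b
  have hYpos : ∀ᶠ j in (U : Filter ℕ), 0 < Y j := hUt (hY.eventually_gt_atTop 0)
  -- radii
  set m : ℝ := max (dist z₁ c) (dist z₂ c) with hm
  have hmr : m < r := max_lt hz₁ hz₂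
  have hm0 : 0 ≤ m := dist_nonneg.trans (le_max_left _ _)
  set s : ℝ := m + (r - m) / 4 with hs
  set r₀ : ℝ := m + (r - m) / 2 with hr₀
  set r₁ : ℝ := m + 3 * (r - m) / 4 with hr₁
  have hms : m < s := by rw [hs]; linarith
  have hsr₀ : s < r₀ := by rw [hs, hr₀]; linarith
  have hr₀₁ : r₀ < r₁ := by rw [hr₀, hr₁]; linarith
  have hr₁r : r₁ < r := by rw [hr₁]; linarith
  have hz₁s : z₁ ∈ ball c s := by
    rw [mem_ball]; exact (le_max_left _ _).trans_lt hms
  have hz₂s : z₂ ∈ ball c s := by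
    rw [mem_ball]; exact (le_max_right _ _).trans_lt hms
  have hz₁0 : z₁ ∈ ball c r₀ := ball_subset_ball hsr₀.le hz₁s
  have hz₂0 : z₂ ∈ ball c r₀ := ball_subset_ball hsr₀.le hz₂s
  have hB0 : ball c r₀ ⊆ ball c r := ball_subset_ball (by linarith)
  -- bounds for `f₁`, `f₂`
  have hcb : closedBall c r₁ ⊆ ball c r := closedBall_subset_ball hr₁r
  obtain ⟨C₁, hC₁⟩ := (isCompact_closedBall c r₁).exists_bound_of_continuousOn
    (hf₁.continuousOn.mono hcb)
  obtain ⟨C₂, hC₂⟩ := (isCompact_closedBall c r₁).exists_bound_of_continuousOn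
    (hf₂.continuousOn.mono hcb)
  set M : ℝ := max C₁ C₂ + 1 with hMdef
  -- the points used for the normalisation
  obtain ⟨ρ₁, hρ₁, hρ₁b⟩ := Metric.isOpen_iff.1 (isOpen_ball (x := c) (ε := s)) z₁ hz₁s
  have hwex : ∀ j, ∃ w : ℂ, (∃ z ∈ ball z₁ ρ₁, Real.exp (Y j * ((f₁ z₁).re - 1)) ≤ ‖h j z‖) →
      w ∈ ball z₁ ρ₁ ∧ Real.exp (Y j * ((f₁ z₁).re - 1)) ≤ ‖h j w‖ := by
    intro j
    by_cases hj : ∃ z ∈ ball z₁ ρ₁, Real.exp (Y j * ((f₁ z₁).re - 1)) ≤ ‖h j z‖
    · obtain ⟨z, hz, hz'⟩ := hj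
      exact ⟨z, fun _ => ⟨hz, hz'⟩⟩
    · exact ⟨0, fun a => absurd a hj⟩
  choose w hw using hwex
  have hw' : ∀ᶠ j in (U : Filter ℕ), w j ∈ ball z₁ ρ₁ ∧
      Real.exp (Y j * ((f₁ z₁).re - 1)) ≤ ‖h j (w j)‖ := by
    filter_upwards [hUt (hlow₁ 1 one_pos ρ₁ hρ₁)] with j hj
    exact hw j hj
  set G : ℕ → ℂ → ℂ := fun j z => (g j z - ((g j (w j)).im : ℂ) * Complex.I) / (Y j : ℂ) with hG
  have hGre : ∀ j z, (G j z).re = (g j z).re / Y j := by
    intro j z
    simp only [hG]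
    rw [Complex.div_ofReal_re]
    simp
  have hnorm : ∀ᶠ j in (U : Filter ℕ), ∀ z ∈ ball c r, ‖h j z‖ = Real.exp (Y j * (G j z).re) := by
    filter_upwards [hgd, hYpos] with j h3 h4 z hz
    rw [← h3.2 z hz, Complex.norm_exp, hGre, mul_div_cancel₀ _ h4.ne']
  have hupG : ∀ ε : ℝ, 0 < ε → ∀ᶠ j in (U : Filter ℕ), ∀ z ∈ ball c r,
      (G j z).re ≤ max (f₁ z).re (f₂ z).re + ε := by
    intro ε hε
    filter_upwards [hUt (hup ε hε), hnorm, hYpos] with j h3 h4 h5 z hz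
    have h6 := h3 z hz
    rw [h4 z hz, Real.exp_le_exp] at h6
    exact le_of_mul_le_mul_left h6 h5
  have hlowG : ∀ (a : ℝ) (z₀ : ℂ), z₀ ∈ ball c s →
      (∀ ε : ℝ, 0 < ε → ∀ ρ : ℝ, 0 < ρ → ∀ᶠ j in atTop, ∃ z ∈ ball z₀ ρ,
        Real.exp (Y j * (a - ε)) ≤ ‖h j z‖) →
      ∀ ε : ℝ, 0 < ε → ∀ ρ : ℝ, 0 < ρ → ∀ᶠ j in (U : Filter ℕ), ∃ z ∈ ball z₀ ρ,
        a - ε ≤ (G j z).re := by
    intro a z₀ hz₀ hl ε hε ρ hρ
    obtain ⟨ρ', hρ', hρ'b⟩ := Metric.isOpen_iff.1 (isOpen_ball (x := c) (ε := s)) z₀ hz₀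
    filter_upwards [hUt (hl ε hε (min ρ ρ') (lt_min hρ hρ')), hnorm, hYpos] with j h3 h4 h5
    obtain ⟨z, hz, hz'⟩ := h3
    have hzr : z ∈ ball c r :=
      hB0 (ball_subset_ball hsr₀.le (hρ'b (ball_subset_ball (min_le_right _ _) hz)))
    refine ⟨z, ball_subset_ball (min_le_left _ _) hz, ?_⟩
    rw [h4 z hzr, Real.exp_le_exp] at hz'
    exact le_of_mul_le_mul_left hz' h5
  obtain ⟨Gl, hGl, hlim⟩ := tp_limit (U := U) (c := c) (s := s) (r₀ := r₀) (r₁ := r₁) (M := M)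
    (M' := (f₁ z₁).re - 1) hsr₀ hr₀₁ G w
    (by
      filter_upwards [hgd] with j h3
      exact ((h3.1.mono (ball_subset_ball hr₁r.le)).sub_const _).div_const _)
    (by
      filter_upwards [hupG 1 one_pos] with j h3 z hz
      have h4 := h3 z (ball_subset_ball hr₁r.le hz)
      have h5 := hC₁ z (ball_subset_closedBall hz)
      have h6 := hC₂ z (ball_subset_closedBall hz)
      have h7 : max (f₁ z).re (f₂ z).re ≤ max C₁ C₂ :=
        max_le_max ((Complex.re_le_norm _).trans h5) ((Complex.re_le_norm _).trans h6)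
      rw [hMdef]
      linarith)
    (by
      filter_upwards [hw'] with j h3
      exact ball_subset_closedBall (hρ₁b h3.1))
    (by
      filter_upwards with j
      simp only [hG]
      rw [Complex.div_ofReal_im]
      simp)
    (by
      filter_upwards [hw', hnorm, hYpos] with j h3 h4 h5
      have h6 := h3.2
      rw [h4 (w j) (hB0 (ball_subset_ball hsr₀.le (hρ₁b h3.1))), Real.exp_le_exp] at h6
      exact le_of_mul_le_mul_left h6 h5)
  -- upper bound for the limit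
  have hGup : ∀ z ∈ ball c r₀, (Gl z).re ≤ max (f₁ z).re (f₂ z).re := by
    intro z hz
    refine le_of_forall_pos_le_add ?_
    intro ε hε
    obtain ⟨ρ, hρ, hev⟩ := hlim z hz (ε / 2) (by positivity)
    obtain ⟨j, h3, h4⟩ := (hev.and (hupG (ε / 2) (by positivity))).exists
    have h5 := h3 z (mem_ball_self hρ)
    have h6 := h4 z (hB0 hz)
    have h7 := (Complex.abs_re_le_norm _).trans h5
    rw [Complex.sub_re] at h7
    have h8 := (abs_le.1 h7).1
    linarith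
  -- lower bounds
  have hGlow : ∀ (a : ℝ) (z₀ : ℂ), z₀ ∈ ball c s →
      (∀ ε : ℝ, 0 < ε → ∀ ρ : ℝ, 0 < ρ → ∀ᶠ j in atTop, ∃ z ∈ ball z₀ ρ,
        Real.exp (Y j * (a - ε)) ≤ ‖h j z‖) → a ≤ (Gl z₀).re := by
    intro a z₀ hz₀ hl
    refine le_of_forall_pos_le_add ?_
    intro ε hε
    obtain ⟨ρ, hρ, hev⟩ := hlim z₀ (ball_subset_ball hsr₀.le hz₀) (ε / 2) (by positivity)
    obtain ⟨j, h3, h4⟩ := (hev.and (hlowG a z₀ hz₀ hl (ε / 2) (by positivity) ρ hρ)).exists
    obtain ⟨z, hz, hz'⟩ := h4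
    have h7 := (Complex.abs_re_le_norm _).trans (h3 z hz)
    rw [Complex.sub_re] at h7
    have h8 := (abs_le.1 h7).2
    linarith
  have hG1 := hGlow _ _ hz₁s hlow₁
  have hG2 := hGlow _ _ hz₂s hlow₂
  -- the maximum principle
  have hconst : ∀ (f f' : ℂ → ℂ) (z₀ : ℂ), DifferentiableOn ℂ f (ball c r) →
      DifferentiableOn ℂ f' (ball c r) → z₀ ∈ ball c r₀ → (f' z₀).re < (f z₀).re →
      (f z₀).re ≤ (Gl z₀).re → (∀ z ∈ ball c r₀, (Gl z).re ≤ max (f z).re (f' z).re) →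
      ∀ z ∈ ball c r₀, (Gl z).re - (f z).re = (Gl z₀).re - (f z₀).re := by
    intro f f' z₀ hf hf' hz₀ hlt hle hub
    set E : ℂ → ℂ := fun z => Complex.exp (Gl z - f z) with hE
    have hEd : DifferentiableOn ℂ E (ball c r₀) := (hGl.sub (hf.mono hB0)).cexp
    have hc1 : ContinuousAt (fun z => (f' z).re) z₀ :=
      Complex.continuous_re.continuousAt.comp
        (hf'.continuousOn.continuousAt (isOpen_ball.mem_nhds (hB0 hz₀)))
    have hc2 : ContinuousAt (fun z => (f z).re) z₀ :=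
      Complex.continuous_re.continuousAt.comp
        (hf.continuousOn.continuousAt (isOpen_ball.mem_nhds (hB0 hz₀)))
    have hev1 : ∀ᶠ z in 𝓝 z₀, (f' z).re < (f z).re := hc1.eventually_lt hc2 hlt
    have hmax : IsLocalMax (norm ∘ E) z₀ := by
      filter_upwards [hev1, isOpen_ball.mem_nhds hz₀] with z h3 h4
      simp only [Function.comp, hE, Complex.norm_exp, Complex.sub_re]
      rw [Real.exp_le_exp]
      have h5 := hub z h4
      rw [max_eq_left h3.le] at h5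
      linarith
    have hEd' : ∀ᶠ z in 𝓝 z₀, DifferentiableAt ℂ E z := by
      filter_upwards [isOpen_ball.mem_nhds hz₀] with z hz
      exact hEd.differentiableAt (isOpen_ball.mem_nhds hz)
    have hev2 := Complex.eventually_eq_of_isLocalMax_norm hEd' hmax
    have han : AnalyticOnNhd ℂ E (ball c r₀) := hEd.analyticOnNhd isOpen_ball
    have han' : AnalyticOnNhd ℂ (fun _ : ℂ => E z₀) (ball c r₀) := analyticOnNhd_const
    have heq := han.eqOn_of_preconnected_of_eventuallyEq han' (convex_ball c r₀).isPreconnected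
      hz₀ hev2
    intro z hz
    have h3 := congrArg norm (heq hz)
    simp only [hE, Complex.norm_exp, Complex.sub_re] at h3
    exact Real.exp_injective h3
  have hA := hconst f₁ f₂ z₁ hf₁ hf₂ hz₁0 h1 hG1 hGup z₂ hz₂0
  have hB := hconst f₂ f₁ z₂ hf₂ hf₁ hz₂0 h2 hG2 (fun z hz => by
    rw [max_comm]; exact hGup z hz) z₁ hz₁0
  linarith

end Pool.Agent.Lib.MP_209724_lc.OV
end

section

namespace Pool.Agent.Lib.MP_209724_lc.OV

open MvPolynomial Filter Topology Metric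

/-- real part of `l * (Y * exp ζ)` -/
theorem ph_re (l ζ : ℂ) (Y : ℝ) :
    (l * ((Y : ℂ) * Complex.exp ζ)).re = Y * (l * Complex.exp ζ).re := by
  rw [show l * ((Y : ℂ) * Complex.exp ζ) = (Y : ℂ) * (l * Complex.exp ζ) by ring,
    Complex.re_ofReal_mul]

/-- `exp (-(ε Y k))` tends to zero -/
theorem ph_exp_small {Y : ℕ → ℝ} (hY : Tendsto Y atTop atTop) {η : ℝ} (hη : 0 < η) (C δ : ℝ)
    (hδ : 0 < δ) : ∀ᶠ k in atTop, C * Real.exp (-(η * Y k)) ≤ δ := by
  have h1 : Tendsto (fun k => C * Real.exp (-(η * Y k))) atTop (𝓝 (C * 0)) :=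
    (Real.tendsto_exp_neg_atTop_nhds_zero.comp (hY.const_mul_atTop hη)).const_mul C
  rw [mul_zero] at h1
  exact (h1.eventually_lt_const hδ).mono fun k hk => hk.le

/-- the size of a term -/
theorem ph_term {g w l ζ : ℂ} {Y ε₁ ε₂ : ℝ} (hg : ‖g‖ ≤ Real.exp (ε₁ * Y))
    (hw : ‖w - l * (Y * Complex.exp ζ)‖ ≤ ε₂ * Y) :
    ‖g * Complex.exp w‖ ≤ Real.exp (Y * ((l * Complex.exp ζ).re + ε₁ + ε₂)) := by
  have h1 : w.re ≤ Y * (l * Complex.exp ζ).re + ε₂ * Y := by
    have h2 := (Complex.re_le_norm (w - l * (Y * Complex.exp ζ))).trans hw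
    rw [Complex.sub_re, ph_re] at h2
    linarith
  rw [norm_mul, Complex.norm_exp]
  calc ‖g‖ * Real.exp w.re ≤ Real.exp (ε₁ * Y) * Real.exp (Y * (l * Complex.exp ζ).re + ε₂ * Y) :=
        mul_le_mul hg (Real.exp_le_exp.mpr h1) (Real.exp_pos _).le (Real.exp_pos _).le
    _ = Real.exp (Y * ((l * Complex.exp ζ).re + ε₁ + ε₂)) := by
        rw [← Real.exp_add]
        congr 1
        ring

/-- lower bound near a point where one frequency dominates -/
theorem ph_low {ι : Type} [Fintype ι] [DecidableEq ι] (b : ι → ℂ) (G W : ℕ → ℂ → ι → ℂ)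
    (Y : ℕ → ℝ) (hY : Tendsto Y atTop atTop)
    (hG : ∀ ε : ℝ, 0 < ε → ∀ᶠ k in atTop, ∀ ζ ∈ strip, ∀ m, ‖G k ζ m‖ ≤ Real.exp (ε * Y k))
    (hW : ∀ ε : ℝ, 0 < ε → ∀ᶠ k in atTop, ∀ ζ ∈ strip, ∀ m,
      ‖W k ζ m - b m * (Y k * Complex.exp ζ)‖ ≤ ε * Y k)
    (hlow : ∀ l ∈ Finset.univ.image b, ∀ (c : ℂ) (r : ℝ), 0 < r → ball c r ⊆ strip →
      ∀ ε : ℝ, 0 < ε → ∀ᶠ k in atTop, ∃ ζ ∈ ball c r, Real.exp (-(ε * Y k)) ≤
        ‖∑ m with b m = l, G k ζ m * Complex.exp (W k ζ m - l * (Y k * Complex.exp ζ))‖)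
    (c : ℂ) (r : ℝ) (hsub : ball c r ⊆ strip) (l : ℂ) (hl : l ∈ Finset.univ.image b) (ζ₀ : ℂ)
    (hζ₀ : ζ₀ ∈ ball c r)
    (hst : ∀ m, b m ≠ l → (b m * Complex.exp ζ₀).re < (l * Complex.exp ζ₀).re)
    (ε : ℝ) (hε : 0 < ε) (ρ : ℝ) (hρ : 0 < ρ) :
    ∀ᶠ k in atTop, ∃ z ∈ ball ζ₀ ρ, Real.exp (Y k * ((l * Complex.exp ζ₀).re - ε)) ≤
      ‖∑ m, G k z m * Complex.exp (W k z m)‖ := by
  obtain ⟨η, hη, hgap⟩ : ∃ η : ℝ, 0 < η ∧ ∀ m, b m ≠ l →
      (b m * Complex.exp ζ₀).re < (l * Complex.exp ζ₀).re - 3 * η := by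
    have h1 : ∀ m, ∀ᶠ η : ℝ in 𝓝[>] 0, b m ≠ l →
        (b m * Complex.exp ζ₀).re < (l * Complex.exp ζ₀).re - 3 * η := by
      intro m
      by_cases hm : b m = l
      · exact Eventually.of_forall fun η h => absurd hm h
      · have h2 : Tendsto (fun η : ℝ => (l * Complex.exp ζ₀).re - 3 * η) (𝓝[>] 0)
            (𝓝 ((l * Complex.exp ζ₀).re - 3 * 0)) :=
          ((continuous_const.sub (continuous_const.mul continuous_id)).tendsto 0).mono_left
            nhdsWithin_le_nhds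
        rw [mul_zero, sub_zero] at h2
        exact (h2.eventually_const_lt (hst m hm)).mono fun η h _ => h
    have h3 : ∀ᶠ η : ℝ in 𝓝[>] 0, 0 < η ∧ ∀ m, b m ≠ l →
        (b m * Complex.exp ζ₀).re < (l * Complex.exp ζ₀).re - 3 * η :=
      Filter.Eventually.and (eventually_mem_nhdsWithin.mono fun η h => h)
        (Filter.eventually_all.mpr h1)
    exact h3.exists
  have hcont : ∀ a : ℂ, Continuous fun z => (a * Complex.exp z).re := fun a =>
    Complex.continuous_re.comp (continuous_const.mul Complex.continuous_exp)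
  obtain ⟨ρ', hρ', hball⟩ : ∃ ρ' : ℝ, 0 < ρ' ∧ ∀ z ∈ ball ζ₀ ρ', z ∈ ball c r ∧ z ∈ ball ζ₀ ρ ∧
      (l * Complex.exp ζ₀).re - ε / 2 < (l * Complex.exp z).re ∧
      ∀ m, b m ≠ l → (b m * Complex.exp z).re < (l * Complex.exp z).re - 3 * η := by
    have h1 : ∀ᶠ z in 𝓝 ζ₀, z ∈ ball c r := isOpen_ball.mem_nhds hζ₀
    have h2 : ∀ᶠ z in 𝓝 ζ₀, z ∈ ball ζ₀ ρ := ball_mem_nhds ζ₀ hρ
    have h3 : ∀ᶠ z in 𝓝 ζ₀, (l * Complex.exp ζ₀).re - ε / 2 < (l * Complex.exp z).re :=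
      ((hcont l).tendsto ζ₀).eventually_const_lt (by linarith)
    have h4 : ∀ᶠ z in 𝓝 ζ₀, ∀ m, b m ≠ l →
        (b m * Complex.exp z).re < (l * Complex.exp z).re - 3 * η := by
      rw [Filter.eventually_all]
      intro m
      by_cases hm : b m = l
      · exact Eventually.of_forall fun z h => absurd hm h
      · exact (((hcont (b m)).tendsto ζ₀).eventually_lt
          (((hcont l).sub continuous_const).tendsto ζ₀) (hgap m hm)).mono fun z h _ => h
    have h5 := h1.and (h2.and (h3.and h4))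
    rw [Metric.eventually_nhds_iff_ball] at h5
    exact h5
  set ε' : ℝ := min (ε / 4) (η / 2) with hε'
  have hε'pos : 0 < ε' := lt_min (by linarith) (by linarith)
  have hε'1 : ε' ≤ ε / 4 := min_le_left _ _
  have hε'2 : ε' ≤ η / 2 := min_le_right _ _
  filter_upwards [hlow l hl ζ₀ ρ' hρ' (fun z hz => hsub (hball z hz).1) ε' hε'pos,
    hG (η / 2) (by linarith), hW (η / 2) (by linarith), hY.eventually_gt_atTop 0,
    ph_exp_small hY hη (Fintype.card ι : ℝ) (1 / 2) (by norm_num),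
    ph_exp_small hY hε'pos 1 (1 / 2) (by norm_num)] with k hk1 hk2 hk3 hk4 hk5 hk6
  obtain ⟨z, hz, hz1⟩ := hk1
  obtain ⟨hzc, hzρ, hzl, hzm⟩ := hball z hz
  have hzs := hsub hzc
  refine ⟨z, hzρ, ?_⟩
  set R : ℝ := (l * Complex.exp z).re with hR
  have hsplit : ∑ m, G k z m * Complex.exp (W k z m) =
      Complex.exp (l * (Y k * Complex.exp z)) *
        (∑ m with b m = l, G k z m * Complex.exp (W k z m - l * (Y k * Complex.exp z))) +
      ∑ m with ¬ b m = l, G k z m * Complex.exp (W k z m) := by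
    rw [← Finset.sum_filter_add_sum_filter_not Finset.univ (fun m => b m = l), Finset.mul_sum]
    congr 1
    refine Finset.sum_congr rfl fun m _ => ?_
    rw [Complex.exp_sub]
    field_simp
  have hfirst : Real.exp (Y k * R) * Real.exp (-(ε' * Y k)) ≤
      ‖Complex.exp (l * (Y k * Complex.exp z)) *
        (∑ m with b m = l, G k z m * Complex.exp (W k z m - l * (Y k * Complex.exp z)))‖ := by
    rw [norm_mul, Complex.norm_exp, ph_re]
    exact mul_le_mul_of_nonneg_left hz1 (Real.exp_pos _).le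
  have hsecond : ‖∑ m with ¬ b m = l, G k z m * Complex.exp (W k z m)‖ ≤
      (Fintype.card ι : ℝ) * Real.exp (Y k * R - 2 * η * Y k) := by
    calc ‖∑ m with ¬ b m = l, G k z m * Complex.exp (W k z m)‖
        ≤ ∑ m with ¬ b m = l, ‖G k z m * Complex.exp (W k z m)‖ := norm_sum_le _ _
      _ ≤ ∑ m with ¬ b m = l, Real.exp (Y k * R - 2 * η * Y k) := by
          refine Finset.sum_le_sum fun m hm => ?_
          have hm' : b m ≠ l := (Finset.mem_filter.mp hm).2
          refine (ph_term (hk2 z hzs m) (hk3 z hzs m)).trans (Real.exp_le_exp.mpr ?_)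
          have h1 := hzm m hm'
          have h2 : Y k * ((b m * Complex.exp z).re + η / 2 + η / 2) ≤ Y k * (R - 2 * η) :=
            mul_le_mul_of_nonneg_left (by linarith) hk4.le
          linarith
      _ ≤ ∑ _m : ι, Real.exp (Y k * R - 2 * η * Y k) :=
          Finset.sum_le_sum_of_subset_of_nonneg (Finset.filter_subset _ _)
            fun _ _ _ => (Real.exp_pos _).le
      _ = (Fintype.card ι : ℝ) * Real.exp (Y k * R - 2 * η * Y k) := by
          rw [Finset.sum_const, nsmul_eq_mul, Finset.card_univ]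
  have hE : 0 < Real.exp (Y k * R) := Real.exp_pos _
  have ha : 0 < Real.exp (-(ε' * Y k)) := Real.exp_pos _
  have hb1 : Real.exp (-(η * Y k)) ≤ Real.exp (-(ε' * Y k)) := by
    apply Real.exp_le_exp.mpr
    have := mul_le_mul_of_nonneg_right (show ε' ≤ η by linarith) hk4.le
    linarith
  have hsec2 : (Fintype.card ι : ℝ) * Real.exp (Y k * R - 2 * η * Y k) ≤
      Real.exp (Y k * R) * (1 / 2 * Real.exp (-(ε' * Y k))) := by
    have h1 : Real.exp (Y k * R - 2 * η * Y k) =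
        Real.exp (Y k * R) * (Real.exp (-(η * Y k)) * Real.exp (-(η * Y k))) := by
      rw [← Real.exp_add, ← Real.exp_add]
      congr 1
      ring
    rw [h1]
    have h2 : (Fintype.card ι : ℝ) * Real.exp (-(η * Y k)) * Real.exp (-(η * Y k)) ≤
        1 / 2 * Real.exp (-(ε' * Y k)) :=
      mul_le_mul hk5 hb1 (Real.exp_pos _).le (by norm_num)
    calc (Fintype.card ι : ℝ) * (Real.exp (Y k * R) * (Real.exp (-(η * Y k)) *
          Real.exp (-(η * Y k))))
        = Real.exp (Y k * R) * ((Fintype.card ι : ℝ) * Real.exp (-(η * Y k)) *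
          Real.exp (-(η * Y k))) := by ring
      _ ≤ _ := mul_le_mul_of_nonneg_left h2 hE.le
  have hfin : Real.exp (Y k * R) * (Real.exp (-(ε' * Y k)) * Real.exp (-(ε' * Y k))) ≤
      Real.exp (Y k * R) * Real.exp (-(ε' * Y k)) -
        Real.exp (Y k * R) * (1 / 2 * Real.exp (-(ε' * Y k))) := by
    rw [← mul_sub]
    refine mul_le_mul_of_nonneg_left ?_ hE.le
    rw [one_mul] at hk6
    nlinarith
  calc Real.exp (Y k * ((l * Complex.exp ζ₀).re - ε))
      ≤ Real.exp (Y k * R) * (Real.exp (-(ε' * Y k)) * Real.exp (-(ε' * Y k))) := by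
        rw [← Real.exp_add, ← Real.exp_add]
        apply Real.exp_le_exp.mpr
        have h1 : Y k * ((l * Complex.exp ζ₀).re - ε) ≤ Y k * (R - 2 * ε') :=
          mul_le_mul_of_nonneg_left (by linarith) hk4.le
        linarith
    _ ≤ ‖Complex.exp (l * (Y k * Complex.exp z)) *
        (∑ m with b m = l, G k z m * Complex.exp (W k z m - l * (Y k * Complex.exp z)))‖ -
        ‖∑ m with ¬ b m = l, G k z m * Complex.exp (W k z m)‖ := by
        linarith [hsecond.trans hsec2]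
    _ ≤ ‖∑ m, G k z m * Complex.exp (W k z m)‖ := by
        rw [hsplit]
        have h1 := norm_sub_le
          (Complex.exp (l * (Y k * Complex.exp z)) *
            (∑ m with b m = l, G k z m * Complex.exp (W k z m - l * (Y k * Complex.exp z))) +
            ∑ m with ¬ b m = l, G k z m * Complex.exp (W k z m))
          (∑ m with ¬ b m = l, G k z m * Complex.exp (W k z m))
        rw [add_sub_cancel_right] at h1
        linarith

/-- OV-17: zeros of sums `∑ G_m exp(W_m)`, `W_m ≈ b_m Y exp ζ`, with at least two different `b_m`.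

Proof. Apply `edge` to `Λ = image b univ` (at least two elements): `θ, lp, lm, r, ζ₁, ζ₂`; the ball
`ball (θ i) r` is contained in `strip` (`|θ| ≤ π < 3.2`, `r ≤ 1 / 2`). Apply `two_phases` with
`f₁ ζ = lp exp ζ`, `f₂ ζ = lm exp ζ`, `c = θ i`, `z₁ = ζ₁`, `z₂ = ζ₂`, `h k ζ = ∑ G exp W`.
`hup`: `|exp (W_m)| = exp (Re W_m) ≤ exp (Y (Re (b_m exp ζ) + ε / 3)) ≤ exp (Y (max … + ε / 3))` by `hW` and
`edge`; `|G_m| ≤ exp (ε Y / 3)`; the number of terms is at most `exp (ε Y / 3)` for large `k` (`Y k > 0`).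
`hlow₁` (`hlow₂` is symmetric; prove one lemma for both): given `ε`, `ρ`. By continuity there are
`0 < ρ' ≤ ρ` and `η > 0` such that on `ball ζ₁ ρ' ⊆ ball (θ i) r`:
`Re (lp exp ζ) ≥ Re (lp exp ζ₁) - ε / 2`, and `Re (b_m exp ζ) ≤ Re (lp exp ζ) - 3 η` for all `m` with
`b_m ≠ lp` (finitely many `m`; at `ζ₁` the strict inequality is in `edge`). Take
`ε' = min (ε / 4) (η / 2)`. By `hlow` for `l = lp` on `ball ζ₁ ρ'` with `ε'`: for large `k` there is `ζ` in
this ball with `|∑_{b_m = lp} G_m exp (W_m - lp Y exp ζ)| ≥ exp (-ε' Y)`. Then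
`|h k ζ| ≥ exp (Y Re (lp exp ζ)) (exp (-ε' Y) - ∑_{b_m ≠ lp} exp (η Y / 2) exp (-3 η Y + η Y / 2))`
`≥ exp (Y Re (lp exp ζ)) exp (-2 ε' Y)` for large `k` (the subtracted term is at most
`card * exp (-2 η Y)`, small compared with `exp (-η Y / 2) ≤ exp (-ε' Y)`), and this is at least
`exp (Y (Re (lp exp ζ₁) - ε))`. -/
theorem phases {ι : Type} [Fintype ι] [DecidableEq ι] (b : ι → ℂ) (G W : ℕ → ℂ → ι → ℂ)
    (Y : ℕ → ℝ) (hY : Tendsto Y atTop atTop)
    (hd : ∀ᶠ k in atTop, ∀ m, DifferentiableOn ℂ (fun ζ => G k ζ m) strip ∧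
      DifferentiableOn ℂ (fun ζ => W k ζ m) strip)
    (hG : ∀ ε : ℝ, 0 < ε → ∀ᶠ k in atTop, ∀ ζ ∈ strip, ∀ m, ‖G k ζ m‖ ≤ Real.exp (ε * Y k))
    (hW : ∀ ε : ℝ, 0 < ε → ∀ᶠ k in atTop, ∀ ζ ∈ strip, ∀ m,
      ‖W k ζ m - b m * (Y k * Complex.exp ζ)‖ ≤ ε * Y k)
    (hb : ∃ m m', b m ≠ b m')
    (hlow : ∀ l ∈ Finset.univ.image b, ∀ (c : ℂ) (r : ℝ), 0 < r → ball c r ⊆ strip →
      ∀ ε : ℝ, 0 < ε → ∀ᶠ k in atTop, ∃ ζ ∈ ball c r, Real.exp (-(ε * Y k)) ≤
        ‖∑ m with b m = l, G k ζ m * Complex.exp (W k ζ m - l * (Y k * Complex.exp ζ))‖) :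
    ∀ᶠ k in atTop, ∃ ζ ∈ strip, ∑ m, G k ζ m * Complex.exp (W k ζ m) = 0 := by
  have hcard : 1 < (Finset.univ.image b).card := by
    obtain ⟨m, m', hmm⟩ := hb
    exact Finset.one_lt_card.mpr ⟨b m, Finset.mem_image_of_mem _ (Finset.mem_univ _), b m',
      Finset.mem_image_of_mem _ (Finset.mem_univ _), hmm⟩
  obtain ⟨θ, lp, lm, r, hθ, hlp, hlm, hr, hr2, hball, ⟨ζ₁, hζ₁, h1⟩, ζ₂, hζ₂, h2⟩ :=
    edge (Finset.univ.image b) hcard
  have hsub : ball ((θ : ℂ) * Complex.I) r ⊆ strip := by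
    intro ζ hζ
    rw [mem_ball, dist_eq_norm] at hζ
    have e1 := (Complex.abs_re_le_norm (ζ - θ * Complex.I)).trans_lt hζ
    have e2 := (Complex.abs_im_le_norm (ζ - θ * Complex.I)).trans_lt hζ
    have e3 : (ζ - θ * Complex.I).re = ζ.re := by simp
    have e4 : (ζ - θ * Complex.I).im = ζ.im - θ := by simp
    rw [e3] at e1
    rw [e4] at e2
    refine ⟨by linarith, ?_⟩
    have e5 : |ζ.im| ≤ |ζ.im - θ| + |θ| := by
      calc |ζ.im| = |(ζ.im - θ) + θ| := by rw [sub_add_cancel]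
        _ ≤ |ζ.im - θ| + |θ| := abs_add_le _ _
    have e6 := Real.pi_lt_d2
    linarith
  have hmemb : ∀ m, b m ∈ Finset.univ.image b := fun m =>
    Finset.mem_image_of_mem _ (Finset.mem_univ _)
  have key := two_phases (f₁ := fun ζ => lp * Complex.exp ζ) (f₂ := fun ζ => lm * Complex.exp ζ)
    (c := (θ : ℂ) * Complex.I) (z₁ := ζ₁) (z₂ := ζ₂) (r := r)
    (Complex.differentiable_exp.const_mul lp).differentiableOn
    (Complex.differentiable_exp.const_mul lm).differentiableOn hζ₁ hζ₂ h1 h2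
    (fun k ζ => ∑ m, G k ζ m * Complex.exp (W k ζ m)) Y hY ?_ ?_ ?_ ?_
  · filter_upwards [key] with k hk
    obtain ⟨ζ, hζ, hz⟩ := hk
    exact ⟨ζ, hsub hζ, hz⟩
  · filter_upwards [hd] with k hk
    refine DifferentiableOn.fun_sum fun m _ => ?_
    exact ((hk m).1.mono hsub).mul ((hk m).2.mono hsub).cexp
  · intro ε hε
    filter_upwards [hG (ε / 3) (by linarith), hW (ε / 3) (by linarith),
      hY.eventually_gt_atTop 0, ph_exp_small hY (show 0 < ε / 3 by linarith)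
        (Fintype.card ι : ℝ) 1 one_pos] with k hk1 hk2 hk3 hk4 z hz
    have hzs := hsub hz
    have hterm : ∀ m, ‖G k z m * Complex.exp (W k z m)‖ ≤
        Real.exp (Y k * (max (lp * Complex.exp z).re (lm * Complex.exp z).re + ε / 3 + ε / 3)) := by
      intro m
      refine (ph_term (hk1 z hzs m) (hk2 z hzs m)).trans (Real.exp_le_exp.mpr ?_)
      refine mul_le_mul_of_nonneg_left ?_ hk3.le
      have := (hball z hz (b m) (hmemb m)).1
      linarith
    calc ‖∑ m, G k z m * Complex.exp (W k z m)‖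
        ≤ ∑ m, ‖G k z m * Complex.exp (W k z m)‖ := norm_sum_le _ _
      _ ≤ ∑ _m : ι, Real.exp (Y k * (max (lp * Complex.exp z).re (lm * Complex.exp z).re +
            ε / 3 + ε / 3)) := Finset.sum_le_sum fun m _ => hterm m
      _ = (Fintype.card ι : ℝ) * Real.exp (Y k * (max (lp * Complex.exp z).re
            (lm * Complex.exp z).re + ε / 3 + ε / 3)) := by
          rw [Finset.sum_const, nsmul_eq_mul, Finset.card_univ]
      _ = ((Fintype.card ι : ℝ) * Real.exp (-(ε / 3 * Y k))) * Real.exp (Y k *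
            (max (lp * Complex.exp z).re (lm * Complex.exp z).re + ε)) := by
          rw [mul_assoc, ← Real.exp_add]
          congr 2
          ring
      _ ≤ 1 * Real.exp (Y k * (max (lp * Complex.exp z).re (lm * Complex.exp z).re + ε)) :=
          mul_le_mul_of_nonneg_right hk4 (Real.exp_pos _).le
      _ = Real.exp (Y k * (max (lp * Complex.exp z).re (lm * Complex.exp z).re + ε)) :=
          one_mul _
  · intro ε hε ρ hρ
    exact ph_low b G W Y hY hG hW hlow _ r hsub lp hlp ζ₁ hζ₁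
      (fun m hm => (hball ζ₁ hζ₁ (b m) (hmemb m)).2.1 h1 hm) ε hε ρ hρ
  · intro ε hε ρ hρ
    exact ph_low b G W Y hY hG hW hlow _ r hsub lm hlm ζ₂ hζ₂
      (fun m hm => (hball ζ₂ hζ₂ (b m) (hmemb m)).2.2 h2 hm) ε hε ρ hρ

end Pool.Agent.Lib.MP_209724_lc.OV
end

section

namespace Pool.Agent.Lib.MP_209724_lc.OV

open MvPolynomial Filter Topology Metric

variable {K : Type} [Field K] [Algebra ℂ K]

/-- the elements algebraic over `ℂ(u)` form a subspace -/
def dirAlgSub (u : K) : Submodule ℂ K where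
  carrier := {x | AlgOver u x}
  add_mem' := by
    intro a b ha hb
    exact IsAlgebraic.add ha hb
  zero_mem' := isAlgebraic_zero
  smul_mem' := by
    intro c x hx
    show IsAlgebraic _ (c • x)
    rw [Algebra.smul_def]
    refine IsAlgebraic.mul ?_ hx
    have h : algebraMap ℂ K c = algebraMap (Algebra.adjoin ℂ {u}) K
        (algebraMap ℂ (Algebra.adjoin ℂ {u}) c) := rfl
    rw [h]
    exact isAlgebraic_algebraMap _

/-- a generic vector of coefficients -/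
theorem dir_generic {q : Type} [Fintype q] (u : K) (ω : q → K) (hω : ∃ i, ¬ AlgOver u (ω i))
    (L : Finset (q → ℂ)) (hL : ∀ v ∈ L, v ≠ 0) :
    ∃ c : q → ℂ, ¬ AlgOver u (∑ i, algebraMap ℂ K (c i) * ω i) ∧ ∀ v ∈ L, ∑ i, c i * v i ≠ 0 := by
  classical
  let T : (q → ℂ) →ₗ[ℂ] K := ∑ i, (LinearMap.proj i : (q → ℂ) →ₗ[ℂ] ℂ).smulRight (ω i)
  have hT : ∀ c : q → ℂ, T c = ∑ i, algebraMap ℂ K (c i) * ω i := by
    intro c
    simp only [T, LinearMap.sum_apply, LinearMap.smulRight_apply, LinearMap.proj_apply,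
      Algebra.smul_def]
  let F : (q → ℂ) → ((q → ℂ) →ₗ[ℂ] ℂ) := fun v =>
    ∑ i, (LinearMap.proj i : (q → ℂ) →ₗ[ℂ] ℂ).smulRight (v i)
  have hF : ∀ v c : q → ℂ, F v c = ∑ i, c i * v i := by
    intro v c
    simp only [F, LinearMap.sum_apply, LinearMap.smulRight_apply, LinearMap.proj_apply,
      smul_eq_mul]
  let S : Finset (Subspace ℂ (q → ℂ)) :=
    insert ((dirAlgSub u).comap T) (L.image fun v => LinearMap.ker (F v))
  have hS : (⊤ : Subspace ℂ (q → ℂ)) ∉ S := by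
    intro htop
    rcases Finset.mem_insert.mp htop with h | h
    · obtain ⟨i, hi⟩ := hω
      have h1 : Pi.single i (1 : ℂ) ∈ (dirAlgSub u).comap T := by
        rw [← h]
        trivial
      apply hi
      have h2 : AlgOver u (T (Pi.single i 1)) := h1
      rw [hT, Finset.sum_eq_single i] at h2
      · simpa using h2
      · intro j _ hj
        rw [Pi.single_eq_of_ne hj, map_zero, zero_mul]
      · intro h3
        exact absurd (Finset.mem_univ i) h3
    · obtain ⟨v, hv, h1⟩ := Finset.mem_image.mp h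
      apply hL v hv
      funext i
      have h2 : Pi.single i (1 : ℂ) ∈ LinearMap.ker (F v) := by
        rw [h1]
        trivial
      rw [LinearMap.mem_ker, hF, Finset.sum_eq_single i] at h2
      · simpa using h2
      · intro j _ hj
        rw [Pi.single_eq_of_ne hj, zero_mul]
      · intro h3
        exact absurd (Finset.mem_univ i) h3
  have hne := Subspace.biUnion_ne_univ_of_top_notMem hS
  obtain ⟨c, hc⟩ := (Set.ne_univ_iff_exists_notMem _).mp hne
  simp only [Set.mem_iUnion, not_exists] at hc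
  refine ⟨c, ?_, ?_⟩
  · intro h
    refine hc ((dirAlgSub u).comap T) (Finset.mem_insert_self _ _) ?_
    show AlgOver u (T c)
    rw [hT]
    exact h
  · intro v hv h
    refine hc (LinearMap.ker (F v))
      (Finset.mem_insert_of_mem (Finset.mem_image.mpr ⟨v, hv, rfl⟩)) ?_
    rw [SetLike.mem_coe, LinearMap.mem_ker, hF]
    exact h

/-- OV-15: for a generic combination `τ = ∑ c_i ω_i`, when `τ` is much larger than `u`, the vector
`(ω_i / τ)` is near one of finitely many vectors.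

Proof. Take the data of `direction_pair` for all pairs `(ω_i, ω_j)`, `N₁` the maximum of the `N₀`'s,
`N₀ = N₁ + 1`, and `L` from `finite_directions`. Choose `c` such that `∑ c_i v_i ≠ 0` for all `v ∈ L` and
`∑ c_i ω_i` is not algebraic over `ℂ(u)`: the vectors `c` which violate one of these conditions form a
finite union of proper subspaces of `ℂ^q` (for the last one: `{c | ∑ c_i ω_i algebraic over ℂ(u)}` is a
subspace, proper by `hω`); use `Subspace.biUnion_ne_univ_of_top_notMem` or an elementary argument. Let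
`Bs` be the set of the vectors `v / (∑ c_i v_i)`, `v ∈ L`. Suppose the last claim fails for some
`δ > 0`: there are `ψ_n` with `|ψ_n u| → ∞`, `|ψ_n u| ^ N₀ ≤ |ψ_n τ|` for which no `b ∈ Bs` works. Put
`ρ_n = max_i |ψ_n ω_i|`; as `|ψ_n τ| ≤ (∑ |c_i|) ρ_n`, `ρ_n ≥ |ψ_n u| ^ N₁` for large `n`. The vectors
`(ψ_n ω_i / ρ_n)` lie in the unit ball and have norm one, so a subsequence converges to some `v ≠ 0`; by
`direction_pair`, `p i j (v_i, v_j) = 0` for all `i, j`. So `v = t v'` with `v' ∈ L`, and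
`ψ_n τ / ρ_n → ∑ c_i v_i = t ∑ c_i v'_i ≠ 0`, `ψ_n ω_i / ψ_n τ → v_i / ∑ c_k v_k = b_i` with
`b = v' / ∑ c_k v'_k ∈ Bs`. For large `n` this contradicts the choice of `ψ_n`. (`A` depends on `n`; only
the values `ψ_n u`, `ψ_n ω_i` and the conclusion of `direction_pair` matter.) -/
theorem directions {z : Fin 2 → K} (hz : IsBase z) {q : Type} [Fintype q] (ω : q → K)
    (hω : ∃ i, ¬ AlgOver (z 0) (ω i)) :
    ∃ (c : q → ℂ) (Bs : Finset (q → ℂ)) (N₀ : ℕ),
      ¬ AlgOver (z 0) (∑ i, algebraMap ℂ K (c i) * ω i) ∧ (∀ b ∈ Bs, ∑ i, c i * b i = 1) ∧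
      ∀ δ : ℝ, 0 < δ → ∃ R : ℝ, ∀ (A : Subalgebra ℂ K) (ψ : K → ℂ), IsHomOn A ψ → z 0 ∈ A →
        (∀ i, ω i ∈ A) → R ≤ ‖ψ (z 0)‖ →
        ‖ψ (z 0)‖ ^ N₀ ≤ ‖ψ (∑ i, algebraMap ℂ K (c i) * ω i)‖ →
        ∃ b ∈ Bs, ∀ i, ‖ψ (ω i) - b i * ψ (∑ i, algebraMap ℂ K (c i) * ω i)‖ ≤
          δ * ‖ψ (∑ i, algebraMap ℂ K (c i) * ω i)‖ := by
  classical
  choose d p N₀' hd hp hp0 hlim using fun i j => direction_pair hz (ω i) (ω j)
  obtain ⟨L, hL0, hL⟩ := finite_directions d p hd hp hp0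
  obtain ⟨c, hcalg, hcL⟩ := dir_generic (z 0) ω hω L hL0
  set N₁ : ℕ := Finset.univ.sup fun a : q × q => N₀' a.1 a.2 with hN₁
  have hN₁le : ∀ i j, N₀' i j ≤ N₁ := fun i j =>
    Finset.le_sup (f := fun a : q × q => N₀' a.1 a.2) (Finset.mem_univ (i, j))
  refine ⟨c, L.image (fun v => (∑ i, c i * v i)⁻¹ • v), N₁ + 1, hcalg, ?_, ?_⟩
  · intro b hb
    obtain ⟨v, hv, rfl⟩ := Finset.mem_image.mp hb
    have h1 : ∑ i, c i * ((∑ i, c i * v i)⁻¹ • v) i = (∑ i, c i * v i)⁻¹ * ∑ i, c i * v i := by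
      rw [Finset.mul_sum]
      refine Finset.sum_congr rfl fun i _ => ?_
      rw [Pi.smul_apply, smul_eq_mul]
      ring
    rw [h1, inv_mul_cancel₀ (hcL v hv)]
  intro δ hδ
  by_contra hcon
  push Not at hcon
  set C : ℝ := (∑ i, ‖c i‖) + 1 with hC
  have hC1 : 1 ≤ C := by
    rw [hC]
    have : 0 ≤ ∑ i, ‖c i‖ := Finset.sum_nonneg fun i _ => norm_nonneg _
    linarith
  choose A ψ hhom hzA hωA hR hpow hb using fun n : ℕ => hcon ((n : ℝ) + C)
  set τ : K := ∑ i, algebraMap ℂ K (c i) * ω i with hτ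
  let x : ℕ → q → ℂ := fun n i => ψ n (ω i)
  have hψτ : ∀ n, ψ n τ = ∑ i, c i * x n i := by
    intro n
    rw [hτ, (hhom n).sum _ _ fun i _ => mul_mem ((A n).algebraMap_mem _) (hωA n i)]
    refine Finset.sum_congr rfl fun i _ => ?_
    rw [(hhom n).mul ((A n).algebraMap_mem _) (hωA n i), (hhom n).const]
  have hxle : ∀ n i, ‖x n i‖ ≤ ‖x n‖ := fun n i => norm_le_pi_norm (x n) i
  have hτle : ∀ n, ‖ψ n τ‖ ≤ C * ‖x n‖ := by
    intro n
    rw [hψτ]
    calc ‖∑ i, c i * x n i‖ ≤ ∑ i, ‖c i * x n i‖ := norm_sum_le _ _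
      _ ≤ ∑ i, ‖c i‖ * ‖x n‖ := Finset.sum_le_sum fun i _ => by
          rw [norm_mul]
          exact mul_le_mul_of_nonneg_left (hxle n i) (norm_nonneg _)
      _ = (∑ i, ‖c i‖) * ‖x n‖ := by rw [Finset.sum_mul]
      _ ≤ C * ‖x n‖ := by
          refine mul_le_mul_of_nonneg_right ?_ (norm_nonneg _)
          rw [hC]
          linarith
  have hu1 : ∀ n, C ≤ ‖ψ n (z 0)‖ := fun n => by
    have h1 := hR n
    have h2 : (0 : ℝ) ≤ n := Nat.cast_nonneg n
    linarith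
  have hun : ∀ n : ℕ, (n : ℝ) ≤ ‖ψ n (z 0)‖ := fun n => by
    have h1 := hR n
    linarith
  have hρ : ∀ n, ‖ψ n (z 0)‖ ^ N₁ ≤ ‖x n‖ := by
    intro n
    have h1 : C * ‖ψ n (z 0)‖ ^ N₁ ≤ C * ‖x n‖ := by
      calc C * ‖ψ n (z 0)‖ ^ N₁ ≤ ‖ψ n (z 0)‖ * ‖ψ n (z 0)‖ ^ N₁ :=
            mul_le_mul_of_nonneg_right (hu1 n) (by positivity)
        _ = ‖ψ n (z 0)‖ ^ (N₁ + 1) := by rw [pow_succ]; ring
        _ ≤ ‖ψ n τ‖ := hpow n
        _ ≤ C * ‖x n‖ := hτle n
    exact le_of_mul_le_mul_left h1 (by linarith)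
  have hρpos : ∀ n, 0 < ‖x n‖ := fun n =>
    lt_of_lt_of_le (pow_pos (by linarith [hu1 n]) _) (hρ n)
  let y : ℕ → q → ℂ := fun n => ((‖x n‖ : ℂ)⁻¹) • x n
  have hy : ∀ n, y n ∈ Metric.sphere (0 : q → ℂ) 1 := by
    intro n
    rw [mem_sphere_zero_iff_norm]
    show ‖((‖x n‖ : ℂ)⁻¹) • x n‖ = 1
    rw [norm_smul, norm_inv, Complex.norm_real, norm_norm, inv_mul_cancel₀ (hρpos n).ne']
  have hyi : ∀ n i, y n i = ψ n (ω i) / ((‖x n‖ : ℝ) : ℂ) := by
    intro n i
    show ((‖x n‖ : ℂ)⁻¹) * x n i = _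
    rw [div_eq_inv_mul]
  obtain ⟨v, hv, φ, hφ, hlimv⟩ := (isCompact_sphere (0 : q → ℂ) 1).tendsto_subseq hy
  have hv0 : v ≠ 0 := by
    intro h
    rw [mem_sphere_zero_iff_norm, h, norm_zero] at hv
    exact zero_ne_one hv
  have hlimi : ∀ i, Tendsto (fun n => y (φ n) i) atTop (𝓝 (v i)) := fun i =>
    (tendsto_pi_nhds.mp hlimv) i
  have hzero : ∀ i j, eval ![v i, v j] (p i j) = 0 := by
    intro i j
    have h1 : Tendsto (fun n => (![y (φ n) i, y (φ n) j] : Fin 2 → ℂ)) atTop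
        (𝓝 ![v i, v j]) := by
      rw [tendsto_pi_nhds, Fin.forall_fin_two]
      exact ⟨hlimi i, hlimi j⟩
    have h2 : Tendsto (fun n => eval (![y (φ n) i, y (φ n) j] : Fin 2 → ℂ) (p i j)) atTop
        (𝓝 (eval ![v i, v j] (p i j))) :=
      ((MvPolynomial.continuous_eval (p i j)).tendsto _).comp h1
    have h3 : Tendsto (fun n => eval (![y (φ n) i, y (φ n) j] : Fin 2 → ℂ) (p i j)) atTop
        (𝓝 0) := by
      rw [Metric.tendsto_atTop]
      intro ε hε
      obtain ⟨R, hRR⟩ := hlim i j (ε / 2) (by linarith)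
      obtain ⟨M, hM⟩ := exists_nat_ge R
      refine ⟨M, fun n hn => ?_⟩
      have h4 : (M : ℝ) ≤ (φ n : ℝ) := by
        exact_mod_cast hn.trans (hφ.id_le n)
      have h5 := hRR (A (φ n)) (ψ (φ n)) (hhom (φ n)) (hzA (φ n)) (hωA (φ n) i) (hωA (φ n) j)
        (hM.trans (h4.trans (hun (φ n)))) ‖x (φ n)‖
        ((pow_le_pow_right₀ (by linarith [hu1 (φ n)]) (hN₁le i j)).trans (hρ (φ n)))
        (hxle (φ n) i) (hxle (φ n) j)
      rw [dist_zero_right, hyi, hyi]
      exact lt_of_le_of_lt h5 (by linarith)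
    exact tendsto_nhds_unique h2 h3
  obtain ⟨v', hv'L, t, ht, hvt⟩ := hL v hv0 hzero
  set σ : ℂ := ∑ i, c i * v' i with hσ
  have hσ0 : σ ≠ 0 := hcL v' hv'L
  have hsn : Tendsto (fun n => ∑ i, c i * y (φ n) i) atTop (𝓝 (t * σ)) := by
    have h1 : t * σ = ∑ i, c i * v i := by
      rw [hσ, Finset.mul_sum]
      refine Finset.sum_congr rfl fun i _ => ?_
      rw [hvt, Pi.smul_apply, smul_eq_mul]
      ring
    rw [h1]
    exact tendsto_finsetSum _ fun i _ => (hlimi i).const_mul (c i)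
  have hev : ∀ᶠ n in atTop, ∀ i, ‖y (φ n) i - (σ⁻¹ • v') i * ∑ k, c k * y (φ n) k‖ <
      δ * ‖∑ k, c k * y (φ n) k‖ := by
    rw [Filter.eventually_all]
    intro i
    have h1 : Tendsto (fun n => ‖y (φ n) i - (σ⁻¹ • v') i * ∑ k, c k * y (φ n) k‖) atTop
        (𝓝 ‖v i - (σ⁻¹ • v') i * (t * σ)‖) :=
      ((hlimi i).sub (hsn.const_mul _)).norm
    have h2 : v i - (σ⁻¹ • v') i * (t * σ) = 0 := by
      rw [hvt, Pi.smul_apply, Pi.smul_apply, smul_eq_mul, smul_eq_mul]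
      field_simp
      ring
    rw [h2, norm_zero] at h1
    have h3 : Tendsto (fun n => δ * ‖∑ k, c k * y (φ n) k‖) atTop (𝓝 (δ * ‖t * σ‖)) :=
      hsn.norm.const_mul δ
    have h4 : 0 < δ * ‖t * σ‖ := mul_pos hδ (norm_pos_iff.mpr (mul_ne_zero ht hσ0))
    exact h1.eventually_lt h3 h4
  obtain ⟨n, hn⟩ := hev.exists
  obtain ⟨i, hi⟩ := hb (φ n) (σ⁻¹ • v') (Finset.mem_image.mpr ⟨v', hv'L, rfl⟩)
  have hρn := hρpos (φ n)
  have hρc : ((‖x (φ n)‖ : ℝ) : ℂ) ≠ 0 := by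
    exact_mod_cast hρn.ne'
  have e1 : ∑ k, c k * y (φ n) k = ψ (φ n) τ / ((‖x (φ n)‖ : ℝ) : ℂ) := by
    rw [hψτ, Finset.sum_div]
    refine Finset.sum_congr rfl fun k _ => ?_
    rw [hyi]
    show c k * (ψ (φ n) (ω k) / _) = c k * ψ (φ n) (ω k) / _
    rw [mul_div_assoc]
  have h5 := hn i
  rw [e1, hyi] at h5
  have e2 : ψ (φ n) (ω i) / ((‖x (φ n)‖ : ℝ) : ℂ) -
      (σ⁻¹ • v') i * (ψ (φ n) τ / ((‖x (φ n)‖ : ℝ) : ℂ)) =
      (ψ (φ n) (ω i) - (σ⁻¹ • v') i * ψ (φ n) τ) / ((‖x (φ n)‖ : ℝ) : ℂ) := by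
    rw [sub_div, mul_div_assoc]
  rw [e2, norm_div, norm_div, Complex.norm_real, norm_norm, ← mul_div_assoc,
    div_lt_div_iff_of_pos_right hρn] at h5
  exact absurd h5 (not_lt.mpr hi.le)

end Pool.Agent.Lib.MP_209724_lc.OV
end
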