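import Mathlib
import Pool.Agent.Lib.MP_209724_lc.OV.ConstDir
import Pool.Agent.Lib.MP_209724_lc.SC.Ed10
import Pool.Agent.Lib.MP_209724_lc.OV.KL
import Pool.Agent.Lib.MP_209724_lc.MV.Idem
import Pool.Agent.Lib.MP_209724_lc.SC.FF3
import Pool.Agent.Lib.MP_209724_lc.OV.Directions

section

namespace Pool.Agent.Lib.MP_209724_lc.OV

open MvPolynomial Filter Topology Metric

variable {K : Type} [Field K] [Algebra ℂ K]

private lemma unit_norm (x : Unit → ℂ) : ‖x‖ = ‖x ()‖ := by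
  refine le_antisymm ?_ (norm_le_pi_norm x ())
  exact (pi_norm_le_iff_of_nonneg (norm_nonneg _)).2 fun _ => le_rfl

private lemma isOpen_dom (N : ℕ) (B : ℝ) (j : ℕ) : IsOpen (Dom N B j) := by
  have h1 : Continuous fun p : ℂ × ℂ => ‖p.1 - 2 * Real.pi * Complex.I * j‖ := by fun_prop
  have h2 : Continuous fun p : ℂ × ℂ => |p.2.re - N * Real.log j| :=
    ((Complex.continuous_re.comp continuous_snd).sub continuous_const).abs
  have h3 : Continuous fun p : ℂ × ℂ => |p.2.im| :=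
    (Complex.continuous_im.comp continuous_snd).abs
  have h4 : Dom N B j = {p : ℂ × ℂ | ‖p.1 - 2 * Real.pi * Complex.I * j‖ < j} ∩
      ({p | |p.2.re - N * Real.log j| < B} ∩ {p | |p.2.im| < B}) := by
    ext p
    simp [Dom]
  rw [h4]
  exact (isOpen_lt h1 continuous_const).inter
    ((isOpen_lt h2 continuous_const).inter (isOpen_lt h3 continuous_const))

/-- the analytic part, for one `j` -/
private lemma one_j {z : Fin 2 → K} (hz : IsBase z) {dU dT : Derivation ℂ K K}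
    (hd : IsDual z dU dT) {s : K} (hs : s ≠ 0) (S : Finset K) {A : Subalgebra ℂ K}
    (hzA : ∀ i, z i ∈ A) (hsA : s ∈ A) (hi : (s - dU s)⁻¹ ∈ A) (hsU : dU s ∈ A) (hsT : dT s ∈ A)
    (hSA : ∀ f ∈ S, f ∈ A) (hSU : ∀ f ∈ S, dU f ∈ A) (hST : ∀ f ∈ S, dT f ∈ A)
    (N j : ℕ) (hj : 1 ≤ j) (C C' : ℝ) (hC' : 0 ≤ C')
    (hlj : C' * Real.log j / j ≤ 1 / 4) (hlj2 : 2 * Real.pi * (j / 100) + C' * Real.log j ≤ j / 9)
    (Φ : ℂ × ℂ → K → ℂ)
    (hΦ : ∀ p ∈ Dom N 6 j, IsHomOn A (Φ p) ∧ Φ p (z 0) = p.1 ∧ Φ p (z 1) = Complex.exp p.2)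
    (hΦd : ∀ f ∈ A, DifferentiableOn ℂ (fun p => Φ p f) (Dom N 6 j))
    (hbd : ∀ f ∈ S, f ≠ 0 → ∀ p ∈ Dom N 6 j,
      (j : ℝ) ^ (-C) ≤ ‖Φ p f‖ ∧ ‖Φ p f‖ ≤ (j : ℝ) ^ C)
    (G : ℂ × ℂ → ℂ) (hGd : DifferentiableOn ℂ G (Dom N 6 j))
    (hGe : ∀ p ∈ Dom N 6 j, Complex.exp (G p) = Φ p s)
    (hG : ∀ y : ℂ, |y.re - N * Real.log j| < 1 → |y.im| < 4 →
        ‖G (2 * Real.pi * Complex.I * j, y)‖ ≤ C' * Real.log j ∧
        ∀ x ∈ ball (2 * Real.pi * Complex.I * j : ℂ) (j / 2),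
          ∀ x' ∈ ball (2 * Real.pi * Complex.I * j : ℂ) (j / 2),
            ‖G (x, y) - G (x', y)‖ ≤ C' * Real.log j / j * ‖x - x'‖) :
    ∃ Ψ : ℂ → K → ℂ,
        (∀ κ ∈ ball (j : ℂ) (j / 100), IsHomOn A (Ψ κ) ∧
          ‖Ψ κ (z 0) - 2 * Real.pi * Complex.I * j‖ < j ∧
          Complex.exp (Ψ κ (z 0)) = Complex.exp (2 * Real.pi * Complex.I * κ) * Ψ κ s) ∧
        (∀ f ∈ A, DifferentiableOn ℂ (fun κ => Ψ κ f) (ball (j : ℂ) (j / 100))) ∧
        (∀ f ∈ S, f ≠ 0 → ∀ κ ∈ ball (j : ℂ) (j / 100),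
          (j : ℝ) ^ (-C) ≤ ‖Ψ κ f‖ ∧ ‖Ψ κ f‖ ≤ (j : ℝ) ^ C) ∧
        ∀ f ∈ S, ∀ κ ∈ ball (j : ℂ) (j / 100),
          deriv (fun κ => Ψ κ f) κ = Ψ κ (kD dU s f) := by
  have hj0 : (0 : ℝ) < j := by exact_mod_cast hj
  have hlog0 : 0 ≤ Real.log j := Real.log_nonneg (by exact_mod_cast hj)
  set y₀ : ℂ := ((N * Real.log j : ℝ) : ℂ) with hy₀
  have hy1 : |y₀.re - N * Real.log j| < 1 := by
    rw [hy₀, Complex.ofReal_re, sub_self, abs_zero]; norm_num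
  have hy2 : |y₀.im| < 4 := by
    rw [hy₀, Complex.ofReal_im, abs_zero]; norm_num
  have hmem : ∀ x : ℂ, ‖x - 2 * Real.pi * Complex.I * j‖ < j → (x, y₀) ∈ Dom N 6 j := by
    intro x hx
    exact ⟨hx, by linarith, by linarith⟩
  set x₀ : Unit → ℂ := fun _ => 2 * Real.pi * Complex.I * j with hx₀
  set Λ : (Unit → ℂ) × ℂ → Unit → ℂ := fun p _ =>
    2 * Real.pi * Complex.I * (p.2 - j) + G (p.1 (), y₀) with hΛ
  set T : Set ℂ := ball (j : ℂ) (j / 100) with hT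
  have hball : ∀ x ∈ ball x₀ ((j : ℝ) / 2), x () ∈ ball (2 * Real.pi * Complex.I * j : ℂ) (j / 2) := by
    intro x hx
    rw [mem_ball, dist_eq_norm] at hx ⊢
    rw [unit_norm] at hx
    simpa [hx₀] using hx
  obtain ⟨X, hXd, hX⟩ := HS.fixed_family (ι := Unit) (T := T) isOpen_ball (x₀ := x₀)
    (ρ := (j : ℝ) / 2) (δ := C' * Real.log j / j) (K := (j : ℝ) / 9)
    (div_nonneg (mul_nonneg hC' hlog0) hj0.le) hlj (by positivity) Λ
    (by
      intro _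
      have h1 : DifferentiableOn ℂ (fun p : (Unit → ℂ) × ℂ => G (p.1 (), y₀))
          (ball x₀ ((j : ℝ) / 2) ×ˢ T) := by
        refine hGd.comp (f := fun p : (Unit → ℂ) × ℂ => (p.1 (), y₀)) ?_ ?_
        · exact (Differentiable.differentiableOn (by fun_prop))
        · rintro p ⟨hp1, _⟩
          refine hmem _ ?_
          have := hball _ hp1
          rw [mem_ball, dist_eq_norm] at this
          linarith
      have h2 : DifferentiableOn ℂ (fun p : (Unit → ℂ) × ℂ =>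
          2 * Real.pi * Complex.I * (p.2 - j)) (ball x₀ ((j : ℝ) / 2) ×ˢ T) :=
        Differentiable.differentiableOn (by fun_prop)
      exact h2.add h1)
    (by
      intro x hx x' hx' ζ _
      have h1 := (hG y₀ hy1 hy2).2 (x ()) (hball x hx) (x' ()) (hball x' hx')
      rw [unit_norm, unit_norm]
      simpa [hΛ] using h1)
    (by
      intro ζ hζ
      rw [unit_norm]
      have h1 := (hG y₀ hy1 hy2).1
      have h2 : ‖2 * (Real.pi : ℂ) * Complex.I * (ζ - j)‖ ≤ 2 * Real.pi * (j / 100) := by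
        rw [norm_mul, norm_mul, norm_mul, Complex.norm_I, Complex.norm_real]
        have h3 : ‖ζ - j‖ ≤ j / 100 := by
          rw [hT, mem_ball, dist_eq_norm] at hζ
          exact hζ.le
        have h4 : ‖(2 : ℂ)‖ * ‖Real.pi‖ * 1 = 2 * Real.pi := by
          rw [Real.norm_of_nonneg Real.pi_pos.le]
          norm_num
        rw [h4]
        exact mul_le_mul_of_nonneg_left h3 (by positivity)
      simp only [hΛ, hx₀]
      refine (norm_add_le _ _).trans ?_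
      linarith)
    0 (by rw [norm_zero]; linarith)
  set x : ℂ → ℂ := fun κ => X κ () with hx
  have hxd : DifferentiableOn ℂ x T := hXd ()
  have hxn : ∀ κ ∈ T, ‖x κ - 2 * Real.pi * Complex.I * j‖ < j := by
    intro κ hκ
    have h1 := (hX κ hκ).1
    rw [unit_norm, norm_zero] at h1
    have h2 : ‖x κ - 2 * Real.pi * Complex.I * j‖ ≤ 2 * (j / 9 + 0) := by
      simpa [hx₀, hx] using h1
    linarith
  have hxe : ∀ κ ∈ T, x κ = 2 * Real.pi * Complex.I * κ + G (x κ, y₀) := by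
    intro κ hκ
    have h1 := congrFun (hX κ hκ).2 ()
    simp only [hx₀, hΛ, Pi.add_apply, Pi.zero_apply] at h1
    simp only [hx]
    linear_combination h1
  have hD : ∀ κ ∈ T, (x κ, y₀) ∈ Dom N 6 j := fun κ hκ => hmem _ (hxn κ hκ)
  have hexp : ∀ κ ∈ T, Complex.exp (x κ) =
      Complex.exp (2 * Real.pi * Complex.I * κ) * Φ (x κ, y₀) s := by
    intro κ hκ
    rw [← hGe _ (hD κ hκ), ← Complex.exp_add, ← hxe κ hκ]
  have hopen := isOpen_dom N 6 j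
  have hxder : ∀ κ ∈ T, HasDerivAt x (deriv x κ) κ := fun κ hκ =>
    (hxd.differentiableAt (isOpen_ball.mem_nhds hκ)).hasDerivAt
  have hcomp : ∀ f ∈ A, dU f ∈ A → dT f ∈ A → ∀ κ ∈ T,
      HasDerivAt (fun κ => Φ (x κ, y₀) f) (deriv x κ * Φ (x κ, y₀) (dU f)) κ := by
    intro f hf hfU hfT κ hκ
    have h1 := comp_reg hz hd hopen A hzA Φ hΦ hΦd hf hfU hfT (x κ, y₀) (hD κ hκ) (deriv x κ) 0
    have h2 : HasFDerivAt (fun q => Φ q f) (fderiv ℂ (fun q => Φ q f) (x κ, y₀)) (x κ, y₀) :=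
      ((hΦd f hf).differentiableAt (hopen.mem_nhds (hD κ hκ))).hasFDerivAt
    have h3 : HasDerivAt (fun κ => (x κ, y₀)) (deriv x κ, (0 : ℂ)) κ :=
      (hxder κ hκ).prodMk (hasDerivAt_const κ y₀)
    have h4 := h2.comp_hasDerivAt κ h3
    rw [h1] at h4
    simpa [Function.comp_def] using h4
  have hder : ∀ κ ∈ T, deriv x κ =
      2 * Real.pi * Complex.I * Φ (x κ, y₀) s * Φ (x κ, y₀) (s - dU s)⁻¹ := by
    intro κ hκ
    have hhom := (hΦ _ (hD κ hκ)).1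
    have h1 := (hxder κ hκ).cexp
    have h2 : HasDerivAt (fun κ : ℂ => Complex.exp (2 * Real.pi * Complex.I * κ))
        (Complex.exp (2 * Real.pi * Complex.I * κ) * (2 * Real.pi * Complex.I * 1)) κ :=
      ((hasDerivAt_id κ).const_mul (2 * (Real.pi : ℂ) * Complex.I)).cexp
    have h3 := h2.mul (hcomp s hsA hsU hsT κ hκ)
    have h4 : (fun κ => Complex.exp (x κ)) =ᶠ[𝓝 κ]
        fun κ => Complex.exp (2 * Real.pi * Complex.I * κ) * Φ (x κ, y₀) s := by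
      filter_upwards [isOpen_ball.mem_nhds hκ] with κ' hκ' using hexp κ' hκ'
    have h5 := (h3.congr_of_eventuallyEq h4).unique h1
    rw [hexp κ hκ] at h5
    have hE : Complex.exp (2 * Real.pi * Complex.I * κ) ≠ 0 := Complex.exp_ne_zero _
    have h6 : 2 * Real.pi * Complex.I * Φ (x κ, y₀) s + deriv x κ * Φ (x κ, y₀) (dU s) =
        Φ (x κ, y₀) s * deriv x κ := by
      apply mul_left_cancel₀ hE
      linear_combination h5
    have h7 : Φ (x κ, y₀) (s - dU s) * Φ (x κ, y₀) (s - dU s)⁻¹ = 1 := by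
      rw [← hhom.mul (A.sub_mem hsA hsU) hi, mul_inv_cancel₀ (leafD_ne hz hd hs), hhom.one]
    rw [hhom.sub hsA hsU] at h7
    linear_combination (-deriv x κ) * h7 - Φ (x κ, y₀) (s - dU s)⁻¹ * h6
  refine ⟨fun κ f => Φ (x κ, y₀) f, ?_, ?_, ?_, ?_⟩
  · intro κ hκ
    obtain ⟨h1, h2, h3⟩ := hΦ _ (hD κ hκ)
    refine ⟨h1, ?_, ?_⟩
    · simp only [h2]
      exact hxn κ hκ
    · simp only [h2]
      exact hexp κ hκ
  · intro f hf
    refine (hΦd f hf).comp (f := fun κ => (x κ, y₀)) ?_ fun κ hκ => hD κ hκ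
    exact hxd.prodMk (differentiableOn_const _)
  · intro f hf h0 κ hκ
    exact hbd f hf h0 _ (hD κ hκ)
  · intro f hf κ hκ
    have hhom := (hΦ _ (hD κ hκ)).1
    rw [(hcomp f (hSA f hf) (hSU f hf) (hST f hf) κ hκ).deriv, hder κ hκ]
    simp only [kD, Derivation.smul_apply, smul_eq_mul]
    rw [div_eq_mul_inv, hhom.mul (A.mul_mem (A.mul_mem (A.algebraMap_mem _) hsA) hi) (hSU f hf),
      hhom.mul (A.mul_mem (A.algebraMap_mem _) hsA) hi, hhom.mul (A.algebraMap_mem _) hsA,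
      hhom.const]

/-- OV-11: analytic families of homomorphisms along `u = 2πi κ + log s(u)`, `κ` near `j` (with `τ`
fixed).

Proof. As `leaf`. `A` is generated by `z 0`, `z 1`, `s`, `s⁻¹`, `(s - dU s)⁻¹`, `dU s`, `dT s` and
`f`, `dU f`, `dT f` for `f ∈ S`. Choose one `N` larger than the bounds of `fam_reg hz A … 6` and of
`tame_reg hz · 6` for `s` and for the nonzero elements of `S`. For large `j` let `Φ` be the family on
`Dom N 6 j`, `y₀ = N log j` (real), `G` the logarithm of `Φ · s` given by `log_reg`. The function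
`Λ (x, κ) = 2πi (κ - j) + G (x, y₀)` is differentiable on `ball (2πi j) (j / 2) × ball j (j / 100)`,
`C' log j / j`-Lipschitz in `x`, and `|Λ (2πi j, κ)| ≤ 2π j / 100 + C' log j < j / 8`. So
`HS.fixed_family` (`x₀ = 2πi j`, `ρ = j / 2`, `k = 0`, `δ = C' log j / j ≤ 1 / 4`, `K = j / 9`, say; note
`2π / 100 < 1 / 9` and `4 / 9 < 1 / 2`) gives `X` differentiable on `ball j (j / 100)` with
`X κ = 2πi κ + G (X κ, y₀)`, `|X κ - 2πi j| ≤ 2 j / 9 < j / 2`. Put `Ψ j κ f = Φ (X κ, y₀) f`. Then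
`exp (X κ) = exp (2πi κ) * Ψ j κ s`; `X' = 2πi / (1 - Φ(dU s) / Φ(s)) = Φ (2πi s / (s - dU s))` and
`d/dκ Ψ j κ f = X' Φ(dU f) = Ψ j κ (kD dU s f)`. -/
theorem kleaf {z : Fin 2 → K} (hz : IsBase z) {dU dT : Derivation ℂ K K} (hd : IsDual z dU dT)
    {s : K} (hs : s ≠ 0) (S : Finset K) :
    ∃ A : Subalgebra ℂ K, (S : Set K) ⊆ A ∧ (∀ i, z i ∈ A) ∧ s ∈ A ∧
      (∀ f ∈ S, kD dU s f ∈ A) ∧
      ∃ (C : ℝ) (Ψ : ℕ → ℂ → K → ℂ), ∀ᶠ j : ℕ in atTop,
        (∀ κ ∈ ball (j : ℂ) (j / 100), IsHomOn A (Ψ j κ) ∧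
          ‖Ψ j κ (z 0) - 2 * Real.pi * Complex.I * j‖ < j ∧
          Complex.exp (Ψ j κ (z 0)) = Complex.exp (2 * Real.pi * Complex.I * κ) * Ψ j κ s) ∧
        (∀ f ∈ A, DifferentiableOn ℂ (fun κ => Ψ j κ f) (ball (j : ℂ) (j / 100))) ∧
        (∀ f ∈ S, f ≠ 0 → ∀ κ ∈ ball (j : ℂ) (j / 100),
          (j : ℝ) ^ (-C) ≤ ‖Ψ j κ f‖ ∧ ‖Ψ j κ f‖ ≤ (j : ℝ) ^ C) ∧
        ∀ f ∈ S, ∀ κ ∈ ball (j : ℂ) (j / 100),
          deriv (fun κ => Ψ j κ f) κ = Ψ j κ (kD dU s f) := by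
  classical
  set E : Finset K := {z 0, z 1, s, (s - dU s)⁻¹, dU s, dT s} ∪ S ∪ S.image dU ∪ S.image dT with hE
  set A : Subalgebra ℂ K := Algebra.adjoin ℂ (E : Set K) with hA
  have hFG : A.FG := ⟨E, rfl⟩
  have hsub : ∀ f ∈ E, f ∈ A := fun f hf => Algebra.subset_adjoin hf
  have hz0 : z 0 ∈ A := hsub _ (by simp [hE])
  have hz1 : z 1 ∈ A := hsub _ (by simp [hE])
  have hzA : ∀ i, z i ∈ A := by
    intro i
    fin_cases i
    · exact hz0
    · exact hz1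
  have hsA : s ∈ A := hsub _ (by simp [hE])
  have hi : (s - dU s)⁻¹ ∈ A := hsub _ (by simp [hE])
  have hsU : dU s ∈ A := hsub _ (by simp [hE])
  have hsT : dT s ∈ A := hsub _ (by simp [hE])
  have hSA : ∀ f ∈ S, f ∈ A := fun f hf => hsub _ (by simp [hE, hf])
  have hSU : ∀ f ∈ S, dU f ∈ A := fun f hf => hsub _ (by
    have := Finset.mem_image_of_mem dU hf
    simp only [hE, Finset.mem_union]
    exact Or.inl (Or.inr this))
  have hST : ∀ f ∈ S, dT f ∈ A := fun f hf => hsub _ (by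
    have := Finset.mem_image_of_mem dT hf
    simp only [hE, Finset.mem_union]
    exact Or.inr this)
  refine ⟨A, fun f hf => hSA f hf, hzA, hsA, ?_, ?_⟩
  · intro f hf
    simp only [kD, Derivation.smul_apply, smul_eq_mul]
    rw [div_eq_mul_inv]
    exact A.mul_mem (A.mul_mem (A.mul_mem (A.algebraMap_mem _) hsA) hi) (hSU f hf)
  obtain ⟨N₁, hN₁⟩ := fam_reg hz A hFG hzA 6
  choose! N₂ hN₂ using fun (f : K) (hf : f ≠ 0) => tame_reg hz hf 6
  set N : ℕ := N₁ + ∑ f ∈ insert s S, N₂ f with hN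
  have hNle : ∀ f ∈ insert s S, N₂ f ≤ N := fun f hf =>
    (Finset.single_le_sum (f := N₂) (fun k _ => Nat.zero_le _) hf).trans (Nat.le_add_left _ _)
  have hN₂' : ∀ f ∈ insert s S, f ≠ 0 → _ := fun f hf h0 => hN₂ f h0 N (hNle f hf)
  choose! C₁ hC₁ using hN₂'
  set C : ℝ := ∑ f ∈ insert s S, |C₁ f| with hC
  have hCle : ∀ f ∈ insert s S, C₁ f ≤ C := fun f hf => (le_abs_self _).trans
    (Finset.single_le_sum (f := fun k => |C₁ k|) (fun k _ => abs_nonneg _) hf)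
  have hall : ∀ᶠ j : ℕ in atTop, ∀ f ∈ insert s S, f ≠ 0 → ∀ p ∈ Dom N 6 j,
      ∀ (A : Subalgebra ℂ K) (ψ : K → ℂ), IsHomOn A ψ → (∀ i, z i ∈ A) → f ∈ A →
        ψ (z 0) = p.1 → ψ (z 1) = Complex.exp p.2 →
        (j : ℝ) ^ (-C₁ f) ≤ ‖ψ f‖ ∧ ‖ψ f‖ ≤ (j : ℝ) ^ C₁ f := by
    rw [Filter.eventually_all_finset]
    intro f hf
    by_cases h0 : f = 0
    · exact Filter.Eventually.of_forall fun j h => (h h0).elim
    · filter_upwards [hC₁ f hf h0] with j hj _ using hj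
  obtain ⟨C', hC'0, hC'⟩ := log_reg C N
  have hlogo : Tendsto (fun j : ℕ => Real.log j / j) atTop (𝓝 0) := by
    have h1 : Tendsto (fun x : ℝ => Real.log x / x) atTop (𝓝 0) := by
      have := Real.isLittleO_log_id_atTop.tendsto_div_nhds_zero
      simpa using this
    exact h1.comp tendsto_natCast_atTop_atTop
  have hlogo' : Tendsto (fun j : ℕ => C' * (Real.log j / j)) atTop (𝓝 0) := by
    simpa using hlogo.const_mul C'
  have hev : ∀ᶠ j : ℕ in atTop, C' * (Real.log j / j) < 1 / 25 :=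
    hlogo'.eventually_lt_const (by norm_num)
  have key : ∀ᶠ j : ℕ in atTop, ∃ Ψ : ℂ → K → ℂ,
        (∀ κ ∈ ball (j : ℂ) (j / 100), IsHomOn A (Ψ κ) ∧
          ‖Ψ κ (z 0) - 2 * Real.pi * Complex.I * j‖ < j ∧
          Complex.exp (Ψ κ (z 0)) = Complex.exp (2 * Real.pi * Complex.I * κ) * Ψ κ s) ∧
        (∀ f ∈ A, DifferentiableOn ℂ (fun κ => Ψ κ f) (ball (j : ℂ) (j / 100))) ∧
        (∀ f ∈ S, f ≠ 0 → ∀ κ ∈ ball (j : ℂ) (j / 100),
          (j : ℝ) ^ (-C) ≤ ‖Ψ κ f‖ ∧ ‖Ψ κ f‖ ≤ (j : ℝ) ^ C) ∧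
        ∀ f ∈ S, ∀ κ ∈ ball (j : ℂ) (j / 100),
          deriv (fun κ => Ψ κ f) κ = Ψ κ (kD dU s f) := by
    filter_upwards [hN₁ N (Nat.le_add_right _ _), hall, hC', hev, eventually_ge_atTop 1] with j
      h1 h2 h3 h4 h5
    have hj1 : (1 : ℝ) ≤ j := by exact_mod_cast h5
    have hj0 : (0 : ℝ) < j := by linarith
    obtain ⟨Φ, hΦ, hΦd⟩ := h1
    have hbd : ∀ f ∈ insert s S, f ∈ A → f ≠ 0 → ∀ p ∈ Dom N 6 j,
        (j : ℝ) ^ (-C) ≤ ‖Φ p f‖ ∧ ‖Φ p f‖ ≤ (j : ℝ) ^ C := by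
      intro f hf hfA h0 p hp
      obtain ⟨k1, k2, k3⟩ := hΦ p hp
      obtain ⟨k4, k5⟩ := h2 f hf h0 p hp A (Φ p) k1 hzA hfA k2 k3
      exact ⟨(Real.rpow_le_rpow_of_exponent_le hj1 (neg_le_neg (hCle f hf))).trans k4,
        k5.trans (Real.rpow_le_rpow_of_exponent_le hj1 (hCle f hf))⟩
    have hbd' : ∀ f ∈ insert s S, f ≠ 0 → ∀ p ∈ Dom N 6 j,
        (j : ℝ) ^ (-C) ≤ ‖Φ p f‖ ∧ ‖Φ p f‖ ≤ (j : ℝ) ^ C := by
      intro f hf h0
      refine hbd f hf ?_ h0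
      rcases Finset.mem_insert.1 hf with h | h
      · rw [h]; exact hsA
      · exact hSA f h
    obtain ⟨G, hGd, hGe, hG⟩ := h3 (fun p => Φ p s) (hΦd s hsA)
      (hbd' s (Finset.mem_insert_self _ _) hs)
    have hpi : Real.pi ≤ 3.2 := by linarith [Real.pi_lt_d2]
    refine one_j hz hd hs S hzA hsA hi hsU hsT hSA hSU hST N j h5 C C' hC'0 ?_ ?_ Φ hΦ hΦd
      (fun f hf => hbd' f (Finset.mem_insert_of_mem hf)) G
      hGd hGe hG
    · rw [mul_div_assoc]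
      linarith
    · have h6 : C' * Real.log j = C' * (Real.log j / j) * j := by
        field_simp
      rw [h6]
      nlinarith
  obtain ⟨Ψ, hΨ⟩ := key.choice
  exact ⟨C, Ψ, hΨ⟩

end Pool.Agent.Lib.MP_209724_lc.OV
end

section

namespace Pool.Agent.Lib.MP_209724_lc.OV

open MvPolynomial Filter Topology Metric

variable {K : Type} [Field K] [Algebra ℂ K]

/-- Common bounds for finitely many elements. -/
private theorem leaf_tame {z : Fin 2 → K} (hz : IsBase z) (B : ℝ) (S : Finset K) :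
    ∃ N₀ : ℕ, ∀ N ≥ N₀, ∃ C : ℝ, ∀ᶠ j : ℕ in atTop, ∀ f ∈ S, f ≠ 0 → ∀ p ∈ Dom N B j,
      ∀ (A : Subalgebra ℂ K) (ψ : K → ℂ), IsHomOn A ψ → (∀ i, z i ∈ A) → f ∈ A →
        ψ (z 0) = p.1 → ψ (z 1) = Complex.exp p.2 →
        (j : ℝ) ^ (-C) ≤ ‖ψ f‖ ∧ ‖ψ f‖ ≤ (j : ℝ) ^ C := by
  classical
  induction S using Finset.induction_on with
  | empty => exact ⟨0, fun N _ => ⟨0, Eventually.of_forall fun j f hf => absurd hf (by simp)⟩⟩
  | insert a S ha ih =>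
    obtain ⟨N₁, h1⟩ := ih
    by_cases h0 : a = 0
    · refine ⟨N₁, fun N hN => ?_⟩
      obtain ⟨C, hC⟩ := h1 N hN
      refine ⟨C, hC.mono fun j hj f hf hf0 => ?_⟩
      rcases Finset.mem_insert.1 hf with h | h
      · exact absurd (h.trans h0) hf0
      · exact hj f h hf0
    · obtain ⟨N₂, h2⟩ := tame_reg hz h0 B
      refine ⟨max N₁ N₂, fun N hN => ?_⟩
      obtain ⟨C1, hC1⟩ := h1 N (le_of_max_le_left hN)
      obtain ⟨C2, hC2⟩ := h2 N (le_of_max_le_right hN)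
      refine ⟨max C1 C2, ?_⟩
      filter_upwards [hC1, hC2, eventually_ge_atTop 1] with j hj1 hj2 hj f hf hf0 p hp A ψ g1 g2 g3 g4 g5
      have hj' : (1:ℝ) ≤ j := by exact_mod_cast hj
      rcases Finset.mem_insert.1 hf with h | h
      · subst h
        obtain ⟨u1, u2⟩ := hj2 p hp A ψ g1 g2 g3 g4 g5
        exact ⟨(Real.rpow_le_rpow_of_exponent_le hj' (neg_le_neg (le_max_right _ _))).trans u1,
          u2.trans (Real.rpow_le_rpow_of_exponent_le hj' (le_max_right _ _))⟩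
      · obtain ⟨u1, u2⟩ := hj1 f h hf0 p hp A ψ g1 g2 g3 g4 g5
        exact ⟨(Real.rpow_le_rpow_of_exponent_le hj' (neg_le_neg (le_max_left _ _))).trans u1,
          u2.trans (Real.rpow_le_rpow_of_exponent_le hj' (le_max_left _ _))⟩

private theorem leaf_log (C : ℝ) : ∀ᶠ j : ℕ in atTop, C * Real.log j ≤ j / 16 := by
  have h1 : (fun x : ℝ => Real.log x) =o[atTop] (fun x : ℝ => x) := Real.isLittleO_log_id_atTop
  have h2 := h1.comp_tendsto tendsto_natCast_atTop_atTop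
  have hc : 0 < 1 / (16 * (|C| + 1)) := by positivity
  filter_upwards [h2.bound hc, eventually_ge_atTop 1] with j hj hj1
  have hj' : (1:ℝ) ≤ j := by exact_mod_cast hj1
  have hl : 0 ≤ Real.log j := Real.log_nonneg hj'
  simp only [Function.comp_apply, Real.norm_eq_abs] at hj
  rw [abs_of_nonneg hl, abs_of_nonneg (by positivity : (0:ℝ) ≤ j)] at hj
  have h3 : C * Real.log j ≤ (|C| + 1) * Real.log j :=
    mul_le_mul_of_nonneg_right ((le_abs_self C).trans (by linarith)) hl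
  have h4 : (|C| + 1) * Real.log j ≤ (|C| + 1) * (1 / (16 * (|C| + 1)) * j) :=
    mul_le_mul_of_nonneg_left hj (by positivity)
  have h5 : (|C| + 1) * (1 / (16 * (|C| + 1)) * j) = j / 16 := by
    have : |C| + 1 ≠ 0 := by positivity
    field_simp
  linarith

private theorem isOpen_Dom (N : ℕ) (B : ℝ) (j : ℕ) : IsOpen (Dom N B j) := by
  have h1 : IsOpen {p : ℂ × ℂ | ‖p.1 - 2 * Real.pi * Complex.I * j‖ < j} :=
    isOpen_lt (by fun_prop) (by fun_prop)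
  have h2 : IsOpen {p : ℂ × ℂ | |p.2.re - N * Real.log j| < B} :=
    isOpen_lt (((Complex.continuous_re.comp continuous_snd).sub continuous_const).abs)
      continuous_const
  have h3 : IsOpen {p : ℂ × ℂ | |p.2.im| < B} :=
    isOpen_lt ((Complex.continuous_im.comp continuous_snd).abs) continuous_const
  exact h1.inter (h2.inter h3)

private theorem isOpen_strip : IsOpen strip := by
  have h2 : IsOpen {ζ : ℂ | |ζ.re| < 1} := isOpen_lt Complex.continuous_re.abs continuous_const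
  have h3 : IsOpen {ζ : ℂ | |ζ.im| < 4} := isOpen_lt Complex.continuous_im.abs continuous_const
  exact h2.inter h3

/-- OV-10: analytic families of homomorphisms along the leaves `exp u = σ(u, τ)`.

Proof. `A` is generated by `z 0`, `z 1`, `σ`, `σ⁻¹`, `(σ - dU σ)⁻¹`, `dU σ`, `dT σ` and `f`, `dU f`,
`dT f` for `f ∈ S`; then `leafD z dU dT σ f ∈ A` for `f ∈ S`. `N₀` is the maximum of the bounds of
`fam_reg hz A … 6` and of `tame_reg hz · 6` for `σ` and for the nonzero `f ∈ S`. Fix `N ≥ N₀`; let `C` be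
a common constant of the `tame_reg`s and `C'` the constant of `log_reg C N`. For large `j` let `Φ` be
the family on `Dom N 6 j`, `F = Φ · σ`, and `G` the logarithm of `F` given by `log_reg`. Let
`T = {y : |Re y - N log j| < 1, |Im y| < 4}`. `HS.fixed_family` (with `ι = Unit`, `x₀ = 2πi j`,
`ρ = j / 2`, `Λ (x, y) = G (x, y)`, `k = 0`, `δ = C' log j / j ≤ 1 / 4`, `K = C' log j`, `4 K < j / 2`)
gives a function `X` differentiable on `T` with `X y = 2πi j + G (X y, y)` and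
`|X y - 2πi j| ≤ 2 C' log j < j / 2`. Put `Ψ j ζ f = Φ (X y, y) f`, `y = N log j + ζ`. Then for
`ζ ∈ strip`: `Ψ j ζ` is a homomorphism on `A`, `Ψ j ζ (z 0) = X y`,
`Ψ j ζ (z 1) = exp y = j ^ N * exp ζ`, `exp (X y) = exp (2πi j) * F (X y, y) = Ψ j ζ σ`; the bounds are
those of `tame_reg`; differentiability is clear (composition). Derivatives: by `comp_reg` and the
chain rule `d/dζ Ψ j ζ f = X' Φ(dU f) + exp y Φ(dT f)`; differentiating `X = 2πi j + G (X, y)` and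
using `∂G/∂u = Φ(dU σ) / Φ(σ)`, `∂G/∂y = exp y Φ(dT σ) / Φ(σ)` (from `exp G = F` and `comp_reg`):
`X' = exp y Φ(dT σ) / (Φ σ - Φ(dU σ)) = Φ (z 1 * dT σ / (σ - dU σ))` (the denominator is not zero since
`(σ - dU σ)⁻¹ ∈ A`). So `d/dζ Ψ j ζ f = Ψ j ζ (leafD z dU dT σ f)`. For the small `j` the function
`Ψ j` is arbitrary. -/
theorem leaf {z : Fin 2 → K} (hz : IsBase z) {dU dT : Derivation ℂ K K} (hd : IsDual z dU dT)
    {σ : K} (hσ : σ ≠ 0) (S : Finset K) :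
    ∃ A : Subalgebra ℂ K, (S : Set K) ⊆ A ∧ (∀ i, z i ∈ A) ∧ σ ∈ A ∧
      (∀ f ∈ S, leafD z dU dT σ f ∈ A) ∧
      ∃ N₀ : ℕ, ∀ N ≥ N₀, ∃ (C : ℝ) (Ψ : ℕ → ℂ → K → ℂ), ∀ᶠ j : ℕ in atTop,
        (∀ ζ ∈ strip, IsHomOn A (Ψ j ζ) ∧ ‖Ψ j ζ (z 0) - 2 * Real.pi * Complex.I * j‖ < j ∧
          Ψ j ζ (z 1) = (j : ℂ) ^ N * Complex.exp ζ ∧ Complex.exp (Ψ j ζ (z 0)) = Ψ j ζ σ) ∧
        (∀ f ∈ A, DifferentiableOn ℂ (fun ζ => Ψ j ζ f) strip) ∧
        (∀ f ∈ S, f ≠ 0 → ∀ ζ ∈ strip, (j : ℝ) ^ (-C) ≤ ‖Ψ j ζ f‖ ∧ ‖Ψ j ζ f‖ ≤ (j : ℝ) ^ C) ∧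
        ∀ f ∈ S, ∀ ζ ∈ strip, deriv (fun ζ => Ψ j ζ f) ζ = Ψ j ζ (leafD z dU dT σ f) := by
  classical
  have hne : σ - dU σ ≠ 0 := leafD_ne hz hd hσ
  set gens : Finset K := S ∪ S.image dU ∪ S.image dT ∪
    {z 0, z 1, σ, (σ - dU σ)⁻¹, dU σ, dT σ} with hgens
  set A : Subalgebra ℂ K := Algebra.adjoin ℂ (gens : Set K) with hAdef
  have hsub : ∀ x ∈ gens, x ∈ A := fun x hx => Algebra.subset_adjoin hx
  have hFG : A.FG := Subalgebra.fg_adjoin_finset gens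
  have hSA : ∀ f ∈ S, f ∈ A := fun f hf => hsub f (by
    simp only [hgens, Finset.mem_union]; exact Or.inl (Or.inl (Or.inl hf)))
  have hUA : ∀ f ∈ S, dU f ∈ A := fun f hf => hsub _ (by
    simp only [hgens, Finset.mem_union]
    exact Or.inl (Or.inl (Or.inr (Finset.mem_image_of_mem _ hf))))
  have hTA : ∀ f ∈ S, dT f ∈ A := fun f hf => hsub _ (by
    simp only [hgens, Finset.mem_union]
    exact Or.inl (Or.inr (Finset.mem_image_of_mem _ hf)))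
  have hrest : ∀ x ∈ ({z 0, z 1, σ, (σ - dU σ)⁻¹, dU σ, dT σ} : Finset K), x ∈ A := fun x hx =>
    hsub x (by simp only [hgens, Finset.mem_union]; exact Or.inr hx)
  have hz0 : z 0 ∈ A := hrest _ (by simp)
  have hz1 : z 1 ∈ A := hrest _ (by simp)
  have hzA : ∀ i, z i ∈ A := by
    intro i
    fin_cases i
    · exact hz0
    · exact hz1
  have hσA : σ ∈ A := hrest _ (by simp)
  have hinvA : (σ - dU σ)⁻¹ ∈ A := hrest _ (by simp)
  have hUσ : dU σ ∈ A := hrest _ (by simp)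
  have hTσ : dT σ ∈ A := hrest _ (by simp)
  have hsubA : σ - dU σ ∈ A := sub_mem hσA hUσ
  have hleafD : ∀ f, leafD z dU dT σ f = z 1 * dT f + z 1 * dT σ * (σ - dU σ)⁻¹ * dU f := by
    intro f
    simp only [leafD, Derivation.coe_add, Derivation.coe_smul, Pi.add_apply, Pi.smul_apply,
      smul_eq_mul, div_eq_mul_inv]
  have hcoef : z 1 * dT σ * (σ - dU σ)⁻¹ ∈ A := mul_mem (mul_mem hz1 hTσ) hinvA
  refine ⟨A, fun f hf => hSA f hf, hzA, hσA, fun f hf => ?_, ?_⟩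
  · rw [hleafD]
    exact add_mem (mul_mem hz1 (hTA f hf)) (mul_mem hcoef (hUA f hf))
  obtain ⟨N₁, hN₁⟩ := fam_reg hz A hFG hzA 6
  obtain ⟨N₂, hN₂⟩ := leaf_tame hz 6 (insert σ S)
  refine ⟨max N₁ N₂, fun N hN => ?_⟩
  have hfam := hN₁ N (le_of_max_le_left hN)
  obtain ⟨C, htame⟩ := hN₂ N (le_of_max_le_right hN)
  obtain ⟨C', hC', hlog⟩ := log_reg C N
  refine ⟨C, Filter.Eventually.choice (r := fun (j : ℕ) (Ψ : ℂ → K → ℂ) =>
    (∀ ζ ∈ strip, IsHomOn A (Ψ ζ) ∧ ‖Ψ ζ (z 0) - 2 * Real.pi * Complex.I * j‖ < j ∧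
      Ψ ζ (z 1) = (j : ℂ) ^ N * Complex.exp ζ ∧ Complex.exp (Ψ ζ (z 0)) = Ψ ζ σ) ∧
    (∀ f ∈ A, DifferentiableOn ℂ (fun ζ => Ψ ζ f) strip) ∧
    (∀ f ∈ S, f ≠ 0 → ∀ ζ ∈ strip, (j : ℝ) ^ (-C) ≤ ‖Ψ ζ f‖ ∧ ‖Ψ ζ f‖ ≤ (j : ℝ) ^ C) ∧
    ∀ f ∈ S, ∀ ζ ∈ strip, deriv (fun ζ => Ψ ζ f) ζ = Ψ ζ (leafD z dU dT σ f)) ?_⟩
  filter_upwards [hfam, htame, hlog, leaf_log C', eventually_ge_atTop 1] with j hfam htame hlog hlj hj1
  have hj : (1:ℝ) ≤ j := by exact_mod_cast hj1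
  have hj0 : (0:ℝ) < j := by linarith
  have hlj0 : 0 ≤ Real.log j := Real.log_nonneg hj
  have hClj : 0 ≤ C' * Real.log j := mul_nonneg hC' hlj0
  obtain ⟨Φ, hΦ, hdiff⟩ := hfam
  have hDo := isOpen_Dom N 6 j
  obtain ⟨G, hG1, hG2, hG3⟩ := hlog (fun p => Φ p σ) (hdiff σ hσA) (fun p hp =>
    htame σ (Finset.mem_insert_self _ _) hσ p hp A (Φ p) (hΦ p hp).1 hzA hσA (hΦ p hp).2.1 (hΦ p hp).2.2)
  -- the parameter domain
  set T : Set ℂ := {y | |y.re - N * Real.log j| < 1 ∧ |y.im| < 4} with hT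
  have hTo : IsOpen T := by
    have h2 : IsOpen {y : ℂ | |y.re - N * Real.log j| < 1} :=
      isOpen_lt ((Complex.continuous_re.sub continuous_const).abs) continuous_const
    have h3 : IsOpen {y : ℂ | |y.im| < 4} := isOpen_lt Complex.continuous_im.abs continuous_const
    exact h2.inter h3
  have hmemD : ∀ x y : ℂ, ‖x - 2 * Real.pi * Complex.I * j‖ < j → y ∈ T → (x, y) ∈ Dom N 6 j := by
    intro x y hx hy
    exact ⟨hx, lt_trans hy.1 (by norm_num), lt_trans hy.2 (by norm_num)⟩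
  have hev : ∀ x x' : Unit → ℂ, ‖x () - x' ()‖ ≤ ‖x - x'‖ := fun x x' => norm_le_pi_norm (x - x') ()
  have hnorm : ∀ c : ℂ, ‖(fun _ : Unit => c)‖ = ‖c‖ := fun c => pi_norm_const c
  obtain ⟨X, hX1, hX2⟩ := HS.fixed_family (ι := Unit) hTo
    (x₀ := fun _ => 2 * Real.pi * Complex.I * j) (ρ := j / 2) (δ := C' * Real.log j / j)
    (K := C' * Real.log j) (by positivity)
    (by rw [div_le_iff₀ hj0]; linarith) hClj (fun p _ => G (p.1 (), p.2))
    (by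
      intro _
      have h1 : DifferentiableOn ℂ (fun p : (Unit → ℂ) × ℂ => (p.1 (), p.2))
          (ball (fun _ => 2 * Real.pi * Complex.I * j) (j / 2) ×ˢ T) := by
        apply DifferentiableOn.prodMk
        · apply Differentiable.differentiableOn
          fun_prop
        · exact differentiableOn_snd
      refine hG1.comp h1 ?_
      rintro ⟨x, y⟩ ⟨hx, hy⟩
      refine hmemD _ _ ?_ hy
      have h2 := hev x (fun _ => 2 * Real.pi * Complex.I * j)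
      rw [mem_ball, dist_eq_norm] at hx
      simp only at h2 hx ⊢
      linarith)
    (by
      intro x hx x' hx' y hy
      have h1 : (fun p _ => G (p.1 (), p.2) : (Unit → ℂ) × ℂ → Unit → ℂ) (x, y) -
          (fun p _ => G (p.1 (), p.2) : (Unit → ℂ) × ℂ → Unit → ℂ) (x', y) =
          fun _ => G (x (), y) - G (x' (), y) := rfl
      rw [h1, hnorm]
      have hb : ∀ w : Unit → ℂ, w ∈ ball (fun _ => 2 * Real.pi * Complex.I * j : Unit → ℂ) (j / 2) →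
          w () ∈ ball (2 * Real.pi * Complex.I * j : ℂ) (j / 2) := by
        intro w hw
        rw [mem_ball, dist_eq_norm] at hw ⊢
        exact lt_of_le_of_lt (hev w (fun _ => 2 * Real.pi * Complex.I * j)) hw
      refine ((hG3 y hy.1 hy.2).2 _ (hb x hx) _ (hb x' hx')).trans ?_
      exact mul_le_mul_of_nonneg_left (hev x x') (by positivity))
    (by
      intro y hy
      change ‖(fun _ : Unit => G (2 * Real.pi * Complex.I * j, y))‖ ≤ _
      rw [hnorm]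
      exact (hG3 y hy.1 hy.2).1)
    0 (by rw [norm_zero, add_zero]; linarith)
  -- scalar form
  set x : ℂ → ℂ := fun y => X y () with hx
  have hx1 : DifferentiableOn ℂ x T := hX1 ()
  have hx2 : ∀ y ∈ T, ‖x y - 2 * Real.pi * Complex.I * j‖ < j := by
    intro y hy
    have h1 := (hX2 y hy).1
    have h2 := hev (X y) (fun _ => 2 * Real.pi * Complex.I * j)
    rw [norm_zero, add_zero] at h1
    simp only [hx] at h2 ⊢
    linarith
  have hx3 : ∀ y ∈ T, x y = 2 * Real.pi * Complex.I * j + G (x y, y) := by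
    intro y hy
    have h1 := congrFun (hX2 y hy).2 ()
    simp only [Pi.add_apply, Pi.zero_apply, add_zero] at h1
    exact h1
  have hpD : ∀ y ∈ T, (x y, y) ∈ Dom N 6 j := fun y hy => hmemD _ _ (hx2 y hy) hy
  set y₀ : ℂ := ((N * Real.log j : ℝ) : ℂ) with hy₀
  have hyT : ∀ ζ ∈ strip, y₀ + ζ ∈ T := by
    intro ζ hζ
    refine ⟨?_, ?_⟩
    · have : (y₀ + ζ).re - N * Real.log j = ζ.re := by
        rw [Complex.add_re, hy₀, Complex.ofReal_re]; ring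
      rw [this]
      exact hζ.1
    · have : (y₀ + ζ).im = ζ.im := by
        rw [Complex.add_im, hy₀, Complex.ofReal_im, zero_add]
      rw [this]
      exact hζ.2
  have hexpy : Complex.exp y₀ = (j : ℂ) ^ N := by
    rw [hy₀, ← Complex.ofReal_exp, Real.exp_nat_mul, Real.exp_log hj0]
    push_cast
    rfl
  have hexpj : Complex.exp (2 * Real.pi * Complex.I * j) = 1 := by
    rw [mul_comm (2 * Real.pi * Complex.I) (j : ℂ)]
    exact_mod_cast Complex.exp_nat_mul_two_pi_mul_I j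
  -- derivative of `x`
  have hxd : ∀ y ∈ T, HasDerivAt x (deriv x y) y := fun y hy =>
    ((hx1 y hy).differentiableAt (hTo.mem_nhds hy)).hasDerivAt
  have hcurve : ∀ y ∈ T, HasDerivAt (fun y => (x y, y)) (deriv x y, (1:ℂ)) y := fun y hy =>
    (hxd y hy).prodMk (hasDerivAt_id y)
  have hΦd : ∀ f ∈ A, ∀ y ∈ T, HasDerivAt (fun y => Φ (x y, y) f)
      (fderiv ℂ (fun p => Φ p f) (x y, y) (deriv x y, 1)) y := by
    intro f hf y hy
    have h1 : HasFDerivAt (fun p => Φ p f) (fderiv ℂ (fun p => Φ p f) (x y, y)) (x y, y) :=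
      ((hdiff f hf _ (hpD y hy)).differentiableAt (hDo.mem_nhds (hpD y hy))).hasFDerivAt
    exact HasFDerivAt.comp_hasDerivAt (f := fun y => (x y, y)) y h1 (hcurve y hy)
  have hcomp : ∀ f ∈ A, dU f ∈ A → dT f ∈ A → ∀ y ∈ T,
      fderiv ℂ (fun p => Φ p f) (x y, y) (deriv x y, 1) =
        deriv x y * Φ (x y, y) (dU f) + Complex.exp y * Φ (x y, y) (dT f) := by
    intro f hf h1 h2 y hy
    have := comp_reg hz hd hDo A hzA Φ hΦ hdiff hf h1 h2 (x y, y) (hpD y hy) (deriv x y) 1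
    rw [one_mul] at this
    exact this
  have hx' : ∀ y ∈ T, deriv x y = Φ (x y, y) (z 1 * dT σ * (σ - dU σ)⁻¹) := by
    intro y hy
    have hp := hpD y hy
    have hH := (hΦ _ hp).1
    have h1 : HasDerivAt (fun y => G (x y, y)) (fderiv ℂ G (x y, y) (deriv x y, 1)) y := by
      have h2 : HasFDerivAt G (fderiv ℂ G (x y, y)) (x y, y) :=
        ((hG1 _ hp).differentiableAt (hDo.mem_nhds hp)).hasFDerivAt
      exact HasFDerivAt.comp_hasDerivAt (f := fun y => (x y, y)) y h2 (hcurve y hy)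
    have h3 : HasDerivAt x (fderiv ℂ G (x y, y) (deriv x y, 1)) y := by
      have h4 : x =ᶠ[𝓝 y] fun y => 2 * Real.pi * Complex.I * j + G (x y, y) := by
        filter_upwards [hTo.mem_nhds hy] with y hy using hx3 y hy
      exact (h1.const_add _).congr_of_eventuallyEq h4
    have h5 : deriv x y = fderiv ℂ G (x y, y) (deriv x y, 1) := (hxd y hy).unique h3
    have h6 : HasDerivAt (fun y => Φ (x y, y) σ)
        (Complex.exp (G (x y, y)) * fderiv ℂ G (x y, y) (deriv x y, 1)) y := by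
      have h7 := h1.cexp
      refine h7.congr_of_eventuallyEq ?_
      filter_upwards [hTo.mem_nhds hy] with y hy
      exact (hG2 _ (hpD y hy)).symm
    have h8 := (hΦd σ hσA y hy).unique h6
    rw [hcomp σ hσA hUσ hTσ y hy, hG2 _ hp, ← h5] at h8
    have hne' : Φ (x y, y) (σ - dU σ) ≠ 0 := hH.ne_zero hsubA hinvA hne
    rw [hH.mul (mul_mem hz1 hTσ) hinvA, hH.mul hz1 hTσ, hH.inv hsubA hinvA, (hΦ _ hp).2.2]
    rw [hH.sub hσA hUσ] at hne' ⊢
    rw [eq_mul_inv_iff_mul_eq₀ hne']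
    simp only at h8 ⊢
    linear_combination -h8
  refine ⟨fun ζ f => Φ (x (y₀ + ζ), y₀ + ζ) f, fun ζ hζ => ?_, fun f hf => ?_, fun f hf hf0 ζ hζ => ?_,
    fun f hf ζ hζ => ?_⟩
  · have hy := hyT ζ hζ
    have hp := hpD _ hy
    obtain ⟨q1, q2, q3⟩ := hΦ _ hp
    refine ⟨q1, ?_, ?_, ?_⟩
    · beta_reduce
      rw [q2]
      exact hx2 _ hy
    · beta_reduce
      rw [q3]
      simp only
      rw [Complex.exp_add, hexpy]
    · beta_reduce
      rw [q2]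
      simp only
      have e1 : Complex.exp (x (y₀ + ζ)) =
          Complex.exp (2 * Real.pi * Complex.I * j + G (x (y₀ + ζ), y₀ + ζ)) :=
        congrArg Complex.exp (hx3 _ hy)
      rw [e1, Complex.exp_add, hexpj, one_mul, hG2 _ hp]
  · intro ζ hζ
    have h1 := hΦd f hf _ (hyT ζ hζ)
    have h2 : HasDerivAt (fun ζ => y₀ + ζ) 1 ζ := (hasDerivAt_id ζ).const_add y₀
    exact (h1.comp ζ h2).differentiableAt.differentiableWithinAt
  · have hp := hpD _ (hyT ζ hζ)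
    exact htame f (Finset.mem_insert_of_mem hf) hf0 _ hp A _ (hΦ _ hp).1 hzA (hSA f hf)
      (hΦ _ hp).2.1 (hΦ _ hp).2.2
  · have hy := hyT ζ hζ
    have hp := hpD _ hy
    have hH := (hΦ _ hp).1
    have h1 := hΦd f (hSA f hf) _ hy
    have h2 : HasDerivAt (fun ζ => y₀ + ζ) 1 ζ := (hasDerivAt_id ζ).const_add y₀
    have h3 := (h1.comp ζ h2).deriv
    rw [mul_one, hcomp f (hSA f hf) (hUA f hf) (hTA f hf) _ hy] at h3
    have h4 : deriv (fun ζ => Φ (x (y₀ + ζ), y₀ + ζ) f) ζ =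
        deriv x (y₀ + ζ) * Φ (x (y₀ + ζ), y₀ + ζ) (dU f) +
          Complex.exp (y₀ + ζ) * Φ (x (y₀ + ζ), y₀ + ζ) (dT f) := h3
    rw [h4, hleafD]
    beta_reduce
    rw [hH.add (mul_mem hz1 (hTA f hf)) (mul_mem hcoef (hUA f hf)),
      hH.mul hz1 (hTA f hf), hH.mul hcoef (hUA f hf), (hΦ _ hp).2.2, ← hx' _ hy]
    ring

end Pool.Agent.Lib.MP_209724_lc.OV
end

section

namespace Pool.Agent.Lib.MP_209724_lc.OV

open MvPolynomial Filter Topology Metric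

variable {K : Type} [Field K] [Algebra ℂ K]

/-- bound of the logarithmic derivative of a function of polynomial size -/
private theorem lr_ld {c : ℂ} {r M : ℝ} (hr : 0 < r) {F : ℂ → ℂ}
    (hF : DifferentiableOn ℂ F (ball c r)) (h0 : ∀ x ∈ ball c r, F x ≠ 0)
    (hM : ∀ x ∈ ball c r, |Real.log ‖F x‖| ≤ M) :
    ∀ x ∈ ball c (r / 2), ‖deriv F x‖ ≤ 16 * M / r * ‖F x‖ := by
  intro x hx
  obtain ⟨g, hgd, hg⟩ := MV.exists_log isOpen_ball (convex_ball c r) hF h0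
  have hsub : ball c (r / 2) ⊆ ball c r := ball_subset_ball (by linarith)
  have hre : ∀ x ∈ ball c r, |(g x).re| ≤ M := by
    intro y hy
    have h1 := hM y hy
    rw [← hg y hy, Complex.norm_exp, Real.log_exp] at h1
    exact h1
  have hM0 : 0 ≤ M := (abs_nonneg _).trans (hM c (mem_ball_self hr))
  have hlip := HS.bc_lip hr hgd hre
  have hgx : HasDerivAt g (deriv g x) x :=
    (hgd.differentiableAt (isOpen_ball.mem_nhds (hsub hx))).hasDerivAt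
  have hFx : HasDerivAt F (Complex.exp (g x) * deriv g x) x := by
    refine hgx.cexp.congr_of_eventuallyEq ?_
    filter_upwards [isOpen_ball.mem_nhds (hsub hx)] with y hy
    exact (hg y hy).symm
  have hb : ‖deriv g x‖ ≤ 16 * M / r := by
    refine hgx.le_of_lip' (by positivity) ?_
    filter_upwards [isOpen_ball.mem_nhds hx] with y hy
    exact hlip y hy x hx
  rw [hFx.deriv, hg x (hsub hx), norm_mul, mul_comm]
  exact mul_le_mul_of_nonneg_right hb (norm_nonneg _)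

private theorem lr_base {dU : Derivation ℂ K K} {s β ρ : K} (hρ0 : ρ ≠ 0) {A : Subalgebra ℂ K}
    {S : Finset K} {c : ℂ} {r : ℝ} {P : ℂ → K → ℂ} (hSA : (S : Set K) ⊆ A)
    (hkA : ∀ f ∈ S, kD dU s f ∈ A) (hρS : ρ ∈ S) (hρiS : ρ⁻¹ ∈ S) (hβS : β ∈ S)
    (h1 : ∀ κ ∈ ball c r, IsHomOn A (P κ))
    (h2 : ∀ f ∈ A, DifferentiableOn ℂ (fun κ => P κ f) (ball c r))
    (h3 : ∀ f ∈ S, ∀ κ ∈ ball c r, deriv (fun κ => P κ f) κ = P κ (kD dU s f)) :
    ∃ lam : ℂ → ℂ, (∀ κ ∈ ball c r, Complex.exp (lam κ) = P κ ρ) ∧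
      ∀ κ ∈ ball c r, HasDerivAt (fun κ => (P κ β - lam κ) / (2 * Real.pi * Complex.I))
        (P κ (kf dU s β ρ 0) / (2 * Real.pi * Complex.I)) κ := by
  have hne : ∀ κ ∈ ball c r, P κ ρ ≠ 0 := fun κ hκ =>
    (h1 κ hκ).ne_zero (hSA hρS) (hSA hρiS) hρ0
  obtain ⟨lam, hld, hl⟩ := MV.exists_log isOpen_ball (convex_ball c r) (h2 ρ (hSA hρS)) hne
  refine ⟨lam, hl, ?_⟩
  intro κ hκ
  have hn : ball c r ∈ 𝓝 κ := isOpen_ball.mem_nhds hκ
  have hlx : HasDerivAt lam (deriv lam κ) κ := (hld.differentiableAt hn).hasDerivAt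
  have hF : HasDerivAt (fun κ => P κ ρ) (Complex.exp (lam κ) * deriv lam κ) κ := by
    refine hlx.cexp.congr_of_eventuallyEq ?_
    filter_upwards [hn] with y hy
    exact (hl y hy).symm
  have hF2 : P κ ρ * deriv lam κ = P κ (kD dU s ρ) := by
    rw [← h3 ρ hρS κ hκ, hF.deriv, hl κ hκ]
  have hB : HasDerivAt (fun κ => P κ β) (P κ (kD dU s β)) κ := by
    rw [← h3 β hβS κ hκ]
    exact ((h2 β (hSA hβS)).differentiableAt hn).hasDerivAt
  have hval : P κ (kf dU s β ρ 0) = P κ (kD dU s β) - deriv lam κ := by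
    show P κ (kD dU s β - kD dU s ρ / ρ) = _
    have hmem : kD dU s ρ * ρ⁻¹ ∈ A := A.mul_mem (hkA ρ hρS) (hSA hρiS)
    rw [div_eq_mul_inv, (h1 κ hκ).sub (hkA β hβS) hmem, (h1 κ hκ).mul (hkA ρ hρS) (hSA hρiS),
      (h1 κ hκ).inv (hSA hρS) (hSA hρiS), ← hF2]
    have := hne κ hκ
    field_simp
  rw [hval]
  exact (hB.sub hlx).div_const _

private theorem lr_small (D a : ℝ) (n : ℕ) (hn : a + 1 ≤ n) (ε : ℝ) (hε : 0 < ε) :
    ∀ᶠ j : ℕ in atTop, (8 * (j : ℝ)) ^ a * (D * Real.log j / j) ^ n ≤ ε := by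
  have h1 : Tendsto (fun x : ℝ => (8 : ℝ) ^ a * |D| ^ n * (Real.log x ^ n / x)) atTop (𝓝 0) := by
    have h2 : Tendsto (fun x : ℝ => Real.log x ^ n / x) atTop (𝓝 0) :=
      Real.isLittleO_pow_log_id_atTop.tendsto_div_nhds_zero
    have h3 := h2.const_mul ((8 : ℝ) ^ a * |D| ^ n)
    rw [mul_zero] at h3
    exact h3
  have h4 := (h1.comp tendsto_natCast_atTop_atTop).eventually (gt_mem_nhds hε)
  filter_upwards [h4, eventually_ge_atTop 1] with j hj hj1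
  have hjR : (1 : ℝ) ≤ (j : ℝ) := by exact_mod_cast hj1
  have hj0 : (0 : ℝ) < (j : ℝ) := by linarith
  have hlog : 0 ≤ Real.log j := Real.log_nonneg hjR
  simp only [Function.comp] at hj
  refine le_trans ?_ hj.le
  have h5 : (8 * (j : ℝ)) ^ a = (8 : ℝ) ^ a * (j : ℝ) ^ a :=
    Real.mul_rpow (by norm_num) hj0.le
  have h6 : (D * Real.log j / j) ^ n ≤ |D| ^ n * (Real.log j ^ n * (j : ℝ) ^ (-(n : ℝ))) := by
    have h7 : (j : ℝ) ^ (-(n : ℝ)) = ((j : ℝ) ^ n)⁻¹ := by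
      rw [Real.rpow_neg hj0.le, Real.rpow_natCast]
    rw [h7]
    refine (le_abs_self _).trans (le_of_eq ?_)
    rw [abs_pow, abs_div, abs_mul, abs_of_nonneg hlog, abs_of_pos hj0, div_pow, mul_pow]
    rw [div_eq_mul_inv, mul_assoc]
  have h8 : (j : ℝ) ^ a * (j : ℝ) ^ (-(n : ℝ)) ≤ 1 / j := by
    rw [← Real.rpow_add hj0, one_div, ← Real.rpow_neg_one]
    exact Real.rpow_le_rpow_of_exponent_le hjR (by linarith)
  calc (8 * (j : ℝ)) ^ a * (D * Real.log j / j) ^ n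
      ≤ ((8 : ℝ) ^ a * (j : ℝ) ^ a) * (|D| ^ n * (Real.log j ^ n * (j : ℝ) ^ (-(n : ℝ)))) := by
        rw [h5]
        exact mul_le_mul_of_nonneg_left h6 (by positivity)
    _ = (8 : ℝ) ^ a * |D| ^ n * (Real.log j ^ n * ((j : ℝ) ^ a * (j : ℝ) ^ (-(n : ℝ)))) := by ring
    _ ≤ (8 : ℝ) ^ a * |D| ^ n * (Real.log j ^ n * (1 / j)) := by gcongr
    _ = (8 : ℝ) ^ a * |D| ^ n * (Real.log j ^ n / j) := by ring

private theorem lr_delta (D ε : ℝ) (hε : 0 < ε) :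
    ∀ᶠ j : ℕ in atTop, D * Real.log j / j ≤ ε := by
  have h3 : Tendsto (fun x : ℝ => Real.log x / x) atTop (𝓝 0) :=
    Real.isLittleO_log_id_atTop.tendsto_div_nhds_zero
  have h4 := h3.const_mul D
  rw [mul_zero] at h4
  filter_upwards [(h4.comp tendsto_natCast_atTop_atTop).eventually (gt_mem_nhds hε)] with j hj
  simp only [Function.comp] at hj
  rw [mul_div_assoc]
  exact hj.le

/-- OV-21a: few coincidences for one root. For every root `ρ` there is a bound `L` such that for every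
window length `W` and all large `j` at most `L` of the points `κ = j, j + 1, …, j + W` satisfy
`exp(Ψ β) = Ψ ρ`. Here `Ψ` is the family of `kleaf` for a finite set which contains a certain finite
set `S₀` (depending on `L`, but not on `W`).

Proof. Put `f_l = kf dU s β ρ l`. Alternative 1 of `la_alg`: all `f_l ≠ 0`. By `la_tame` (applied to
`f_0`; `f_0` is algebraic over `ℂ(u)` by `algOver_kf`, `z 0` is transcendental) there are `C₁`, `R` with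
`|ψ f_0| ≤ |ψ u| ^ C₁`. Take an integer `n > |C₁| + 1` and `L = n + 1`,
`S₀ = {ρ, ρ⁻¹, β, f_0, …, f_{L + 1}}`. Let `A, C, Ψ` be as in the statement (for `S ⊇ S₀`). For large
`j`, for each `l ≤ L` the function `Ψ j · f_l` is differentiable and has no zero on
`ball j (j / 100)`, with `|log |Ψ f_l|| ≤ C log j`, so by `MV.exists_log` and `HS.bc_lip` its
logarithmic derivative is at most `C'' log j / j` on `ball j (j / 200)`, i.e.
`|Ψ f_{l+1}| ≤ (C'' log j / j) |Ψ f_l|`. Hence `|Ψ f_{L-1}| ≤ (8 j) ^ |C₁| (C'' log j / j) ^ n → 0`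
(using `|Ψ u| ≤ 8 j`) uniformly on this ball. Given `W`, let `λ` be a logarithm of the nonvanishing
function `Ψ j · ρ` on the ball, and `g_0 = (Ψ β - λ) / (2πi)`, `g_{l+1} = Ψ f_l / (2πi)`. Then
`g_l' = g_{l+1}` on the ball `ball j (j / 200)`, which contains `ball j (W + 2)`. `g_L = Ψ f_{L-1} / 2πi`
is nonzero and tends to `0`, and `|g_{L+1}| ≤ (C'' log j / j) |g_L| ≤ (3 C'' log j / j) |g_L (j)|` on
`ball j (W + 1)` by `slow`. So `few_integers L W` applies for large `j`. If `exp(Ψ β) = Ψ ρ = exp(λ)` at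
`κ = j + k` then `g_0 (j + k) ∈ ℤ`. So there are at most `L` such `k`.
Alternative 2: `f_0 = c` with `c / (2πi)` not rational. `L = 1`, `S₀ = {ρ, ρ⁻¹, β}`: with `g_0` as above
`g_0' = c / (2πi)`, so `g_0 (j + k) - g_0 (j + k') = (k - k') c / (2πi)`, which is not an integer for
`k ≠ k'`; so `g_0` is integral at most once. (`Ψ j κ (f_0) = c` by `IsHomOn.const`; the derivative of
`Ψ β - λ` is `Ψ (kD β) - Ψ (kD ρ) / Ψ ρ = Ψ f_0`.) -/
theorem la_root {z : Fin 2 → K} (hz : IsBase z) {dU dT : Derivation ℂ K K} (hd : IsDual z dU dT)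
    {s β ρ : K} (hs : AlgOver (z 0) s) (hs0 : s ≠ 0) (hsc : ¬ IsConst s) (hβ : AlgOver (z 0) β)
    (hβr : ¬ RatLin (z 0) β) (hρ : AlgOver (z 0) ρ) (hρ0 : ρ ≠ 0) :
    ∃ (L : ℕ) (S₀ : Finset K), ∀ (A : Subalgebra ℂ K) (S : Finset K) (C : ℝ)
      (Ψ : ℕ → ℂ → K → ℂ), S₀ ⊆ S → (S : Set K) ⊆ A → (∀ i, z i ∈ A) → s ∈ A →
      (∀ f ∈ S, kD dU s f ∈ A) →
      (∀ᶠ j : ℕ in atTop,
        (∀ κ ∈ ball (j : ℂ) (j / 100), IsHomOn A (Ψ j κ) ∧
          ‖Ψ j κ (z 0) - 2 * Real.pi * Complex.I * j‖ < j ∧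
          Complex.exp (Ψ j κ (z 0)) = Complex.exp (2 * Real.pi * Complex.I * κ) * Ψ j κ s) ∧
        (∀ f ∈ A, DifferentiableOn ℂ (fun κ => Ψ j κ f) (ball (j : ℂ) (j / 100))) ∧
        (∀ f ∈ S, f ≠ 0 → ∀ κ ∈ ball (j : ℂ) (j / 100),
          (j : ℝ) ^ (-C) ≤ ‖Ψ j κ f‖ ∧ ‖Ψ j κ f‖ ≤ (j : ℝ) ^ C) ∧
        ∀ f ∈ S, ∀ κ ∈ ball (j : ℂ) (j / 100),
          deriv (fun κ => Ψ j κ f) κ = Ψ j κ (kD dU s f)) →
      ∀ W : ℕ, ∀ᶠ j : ℕ in atTop, ∀ T : Finset ℕ,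
        (∀ k ∈ T, k ≤ W ∧ Complex.exp (Ψ j (j + k) β) = Ψ j (j + k) ρ) → T.card ≤ L := by
  classical
  have hztr : Transcendental ℂ (z 0) := hz.1.transcendental 0
  have hpi : (2 * Real.pi * Complex.I : ℂ) ≠ 0 := Complex.two_pi_I_ne_zero
  have hpin : ‖(2 * Real.pi * Complex.I : ℂ)‖ = 2 * Real.pi := by
    rw [norm_mul, norm_mul, Complex.norm_I, mul_one, Complex.norm_real, Real.norm_eq_abs,
      abs_of_pos Real.pi_pos]
    norm_num
  have h3pi : (3 : ℝ) < Real.pi := Real.pi_gt_three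
  have h4pi : Real.pi < 3.15 := Real.pi_lt_d2
  rcases la_alg hz hd hs hs0 hsc hβ hβr hρ hρ0 with hne | ⟨c, hc, hcq⟩
  · -- alternative 1
    obtain ⟨C₁, R, hC₁⟩ := la_tame hztr (hne 0) (algOver_kf hz hd hs hβ hρ 0)
    obtain ⟨n, hn⟩ := exists_nat_ge (|C₁| + 1)
    refine ⟨n + 1, {ρ, ρ⁻¹, β} ∪ (Finset.range (n + 3)).image (kf dU s β ρ), ?_⟩
    intro A S C Ψ hS₀ hSA hzA hsA hkA hall W
    have hρS : ρ ∈ S := hS₀ (by simp)
    have hρiS : ρ⁻¹ ∈ S := hS₀ (by simp)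
    have hβS : β ∈ S := hS₀ (by simp)
    have hfS : ∀ l < n + 3, kf dU s β ρ l ∈ S := fun l hl =>
      hS₀ (Finset.mem_union_right _ (Finset.mem_image_of_mem _ (Finset.mem_range.2 hl)))
    obtain ⟨ε, hε, hfew⟩ := few_integers (n + 1) W
    have hW0 : (0 : ℝ) ≤ (W : ℝ) := Nat.cast_nonneg W
    have hWR : ∀ᶠ j : ℕ in atTop, 200 * ((W : ℝ) + 2) + |R| + 1 ≤ (j : ℝ) :=
      tendsto_natCast_atTop_atTop.eventually_ge_atTop _
    filter_upwards [hall, hWR, lr_small (1600 * C) |C₁| n hn ε hε,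
      lr_delta (1600 * C) (ε / 3) (by positivity),
      lr_delta (1600 * C) (1 / (2 * ((W : ℝ) + 2))) (by positivity)] with j hj hjW hsm hd1 hd2
    obtain ⟨hj1, hj2, hj3, hj4⟩ := hj
    have hjR : (1 : ℝ) ≤ (j : ℝ) := by
      have := abs_nonneg R
      linarith
    have hj0 : (0 : ℝ) < (j : ℝ) := by linarith
    set δ : ℝ := 1600 * C * Real.log j / j with hδ
    have hhom : ∀ κ ∈ ball (j : ℂ) (j / 100), IsHomOn A (Ψ j κ) := fun κ hκ => (hj1 κ hκ).1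
    obtain ⟨lam, hlam, hlamd⟩ := lr_base (dU := dU) (s := s) (β := β) hρ0 hSA hkA hρS hρiS hβS hhom
      hj2 hj4
    have hsub2 : ball (j : ℂ) ((W : ℝ) + 2) ⊆ ball (j : ℂ) (j / 200) :=
      ball_subset_ball (by linarith [abs_nonneg R])
    have hsub3 : ball (j : ℂ) (j / 200) ⊆ ball (j : ℂ) (j / 100) :=
      ball_subset_ball (by linarith)
    have hsub1 : ball (j : ℂ) ((W : ℝ) + 1) ⊆ ball (j : ℂ) ((W : ℝ) + 2) :=
      ball_subset_ball (by linarith)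
    -- logarithmic derivatives
    have hnz : ∀ l < n + 3, ∀ κ ∈ ball (j : ℂ) (j / 100), Ψ j κ (kf dU s β ρ l) ≠ 0 := by
      intro l hl κ hκ h0
      have h1 := (hj3 _ (hfS l hl) (hne l) κ hκ).1
      rw [h0, norm_zero] at h1
      have h2 : 0 < (j : ℝ) ^ (-C) := Real.rpow_pos_of_pos hj0 _
      linarith
    have hld : ∀ l < n + 3, ∀ κ ∈ ball (j : ℂ) (j / 200),
        ‖Ψ j κ (kf dU s β ρ (l + 1))‖ ≤ δ * ‖Ψ j κ (kf dU s β ρ l)‖ := by
      intro l hl κ hκ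
      have h1 := lr_ld (M := C * Real.log j) (r := (j : ℝ) / 100) (by positivity)
        (hj2 _ (hSA (hfS l hl))) (hnz l hl) (by
          intro x hx
          obtain ⟨h2, h3⟩ := hj3 _ (hfS l hl) (hne l) x hx
          have h4 : 0 < ‖Ψ j x (kf dU s β ρ l)‖ := norm_pos_iff.2 (hnz l hl x hx)
          rw [abs_le]
          constructor
          · have h5 := Real.log_le_log (Real.rpow_pos_of_pos hj0 _) h2
            rw [Real.log_rpow hj0] at h5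
            linarith
          · have h5 := Real.log_le_log h4 h3
            rw [Real.log_rpow hj0] at h5
            exact h5) κ (by
          have h6 : (j : ℝ) / 100 / 2 = (j : ℝ) / 200 := by ring
          rw [h6]
          exact hκ)
      rw [hj4 _ (hfS l hl) κ (hsub3 hκ)] at h1
      have h7 : 16 * (C * Real.log j) / ((j : ℝ) / 100) = δ := by
        rw [hδ]
        field_simp
        ring
      rw [h7] at h1
      exact h1
    have hδ0 : 0 ≤ δ := by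
      have hc0 : (j : ℂ) ∈ ball (j : ℂ) (j / 200) := mem_ball_self (by positivity)
      have h1 := hld 0 (by omega) _ hc0
      have h2 : 0 < ‖Ψ j (j : ℂ) (kf dU s β ρ 0)‖ :=
        norm_pos_iff.2 (hnz 0 (by omega) _ (hsub3 hc0))
      by_contra hneg
      have h3 : δ * ‖Ψ j (j : ℂ) (kf dU s β ρ 0)‖ < 0 := mul_neg_of_neg_of_pos (not_le.1 hneg) h2
      have h4 := norm_nonneg (Ψ j (j : ℂ) (kf dU s β ρ (0 + 1)))
      linarith
    have hpow : ∀ l ≤ n + 2, ∀ κ ∈ ball (j : ℂ) (j / 200),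
        ‖Ψ j κ (kf dU s β ρ l)‖ ≤ δ ^ l * ‖Ψ j κ (kf dU s β ρ 0)‖ := by
      intro l hl κ hκ
      induction l with
      | zero => simp
      | succ l ih =>
        calc ‖Ψ j κ (kf dU s β ρ (l + 1))‖ ≤ δ * ‖Ψ j κ (kf dU s β ρ l)‖ := hld l (by omega) κ hκ
          _ ≤ δ * (δ ^ l * ‖Ψ j κ (kf dU s β ρ 0)‖) :=
            mul_le_mul_of_nonneg_left (ih (by omega)) hδ0
          _ = δ ^ (l + 1) * ‖Ψ j κ (kf dU s β ρ 0)‖ := by ring
    have hzero : ∀ κ ∈ ball (j : ℂ) (j / 200), ‖Ψ j κ (kf dU s β ρ 0)‖ ≤ (8 * (j : ℝ)) ^ |C₁| := by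
      intro κ hκ
      have h1 := (hj1 κ (hsub3 hκ)).2.1
      have h2 : ‖(2 * Real.pi * Complex.I * j : ℂ)‖ = 2 * Real.pi * j := by
        rw [norm_mul, hpin, Complex.norm_natCast]
      have hu1 : ‖Ψ j κ (z 0)‖ ≤ 8 * j := by
        have h3 : ‖Ψ j κ (z 0)‖ ≤ ‖Ψ j κ (z 0) - 2 * Real.pi * Complex.I * j‖ +
            ‖(2 * Real.pi * Complex.I * j : ℂ)‖ := by
          have := norm_add_le (Ψ j κ (z 0) - 2 * Real.pi * Complex.I * j)
            (2 * Real.pi * Complex.I * j)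
          rwa [sub_add_cancel] at this
        rw [h2] at h3
        nlinarith
      have hu2 : (j : ℝ) ≤ ‖Ψ j κ (z 0)‖ := by
        have h3 : ‖(2 * Real.pi * Complex.I * j : ℂ)‖ ≤ ‖Ψ j κ (z 0)‖ +
            ‖Ψ j κ (z 0) - 2 * Real.pi * Complex.I * j‖ := by
          have := norm_sub_le (Ψ j κ (z 0)) (Ψ j κ (z 0) - 2 * Real.pi * Complex.I * j)
          rwa [sub_sub_cancel] at this
        rw [h2] at h3
        nlinarith
      have h4 := (hC₁ A (Ψ j κ) (hhom κ (hsub3 hκ)) (hzA 0) (hSA (hfS 0 (by omega)))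
        (by linarith [le_abs_self R])).2
      refine h4.trans ?_
      calc ‖Ψ j κ (z 0)‖ ^ C₁ ≤ ‖Ψ j κ (z 0)‖ ^ |C₁| :=
            Real.rpow_le_rpow_of_exponent_le (by linarith) (le_abs_self _)
        _ ≤ (8 * (j : ℝ)) ^ |C₁| := Real.rpow_le_rpow (norm_nonneg _) hu1 (abs_nonneg _)
    -- the functions
    let g : ℕ → ℂ → ℂ := fun l => match l with
      | 0 => fun κ => (Ψ j κ β - lam κ) / (2 * Real.pi * Complex.I)
      | l + 1 => fun κ => Ψ j κ (kf dU s β ρ l) / (2 * Real.pi * Complex.I)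
    have hg0 : ∀ κ, g 0 κ = (Ψ j κ β - lam κ) / (2 * Real.pi * Complex.I) := fun κ => rfl
    have hg1 : ∀ l κ, g (l + 1) κ = Ψ j κ (kf dU s β ρ l) / (2 * Real.pi * Complex.I) :=
      fun l κ => rfl
    have hcball : (j : ℂ) ∈ ball (j : ℂ) (j / 200) := mem_ball_self (by positivity)
    have h2pi : (1 : ℝ) ≤ 2 * Real.pi := by linarith
    intro T hT
    refine hfew g (j : ℂ) ?_ ?_ ?_ ?_ T ?_
    · intro l hl κ hκ
      have hκ' : κ ∈ ball (j : ℂ) (j / 100) := hsub3 (hsub2 (hsub1 hκ))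
      rcases l with _ | l
      · exact hlamd κ hκ'
      · have h1 : HasDerivAt (fun κ => Ψ j κ (kf dU s β ρ l)) (Ψ j κ (kf dU s β ρ (l + 1))) κ := by
          have h2 := hj4 _ (hfS l (by omega)) κ hκ'
          have h3 : Ψ j κ (kf dU s β ρ (l + 1)) = Ψ j κ (kD dU s (kf dU s β ρ l)) := rfl
          rw [h3, ← h2]
          exact ((hj2 _ (hSA (hfS l (by omega)))).differentiableAt
            (isOpen_ball.mem_nhds hκ')).hasDerivAt
        exact h1.div_const _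
    · rw [hg1]
      exact div_ne_zero (hnz n (by omega) _ (hsub3 hcball)) hpi
    · rw [hg1, norm_div, hpin]
      have h1 := hpow n (by omega) _ hcball
      have h2 := hzero _ hcball
      have h3 : ‖Ψ j (j : ℂ) (kf dU s β ρ n)‖ ≤ ε := by
        calc ‖Ψ j (j : ℂ) (kf dU s β ρ n)‖ ≤ δ ^ n * ‖Ψ j (j : ℂ) (kf dU s β ρ 0)‖ := h1
          _ ≤ δ ^ n * (8 * (j : ℝ)) ^ |C₁| := mul_le_mul_of_nonneg_left h2 (by positivity)
          _ = (8 * (j : ℝ)) ^ |C₁| * δ ^ n := mul_comm _ _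
          _ ≤ ε := hsm
      exact (div_le_self (norm_nonneg _) h2pi).trans h3
    · intro κ hκ
      rw [hg1, hg1, norm_div, norm_div]
      have hκ2 : κ ∈ ball (j : ℂ) ((W : ℝ) + 2) := hsub1 hκ
      have h1 := hld n (by omega) κ (hsub2 hκ2)
      have h2 := slow (f := fun κ => Ψ j κ (kf dU s β ρ n))
        (f' := fun κ => Ψ j κ (kf dU s β ρ (n + 1))) (c := (j : ℂ)) (W := (W : ℝ)) (ε := δ) hW0 hδ0
        (by
          intro κ hκ
          have hκ' : κ ∈ ball (j : ℂ) (j / 100) := hsub3 (hsub2 hκ)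
          have h2 := hj4 _ (hfS n (by omega)) κ hκ'
          have h3 : Ψ j κ (kf dU s β ρ (n + 1)) = Ψ j κ (kD dU s (kf dU s β ρ n)) := rfl
          show HasDerivAt _ (Ψ j κ (kf dU s β ρ (n + 1))) κ
          rw [h3, ← h2]
          exact ((hj2 _ (hSA (hfS n (by omega)))).differentiableAt
            (isOpen_ball.mem_nhds hκ')).hasDerivAt)
        (fun κ hκ => hnz n (by omega) κ (hsub3 (hsub2 hκ)))
        (fun κ hκ => hld n (by omega) κ (hsub2 hκ))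
        (by
          have h5 : (0 : ℝ) < (W : ℝ) + 2 := by linarith
          calc δ * ((W : ℝ) + 2) ≤ 1 / (2 * ((W : ℝ) + 2)) * ((W : ℝ) + 2) :=
                mul_le_mul_of_nonneg_right hd2 h5.le
            _ = 1 / 2 := by field_simp) κ hκ2
      have h3 : ‖Ψ j κ (kf dU s β ρ (n + 1))‖ ≤ ε * ‖Ψ j (j : ℂ) (kf dU s β ρ n)‖ := by
        calc ‖Ψ j κ (kf dU s β ρ (n + 1))‖ ≤ δ * ‖Ψ j κ (kf dU s β ρ n)‖ := h1
          _ ≤ δ * (3 * ‖Ψ j (j : ℂ) (kf dU s β ρ n)‖) := mul_le_mul_of_nonneg_left h2 hδ0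
          _ ≤ ε / 3 * (3 * ‖Ψ j (j : ℂ) (kf dU s β ρ n)‖) :=
            mul_le_mul_of_nonneg_right hd1 (by positivity)
          _ = ε * ‖Ψ j (j : ℂ) (kf dU s β ρ n)‖ := by ring
      rw [← mul_div_assoc]
      exact div_le_div_of_nonneg_right h3 (norm_nonneg _)
    · intro k hk
      obtain ⟨hkW, hkE⟩ := hT k hk
      refine ⟨hkW, ?_⟩
      have hmem : (j : ℂ) + k ∈ ball (j : ℂ) (j / 100) := by
        rw [mem_ball, dist_eq_norm, add_sub_cancel_left, Complex.norm_natCast]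
        have h1 : (k : ℝ) ≤ (W : ℝ) := by exact_mod_cast hkW
        linarith [abs_nonneg R]
      rw [← hlam _ hmem, Complex.exp_eq_exp_iff_exists_int] at hkE
      obtain ⟨m, hm⟩ := hkE
      refine ⟨m, ?_⟩
      rw [hg0, hm, add_sub_cancel_left]
      field_simp
  · -- alternative 2
    refine ⟨1, {ρ, ρ⁻¹, β}, ?_⟩
    intro A S C Ψ hS₀ hSA hzA hsA hkA hall W
    have hρS : ρ ∈ S := hS₀ (by simp)
    have hρiS : ρ⁻¹ ∈ S := hS₀ (by simp)
    have hβS : β ∈ S := hS₀ (by simp)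
    have hWR : ∀ᶠ j : ℕ in atTop, 200 * ((W : ℝ) + 2) ≤ (j : ℝ) :=
      tendsto_natCast_atTop_atTop.eventually_ge_atTop _
    filter_upwards [hall, hWR] with j hj hjW
    obtain ⟨hj1, hj2, hj3, hj4⟩ := hj
    have hW0 : (0 : ℝ) ≤ (W : ℝ) := Nat.cast_nonneg W
    have hhom : ∀ κ ∈ ball (j : ℂ) (j / 100), IsHomOn A (Ψ j κ) := fun κ hκ => (hj1 κ hκ).1
    obtain ⟨lam, hlam, hlamd⟩ := lr_base (dU := dU) (s := s) (β := β) hρ0 hSA hkA hρS hρiS hβS hhom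
      hj2 hj4
    intro T hT
    have hmem : ∀ k ∈ T, (j : ℂ) + k ∈ ball (j : ℂ) (j / 100) := by
      intro k hk
      rw [mem_ball, dist_eq_norm, add_sub_cancel_left, Complex.norm_natCast]
      have h1 : (k : ℝ) ≤ (W : ℝ) := by exact_mod_cast (hT k hk).1
      linarith
    have hint : ∀ k ∈ T, ∃ m : ℤ, (Ψ j (j + k) β - lam (j + k)) / (2 * Real.pi * Complex.I) = m := by
      intro k hk
      have hkE := (hT k hk).2
      rw [← hlam _ (hmem k hk), Complex.exp_eq_exp_iff_exists_int] at hkE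
      obtain ⟨m, hm⟩ := hkE
      refine ⟨m, ?_⟩
      rw [hm, add_sub_cancel_left]
      field_simp
    rw [Finset.card_le_one]
    intro k hk k' hk'
    by_contra hkk
    obtain ⟨m, hm⟩ := hint k hk
    obtain ⟨m', hm'⟩ := hint k' hk'
    have hder : ∀ κ ∈ ball (j : ℂ) (j / 100), HasDerivWithinAt
        (fun κ => (Ψ j κ β - lam κ) / (2 * Real.pi * Complex.I) -
          c / (2 * Real.pi * Complex.I) * κ) ((fun _ => (0 : ℂ)) κ) (ball (j : ℂ) (j / 100)) κ := by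
      intro κ hκ
      have h1 := (hlamd κ hκ).sub ((hasDerivAt_id κ).const_mul (c / (2 * Real.pi * Complex.I)))
      rw [hc, (hhom κ hκ).const, mul_one, sub_self] at h1
      exact h1.hasDerivWithinAt
    have hconst := Convex.norm_image_sub_le_of_norm_hasDerivWithin_le (C := 0) hder
      (fun κ _ => by simp) (convex_ball _ _) (hmem k' hk') (hmem k hk)
    rw [zero_mul, norm_le_zero_iff, hm, hm'] at hconst
    have hkk' : ((k : ℂ) - k') ≠ 0 := by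
      rw [sub_ne_zero]
      exact_mod_cast hkk
    refine hcq ⟨((m : ℚ) - m') / ((k : ℚ) - k'), ?_⟩
    push_cast
    field_simp
    field_simp at hconst
    linear_combination -hconst

end Pool.Agent.Lib.MP_209724_lc.OV
end

section

namespace Pool.Agent.Lib.MP_209724_lc.OV

open MvPolynomial Filter Topology Metric

variable {K : Type} [Field K] [Algebra ℂ K]

/-- The roots of a nonzero polynomial with algebraic coefficients are algebraic. -/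
theorem lemmaA_root {u : K} {G : Polynomial K} (hG : G ≠ 0)
    (hGc : ∀ i, AlgOver u (G.coeff i)) {ρ : K} (hρ : ρ ∈ G.roots) : AlgOver u ρ := by
  unfold AlgOver at *
  set R0 : Subalgebra ℂ K := Algebra.adjoin ℂ {u} with hR0
  let A0 : Subalgebra R0 K := Subalgebra.algebraicClosure R0 K
  have hlift : G ∈ Polynomial.lifts (algebraMap A0 K) := by
    rw [Polynomial.lifts_iff_coeff_lifts]
    intro n
    exact ⟨⟨G.coeff n, hGc n⟩, rfl⟩
  obtain ⟨g, hg⟩ := (Polynomial.mem_lifts _).mp hlift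
  have hg0 : g ≠ 0 := by
    rintro rfl
    rw [Polynomial.map_zero] at hg
    exact hG hg.symm
  have hroot : IsAlgebraic A0 ρ := by
    refine ⟨g, hg0, ?_⟩
    rw [Polynomial.aeval_def, ← Polynomial.eval_map, hg]
    exact (Polynomial.mem_roots hG).mp hρ
  exact hroot.restrictScalars R0

/-- The value of a split polynomial under a homomorphism of a subalgebra. -/
theorem lemmaA_eval {A : Subalgebra ℂ K} {ψ : K → ℂ} (hψ : IsHomOn A ψ) (G : Polynomial K)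
    (_hc : ∀ i, G.coeff i ∈ A) (a : K) (ha : a ∈ A) (t : Multiset K) (ht : ∀ ρ ∈ t, ρ ∈ A)
    (hsplit : G = Polynomial.C a * (t.map fun ρ => Polynomial.X - Polynomial.C ρ).prod) (y : ℂ) :
    ∑ i ∈ G.support, ψ (G.coeff i) * y ^ i = ψ a * (t.map fun ρ => y - ψ ρ).prod := by
  classical
  have key : ∀ (t : Multiset K), (∀ ρ ∈ t, ρ ∈ A) → ∃ g : Polynomial A,
      g.map (algebraMap A K) = (t.map fun ρ => Polynomial.X - Polynomial.C ρ).prod ∧
      ∀ φ : A →ₐ[ℂ] ℂ, (∀ a : A, ψ a = φ a) →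
        (g.map (φ : A →+* ℂ)).eval y = (t.map fun ρ => y - ψ ρ).prod := by
    intro t
    induction t using Multiset.induction_on with
    | empty =>
      intro _
      refine ⟨1, by simp, ?_⟩
      intro φ _
      simp
    | cons ρ t ih =>
      intro ht
      obtain ⟨g, hg1, hg2⟩ := ih fun r hr => ht r (Multiset.mem_cons_of_mem hr)
      refine ⟨(Polynomial.X - Polynomial.C (⟨ρ, ht ρ (Multiset.mem_cons_self ρ t)⟩ : A)) * g, ?_, ?_⟩
      · rw [Polynomial.map_mul, hg1, Multiset.map_cons, Multiset.prod_cons, Polynomial.map_sub,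
          Polynomial.map_X, Polynomial.map_C]
        rfl
      · intro φ hφ
        rw [Polynomial.map_mul, Polynomial.eval_mul, hg2 φ hφ, Multiset.map_cons,
          Multiset.prod_cons, Polynomial.map_sub, Polynomial.map_X, Polynomial.map_C,
          Polynomial.eval_sub, Polynomial.eval_X, Polynomial.eval_C]
        congr 2
        exact (hφ ⟨ρ, ht ρ (Multiset.mem_cons_self ρ t)⟩).symm
  obtain ⟨g, hg1, hg2⟩ := key t ht
  obtain ⟨φ, hφ⟩ := hψ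
  let gA : Polynomial A := Polynomial.C (⟨a, ha⟩ : A) * g
  have hgA : gA.map (algebraMap A K) = G := by
    rw [Polynomial.map_mul, hg1, Polynomial.map_C, hsplit]
    rfl
  have hinj : Function.Injective (algebraMap A K) := Subtype.val_injective
  have hsupp : gA.support = G.support := by
    rw [← hgA]
    exact (Polynomial.support_map_of_injective gA hinj).symm
  have hcoeff : ∀ i, ψ (G.coeff i) = φ (gA.coeff i) := by
    intro i
    rw [← hφ, ← hgA, Polynomial.coeff_map]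
    rfl
  have hev : (gA.map (φ : A →+* ℂ)).eval y = ψ a * (t.map fun ρ => y - ψ ρ).prod := by
    rw [Polynomial.map_mul, Polynomial.eval_mul, hg2 φ hφ, Polynomial.map_C, Polynomial.eval_C]
    congr 1
    exact (hφ ⟨a, ha⟩).symm
  rw [← hev, Polynomial.eval_map, Polynomial.eval₂_eq_sum, Polynomial.sum_def, hsupp]
  refine Finset.sum_congr rfl fun i _ => ?_
  rw [hcoeff]
  rfl

/-- OV-21: Lemma A. There are points `u` of large norm with `exp u = s(u)` such that `exp (β(u))` is not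
a root of a given nonzero polynomial with coefficients algebraic over `ℂ(u)`. (`K` is algebraically
closed.)

Proof. `G = a ∏_i (X - ρ_i)` with `a ≠ 0`, `ρ_1, …, ρ_d ∈ K` algebraic over `ℂ(u)` (the roots of a
nonzero polynomial with coefficients algebraic over `ℂ(u)` are algebraic over `ℂ(u)`). Let
`L_i, S_i` be the data of `la_root` for the nonzero `ρ_i`, `S₁ = S ∪ ⋃ S_i ∪ {β, a, a⁻¹, ρ_i, ρ_i⁻¹,
coefficients of G}`, `W = ∑ L_i`, and let `A, C, Ψ` be given by `kleaf` for `S₁`. For large `j` and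
`k ≤ W` put `ψ_k = Ψ j (j + k)`, a homomorphism on `A`; `|ψ_k u| > 5 j > R` and
`exp (ψ_k u) = exp(2πi (j + k)) ψ_k s = ψ_k s`. If
`G_{ψ_k}(exp (ψ_k β)) = ψ_k(a) ∏ (exp(ψ_k β) - ψ_k(ρ_i))` were zero for all `k ≤ W`, then (as
`ψ_k a ≠ 0`, and `exp ≠ 0 = ψ_k (0)` for the roots `ρ_i = 0`) every `k ∈ {0, …, W}` would belong to one
of the sets `T_i = {k ≤ W : exp(ψ_k β) = ψ_k ρ_i}`, `ρ_i ≠ 0`, of cardinality `≤ L_i`; but
`W + 1 > ∑ L_i`. -/
theorem lemmaA [IsAlgClosed K] {z : Fin 2 → K} (hz : IsBase z) {s β : K} (hs : AlgOver (z 0) s)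
    (hs0 : s ≠ 0) (hsc : ¬ IsConst s) (hβ : AlgOver (z 0) β) (hβr : ¬ RatLin (z 0) β)
    (G : Polynomial K) (hG : G ≠ 0) (hGc : ∀ i, AlgOver (z 0) (G.coeff i)) (S : Finset K)
    (R : ℝ) :
    ∃ (A : Subalgebra ℂ K) (ψ : K → ℂ), (S : Set K) ⊆ A ∧ (∀ i, z i ∈ A) ∧ s ∈ A ∧ β ∈ A ∧
      IsHomOn A ψ ∧
      Complex.exp (ψ (z 0)) = ψ s ∧ R < ‖ψ (z 0)‖ ∧
      ∑ i ∈ G.support, ψ (G.coeff i) * Complex.exp (ψ β) ^ i ≠ 0 := by
  classical
  obtain ⟨dU, dT, hd⟩ := exists_dual hz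
  set a : K := G.leadingCoeff with ha
  have ha0 : a ≠ 0 := Polynomial.leadingCoeff_ne_zero.mpr hG
  have hsplit : G = Polynomial.C a * (G.roots.map fun ρ => Polynomial.X - Polynomial.C ρ).prod :=
    (IsAlgClosed.splits G).eq_prod_roots
  -- the data of `la_root`
  let Z : Finset K := G.roots.toFinset.filter (fun ρ => ρ ≠ 0)
  have hZ : ∀ ρ ∈ Z, AlgOver (z 0) ρ ∧ ρ ≠ 0 := by
    intro ρ hρ
    rw [Finset.mem_filter, Multiset.mem_toFinset] at hρ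
    exact ⟨lemmaA_root hG hGc hρ.1, hρ.2⟩
  have hroot : ∀ ρ : K, ∃ (L : ℕ) (S₀ : Finset K), ρ ∈ Z → ∀ (A : Subalgebra ℂ K)
      (S : Finset K) (C : ℝ)
      (Ψ : ℕ → ℂ → K → ℂ), S₀ ⊆ S → (S : Set K) ⊆ A → (∀ i, z i ∈ A) → s ∈ A →
      (∀ f ∈ S, kD dU s f ∈ A) →
      (∀ᶠ j : ℕ in atTop,
        (∀ κ ∈ ball (j : ℂ) (j / 100), IsHomOn A (Ψ j κ) ∧
          ‖Ψ j κ (z 0) - 2 * Real.pi * Complex.I * j‖ < j ∧
          Complex.exp (Ψ j κ (z 0)) = Complex.exp (2 * Real.pi * Complex.I * κ) * Ψ j κ s) ∧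
        (∀ f ∈ A, DifferentiableOn ℂ (fun κ => Ψ j κ f) (ball (j : ℂ) (j / 100))) ∧
        (∀ f ∈ S, f ≠ 0 → ∀ κ ∈ ball (j : ℂ) (j / 100),
          (j : ℝ) ^ (-C) ≤ ‖Ψ j κ f‖ ∧ ‖Ψ j κ f‖ ≤ (j : ℝ) ^ C) ∧
        ∀ f ∈ S, ∀ κ ∈ ball (j : ℂ) (j / 100),
          deriv (fun κ => Ψ j κ f) κ = Ψ j κ (kD dU s f)) →
      ∀ W : ℕ, ∀ᶠ j : ℕ in atTop, ∀ T : Finset ℕ,
        (∀ k ∈ T, k ≤ W ∧ Complex.exp (Ψ j (j + k) β) = Ψ j (j + k) ρ) → T.card ≤ L := by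
    intro ρ
    by_cases hρ : ρ ∈ Z
    · obtain ⟨L, S₀, h⟩ := la_root hz hd hs hs0 hsc hβ hβr (hZ ρ hρ).1 (hZ ρ hρ).2
      exact ⟨L, S₀, fun _ => h⟩
    · exact ⟨0, ∅, fun h => absurd h hρ⟩
  choose L S₀ hLS using hroot
  let S₁ : Finset K := S ∪ Z.biUnion S₀ ∪ {β, a, a⁻¹} ∪ G.roots.toFinset ∪ G.support.image G.coeff
  obtain ⟨A, hSA, hzA, hsA, hkA, C, Ψ, hΨ⟩ := kleaf hz hd hs0 S₁
  set W : ℕ := ∑ ρ ∈ Z, L ρ with hW
  have hS1 : S ⊆ S₁ := by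
    intro x hx
    simp only [S₁, Finset.mem_union]
    exact Or.inl (Or.inl (Or.inl (Or.inl hx)))
  have hS0 : ∀ ρ ∈ Z, S₀ ρ ⊆ S₁ := by
    intro ρ hρ x hx
    simp only [S₁, Finset.mem_union]
    exact Or.inl (Or.inl (Or.inl (Or.inr (Finset.mem_biUnion.mpr ⟨ρ, hρ, hx⟩))))
  have hβ1 : β ∈ S₁ := by
    simp only [S₁, Finset.mem_union, Finset.mem_insert, Finset.mem_singleton]
    tauto
  have ha1 : a ∈ S₁ := by
    simp only [S₁, Finset.mem_union, Finset.mem_insert, Finset.mem_singleton]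
    tauto
  have hai1 : a⁻¹ ∈ S₁ := by
    simp only [S₁, Finset.mem_union, Finset.mem_insert, Finset.mem_singleton]
    tauto
  have hr1 : ∀ ρ ∈ G.roots, ρ ∈ S₁ := by
    intro ρ hρ
    simp only [S₁, Finset.mem_union]
    exact Or.inl (Or.inr (Multiset.mem_toFinset.mpr hρ))
  have hcA : ∀ i, G.coeff i ∈ A := by
    intro i
    by_cases hi : i ∈ G.support
    · apply hSA
      simp only [S₁, Finset.coe_union, Set.mem_union]
      exact Or.inr (Finset.mem_coe.mpr (Finset.mem_image_of_mem _ hi))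
    · rw [Polynomial.notMem_support_iff.mp hi]
      exact A.zero_mem
  have hall : ∀ᶠ j : ℕ in atTop, ∀ ρ ∈ Z, ∀ T : Finset ℕ,
        (∀ k ∈ T, k ≤ W ∧ Complex.exp (Ψ j (j + k) β) = Ψ j (j + k) ρ) → T.card ≤ L ρ := by
    rw [Filter.eventually_all_finset]
    intro ρ hρ
    exact hLS ρ hρ A S₁ C Ψ (hS0 ρ hρ) hSA hzA hsA hkA hΨ W
  have hjR : ∀ᶠ j : ℕ in atTop, R < j :=
    (tendsto_natCast_atTop_atTop (R := ℝ)).eventually_gt_atTop R
  have hjW : ∀ᶠ j : ℕ in atTop, (100 * (W + 1) : ℝ) < j :=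
    (tendsto_natCast_atTop_atTop (R := ℝ)).eventually_gt_atTop _
  obtain ⟨j, hj1, hj2, hj3, hj4⟩ := (hΨ.and (hall.and (hjR.and hjW))).exists
  have hjpos : (0 : ℝ) < j := by
    have : (0 : ℝ) ≤ (W : ℝ) := Nat.cast_nonneg W
    linarith
  have hball : ∀ k ≤ W, ((j : ℂ) + k) ∈ ball (j : ℂ) (j / 100) := by
    intro k hk
    rw [mem_ball, dist_eq_norm, add_sub_cancel_left, Complex.norm_natCast]
    have hk' : (k : ℝ) ≤ W := by exact_mod_cast hk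
    linarith
  -- pigeonhole
  have hex : ∃ k ≤ W, ∑ i ∈ G.support, Ψ j (j + k) (G.coeff i) *
      Complex.exp (Ψ j (j + k) β) ^ i ≠ 0 := by
    by_contra hcon
    push Not at hcon
    have hcov : Finset.range (W + 1) ⊆ Z.biUnion (fun ρ => (Finset.range (W + 1)).filter
        (fun k : ℕ => Complex.exp (Ψ j (j + k) β) = Ψ j (j + k) ρ)) := by
      intro k hk
      have hk' : k ≤ W := Nat.lt_succ_iff.mp (Finset.mem_range.mp hk)
      have hhom := (hj1.1 _ (hball k hk')).1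
      have h0 := hcon k hk'
      rw [lemmaA_eval hhom G hcA a (hSA ha1) G.roots (fun ρ hρ => hSA (hr1 ρ hρ)) hsplit] at h0
      have hψa : Ψ j (j + k) a ≠ 0 := hhom.ne_zero (hSA ha1) (hSA hai1) ha0
      have hprod := (mul_eq_zero.mp h0).resolve_left hψa
      rw [Multiset.prod_eq_zero_iff, Multiset.mem_map] at hprod
      obtain ⟨ρ, hρ, hρ0⟩ := hprod
      have heq : Complex.exp (Ψ j (j + k) β) = Ψ j (j + k) ρ := sub_eq_zero.mp hρ0
      have hne : ρ ≠ 0 := by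
        rintro rfl
        rw [hhom.zero] at heq
        exact Complex.exp_ne_zero _ heq
      rw [Finset.mem_biUnion]
      refine ⟨ρ, ?_, ?_⟩
      · exact Finset.mem_filter.mpr ⟨Multiset.mem_toFinset.mpr hρ, hne⟩
      · exact Finset.mem_filter.mpr ⟨hk, heq⟩
    have hcard := Finset.card_le_card hcov
    have hle : (Z.biUnion (fun ρ => (Finset.range (W + 1)).filter
        (fun k : ℕ => Complex.exp (Ψ j (j + k) β) = Ψ j (j + k) ρ))).card ≤ ∑ ρ ∈ Z, L ρ := by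
      refine Finset.card_biUnion_le.trans (Finset.sum_le_sum fun ρ hρ => ?_)
      apply hj2 ρ hρ
      intro k hk
      rw [Finset.mem_filter] at hk
      exact ⟨Nat.lt_succ_iff.mp (Finset.mem_range.mp hk.1), hk.2⟩
    rw [Finset.card_range] at hcard
    omega
  obtain ⟨k, hk, hne⟩ := hex
  obtain ⟨hhom, hnorm, hexp⟩ := hj1.1 _ (hball k hk)
  refine ⟨A, Ψ j (j + k), fun x hx => hSA (hS1 hx), hzA, hsA, hSA hβ1, hhom, ?_, ?_, hne⟩
  · rw [hexp]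
    have h1 : (2 * Real.pi * Complex.I * ((j : ℂ) + k)) = ((j + k : ℕ) : ℂ) * (2 * Real.pi * Complex.I) := by
      push_cast
      ring
    rw [h1, Complex.exp_nat_mul_two_pi_mul_I, one_mul]
  · have h2 : ‖(2 * Real.pi * Complex.I * (j : ℂ))‖ = 2 * Real.pi * j := by
      rw [norm_mul, norm_mul, norm_mul, Complex.norm_I, Complex.norm_natCast, Complex.norm_real,
        Real.norm_of_nonneg Real.pi_pos.le]
      norm_num
    have h3 : 2 * Real.pi * j - j < ‖Ψ j (j + k) (z 0)‖ := by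
      have h4 := norm_sub_norm_le (2 * Real.pi * Complex.I * (j : ℂ)) (Ψ j (j + k) (z 0))
      rw [norm_sub_rev] at h4
      linarith
    have h5 := Real.pi_gt_three
    nlinarith

end Pool.Agent.Lib.MP_209724_lc.OV
end

section

/-!
Zeros of exponential sums along the leaves `exp u = σ(u, τ)` (assembly of `leaf`, `tiny_sum`,
`directions`, `const_dir`, `phases`).
-/

namespace Pool.Agent.Lib.MP_209724_lc.OV

open MvPolynomial Filter Topology Metric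

variable {K : Type} [Field K] [Algebra ℂ K]

/-- The conclusion of `tiny_sum`. -/
def Tiny (δ : Derivation ℂ K K) {ι : Type} [Fintype ι] (g X : ι → K) (S : Finset K) : Prop :=
  ∀ A : Subalgebra ℂ K, (S : Set K) ⊆ A → (∀ f ∈ S, δ f ∈ A) →
      ∀ (Ψ : ℕ → ℂ → K → ℂ) (Y : ℕ → ℝ) (c : ℂ) (r : ℝ), 0 < r → Tendsto Y atTop atTop →
      (∀ᶠ j in atTop, (∀ ζ ∈ ball c r, IsHomOn A (Ψ j ζ)) ∧
        (∀ f ∈ A, DifferentiableOn ℂ (fun ζ => Ψ j ζ f) (ball c r)) ∧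
        ∀ f ∈ S, ∀ ζ ∈ ball c r, deriv (fun ζ => Ψ j ζ f) ζ = Ψ j ζ (δ f)) →
      (∀ ε : ℝ, 0 < ε → ∀ᶠ j in atTop, ∀ f ∈ S, f ≠ 0 → ∀ ζ ∈ ball c r,
        Real.exp (-(ε * Y j)) ≤ ‖Ψ j ζ f‖ ∧ ‖Ψ j ζ f‖ ≤ Real.exp (ε * Y j)) →
      (∀ ε : ℝ, 0 < ε → ∀ᶠ j in atTop, ∀ i, ∀ ζ ∈ ball c r, ‖Ψ j ζ (X i)‖ ≤ ε * Y j) →
      ∀ ε : ℝ, 0 < ε → ∀ᶠ j in atTop, ∃ ζ ∈ ball c r,
        Real.exp (-(ε * Y j)) ≤ ‖∑ i, Ψ j ζ (g i) * Complex.exp (Ψ j ζ (X i))‖

/-- `tiny_sum` for an arbitrary nonempty index type. -/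
theorem tiny_sum' (δ : Derivation ℂ K K) {ι : Type} [Fintype ι] [Nonempty ι] (g X : ι → K)
    (hg : ∀ i, g i ≠ 0)
    (hX : ∀ i i', i ≠ i' → ∀ ρ : K, ρ ≠ 0 → δ (X i - X i') ≠ δ ρ / ρ) :
    ∃ S : Finset K, Tiny δ g X S := by
  obtain ⟨L, hL⟩ : ∃ L, Fintype.card ι = L + 1 :=
    ⟨Fintype.card ι - 1, (Nat.sub_add_cancel Fintype.card_pos).symm⟩
  let e : Fin (L + 1) ≃ ι := (finCongr hL.symm).trans (Fintype.equivFin ι).symm
  obtain ⟨S, hS⟩ := tiny_sum δ L (g ∘ e) (X ∘ e) (fun i => hg _)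
    (fun i i' hii => hX _ _ fun h => hii (e.injective h))
  refine ⟨S, fun A hA hA' Ψ Y c r hr hY h1 h2 h3 ε hε => ?_⟩
  have h4 := hS A hA hA' Ψ Y c r hr hY h1 h2
    (fun ε hε => (h3 ε hε).mono fun j hj i ζ hζ => hj (e i) ζ hζ) ε hε
  refine h4.mono fun j hj => ?_
  obtain ⟨ζ, hζ, h5⟩ := hj
  refine ⟨ζ, hζ, h5.trans (le_of_eq ?_)⟩
  congr 1
  exact Equiv.sum_comp e (fun i => Ψ j ζ (g i) * Complex.exp (Ψ j ζ (X i)))

/-- Powers are smaller than exponentials. -/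
theorem growth (C : ℝ) {N : ℕ} (hN : 1 ≤ N) {ε : ℝ} (hε : 0 < ε) : ∀ᶠ j : ℕ in atTop,
    (j : ℝ) ^ C ≤ Real.exp (ε * (j : ℝ) ^ N) ∧ Real.exp (-(ε * (j : ℝ) ^ N)) ≤ (j : ℝ) ^ (-C) := by
  have h1 : ∀ᶠ x : ℝ in atTop, ‖Real.log x‖ ≤ (ε / (|C| + 1)) * ‖(id x : ℝ)‖ :=
    Real.isLittleO_log_id_atTop.bound (by positivity)
  have h2 : ∀ᶠ j : ℕ in atTop, ‖Real.log (j : ℝ)‖ ≤ (ε / (|C| + 1)) * ‖(id (j : ℝ) : ℝ)‖ :=
    tendsto_natCast_atTop_atTop.eventually h1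
  filter_upwards [h2, eventually_ge_atTop 1] with j hj hj1
  have hj1' : (1 : ℝ) ≤ j := by exact_mod_cast hj1
  have hpos : (0 : ℝ) < j := by linarith
  have h3 : |C * Real.log j| ≤ ε * (j : ℝ) ^ N := by
    rw [abs_mul]
    have h4 : |Real.log (j : ℝ)| ≤ ε / (|C| + 1) * j := by
      have := hj
      rw [id, Real.norm_eq_abs, Real.norm_eq_abs, abs_of_pos hpos] at this
      exact this
    calc |C| * |Real.log (j : ℝ)| ≤ |C| * (ε / (|C| + 1) * j) :=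
          mul_le_mul_of_nonneg_left h4 (abs_nonneg _)
      _ = (|C| / (|C| + 1)) * (ε * j) := by ring
      _ ≤ 1 * (ε * j) := by
          refine mul_le_mul_of_nonneg_right ?_ (by positivity)
          rw [div_le_one (by positivity)]
          linarith
      _ = ε * j := one_mul _
      _ ≤ ε * (j : ℝ) ^ N := by
          refine mul_le_mul_of_nonneg_left ?_ hε.le
          calc (j : ℝ) = (j : ℝ) ^ 1 := (pow_one _).symm
            _ ≤ (j : ℝ) ^ N := pow_le_pow_right₀ hj1' hN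
  rw [Real.rpow_def_of_pos hpos, Real.rpow_def_of_pos hpos]
  have h5 := abs_le.1 h3
  refine ⟨Real.exp_le_exp.2 ?_, Real.exp_le_exp.2 ?_⟩ <;> nlinarith [h5.1, h5.2]

/-- Zeros of exponential sums on surfaces. -/
theorem ov2 {u w : K} (hz : IsBase ![u, w]) {σ : K} (hσ : σ ≠ 0) {ι : Type} [Fintype ι]
    [DecidableEq ι] (g x : ι → K) (hg : ∀ m, g m ≠ 0)
    (hx1 : ∀ m m', m ≠ m' → ¬ RatLin u (x m - x m'))
    (hx2 : AlgOver u σ → ∀ m m', m ≠ m' → ¬ AlgOver u (x m - x m'))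
    (hx3 : ∃ m m', ¬ AlgOver u (x m - x m')) (S : Finset K) (R : ℝ) :
    ∃ (A : Subalgebra ℂ K) (ψ : K → ℂ), (S : Set K) ⊆ A ∧ IsHomOn A ψ ∧ u ∈ A ∧ σ ∈ A ∧
      (∀ m, g m ∈ A) ∧ (∀ m, x m ∈ A) ∧ Complex.exp (ψ u) = ψ σ ∧
      ∑ m, ψ (g m) * Complex.exp (ψ (x m)) = 0 ∧ R < ‖ψ u‖ ∧ ∃ m m', R < ‖ψ (x m - x m')‖ := by
  classical
  obtain ⟨m₁, m₀, hm₁⟩ := hx3
  set ω : ι → K := fun m => x m - x m₀ with hω
  obtain ⟨c, Bs, N₁, hτ, hBs, hdir⟩ := directions hz ω ⟨m₁, hm₁⟩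
  set τ : K := ∑ i, algebraMap ℂ K (c i) * ω i with hτdef
  obtain ⟨dU₀, dT₀, hd₀⟩ := exists_dual hz
  have hz' : IsBase ![u, τ] :=
    isBase_swap (isBase_of_dT hz hd₀ (fun h => hτ ((algOver_iff hz hd₀ τ).2 h)))
  obtain ⟨dU, dT, hd⟩ := exists_dual hz'
  set δ := leafD ![u, τ] dU dT σ with hδ
  have hax : ∀ m m', m ≠ m' → ∀ ρ : K, ρ ≠ 0 → δ (x m - x m') ≠ δ ρ / ρ := by
    intro m m' hmm ρ hρ h
    rcases ax hz' hd hσ hρ h with h1 | ⟨h1, h2⟩
    · exact hx1 m m' hmm h1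
    · exact hx2 h1 m m' hmm h2
  have key : ∀ (b : ι → ℂ) (l : ℂ), ∃ S₀ : Finset K, Nonempty {m // b m = l} →
      Tiny δ (fun m : {m // b m = l} => g m)
        (fun m : {m // b m = l} => ω m - algebraMap ℂ K l * τ) S₀ := by
    intro b l
    by_cases hne : Nonempty {m // b m = l}
    · obtain ⟨S₀, hS₀⟩ := tiny_sum' δ (fun m : {m // b m = l} => g m)
        (fun m : {m // b m = l} => ω m - algebraMap ℂ K l * τ) (fun m => hg m) (by
          intro i i' hii ρ hρ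
          have h1 : ω i - algebraMap ℂ K l * τ - (ω i' - algebraMap ℂ K l * τ) = x i - x i' := by
            simp only [hω]
            ring
          rw [h1]
          exact hax i i' (fun h => hii (Subtype.ext h)) ρ hρ)
      exact ⟨S₀, fun _ => hS₀⟩
    · exact ⟨∅, fun h => absurd h hne⟩
  choose S₀ hS₀ using key
  let S₁ : Finset K := S ∪ Finset.univ.image g ∪ Finset.univ.image x ∪
    Bs.biUnion (fun b => (Finset.univ.image b).biUnion (fun l => S₀ b l))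
  have hS₁ : ∀ b ∈ Bs, ∀ l ∈ Finset.univ.image b, S₀ b l ⊆ S₁ := by
    intro b hb l hl f hf
    refine Finset.mem_union_right _ ?_
    exact Finset.mem_biUnion.2 ⟨b, hb, Finset.mem_biUnion.2 ⟨l, hl, hf⟩⟩
  have hSS₁ : S ⊆ S₁ := fun f hf =>
    Finset.mem_union_left _ (Finset.mem_union_left _ (Finset.mem_union_left _ hf))
  have hgS₁ : ∀ m, g m ∈ S₁ := fun m =>
    Finset.mem_union_left _ (Finset.mem_union_left _ (Finset.mem_union_right _
      (Finset.mem_image_of_mem _ (Finset.mem_univ m))))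
  have hxS₁ : ∀ m, x m ∈ S₁ := fun m =>
    Finset.mem_union_left _ (Finset.mem_union_right _
      (Finset.mem_image_of_mem _ (Finset.mem_univ m)))
  obtain ⟨A, hSA, hzA, hσA, hδA, N₂, hN₂⟩ := leaf hz' hd hσ S₁
  have huA : u ∈ A := by simpa using hzA 0
  have hτA : τ ∈ A := by simpa using hzA 1
  have hxA : ∀ m, x m ∈ A := fun m => hSA (hxS₁ m)
  have hgA : ∀ m, g m ∈ A := fun m => hSA (hgS₁ m)
  have hωA : ∀ m, ω m ∈ A := fun m => A.sub_mem (hxA m) (hxA m₀)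
  obtain ⟨N, hNN₁, hNN₂⟩ : ∃ N, N₁ + 1 ≤ N ∧ N₂ ≤ N :=
    ⟨max (N₁ + 1) N₂, le_max_left _ _, le_max_right _ _⟩
  have hN1 : 1 ≤ N := by omega
  obtain ⟨C, Ψ, hΨ⟩ := hN₂ N hNN₂
  simp only [Matrix.cons_val_zero, Matrix.cons_val_one] at hΨ
  -- size of `u`
  have hub : ∀ j : ℕ, ∀ y : ℂ, ‖y - 2 * Real.pi * Complex.I * j‖ < j →
      5 * (j : ℝ) ≤ ‖y‖ ∧ ‖y‖ ≤ 8 * j := by
    intro j y hy
    have h1 : ‖(2 * Real.pi * Complex.I * j : ℂ)‖ = 2 * Real.pi * j := by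
      rw [norm_mul, norm_mul, norm_mul, Complex.norm_I, Complex.norm_natCast, Complex.norm_real,
        Real.norm_of_nonneg Real.pi_pos.le]
      norm_num
    have h2 := norm_sub_norm_le (2 * Real.pi * Complex.I * j : ℂ) y
    rw [norm_sub_rev] at h2
    have h3 := norm_le_norm_add_norm_sub' y (2 * Real.pi * Complex.I * j : ℂ)
    rw [h1] at h2 h3
    have h4 := Real.pi_gt_three
    have h5 := Real.pi_lt_d2
    have h6 : (0 : ℝ) ≤ j := Nat.cast_nonneg j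
    constructor <;> nlinarith
  have hτn : ∀ (j : ℕ) (ζ : ℂ), ‖((j : ℂ) ^ N * Complex.exp ζ)‖ = (j : ℝ) ^ N * Real.exp ζ.re := by
    intro j ζ
    rw [norm_mul, norm_pow, Complex.norm_natCast, Complex.norm_exp]
  -- the direction is constant
  obtain ⟨b, hb, φ, hφ, hbφ⟩ := const_dir Bs (fun j ζ m => Ψ j ζ (ω m)) (fun j ζ => Ψ j ζ τ)
    (hΨ.mono fun j hj m => (hj.2.1 _ (hωA m)).continuousOn)
    (hΨ.mono fun j hj => (hj.2.1 _ hτA).continuousOn)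
    (by
      filter_upwards [hΨ, eventually_ge_atTop 1] with j hj hj1 ζ hζ
      show Ψ j ζ τ ≠ 0
      rw [(hj.1 ζ hζ).2.2.1]
      refine mul_ne_zero (pow_ne_zero _ ?_) (Complex.exp_ne_zero _)
      exact_mod_cast (by omega : j ≠ 0))
    (by
      intro ε hε
      obtain ⟨R₁, hR₁⟩ := hdir ε hε
      have e1 : ∀ᶠ j : ℕ in atTop, R₁ ≤ 5 * (j : ℝ) := by
        have : Tendsto (fun j : ℕ => 5 * (j : ℝ)) atTop atTop :=
          tendsto_natCast_atTop_atTop.const_mul_atTop (by norm_num)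
        exact this.eventually_ge_atTop R₁
      have e2 : ∀ᶠ j : ℕ in atTop, 8 ^ N₁ * Real.exp 1 ≤ (j : ℝ) :=
        tendsto_natCast_atTop_atTop.eventually_ge_atTop _
      filter_upwards [hΨ, e1, e2, eventually_ge_atTop 1] with j hj hj1 hj2 hj3 ζ hζ
      have hj3' : (1 : ℝ) ≤ j := by exact_mod_cast hj3
      obtain ⟨g1, g2, g3, g4⟩ := hj.1 ζ hζ
      obtain ⟨g5, g6⟩ := hub j _ g2
      refine hR₁ A (Ψ j ζ) g1 (by simpa using huA) hωA (hj1.trans g5) ?_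
      rw [g3, hτn]
      simp only [Matrix.cons_val_zero]
      have h7 : Real.exp (-1) ≤ Real.exp ζ.re := Real.exp_le_exp.2 (abs_lt.1 hζ.1).1.le
      calc ‖Ψ j ζ u‖ ^ N₁ ≤ (8 * (j : ℝ)) ^ N₁ := pow_le_pow_left₀ (norm_nonneg _) g6 _
        _ = 8 ^ N₁ * Real.exp 1 * ((j : ℝ) ^ N₁ * Real.exp (-1)) := by
            rw [mul_pow, Real.exp_neg]
            field_simp
        _ ≤ j * ((j : ℝ) ^ N₁ * Real.exp (-1)) := mul_le_mul_of_nonneg_right hj2 (by positivity)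
        _ = (j : ℝ) ^ (N₁ + 1) * Real.exp (-1) := by ring
        _ ≤ (j : ℝ) ^ N * Real.exp ζ.re :=
            mul_le_mul (pow_le_pow_right₀ hj3' hNN₁) h7 (Real.exp_pos _).le (by positivity))
  have hφt : Tendsto φ atTop atTop := hφ.tendsto_atTop
  have hΨφ := hφt.eventually hΨ
  have hY : Tendsto (fun k => (φ k : ℝ) ^ N) atTop atTop := by
    have h1 : Tendsto (fun k => (φ k : ℝ)) atTop atTop := tendsto_natCast_atTop_atTop.comp hφt
    exact (tendsto_pow_atTop (by omega)).comp h1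
  have hτφ : ∀ᶠ k in atTop, ∀ ζ ∈ strip,
      Ψ (φ k) ζ τ = (((φ k : ℝ) ^ N : ℝ) : ℂ) * Complex.exp ζ := by
    filter_upwards [hΨφ] with k hk ζ hζ
    rw [(hk.1 ζ hζ).2.2.1]
    push_cast
    rfl
  have hτle : ∀ᶠ k in atTop, ∀ ζ ∈ strip, ‖Ψ (φ k) ζ τ‖ ≤ Real.exp 1 * (φ k : ℝ) ^ N := by
    filter_upwards [hΨφ] with k hk ζ hζ
    rw [(hk.1 ζ hζ).2.2.1, hτn, mul_comm]
    exact mul_le_mul_of_nonneg_right (Real.exp_le_exp.2 (abs_lt.1 hζ.1).2.le) (by positivity)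
  have h0s : (0 : ℂ) ∈ strip := by
    constructor <;> norm_num
  have hWb : ∀ ε : ℝ, 0 < ε → ∀ᶠ k in atTop, ∀ ζ ∈ strip, ∀ m,
      ‖Ψ (φ k) ζ (ω m) - b m * ((((φ k : ℝ) ^ N : ℝ) : ℂ) * Complex.exp ζ)‖ ≤
        ε * (φ k : ℝ) ^ N := by
    intro ε hε
    filter_upwards [hbφ (ε / Real.exp 1) (by positivity), hτφ, hτle] with k h1 h2 h3 ζ hζ m
    rw [← h2 ζ hζ]
    refine (h1 ζ hζ m).trans ?_
    calc ε / Real.exp 1 * ‖Ψ (φ k) ζ τ‖
        ≤ ε / Real.exp 1 * (Real.exp 1 * (φ k : ℝ) ^ N) :=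
          mul_le_mul_of_nonneg_left (h3 ζ hζ) (by positivity)
      _ = ε * (φ k : ℝ) ^ N := by
          field_simp
  -- two different directions
  have hb0 : b m₀ = 0 := by
    by_contra hne
    have hpos : 0 < ‖b m₀‖ / 2 := by positivity
    obtain ⟨k, h1, h2, h3, h4⟩ := ((hbφ _ hpos).and (hτφ.and (hΨφ.and
      (hφt.eventually (eventually_ge_atTop 1))))).exists
    have h5 := h1 0 h0s m₀
    have h6 : Ψ (φ k) 0 (ω m₀) = 0 := by
      simp only [hω, sub_self]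
      exact (h3.1 0 h0s).1.zero
    rw [h6, zero_sub, norm_neg, norm_mul] at h5
    have h7 : 0 < ‖Ψ (φ k) 0 τ‖ := by
      rw [norm_pos_iff, h2 0 h0s]
      refine mul_ne_zero ?_ (Complex.exp_ne_zero _)
      have : (φ k : ℝ) ^ N ≠ 0 := pow_ne_zero _ (by exact_mod_cast (by omega : φ k ≠ 0))
      exact_mod_cast this
    have h8 := le_of_mul_le_mul_right h5 h7
    linarith
  have hbne : ∃ m m', b m ≠ b m' := by
    have h1 := hBs b hb
    by_contra hcon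
    push Not at hcon
    have h2 : ∀ i, b i = 0 := fun i => (hcon i m₀).trans hb0
    simp [h2] at h1
  have hlow : ∀ l ∈ Finset.univ.image b, ∀ (c : ℂ) (r : ℝ), 0 < r → ball c r ⊆ strip →
      ∀ ε : ℝ, 0 < ε → ∀ᶠ k in atTop, ∃ ζ ∈ ball c r, Real.exp (-(ε * (φ k : ℝ) ^ N)) ≤
        ‖∑ m with b m = l, Ψ (φ k) ζ (g m) *
          Complex.exp (Ψ (φ k) ζ (ω m) - l * ((((φ k : ℝ) ^ N : ℝ) : ℂ) * Complex.exp ζ))‖ := by
    intro l hl c' r hr hball ε hε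
    obtain ⟨m₂, -, hm₂⟩ := Finset.mem_image.1 hl
    have hne : Nonempty {m // b m = l} := ⟨⟨m₂, hm₂⟩⟩
    have h1 := hS₀ b l hne A (fun f hf => hSA (hS₁ b hb l hl hf))
      (fun f hf => hδA f (hS₁ b hb l hl hf)) (fun k ζ => Ψ (φ k) ζ)
      (fun k => (φ k : ℝ) ^ N) c' r hr hY
      (by
        filter_upwards [hΨφ] with k hk
        refine ⟨fun ζ hζ => (hk.1 ζ (hball hζ)).1, fun f hf => (hk.2.1 f hf).mono hball,
          fun f hf ζ hζ => hk.2.2.2 f (hS₁ b hb l hl hf) ζ (hball hζ)⟩)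
      (by
        intro ε' hε'
        filter_upwards [hΨφ, hφt.eventually (growth C hN1 hε')] with k hk hg f hf hf0 ζ hζ
        obtain ⟨g1, g2⟩ := hk.2.2.1 f (hS₁ b hb l hl hf) hf0 ζ (hball hζ)
        exact ⟨hg.2.trans g1, g2.trans hg.1⟩)
      (by
        intro ε' hε'
        filter_upwards [hΨφ, hWb ε' hε', hτφ] with k hk hW hT i ζ hζ
        have h2 := hW ζ (hball hζ) i
        have h3 := (hk.1 ζ (hball hζ)).1
        rw [h3.sub (hωA _) (A.mul_mem (A.algebraMap_mem l) hτA),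
          h3.mul (A.algebraMap_mem l) hτA, h3.const, hT ζ (hball hζ)]
        rw [i.2] at h2
        exact h2)
      ε hε
    filter_upwards [h1, hΨφ, hτφ] with k hk hk2 hT
    obtain ⟨ζ, hζ, h2⟩ := hk
    refine ⟨ζ, hζ, h2.trans (le_of_eq ?_)⟩
    congr 1
    have h3 := (hk2.1 ζ (hball hζ)).1
    rw [← Finset.sum_subtype (Finset.univ.filter fun m => b m = l) (by simp)
      (fun m => Ψ (φ k) ζ (g m) * Complex.exp (Ψ (φ k) ζ (ω m - algebraMap ℂ K l * τ)))]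
    refine Finset.sum_congr rfl fun m _ => ?_
    rw [h3.sub (hωA _) (A.mul_mem (A.algebraMap_mem l) hτA),
      h3.mul (A.algebraMap_mem l) hτA, h3.const, hT ζ (hball hζ)]
  have hfin := phases b (fun k ζ m => Ψ (φ k) ζ (g m)) (fun k ζ m => Ψ (φ k) ζ (ω m))
    (fun k => (φ k : ℝ) ^ N) hY
    (by
      filter_upwards [hΨφ] with k hk m
      exact ⟨hk.2.1 _ (hgA m), hk.2.1 _ (hωA m)⟩)
    (by
      intro ε hε
      filter_upwards [hΨφ, hφt.eventually (growth C hN1 hε)] with k hk hg' ζ hζ m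
      exact ((hk.2.2.1 (g m) (hgS₁ m) (hg m) ζ hζ).2).trans hg'.1)
    hWb hbne hlow
  -- conclusion
  set M : ℝ := ∑ i, ‖c i‖ with hM
  have hM0 : 0 ≤ M := Finset.sum_nonneg fun i _ => norm_nonneg _
  have e1 : ∀ᶠ k in atTop, R < 5 * (φ k : ℝ) := by
    have : Tendsto (fun k => 5 * (φ k : ℝ)) atTop atTop :=
      (tendsto_natCast_atTop_atTop.comp hφt).const_mul_atTop (by norm_num)
    exact this.eventually_gt_atTop R
  have e2 : ∀ᶠ k in atTop, M * R * Real.exp 1 < (φ k : ℝ) ^ N := hY.eventually_gt_atTop _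
  obtain ⟨k, hk, ⟨ζ, hζ, hsum⟩, hR1, hR2⟩ := (hΨφ.and (hfin.and (e1.and e2))).exists
  obtain ⟨g1, g2, g3, g4⟩ := hk.1 ζ hζ
  refine ⟨A, Ψ (φ k) ζ, fun f hf => hSA (hSS₁ hf), g1, huA, hσA, hgA, hxA, g4, ?_,
    hR1.trans_le (hub _ _ g2).1, ?_⟩
  · have h1 : ∀ m, Ψ (φ k) ζ (x m) = Ψ (φ k) ζ (ω m) + Ψ (φ k) ζ (x m₀) := by
      intro m
      rw [← g1.add (hωA m) (hxA m₀)]
      congr 1
      simp only [hω, sub_add_cancel]
    have h2 : ∀ m, Ψ (φ k) ζ (g m) * Complex.exp (Ψ (φ k) ζ (x m)) =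
        Ψ (φ k) ζ (g m) * Complex.exp (Ψ (φ k) ζ (ω m)) * Complex.exp (Ψ (φ k) ζ (x m₀)) := by
      intro m
      rw [h1 m, Complex.exp_add, mul_assoc]
    rw [Finset.sum_congr rfl fun m _ => h2 m, ← Finset.sum_mul]
    rw [hsum, zero_mul]
  · by_contra hcon
    push Not at hcon
    have h1 : ‖Ψ (φ k) ζ τ‖ ≤ M * R := by
      rw [hτdef, g1.sum _ _ (fun i _ => A.mul_mem (A.algebraMap_mem _) (hωA i))]
      refine (norm_sum_le _ _).trans ?_
      rw [hM, Finset.sum_mul]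
      refine Finset.sum_le_sum fun i _ => ?_
      rw [g1.mul (A.algebraMap_mem _) (hωA i), g1.const, norm_mul]
      exact mul_le_mul_of_nonneg_left (hcon i m₀) (norm_nonneg _)
    rw [g3, hτn] at h1
    have h2 : Real.exp (-1) ≤ Real.exp ζ.re := Real.exp_le_exp.2 (abs_lt.1 hζ.1).1.le
    have h3 : (φ k : ℝ) ^ N * Real.exp (-1) ≤ M * R :=
      (mul_le_mul_of_nonneg_left h2 (by positivity)).trans h1
    rw [Real.exp_neg, ← div_eq_mul_inv, div_le_iff₀ (Real.exp_pos 1)] at h3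
    linarith

end Pool.Agent.Lib.MP_209724_lc.OV
end

section

/-!
`ov2` and `lemmaA` inside a big field.
-/

namespace Pool.Agent.Lib.MP_209724_lc.OV

open MvPolynomial AlgebraicIndependent

variable {Ω : Type} [Field Ω] [Algebra ℂ Ω]

theorem mem_cl_map {K : Type} [Field K] [Algebra ℂ K] (i : K →ₐ[ℂ] Ω) (s : Set K) (x : K) :
    i x ∈ cl (i '' s) ↔ x ∈ cl s := by
  rw [mem_cl, mem_cl]
  have h := Algebra.adjoin_image ℂ i s
  have e : Algebra.adjoin ℂ s ≃ₐ[ℂ] Algebra.adjoin ℂ (i '' s) :=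
    ((Algebra.adjoin ℂ s).equivMapOfInjective i i.injective).trans
      (Subalgebra.equivOfEq _ _ h.symm)
  let e' : Algebra.adjoin ℂ s ≃ₐ[ℂ] Algebra.adjoin ℂ (i '' s) :=
    ((Algebra.adjoin ℂ s).equivMapOfInjective i i.injective).trans
      (Subalgebra.equivOfEq _ _ h.symm)
  exact isAlgebraic_ringHom_iff_of_comp_eq (R := Algebra.adjoin ℂ s)
    (S := Algebra.adjoin ℂ (i '' s)) (e'.toRingEquiv) i i.injective (by
      ext a
      rfl)

theorem isHomOn_lift {K : IntermediateField ℂ Ω} {A : Subalgebra ℂ K} {ψ : K → ℂ}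
    (h : IsHomOn A ψ) : ∃ (A' : Subalgebra ℂ Ω) (ψ' : Ω → ℂ), IsHomOn A' ψ' ∧
      (∀ x : K, x ∈ A → (x : Ω) ∈ A') ∧ ∀ x : K, ψ' x = ψ x := by
  classical
  obtain ⟨φ, hφ⟩ := h
  refine ⟨A.map K.val, fun x => if h : x ∈ K then ψ ⟨x, h⟩ else 0, ?_, ?_, ?_⟩
  · refine ⟨φ.comp (A.equivMapOfInjective K.val K.val.injective).symm.toAlgHom, ?_⟩
    rintro ⟨_, a, ha, rfl⟩
    have h1 : (A.equivMapOfInjective K.val K.val.injective) ⟨a, ha⟩ =
        ⟨K.val.toRingHom a, a, ha, rfl⟩ := rfl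
    have h2 : (A.equivMapOfInjective K.val K.val.injective).symm
        ⟨K.val.toRingHom a, a, ha, rfl⟩ = ⟨a, ha⟩ := by
      rw [← h1, AlgEquiv.symm_apply_apply]
    show (if h : K.val a ∈ K then ψ ⟨K.val a, h⟩ else 0) =
      φ ((A.equivMapOfInjective K.val K.val.injective).symm ⟨K.val.toRingHom a, a, ha, rfl⟩)
    rw [h2, ← hφ]
    have h3 : K.val a ∈ K := a.2
    rw [dif_pos h3]
    rfl
  · intro x hx
    exact ⟨x, hx, rfl⟩
  · intro x
    simp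

theorem algebraicIndependent_of_td {u w : Ω} (huw : td {u, w} = 2) :
    AlgebraicIndependent ℂ ![u, w] := by
  have hne : u ≠ w := by
    rintro rfl
    rw [Set.pair_eq_singleton] at huw
    have := td_singleton_le u
    rw [huw] at this
    exact absurd this (by decide)
  have h1 : (matroid ℂ Ω).Indep {u, w} := by
    rw [Matroid.indep_iff_eRk_eq_encard_of_finite (Set.toFinite _)]
    rw [Set.encard_pair hne]
    exact huw
  rw [matroid_indep_iff] at h1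
  have h2 : AlgebraicIndependent ℂ (fun x : ({u, w} : Set Ω) => (x : Ω)) := h1
  have e : Function.Injective (![⟨u, by simp⟩, ⟨w, by simp⟩] : Fin 2 → ({u, w} : Set Ω)) := by
    intro a b hab
    fin_cases a <;> fin_cases b <;> simp_all
  have h3 := h2.comp _ e
  convert h3 using 1
  funext i
  fin_cases i <;> rfl

/-- the transcendence basis of `Cl {u, w}` -/
theorem isBase_Cl {u w : Ω} (huw : td {u, w} = 2) (hu : u ∈ Cl {u, w}) (hw : w ∈ Cl {u, w}) :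
    IsBase ![(⟨u, hu⟩ : Cl {u, w}), ⟨w, hw⟩] := by
  have hval : (Cl {u, w}).val ∘ ![(⟨u, hu⟩ : Cl {u, w}), ⟨w, hw⟩] = ![u, w] := by
    funext i
    fin_cases i <;> rfl
  refine ⟨AlgebraicIndependent.of_comp (Cl {u, w}).val ?_, ⟨fun x => ?_⟩⟩
  · rw [hval]
    exact algebraicIndependent_of_td huw
  · have h1 := mem_cl_map (Cl {u, w}).val (Set.range ![(⟨u, hu⟩ : Cl {u, w}), ⟨w, hw⟩]) x
    rw [← Set.range_comp, hval] at h1
    refine h1.1 ?_
    have h2 : (x : Ω) ∈ cl {u, w} := x.2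
    have h3 : Set.range ![u, w] = {u, w} := by
      simp [Set.pair_comm]
    rw [h3]
    exact h2

theorem algOver_Cl {K : IntermediateField ℂ Ω} (a b : K) :
    AlgOver (a : Ω) (b : Ω) ↔ AlgOver a b := by
  have := mem_cl_map K.val {a} b
  rw [Set.image_singleton] at this
  exact this

theorem ratLin_Cl {K : IntermediateField ℂ Ω} (a b : K) :
    RatLin (a : Ω) (b : Ω) ↔ RatLin a b := by
  constructor
  · rintro ⟨q, c, h⟩
    exact ⟨q, c, Subtype.ext h⟩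
  · rintro ⟨q, c, h⟩
    exact ⟨q, c, by rw [h]; rfl⟩

theorem isConst_Cl {K : IntermediateField ℂ Ω} (a : K) : IsConst (a : Ω) ↔ IsConst a := by
  constructor
  · rintro ⟨c, h⟩
    exact ⟨c, Subtype.ext h⟩
  · rintro ⟨c, h⟩
    exact ⟨c, by rw [h]; rfl⟩

/-- `ov2` for a subfield of a big field. -/
theorem ov2_sub (K : IntermediateField ℂ Ω) {u w : K} (hz : IsBase ![u, w]) {σ : K} (hσ : σ ≠ 0)
    {ι : Type} [Fintype ι] [DecidableEq ι] (g x : ι → K) (hg : ∀ m, g m ≠ 0)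
    (hx1 : ∀ m m', m ≠ m' → ¬ RatLin u (x m - x m'))
    (hx2 : AlgOver u σ → ∀ m m', m ≠ m' → ¬ AlgOver u (x m - x m'))
    (hx3 : ∃ m m', ¬ AlgOver u (x m - x m')) (S : Finset Ω) (hS : ∀ f ∈ S, f ∈ K) (R : ℝ) :
    ∃ (A : Subalgebra ℂ Ω) (ψ : Ω → ℂ), (S : Set Ω) ⊆ A ∧ IsHomOn A ψ ∧ (u : Ω) ∈ A ∧
      (σ : Ω) ∈ A ∧ (∀ m, (g m : Ω) ∈ A) ∧ (∀ m, (x m : Ω) ∈ A) ∧ Complex.exp (ψ u) = ψ σ ∧
      ∑ m, ψ (g m) * Complex.exp (ψ (x m)) = 0 ∧ R < ‖ψ u‖ ∧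
      ∃ m m', R < ‖ψ ((x m : Ω) - x m')‖ := by
  classical
  let S' : Finset K := S.attach.image (fun f => ⟨f.1, hS f.1 f.2⟩)
  obtain ⟨A, ψ, hSA, hψ, huA, hσA, hgA, hxA, hexp, hsum, hR, m, m', hR'⟩ :=
    ov2 hz hσ g x hg hx1 hx2 hx3 S' R
  obtain ⟨A', ψ', h1, h2, h3⟩ := isHomOn_lift hψ
  refine ⟨A', ψ', ?_, h1, h2 _ huA, h2 _ hσA, fun m => h2 _ (hgA m), fun m => h2 _ (hxA m), ?_,
    ?_, ?_, m, m', ?_⟩
  · intro f hf
    refine h2 ⟨f, hS f hf⟩ (hSA ?_)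
    rw [Finset.mem_coe, Finset.mem_image]
    exact ⟨⟨f, hf⟩, Finset.mem_attach _ _, rfl⟩
  · rw [h3, h3]
    exact hexp
  · rw [← hsum]
    refine Finset.sum_congr rfl fun m _ => ?_
    rw [h3, h3]
  · rw [h3]
    exact hR
  · rw [← h3] at hR'
    exact hR'

theorem ov2_aux {u w : Ω} (K : IntermediateField ℂ Ω) (hu : u ∈ K) (hw : w ∈ K)
    (hz : IsBase ![(⟨u, hu⟩ : K), ⟨w, hw⟩]) {σ : Ω} (hσ0 : σ ≠ 0) (hσ : σ ∈ K)
    {ι : Type} [Fintype ι] [DecidableEq ι] (g x : ι → Ω) (hg0 : ∀ m, g m ≠ 0)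
    (hg : ∀ m, g m ∈ K) (hx : ∀ m, x m ∈ K)
    (hx1 : ∀ m m', m ≠ m' → ¬ RatLin u (x m - x m'))
    (hx2 : σ ∈ cl {u} → ∀ m m', m ≠ m' → x m - x m' ∉ cl {u})
    (hx3 : ∃ m m', x m - x m' ∉ cl {u}) (S : Finset Ω) (hS : ∀ f ∈ S, f ∈ K) (R : ℝ) :
    ∃ (A : Subalgebra ℂ Ω) (ψ : Ω → ℂ), (S : Set Ω) ⊆ A ∧ IsHomOn A ψ ∧ u ∈ A ∧ σ ∈ A ∧
      (∀ m, g m ∈ A) ∧ (∀ m, x m ∈ A) ∧ Complex.exp (ψ u) = ψ σ ∧
      ∑ m, ψ (g m) * Complex.exp (ψ (x m)) = 0 ∧ R < ‖ψ u‖ ∧ ∃ m m', R < ‖ψ (x m - x m')‖ := by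
  obtain ⟨u', rfl⟩ : ∃ u' : K, (u' : Ω) = u := ⟨⟨u, hu⟩, rfl⟩
  obtain ⟨w', rfl⟩ : ∃ w' : K, (w' : Ω) = w := ⟨⟨w, hw⟩, rfl⟩
  obtain ⟨σ', rfl⟩ : ∃ σ' : K, (σ' : Ω) = σ := ⟨⟨σ, hσ⟩, rfl⟩
  obtain ⟨g', rfl⟩ : ∃ g' : ι → K, (fun m => (g' m : Ω)) = g := ⟨fun m => ⟨g m, hg m⟩, rfl⟩
  obtain ⟨x', rfl⟩ : ∃ x' : ι → K, (fun m => (x' m : Ω)) = x := ⟨fun m => ⟨x m, hx m⟩, rfl⟩
  have hx1' : ∀ m m', m ≠ m' → ¬ RatLin u' (x' m - x' m') := by
    intro m m' hmm h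
    refine hx1 m m' hmm ?_
    rw [← ratLin_Cl] at h
    exact h
  have hx2' : AlgOver u' σ' → ∀ m m', m ≠ m' → ¬ AlgOver u' (x' m - x' m') := by
    intro h m m' hmm h'
    rw [← algOver_Cl] at h h'
    exact hx2 h m m' hmm h'
  have hx3' : ∃ m m', ¬ AlgOver u' (x' m - x' m') := by
    obtain ⟨m, m', h⟩ := hx3
    refine ⟨m, m', fun h' => h ?_⟩
    rw [← algOver_Cl] at h'
    exact h'
  exact ov2_sub K hz (σ := σ') (fun h => hσ0 (by rw [h]; rfl)) g' x'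
    (fun m h => hg0 m (by simp only [h]; rfl)) hx1' hx2' hx3' S hS R

/-- `ov2` inside a big field. -/
theorem ov2_amb {u w : Ω} (huw : td {u, w} = 2) {σ : Ω} (hσ0 : σ ≠ 0) (hσ : σ ∈ cl {u, w})
    {ι : Type} [Fintype ι] [DecidableEq ι] (g x : ι → Ω) (hg0 : ∀ m, g m ≠ 0)
    (hg : ∀ m, g m ∈ cl {u, w}) (hx : ∀ m, x m ∈ cl {u, w})
    (hx1 : ∀ m m', m ≠ m' → ¬ RatLin u (x m - x m'))
    (hx2 : σ ∈ cl {u} → ∀ m m', m ≠ m' → x m - x m' ∉ cl {u})
    (hx3 : ∃ m m', x m - x m' ∉ cl {u}) (S : Finset Ω) (hS : (S : Set Ω) ⊆ cl {u, w}) (R : ℝ) :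
    ∃ (A : Subalgebra ℂ Ω) (ψ : Ω → ℂ), (S : Set Ω) ⊆ A ∧ IsHomOn A ψ ∧ u ∈ A ∧ σ ∈ A ∧
      (∀ m, g m ∈ A) ∧ (∀ m, x m ∈ A) ∧ Complex.exp (ψ u) = ψ σ ∧
      ∑ m, ψ (g m) * Complex.exp (ψ (x m)) = 0 ∧ R < ‖ψ u‖ ∧ ∃ m m', R < ‖ψ (x m - x m')‖ :=
  have hu : u ∈ Cl {u, w} := subset_cl {u, w} (by simp)
  have hw : w ∈ Cl {u, w} := subset_cl {u, w} (by simp)
  ov2_aux (Cl {u, w}) hu hw (isBase_Cl huw hu hw) hσ0 hσ g x hg0 hg hx hx1 hx2 hx3 S
    (fun _ hf => hS hf) R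

/-- `lemmaA` for a subfield of a big field. -/
theorem lemmaA_sub (K : IntermediateField ℂ Ω) [IsAlgClosed K] {z : Fin 2 → K} (hz : IsBase z)
    {s β : K} (hs : AlgOver (z 0) s) (hs0 : s ≠ 0) (hsc : ¬ IsConst s) (hβ : AlgOver (z 0) β)
    (hβr : ¬ RatLin (z 0) β) (G : Polynomial K) (hG : G ≠ 0)
    (hGc : ∀ i, AlgOver (z 0) (G.coeff i)) (S : Finset Ω) (hS : ∀ f ∈ S, f ∈ K) (R : ℝ) :
    ∃ (A : Subalgebra ℂ Ω) (ψ : Ω → ℂ), (S : Set Ω) ⊆ A ∧ (z 0 : Ω) ∈ A ∧ (s : Ω) ∈ A ∧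
      (β : Ω) ∈ A ∧ IsHomOn A ψ ∧ Complex.exp (ψ (z 0)) = ψ s ∧ R < ‖ψ (z 0)‖ ∧
      ∑ i ∈ G.support, ψ (G.coeff i) * Complex.exp (ψ β) ^ i ≠ 0 := by
  classical
  let S' : Finset K := S.attach.image (fun f => ⟨f.1, hS f.1 f.2⟩)
  obtain ⟨A, ψ, hSA, hzA, hsA, hβA, hψ, hexp, hR, hsum⟩ :=
    lemmaA hz hs hs0 hsc hβ hβr G hG hGc S' R
  obtain ⟨A', ψ', h1, h2, h3⟩ := isHomOn_lift hψ
  refine ⟨A', ψ', ?_, h2 _ (hzA 0), h2 _ hsA, h2 _ hβA, h1, ?_, ?_, ?_⟩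
  · intro f hf
    refine h2 ⟨f, hS f hf⟩ (hSA ?_)
    rw [Finset.mem_coe, Finset.mem_image]
    exact ⟨⟨f, hf⟩, Finset.mem_attach _ _, rfl⟩
  · rw [h3, h3]
    exact hexp
  · rw [h3]
    exact hR
  · intro h
    apply hsum
    rw [← h]
    refine Finset.sum_congr rfl fun i _ => ?_
    rw [h3, h3]

theorem lemmaA_aux {u w : Ω} (K : IntermediateField ℂ Ω) [IsAlgClosed K] (hu : u ∈ K)
    (hw : w ∈ K) (hz : IsBase ![(⟨u, hu⟩ : K), ⟨w, hw⟩]) (huK : cl {u} ⊆ K)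
    {s β : Ω} (hs : s ∈ cl {u}) (hs0 : s ≠ 0) (hsc : ¬ IsConst s) (hβ : β ∈ cl {u})
    (hβr : ¬ RatLin u β) (G : Polynomial Ω) (hG : G ≠ 0) (hGc : ∀ i, G.coeff i ∈ cl {u})
    (S : Finset Ω) (hS : ∀ f ∈ S, f ∈ K) (R : ℝ) :
    ∃ (A : Subalgebra ℂ Ω) (ψ : Ω → ℂ), (S : Set Ω) ⊆ A ∧ u ∈ A ∧ s ∈ A ∧ β ∈ A ∧
      IsHomOn A ψ ∧ Complex.exp (ψ u) = ψ s ∧ R < ‖ψ u‖ ∧
      ∑ i ∈ G.support, ψ (G.coeff i) * Complex.exp (ψ β) ^ i ≠ 0 := by
  obtain ⟨u', rfl⟩ : ∃ u' : K, (u' : Ω) = u := ⟨⟨u, hu⟩, rfl⟩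
  obtain ⟨w', rfl⟩ : ∃ w' : K, (w' : Ω) = w := ⟨⟨w, hw⟩, rfl⟩
  obtain ⟨s', rfl⟩ : ∃ s' : K, (s' : Ω) = s := ⟨⟨s, huK hs⟩, rfl⟩
  obtain ⟨β', rfl⟩ : ∃ β' : K, (β' : Ω) = β := ⟨⟨β, huK hβ⟩, rfl⟩
  obtain ⟨G', rfl⟩ : ∃ G' : Polynomial K, G'.map (algebraMap K Ω) = G := by
    have h1 : G ∈ Polynomial.lifts (algebraMap K Ω) := by
      rw [Polynomial.lifts_iff_coeff_lifts]
      intro n
      exact ⟨⟨G.coeff n, huK (hGc n)⟩, rfl⟩
    exact (Polynomial.mem_lifts G).1 h1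
  have hinj : Function.Injective (algebraMap K Ω) := (algebraMap K Ω).injective
  have hsupp : (G'.map (algebraMap K Ω)).support = G'.support :=
    Polynomial.support_map_of_injective _ hinj
  have h := lemmaA_sub K hz (s := s') (β := β') ((algOver_Cl _ _).1 hs)
    (fun h => hs0 (by rw [h]; rfl)) (fun h => hsc ((isConst_Cl _).2 h)) ((algOver_Cl _ _).1 hβ)
    (fun h => hβr ((ratLin_Cl _ _).2 h)) G' (fun h => hG (by rw [h, Polynomial.map_zero]))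
    (fun i => by
      have h1 := hGc i
      rw [Polynomial.coeff_map] at h1
      exact (algOver_Cl _ _).1 h1) S hS R
  obtain ⟨A, ψ, h1, h2, h3, h4, h5, h6, h7, h8⟩ := h
  refine ⟨A, ψ, h1, h2, h3, h4, h5, h6, h7, ?_⟩
  rw [hsupp]
  intro h9
  apply h8
  rw [← h9]
  refine Finset.sum_congr rfl fun i _ => ?_
  rw [Polynomial.coeff_map]
  rfl

/-- `lemmaA` inside a big field. -/
theorem lemmaA_amb [IsAlgClosed Ω] {u w : Ω} (huw : td {u, w} = 2) {s β : Ω} (hs : s ∈ cl {u})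
    (hs0 : s ≠ 0) (hsc : ¬ IsConst s) (hβ : β ∈ cl {u}) (hβr : ¬ RatLin u β)
    (G : Polynomial Ω) (hG : G ≠ 0) (hGc : ∀ i, G.coeff i ∈ cl {u}) (S : Finset Ω)
    (hS : (S : Set Ω) ⊆ cl {u, w}) (R : ℝ) :
    ∃ (A : Subalgebra ℂ Ω) (ψ : Ω → ℂ), (S : Set Ω) ⊆ A ∧ u ∈ A ∧ s ∈ A ∧ β ∈ A ∧
      IsHomOn A ψ ∧ Complex.exp (ψ u) = ψ s ∧ R < ‖ψ u‖ ∧
      ∑ i ∈ G.support, ψ (G.coeff i) * Complex.exp (ψ β) ^ i ≠ 0 :=
  have hu : u ∈ Cl {u, w} := subset_cl {u, w} (by simp)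
  have hw : w ∈ Cl {u, w} := subset_cl {u, w} (by simp)
  have := isAlgClosed_Cl ({u, w} : Set Ω)
  lemmaA_aux (Cl {u, w}) hu hw (isBase_Cl huw hu hw) (cl_mono (by simp)) hs hs0 hsc hβ hβr G hG
    hGc S (fun _ hf => hS hf) R

end Pool.Agent.Lib.MP_209724_lc.OV
end
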