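import Mathlib
import Pool.Agent.Lib.MP_209724_lc.SC.Ed3
import Pool.Agent.Lib.MP_209724_lc.SC.FF3
import Pool.Agent.Lib.MP_209724_lc.MV.Defs
import Pool.Agent.Lib.MP_209724_lc.SC.Fin2
import Pool.Agent.Lib.MP_209724_lc.OV.ConstDir
import Pool.Agent.Lib.MP_209724_lc.OV.Amb
import Pool.Agent.Lib.MP_209724_lc.HS.Final

section

namespace Pool.Agent.Lib.MP_209724_lc.OV

open MvPolynomial AlgebraicIndependent

variable {Ω : Type} [Field Ω] [Algebra ℂ Ω]

/-- OV-34: specialization of nonzero elements to a relatively algebraically closed field.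

Proof. `K = Cl s` is algebraically closed (`isAlgClosed_Cl`). Let
`ev = aeval η : MvPolynomial (Fin k) K →ₐ[K] Ω` and `P = ker ev`, a prime ideal which does not contain
`∏ X i` (`ev (∏ X i) = ∏ η i ≠ 0`). By the Nullstellensatz
(`MvPolynomial.vanishingIdeal_zeroLocus_eq_radical`, `P` is radical) there is a zero
`y : Fin k → K` of `P` which is not a zero of `∏ X i`. Let `η' i = y i`. If `f : MvPolynomial (Fin k) Ω`
has coefficients in `cl s` then `f` is the image of a polynomial with coefficients in `K`, and the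
claim follows. -/
theorem exists_spec [IsAlgClosed Ω] (s : Set Ω) {k : ℕ} (η : Fin k → Ω) (hη : ∀ i, η i ≠ 0) :
    ∃ η' : Fin k → Ω, (∀ i, η' i ∈ cl s) ∧ (∀ i, η' i ≠ 0) ∧
      ∀ f : MvPolynomial (Fin k) Ω, (∀ m, f.coeff m ∈ cl s) → eval η f = 0 → eval η' f = 0 := by
  classical
  have hac : IsAlgClosed (Cl s) := isAlgClosed_Cl s
  let ev : MvPolynomial (Fin k) (Cl s) →ₐ[Cl s] Ω := aeval η
  let P : Ideal (MvPolynomial (Fin k) (Cl s)) := RingHom.ker ev
  have hP : P.IsPrime := RingHom.ker_isPrime ev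
  obtain ⟨y, hyP, hy0⟩ : ∃ y ∈ zeroLocus (Cl s) P, (aeval y (∏ i, X i :
      MvPolynomial (Fin k) (Cl s)) : Cl s) ≠ 0 := by
    by_contra hcon
    push Not at hcon
    have h1 : (∏ i, X i : MvPolynomial (Fin k) (Cl s)) ∈
        vanishingIdeal (Cl s) (zeroLocus (Cl s) P) := hcon
    rw [vanishingIdeal_zeroLocus_eq_radical, hP.isRadical.radical] at h1
    have h2 : ev (∏ i, X i) = 0 := h1
    rw [map_prod] at h2
    simp only [ev, aeval_X] at h2
    exact (Finset.prod_ne_zero_iff.mpr fun i _ => hη i) h2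
  refine ⟨fun i => (y i : Ω), fun i => (y i).2, fun i h => ?_, fun f hf h0 => ?_⟩
  · apply hy0
    rw [map_prod]
    refine Finset.prod_eq_zero (Finset.mem_univ i) ?_
    rw [aeval_X]
    exact Subtype.ext h
  · let g : MvPolynomial (Fin k) (Cl s) :=
      ∑ m ∈ f.support, monomial m (⟨f.coeff m, hf m⟩ : Cl s)
    have hg : map (algebraMap (Cl s) Ω) g = f := by
      conv_rhs => rw [f.as_sum]
      rw [map_sum]
      refine Finset.sum_congr rfl fun m _ => ?_
      rw [map_monomial]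
      rfl
    have h1 : ev g = 0 := by
      have h2 : eval η (map (algebraMap (Cl s) Ω) g) = aeval η g := by
        rw [eval_map, aeval_def]
      rw [hg, h0] at h2
      exact h2.symm
    have h3 : (aeval y g : Cl s) = 0 := hyP g h1
    have h4 : eval (fun i => (y i : Ω)) (map (algebraMap (Cl s) Ω) g) =
        algebraMap (Cl s) Ω (aeval y g) := by
      rw [eval_map]
      exact (aeval_algebraMap_apply (B := Ω) y g)
    rw [hg, h3, map_zero] at h4
    exact h4

/-- OV-35: an element outside finitely many small closures.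

Proof. For `X ∈ T` the set `cl {X}` is a `ℂ`-subspace of `Ω`, and `cl s ∩ cl {X}` is a proper subspace
of `cl s` (`td {X} ≤ 1 < 2 = td s`). The same for `cl ∅`. A vector space over an infinite field is not a
finite union of proper subspaces (`Subspace.biUnion_ne_univ_of_top_notMem` or similar), so there is
`u ∈ cl s` which is in no `cl {X}`, `X ∈ T`, and not in `cl ∅`, i.e. not constant (`isConst_iff`). If
`X ∈ cl {u}` with `X ∈ T` (not constant), then `u ∈ cl {X}` by `cl_exchange`: contradiction. -/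
theorem exists_generic {s : Set Ω} (hs : td s = 2) (T : Finset Ω) (hT : ∀ X ∈ T, ¬ IsConst X) :
    ∃ u ∈ cl s, ¬ IsConst u ∧ ∀ X ∈ T, X ∉ cl {u} := by
  classical
  let W : Option T → Subspace ℂ (Cl s) := fun o =>
    (Cl (o.elim ∅ fun X => {(X : Ω)})).toSubalgebra.toSubmodule.comap
      (Cl s).val.toLinearMap
  have hmem : ∀ (o : Option T) (x : Cl s), x ∈ W o ↔ (x : Ω) ∈ cl (o.elim ∅ fun X => {(X : Ω)}) :=
    fun o x => Iff.rfl
  have htd : ∀ o : Option T, td (o.elim ∅ fun X => {(X : Ω)}) ≤ 1 := by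
    rintro (_ | X)
    · show td (∅ : Set Ω) ≤ 1
      rw [td_empty]
      exact zero_le_one
    · exact td_singleton_le _
  have hne : ∀ o, W o ≠ ⊤ := by
    intro o ho
    have h1 : cl s ⊆ cl (o.elim ∅ fun X => {(X : Ω)}) := by
      intro x hx
      have h2 : (⟨x, hx⟩ : Cl s) ∈ W o := by rw [ho]; trivial
      exact (hmem o _).mp h2
    have h3 : td s ≤ td (o.elim ∅ fun X => {(X : Ω)}) :=
      td_le_of_subset_cl ((subset_cl s).trans h1)
    have h4 := h3.trans (htd o)
    rw [hs] at h4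
    exact absurd h4 (by decide)
  have hcov : ⋃ o, (W o : Set (Cl s)) ≠ Set.univ := by
    intro h
    obtain ⟨o, ho⟩ := Subspace.exists_eq_top_of_iUnion_eq_univ h
    exact hne o ho
  obtain ⟨u, hu⟩ := (Set.ne_univ_iff_exists_notMem _).mp hcov
  rw [Set.mem_iUnion] at hu
  push Not at hu
  refine ⟨(u : Ω), u.2, fun h => hu none ((hmem _ _).mpr (isConst_iff.mp h)), fun X hX h => ?_⟩
  apply hu (some ⟨X, hX⟩)
  rw [SetLike.mem_coe, hmem]
  show (u : Ω) ∈ cl {X}
  have h1 : X ∈ cl (insert (u : Ω) ∅) := by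
    rwa [LawfulSingleton.insert_empty_eq]
  have h2 : X ∉ cl ∅ := fun h3 => hT X hX (isConst_iff.mpr h3)
  have h3 := cl_exchange h1 h2
  rwa [LawfulSingleton.insert_empty_eq] at h3

end Pool.Agent.Lib.MP_209724_lc.OV
end

section

namespace Pool.Agent.Lib.MP_209724_lc.OV

open MvPolynomial AlgebraicIndependent

variable {Ω : Type} [Field Ω] [Algebra ℂ Ω]

/-- OV-24: the support of a relation between two elements without algebraic monomials is not
contained in a line.

Proof. `F` has at least two terms (a single term `g η₀ ^ a η₁ ^ b` is not zero). Suppose all the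
exponents of `F` are on a line: they are of the form `m = m₀ + t ν`, `t ∈ ℤ`, with `m₀` in the support
and `ν = (a, b)` a primitive integer vector (`ν = d / gcd`, `d = m' - m₀ ≠ 0` for another element `m'`
of the support; if `d₀ e₁ = d₁ e₀` then `e` is an integral multiple of `ν`). Choosing `m₀` with
the smallest `t` we may assume `t ≥ 0`. Then `0 = eval η F = η ^ m₀ ∑ g_t (η ^ ν) ^ t`, a nontrivial
polynomial relation for `η ^ ν = η₀ ^ a η₁ ^ b` with coefficients in `cl s`, so `η ^ ν ∈ cl s` by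
`mem_cl_of_isAlgebraic`; contradiction with `hmon`. -/
theorem exists_supp {s : Set Ω} {η : Fin 2 → Ω} (hη : ∀ i, η i ≠ 0)
    (hmon : ∀ a b : ℤ, (a ≠ 0 ∨ b ≠ 0) → η 0 ^ a * η 1 ^ b ∉ cl s) {F : MvPolynomial (Fin 2) Ω}
    (hF0 : F ≠ 0) (hF : ∀ m, F.coeff m ∈ cl s) (h : eval η F = 0) :
    ∃ m ∈ F.support, ∃ m' ∈ F.support, ∃ m'' ∈ F.support,
      ((m' 0 : ℤ) - m 0) * ((m'' 1 : ℤ) - m 1) - ((m' 1 : ℤ) - m 1) * ((m'' 0 : ℤ) - m 0) ≠ 0 := by
  classical
  by_contra hcon
  push Not at hcon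
  have hne : F.support.Nonempty := by
    rw [Finset.nonempty_iff_ne_empty, Ne, MvPolynomial.support_eq_empty]
    exact hF0
  rw [MvPolynomial.eval_eq'] at h
  simp only [Fin.prod_univ_two] at h
  obtain ⟨m0, hm0⟩ := hne
  by_cases hone : ∀ m ∈ F.support, m = m0
  · have h1 : F.support = {m0} := by
      ext m
      rw [Finset.mem_singleton]
      exact ⟨hone m, fun e => e ▸ hm0⟩
    rw [h1, Finset.sum_singleton] at h
    have h2 : F.coeff m0 ≠ 0 := MvPolynomial.mem_support_iff.1 hm0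
    exact mul_ne_zero h2 (mul_ne_zero (pow_ne_zero _ (hη 0)) (pow_ne_zero _ (hη 1))) h
  push Not at hone
  obtain ⟨m1, hm1, hne1⟩ := hone
  have hd : ((m1 0 : ℤ) - m0 0) ≠ 0 ∨ ((m1 1 : ℤ) - m0 1) ≠ 0 := by
    by_contra hc
    push Not at hc
    apply hne1
    ext i
    fin_cases i
    · have := hc.1; simp only [Fin.zero_eta]; omega
    · have := hc.2; simp only [Fin.mk_one]; omega
  set d0 : ℤ := (m1 0 : ℤ) - m0 0 with hd0
  set d1 : ℤ := (m1 1 : ℤ) - m0 1 with hd1
  have hg : 0 < Int.gcd d0 d1 := by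
    rw [Int.gcd_pos_iff]
    exact hd
  obtain ⟨a, b, hab, ha, hb⟩ := Int.exists_gcd_one hg
  set g : ℤ := (Int.gcd d0 d1 : ℤ) with hgdef
  have hg0 : g ≠ 0 := by
    have : (0 : ℤ) < g := by rw [hgdef]; exact_mod_cast hg
    exact this.ne'
  have hco : IsCoprime a b := Int.isCoprime_iff_gcd_eq_one.2 hab
  obtain ⟨u, v, huv⟩ := hco
  have hnu : a ≠ 0 ∨ b ≠ 0 := by
    by_contra hc
    push Not at hc
    rw [hc.1, hc.2] at huv
    simp at huv
  let t : (Fin 2 →₀ ℕ) → ℤ := fun m => u * ((m 0 : ℤ) - m0 0) + v * ((m 1 : ℤ) - m0 1)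
  have ht : ∀ m ∈ F.support, (m 0 : ℤ) - m0 0 = a * t m ∧ (m 1 : ℤ) - m0 1 = b * t m := by
    intro m hm
    have h3 := hcon m0 hm0 m1 hm1 m hm
    rw [← hd0, ← hd1, ha, hb] at h3
    have h4 : a * ((m 1 : ℤ) - m0 1) = b * ((m 0 : ℤ) - m0 0) := by
      have h5 : g * (a * ((m 1 : ℤ) - m0 1) - b * ((m 0 : ℤ) - m0 0)) = 0 := by
        linear_combination h3
      have h6 := (mul_eq_zero.1 h5).resolve_left hg0
      linear_combination h6
    constructor
    · change (m 0 : ℤ) - m0 0 = a * (u * ((m 0 : ℤ) - m0 0) + v * ((m 1 : ℤ) - m0 1))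
      linear_combination (-((m 0 : ℤ) - m0 0)) * huv + (-v) * h4
    · change (m 1 : ℤ) - m0 1 = b * (u * ((m 0 : ℤ) - m0 0) + v * ((m 1 : ℤ) - m0 1))
      linear_combination (-((m 1 : ℤ) - m0 1)) * huv + u * h4
  obtain ⟨ms, hms, hmin⟩ := Finset.exists_min_image F.support t ⟨m0, hm0⟩
  let k : (Fin 2 →₀ ℕ) → ℕ := fun m => (t m - t ms).toNat
  have hk : ∀ m ∈ F.support, (k m : ℤ) = t m - t ms := by
    intro m hm
    exact Int.toNat_of_nonneg (sub_nonneg.2 (hmin m hm))
  have hk0 : ∀ m ∈ F.support, k m = 0 → m = ms := by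
    intro m hm h0
    have h3 := hk m hm
    rw [h0] at h3
    have h4 : t m = t ms := by
      have : (0 : ℤ) = t m - t ms := by exact_mod_cast h3
      linarith
    have h5 := ht m hm
    have h6 := ht ms hms
    rw [h4] at h5
    ext i
    fin_cases i
    · have := h5.1.trans h6.1.symm; simp only [Fin.zero_eta]; omega
    · have := h5.2.trans h6.2.symm; simp only [Fin.mk_one]; omega
  set w : Ω := η 0 ^ a * η 1 ^ b with hw
  have hmono : ∀ m ∈ F.support, η 0 ^ m 0 * η 1 ^ m 1 =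
      (η 0 ^ ms 0 * η 1 ^ ms 1) * w ^ k m := by
    intro m hm
    have h5 := ht m hm
    have h6 := ht ms hms
    have h7 := hk m hm
    have e0 : (m 0 : ℤ) = ms 0 + a * k m := by rw [h7]; linear_combination h5.1 - h6.1
    have e1 : (m 1 : ℤ) = ms 1 + b * k m := by rw [h7]; linear_combination h5.2 - h6.2
    rw [← zpow_natCast (η 0) (m 0), ← zpow_natCast (η 1) (m 1), e0, e1, zpow_add₀ (hη 0),
      zpow_add₀ (hη 1), zpow_natCast, zpow_natCast, zpow_mul, zpow_mul, zpow_natCast,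
      zpow_natCast, hw, mul_pow]
    ring
  let P : Polynomial (Cl s) :=
    ∑ m ∈ F.support, Polynomial.monomial (k m) (⟨F.coeff m, hF m⟩ : Cl s)
  have hP : P ≠ 0 := by
    intro hP0
    have h3 : P.coeff 0 = (⟨F.coeff ms, hF ms⟩ : Cl s) := by
      change (∑ m ∈ F.support, Polynomial.monomial (k m) (⟨F.coeff m, hF m⟩ : Cl s)).coeff 0 = _
      rw [Polynomial.finsetSum_coeff]
      rw [Finset.sum_eq_single ms]
      · rw [Polynomial.coeff_monomial, if_pos]
        have := hk ms hms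
        rw [sub_self] at this
        exact_mod_cast this
      · intro m hm hmne
        rw [Polynomial.coeff_monomial, if_neg]
        exact fun h0 => hmne (hk0 m hm h0)
      · intro hc
        exact absurd hms hc
    rw [hP0, Polynomial.coeff_zero] at h3
    have h4 := congrArg Subtype.val h3
    exact MvPolynomial.mem_support_iff.1 hms h4.symm
  have hroot : Polynomial.aeval w P = 0 := by
    change Polynomial.aeval w
      (∑ m ∈ F.support, Polynomial.monomial (k m) (⟨F.coeff m, hF m⟩ : Cl s)) = 0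
    rw [map_sum]
    have h3 : ∀ m ∈ F.support, Polynomial.aeval w
        (Polynomial.monomial (k m) (⟨F.coeff m, hF m⟩ : Cl s)) = F.coeff m * w ^ k m := by
      intro m _
      rw [Polynomial.aeval_monomial]
      rfl
    rw [Finset.sum_congr rfl h3]
    have h4 : (η 0 ^ ms 0 * η 1 ^ ms 1) * ∑ m ∈ F.support, F.coeff m * w ^ k m = 0 := by
      rw [← h, Finset.mul_sum]
      refine Finset.sum_congr rfl fun m hm => ?_
      rw [hmono m hm]
      ring
    exact (mul_eq_zero.1 h4).resolve_left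
      (mul_ne_zero (pow_ne_zero _ (hη 0)) (pow_ne_zero _ (hη 1)))
  exact hmon a b hnu (mem_cl_of_isAlgebraic ⟨P, hP, hroot⟩)

end Pool.Agent.Lib.MP_209724_lc.OV
end

section

namespace Pool.Agent.Lib.MP_209724_lc.OV

open MvPolynomial AlgebraicIndependent

variable {Ω : Type} [Field Ω] [Algebra ℂ Ω]

/-- `F` generates the ideal of the relations of `η` over the field `Cl s` of the elements algebraic
over `ℂ(s)`. -/
def Princ (s : Set Ω) {κ : Type} (η : κ → Ω) (F : MvPolynomial κ Ω) : Prop :=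
  (∀ m, F.coeff m ∈ cl s) ∧ eval η F = 0 ∧ ∀ f : MvPolynomial κ Ω, (∀ m, f.coeff m ∈ cl s) →
    eval η f = 0 → ∃ h : MvPolynomial κ Ω, (∀ m, h.coeff m ∈ cl s) ∧ f = F * h

/-- the transcendence degree of `K[η]` over `K = Cl s` -/
private theorem trdeg_range {s : Set Ω} {n m k : ℕ} (hn : td s = n) (η : Fin k → Ω)
    (hm : td (s ∪ Set.range η) = m) :
    (n : Cardinal) + Algebra.trdeg (Cl s) (aeval η : MvPolynomial (Fin k) (Cl s) →ₐ[Cl s] Ω).range
      = m := by
  have h1 : Algebra.trdeg ℂ (Cl s) = n := by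
    have h2 := trdeg_adjoin (cl s) ((td_cl s).trans hn)
    have h3 : Algebra.adjoin ℂ (cl s) = (Cl s).toSubalgebra :=
      Algebra.adjoin_eq (Cl s).toSubalgebra
    rw [h3] at h2
    exact h2
  have h2 : Algebra.trdeg ℂ (Algebra.adjoin (Cl s) (Set.range η)) = m := by
    have h3 : (Algebra.adjoin (Cl s) (Set.range η)).restrictScalars ℂ =
        Algebra.adjoin ℂ (cl s ∪ Set.range η) :=
      Algebra.restrictScalars_adjoin ℂ (Cl s).toSubalgebra (Set.range η)
    have h4 := trdeg_adjoin (cl s ∪ Set.range η) (n := m) (by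
      rw [← hm]
      exact td_eq_of_cl (cl_union_cl_left s _))
    rw [← h3] at h4
    exact h4
  rw [← Algebra.adjoin_range_eq_range_aeval]
  have hf : FaithfulSMul (Cl s) (Algebra.adjoin (Cl s) (Set.range η)) :=
    (faithfulSMul_iff_algebraMap_injective _ _).2
      (algebraMap (Cl s) (Algebra.adjoin (Cl s) (Set.range η))).injective
  have h3 := trdeg_add_eq ℂ (Cl s) (A := Algebra.adjoin (Cl s) (Set.range η))
  rw [h1, h2] at h3
  exact h3

/-- lifting polynomials with coefficients in `cl s` -/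
private theorem exists_map {s : Set Ω} {κ : Type} (f : MvPolynomial κ Ω)
    (hf : ∀ m, f.coeff m ∈ cl s) : ∃ g : MvPolynomial κ (Cl s),
      MvPolynomial.map (algebraMap (Cl s) Ω) g = f := by
  have h : f ∈ Set.range (MvPolynomial.map (σ := κ) (algebraMap (Cl s) Ω)) := by
    rw [mem_range_map_iff_coeffs_subset]
    intro c hc
    obtain ⟨m, -, rfl⟩ := mem_coeffs_iff.1 (Finset.mem_coe.1 hc)
    exact ⟨⟨f.coeff m, hf m⟩, rfl⟩
  exact h

private theorem eval_map_eq {s : Set Ω} {κ : Type} (η : κ → Ω) (g : MvPolynomial κ (Cl s)) :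
    eval η (MvPolynomial.map (algebraMap (Cl s) Ω) g) = aeval η g := by
  rw [eval_map, aeval_def]

/-- OV-22a: the relations between `k` elements of transcendence degree `k - 1` over `Cl s` are the
multiples of one relation.

Proof. Let `K = Cl s` (a field, `IntermediateField ℂ Ω`), `ev = aeval η : MvPolynomial (Fin k) K → Ω`
and `Q = ker ev`. The transcendence degree of `MvPolynomial (Fin k) K ⧸ Q ≅ K[η]` over `K` is `k - 1`:
by additivity (`Algebra.trdeg_add_eq` for `ℂ ⊆ K ⊆ K(η)`; compare `Elim.ker_principal`)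
`td s + trdeg_K K[η] = td (s ∪ range η)`, using that `td s` is the transcendence degree of `K` over `ℂ`
(`cl s` consists of the elements algebraic over `ℂ(s)`) and `td (s ∪ range η)` that of `K(η)`. So
`Elim.principal_of_trdeg` gives an irreducible `p` with `Q = (p)`; let `F` be the image of `p` in
`MvPolynomial (Fin k) Ω`. -/
theorem exists_princ {s : Set Ω} (hs : td s ≠ ⊤) {k : ℕ} (η : Fin k → Ω)
    (h : td (s ∪ Set.range η) + 1 = td s + k) :
    ∃ F : MvPolynomial (Fin k) Ω, F ≠ 0 ∧ Princ s η F := by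
  obtain ⟨n, hn⟩ := ENat.ne_top_iff_exists.1 hs
  have hm' : td (s ∪ Set.range η) ≠ ⊤ := by
    intro htop
    rw [htop, ← hn] at h
    exact absurd h.symm (by exact_mod_cast ENat.natCast_ne_top (n + k))
  obtain ⟨m, hm⟩ := ENat.ne_top_iff_exists.1 hm'
  have hmk : m + 1 = n + k := by
    rw [← hm, ← hn] at h
    exact_mod_cast h
  have htr := trdeg_range hn.symm η hm.symm
  set ev : MvPolynomial (Fin k) (Cl s) →ₐ[Cl s] Ω := aeval η with hev
  have hprime : (RingHom.ker ev).IsPrime := RingHom.ker_isPrime ev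
  have h1 : Algebra.trdeg (Cl s) (MvPolynomial (Fin k) (Cl s) ⧸ RingHom.ker ev) =
      Algebra.trdeg (Cl s) ev.range := (Ideal.quotientKerEquivRange ev).trdeg_eq
  obtain ⟨p, hp, hQ⟩ := Elim.principal_of_trdeg (RingHom.ker ev) (by
    rw [h1]
    have h2 : Algebra.trdeg (Cl s) ev.range < Cardinal.aleph0 := by
      refine lt_of_le_of_lt ?_ (Cardinal.natCast_lt_aleph0 (n := m))
      rw [← htr]
      exact self_le_add_left _ _
    obtain ⟨d, hd⟩ := Cardinal.lt_aleph0.1 h2
    rw [hd] at htr ⊢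
    have h3 : n + d = m := by exact_mod_cast htr
    have h4 : d + 1 = k := by omega
    exact_mod_cast h4)
  have hinj : Function.Injective (MvPolynomial.map (σ := Fin k) (algebraMap (Cl s) Ω)) :=
    MvPolynomial.map_injective _ (algebraMap (Cl s) Ω).injective
  refine ⟨MvPolynomial.map (algebraMap (Cl s) Ω) p, ?_, ?_, ?_, ?_⟩
  · intro h0
    exact hp.ne_zero (hinj (by rw [h0, map_zero]))
  · intro m
    rw [coeff_map]
    exact (p.coeff m).2
  · rw [eval_map_eq]
    have h5 : p ∈ RingHom.ker ev := by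
      rw [hQ]
      exact Ideal.mem_span_singleton_self p
    exact h5
  · intro f hf hf0
    obtain ⟨g, rfl⟩ := exists_map f hf
    rw [eval_map_eq] at hf0
    have h5 : g ∈ RingHom.ker ev := hf0
    rw [hQ, Ideal.mem_span_singleton] at h5
    obtain ⟨q, rfl⟩ := h5
    refine ⟨MvPolynomial.map (algebraMap (Cl s) Ω) q, fun m => ?_, map_mul _ _ _⟩
    rw [coeff_map]
    exact (q.coeff m).2

/-- OV-22b: if `η` is algebraically independent over `Cl s`, there are no relations.

Proof: as `exists_princ`, but now the transcendence degree of `K[η]` over `K` is `k`, so that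
`η` is algebraically independent over `K`. (Or by induction on `k`.) -/
theorem princ_zero {s : Set Ω} (hs : td s ≠ ⊤) {k : ℕ} (η : Fin k → Ω)
    (h : td (s ∪ Set.range η) = td s + k) (f : MvPolynomial (Fin k) Ω)
    (hf : ∀ m, f.coeff m ∈ cl s) (hf0 : eval η f = 0) : f = 0 := by
  obtain ⟨n, hn⟩ := ENat.ne_top_iff_exists.1 hs
  have hm : td (s ∪ Set.range η) = ((n + k : ℕ) : ℕ∞) := by
    rw [h, ← hn]
    push_cast
    rfl
  have htr := trdeg_range hn.symm η hm
  set ev : MvPolynomial (Fin k) (Cl s) →ₐ[Cl s] Ω := aeval η with hev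
  obtain ⟨g, rfl⟩ := exists_map f hf
  rw [eval_map_eq] at hf0
  by_contra hg
  have hg0 : g ≠ 0 := by
    rintro rfl
    exact hg (map_zero _)
  have hk : Algebra.trdeg (Cl s) (MvPolynomial (Fin k) (Cl s)) = k := by
    rw [MvPolynomial.trdeg_of_isDomain]; simp
  have hlt := Elim.trdeg_lt_of_surjective ev.rangeRestrict ev.rangeRestrict_surjective hg0
    (Subtype.ext hf0) (by rw [hk]; exact Cardinal.natCast_lt_aleph0)
  rw [hk] at hlt
  obtain ⟨d, hd⟩ := Cardinal.lt_aleph0.1 (hlt.trans Cardinal.natCast_lt_aleph0)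
  rw [hd] at htr hlt
  have h3 : n + d = n + k := by exact_mod_cast htr
  have h4 : d < k := by exact_mod_cast hlt
  omega

end Pool.Agent.Lib.MP_209724_lc.OV
end

section

namespace Pool.Agent.Lib.MP_209724_lc.OV

open MvPolynomial AlgebraicIndependent

variable {Ω : Type} [Field Ω] [Algebra ℂ Ω]

private theorem gen_lift {κ : Type} {A : Subalgebra ℂ Ω} {f : MvPolynomial κ Ω}
    (hf : ∀ m, f.coeff m ∈ A) : ∃ f' : MvPolynomial κ A, map (algebraMap A Ω) f' = f := by
  refine ⟨∑ m ∈ f.support, monomial m (⟨f.coeff m, hf m⟩ : A), ?_⟩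
  rw [map_sum]
  conv_rhs => rw [← f.support_sum_monomial_coeff]
  refine Finset.sum_congr rfl fun m _ => ?_
  rw [map_monomial]
  rfl

private theorem gen_coeff_map {κ : Type} {A : Subalgebra ℂ Ω} (f : MvPolynomial κ A)
    (m : κ →₀ ℕ) : (map (algebraMap A Ω) f).coeff m ∈ A := by
  rw [coeff_map]
  exact (f.coeff m).2

private theorem gen_coeff_aeval {κ υ : Type} {A : Subalgebra ℂ Ω} (v : υ → MvPolynomial κ Ω)
    (hv : ∀ i m, (v i).coeff m ∈ A) (f : MvPolynomial υ ℂ) (m : κ →₀ ℕ) :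
    (aeval v f).coeff m ∈ A := by
  choose v' hv' using fun i => gen_lift (hv i)
  have h1 : aeval v f = map (algebraMap A Ω) (aeval v' f) := by
    have h2 := MvPolynomial.comp_aeval_apply v' (MvPolynomial.mapAlgHom (σ := κ) A.val) f
    have h3 : (fun i => (MvPolynomial.mapAlgHom (σ := κ) A.val) (v' i)) = v := by
      funext i
      exact hv' i
    rw [h3] at h2
    exact h2.symm
  rw [h1]
  exact gen_coeff_map _ m

/-- OV-23a: `evalC` is compatible with evaluation: if the coefficients of `f` are in `A`, then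
`evalC` is the value of the polynomial with coefficients in `A`. Proof: `MvPolynomial.eval₂` and
`Finsupp.sum` unfold to the sum over the support. -/
theorem evalC_eq {κ : Type} [Fintype κ] {A : Subalgebra ℂ Ω} {ψ : Ω → ℂ} {φ : A →ₐ[ℂ] ℂ}
    (hφ : ∀ a : A, ψ a = φ a) (f : MvPolynomial κ A) (y : κ → ℂ) :
    evalC ψ (map (algebraMap A Ω) f) y = eval₂ (φ : A →+* ℂ) y f := by
  rw [evalC, eval₂_eq']
  have hinj : Function.Injective (algebraMap A Ω) := Subtype.val_injective
  rw [support_map_of_injective f hinj]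
  refine Finset.sum_congr rfl fun m _ => ?_
  rw [coeff_map]
  congr 1
  exact hφ (f.coeff m)

theorem evalC_add {κ : Type} [Fintype κ] {A : Subalgebra ℂ Ω} {ψ : Ω → ℂ} (h : IsHomOn A ψ)
    {f g : MvPolynomial κ Ω} (hf : ∀ m, f.coeff m ∈ A) (hg : ∀ m, g.coeff m ∈ A) (y : κ → ℂ) :
    evalC ψ (f + g) y = evalC ψ f y + evalC ψ g y := by
  obtain ⟨φ, hφ⟩ := h
  obtain ⟨f', rfl⟩ := gen_lift hf
  obtain ⟨g', rfl⟩ := gen_lift hg
  rw [← map_add, evalC_eq hφ, evalC_eq hφ, evalC_eq hφ, eval₂_add]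

theorem evalC_mul {κ : Type} [Fintype κ] {A : Subalgebra ℂ Ω} {ψ : Ω → ℂ} (h : IsHomOn A ψ)
    {f g : MvPolynomial κ Ω} (hf : ∀ m, f.coeff m ∈ A) (hg : ∀ m, g.coeff m ∈ A) (y : κ → ℂ) :
    evalC ψ (f * g) y = evalC ψ f y * evalC ψ g y := by
  obtain ⟨φ, hφ⟩ := h
  obtain ⟨f', rfl⟩ := gen_lift hf
  obtain ⟨g', rfl⟩ := gen_lift hg
  rw [← map_mul, evalC_eq hφ, evalC_eq hφ, evalC_eq hφ, eval₂_mul]

theorem evalC_C {κ : Type} [Fintype κ] {A : Subalgebra ℂ Ω} {ψ : Ω → ℂ} (h : IsHomOn A ψ)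
    (a : Ω) (y : κ → ℂ) : evalC ψ (C a : MvPolynomial κ Ω) y = ψ a := by
  classical
  by_cases ha : a = 0
  · rw [ha, map_zero, h.zero]
    simp [evalC]
  · rw [evalC]
    have h1 : (C a : MvPolynomial κ Ω).support = {0} := by
      rw [C_apply, support_monomial, if_neg ha]
    rw [h1, Finset.sum_singleton]
    simp

theorem evalC_X {κ : Type} [Fintype κ] {A : Subalgebra ℂ Ω} {ψ : Ω → ℂ} (h : IsHomOn A ψ)
    (i : κ) (y : κ → ℂ) : evalC ψ (X i : MvPolynomial κ Ω) y = y i := by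
  classical
  rw [evalC, support_X, Finset.sum_singleton, coeff_X, if_pos rfl, h.one, one_mul]
  rw [Finset.prod_eq_single i]
  · rw [Finsupp.single_eq_same, pow_one]
  · intro j _ hj
    rw [Finsupp.single_eq_of_ne hj, pow_zero]
  · intro hi
    exact absurd (Finset.mem_univ i) hi

/-- the composition with polynomials over `ℂ` -/
theorem evalC_aeval {κ υ : Type} [Fintype κ] {A : Subalgebra ℂ Ω} {ψ : Ω → ℂ}
    (h : IsHomOn A ψ) (v : υ → MvPolynomial κ Ω) (hv : ∀ i m, (v i).coeff m ∈ A) (y : κ → ℂ)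
    (f : MvPolynomial υ ℂ) :
    evalC ψ (aeval v f) y = eval (fun i => evalC ψ (v i) y) f := by
  induction f using MvPolynomial.induction_on with
  | C c =>
    rw [aeval_C, eval_C, MvPolynomial.algebraMap_apply, evalC_C h, h.const]
  | add p q hp hq =>
    rw [map_add, map_add, evalC_add h (gen_coeff_aeval v hv p) (gen_coeff_aeval v hv q), hp, hq]
  | mul_X p i hp =>
    rw [map_mul, map_mul, aeval_X, eval_X, evalC_mul h (gen_coeff_aeval v hv p) (hv i), hp]

/-- OV-23: zeros of the principal relation satisfy all relations.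

Proof. Let `I` be the ideal of `MvPolynomial υ ℂ` of the `f` with `aeval (fun i => eval η (v i)) f = 0`;
it is finitely generated (`MvPolynomial.isNoetherianRing`), say by `f₁, …, f_r`. The polynomial
`aeval v f_j : MvPolynomial κ Ω` has coefficients in `cl s` and vanishes at `η`
(`eval η (aeval v f) = aeval (fun i => eval η (v i)) f`), so by `hF` it is `F * h_j` with `h_j` with
coefficients in `cl s`. Let `S` be the set of all coefficients of `F`, of the `h_j` and of the `v i`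
(`υ` is finite). For `A`, `ψ`, `y` as in the statement, `evalC_aeval` and `evalC_mul` give
`eval (fun i => evalC ψ (v i) y) f_j = evalC ψ F y * evalC ψ h_j y = 0`, so the evaluation at
`fun i => evalC ψ (v i) y` vanishes on `I`. (The coefficients of a polynomial which are not in its
support are `0 ∈ A`.) -/
theorem gen {s : Set Ω} {κ υ : Type} [Fintype κ] [Finite υ] {η : κ → Ω} {F : MvPolynomial κ Ω}
    (hF : Princ s η F) (v : υ → MvPolynomial κ Ω) (hv : ∀ i m, (v i).coeff m ∈ cl s) :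
    ∃ S : Finset Ω, (S : Set Ω) ⊆ cl s ∧ ∀ (A : Subalgebra ℂ Ω) (ψ : Ω → ℂ), (S : Set Ω) ⊆ A →
      IsHomOn A ψ → ∀ y : κ → ℂ, evalC ψ F y = 0 → ∀ f : MvPolynomial υ ℂ,
        aeval (fun i => eval η (v i)) f = 0 → eval (fun i => evalC ψ (v i) y) f = 0 := by
  classical
  have : IsNoetherianRing (MvPolynomial υ ℂ) := MvPolynomial.isNoetherianRing
  obtain ⟨I, hI⟩ : ∃ I : Ideal (MvPolynomial υ ℂ), I =
      RingHom.ker (aeval (fun i => eval η (v i)) : MvPolynomial υ ℂ →ₐ[ℂ] Ω) := ⟨_, rfl⟩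
  have hmem : ∀ f : MvPolynomial υ ℂ, f ∈ I ↔ aeval (fun i => eval η (v i)) f = 0 := by
    intro f
    rw [hI, RingHom.mem_ker]
  obtain ⟨T, hT⟩ := IsNoetherian.noetherian I
  have hev : ∀ g : MvPolynomial υ ℂ, eval η (aeval v g) = aeval (fun i => eval η (v i)) g := by
    intro g
    exact MvPolynomial.comp_aeval_apply v ((aeval η : MvPolynomial κ Ω →ₐ[Ω] Ω).restrictScalars ℂ) g
  have hex : ∀ g : MvPolynomial υ ℂ, ∃ h : MvPolynomial κ Ω, g ∈ I →
      (∀ m, h.coeff m ∈ cl s) ∧ aeval v g = F * h := by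
    intro g
    by_cases hg : g ∈ I
    · have h1 : eval η (aeval v g) = 0 := by
        rw [hev, (hmem g).1 hg]
      obtain ⟨h, hh⟩ := hF.2.2 (aeval v g)
        (gen_coeff_aeval (A := (Cl s).toSubalgebra) v (fun i m => hv i m) g) h1
      exact ⟨h, fun _ => hh⟩
    · exact ⟨0, fun h => absurd h hg⟩
  choose H hH using hex
  have : Fintype υ := Fintype.ofFinite υ
  refine ⟨F.support.image F.coeff ∪ (T.biUnion fun g => (H g).support.image (H g).coeff) ∪
    (Finset.univ.biUnion fun i => (v i).support.image (v i).coeff), ?_, ?_⟩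
  · intro x hx
    rw [Finset.mem_coe, Finset.mem_union, Finset.mem_union] at hx
    rcases hx with (hx | hx) | hx
    · obtain ⟨m, _, rfl⟩ := Finset.mem_image.1 hx
      exact hF.1 m
    · obtain ⟨g, hg, hx⟩ := Finset.mem_biUnion.1 hx
      obtain ⟨m, _, rfl⟩ := Finset.mem_image.1 hx
      have hgI : g ∈ I := by
        rw [← hT]
        exact Submodule.subset_span hg
      exact (hH g hgI).1 m
    · obtain ⟨i, _, hx⟩ := Finset.mem_biUnion.1 hx
      obtain ⟨m, _, rfl⟩ := Finset.mem_image.1 hx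
      exact hv i m
  · intro A ψ hS hψ y hy f hf
    have hcoef : ∀ p : MvPolynomial κ Ω, (∀ x ∈ p.support.image p.coeff, x ∈ A) →
        ∀ m, p.coeff m ∈ A := by
      intro p hp m
      by_cases hm : m ∈ p.support
      · exact hp _ (Finset.mem_image_of_mem _ hm)
      · rw [notMem_support_iff.1 hm]
        exact zero_mem A
    have hFA : ∀ m, F.coeff m ∈ A := hcoef F fun x hx => hS (by
      rw [Finset.mem_coe, Finset.mem_union, Finset.mem_union]
      exact Or.inl (Or.inl hx))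
    have hHA : ∀ g ∈ T, ∀ m, (H g).coeff m ∈ A := fun g hg => hcoef (H g) fun x hx => hS (by
      rw [Finset.mem_coe, Finset.mem_union, Finset.mem_union]
      exact Or.inl (Or.inr (Finset.mem_biUnion.2 ⟨g, hg, hx⟩)))
    have hvA : ∀ i m, (v i).coeff m ∈ A := fun i => hcoef (v i) fun x hx => hS (by
      rw [Finset.mem_coe, Finset.mem_union, Finset.mem_union]
      exact Or.inr (Finset.mem_biUnion.2 ⟨i, Finset.mem_univ i, hx⟩))
    have hle : I ≤ RingHom.ker (eval (fun i => evalC ψ (v i) y)) := by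
      rw [← hT]
      refine Submodule.span_le.2 fun g hg => ?_
      have hgI : g ∈ I := by
        rw [← hT]
        exact Submodule.subset_span hg
      show eval (fun i => evalC ψ (v i) y) g = 0
      rw [← evalC_aeval hψ v hvA, (hH g hgI).2, evalC_mul hψ hFA (hHA g hg), hy, zero_mul]
    exact hle ((hmem f).2 hf)

end Pool.Agent.Lib.MP_209724_lc.OV
end

section

namespace Pool.Agent.Lib.MP_209724_lc.OV

open MvPolynomial

variable {Ω : Type} [Field Ω] [Algebra ℂ Ω] {n : ℕ}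

/-- the cleared equation of an algebraic monomial, in `2n` variables -/
private noncomputable def amcH (F : Polynomial (MvPolynomial (Fin n) ℂ)) (a b : Fin n → ℕ) :
    MvPolynomial (Fin n ⊕ Fin n) ℂ :=
  (∏ i, X (Sum.inr i)) * ∑ k ∈ Finset.range (F.natDegree + 1),
    rename Sum.inl (F.coeff k) * (∏ i, X (Sum.inr i) ^ a i) ^ k *
      (∏ i, X (Sum.inr i) ^ b i) ^ (F.natDegree - k)

private theorem amc_eval {L : Type} [Field L] [Algebra ℂ L]
    (F : Polynomial (MvPolynomial (Fin n) ℂ)) (m : Fin n → ℤ) (x y : Fin n → L)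
    (hy : ∀ i, y i ≠ 0) :
    aeval (Sum.elim x y) (amcH F (fun i => (m i).toNat) (fun i => (-m i).toNat)) =
      ((∏ i, y i) * (∏ i, y i ^ (-m i).toNat) ^ F.natDegree) *
        ∑ k ∈ Finset.range (F.natDegree + 1), aeval x (F.coeff k) * (∏ i, y i ^ m i) ^ k := by
  have h1 : ∏ i, y i ^ m i = (∏ i, y i ^ (m i).toNat) / ∏ i, y i ^ (-m i).toNat := by
    rw [← Finset.prod_div_distrib]
    refine Finset.prod_congr rfl fun i _ => ?_
    rw [← zpow_natCast, ← zpow_natCast, ← zpow_sub₀ (hy i), Int.toNat_sub_toNat_neg]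
  have hb : (∏ i, y i ^ (-m i).toNat) ≠ 0 := Finset.prod_ne_zero_iff.2 fun i _ => pow_ne_zero _ (hy i)
  rw [h1]
  unfold amcH
  simp only [map_mul, map_sum, map_prod, map_pow, aeval_X, Sum.elim_inr, aeval_rename,
    Sum.elim_comp_inl]
  rw [mul_assoc (∏ i, y i) _ _]
  congr 1
  rw [Finset.mul_sum]
  refine Finset.sum_congr rfl fun k hk => ?_
  have hk' : k ≤ F.natDegree := by
    have := Finset.mem_range.1 hk
    omega
  rw [div_pow]
  have h2 : (∏ i, y i ^ (-m i).toNat) ^ F.natDegree =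
      (∏ i, y i ^ (-m i).toNat) ^ (F.natDegree - k) * (∏ i, y i ^ (-m i).toNat) ^ k := by
    rw [← pow_add, Nat.sub_add_cancel hk']
  rw [h2]
  have h3 : (∏ i, y i ^ (-m i).toNat) ^ k ≠ 0 := pow_ne_zero _ hb
  field_simp

/-- OV-31: algebraic monomials, from the geometric definition to the function field.

Proof. By definition of `HS.AlgMon` there is `F : Polynomial (MvPolynomial (Fin n) ℂ)` with some
coefficient `F_j` with `C F_j ∉ Q = ker (nestEv ξ η)`, i.e. `aeval ξ F_j ≠ 0`, such that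
`F(x, y ^ m) = 0` for all zeros `(x, y)` of `Q` with all `y_i ≠ 0`. Write `m = a - b` with
`a, b : Fin n →₀ ℕ`, `d = F.natDegree`; the nested polynomial
`H = (∏ X i) * ∑_k C (F.coeff k) * X ^ (k a) * X ^ ((d - k) b)` vanishes at all zeros of `Q` (also at
those with some `y_i = 0`), so by the Nullstellensatz `H ∈ Q` (transport to
`MvPolynomial (Fin n ⊕ Fin n) ℂ` with `exists_flat`, `exists_nest`: the ideal of the `f` with
`aeval (Sum.elim ξ η) f = 0` is prime, and `MvPolynomial.vanishingIdeal_zeroLocus_eq_radical` applies).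
So `nestEv ξ η H = 0`, and as `∏ η_i ≠ 0`: `∑_k (aeval ξ F_k) (mon m η) ^ k = 0`, with a nonzero
coefficient; the coefficients are in `Algebra.adjoin ℂ (range ξ)`. -/
theorem mem_cl_of_algMon (ξ η : Fin n → Ω) (hη : ∀ i, η i ≠ 0) (m : Fin n → ℤ)
    (h : HS.AlgMon (RingHom.ker (nestEv ξ η)) m) : mon m η ∈ cl (Set.range ξ) := by
  classical
  obtain ⟨F, ⟨j, hj⟩, hF⟩ := h
  set P : Ideal (MvPolynomial (Fin n ⊕ Fin n) ℂ) :=
    RingHom.ker (aeval (Sum.elim ξ η) : MvPolynomial (Fin n ⊕ Fin n) ℂ →ₐ[ℂ] Ω) with hP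
  have hprime : P.IsPrime := RingHom.ker_isPrime _
  have hmem : amcH F (fun i => (m i).toNat) (fun i => (-m i).toNat) ∈ P := by
    rw [← MvPolynomial.IsPrime.vanishingIdeal_zeroLocus (K := ℂ) P]
    rw [MvPolynomial.mem_vanishingIdeal_iff]
    intro z hz
    rw [MvPolynomial.mem_zeroLocus_iff] at hz
    have hze : z = Sum.elim (fun i => z (Sum.inl i)) (fun i => z (Sum.inr i)) := by
      funext i
      rcases i with i | i <;> rfl
    by_cases h0 : ∃ i, z (Sum.inr i) = 0
    · obtain ⟨i, hi⟩ := h0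
      unfold amcH
      rw [map_mul, map_prod, Finset.prod_eq_zero (Finset.mem_univ i), zero_mul]
      rw [aeval_X, hi]
    · push Not at h0
      rw [hze, amc_eval F m _ _ h0]
      have h1 := hF (fun i => z (Sum.inl i)) (fun i => z (Sum.inr i)) h0 (by
        intro f hf
        obtain ⟨g, hg1, hg2⟩ := exists_flat f
        rw [hg2]
        have h2 : g ∈ P := by
          rw [hP, RingHom.mem_ker]
          have := hg1 Ω ξ η
          rw [← this]
          exact hf
        have h3 := hz g h2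
        rw [hze] at h3
        rw [← h3, MvPolynomial.aeval_def, MvPolynomial.eval₂_eq_eval_map]
        simp)
      have h2 : ∑ k ∈ Finset.range (F.natDegree + 1),
          aeval (fun i => z (Sum.inl i)) (F.coeff k) * (∏ i, z (Sum.inr i) ^ m i) ^ k =
          (F.map (eval fun i => z (Sum.inl i))).eval (∏ i, z (Sum.inr i) ^ m i) := by
        rw [Polynomial.eval_map, Polynomial.eval₂_eq_sum_range]
        refine Finset.sum_congr rfl fun k _ => ?_
        congr 1
      rw [h2, h1, mul_zero]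
  rw [hP, RingHom.mem_ker] at hmem
  have hev : aeval (Sum.elim ξ η) (amcH F (fun i => (m i).toNat) (fun i => (-m i).toNat)) = 0 := hmem
  rw [amc_eval F m ξ η hη] at hev
  have hne : (∏ i, η i) * (∏ i, η i ^ (-m i).toNat) ^ F.natDegree ≠ 0 :=
    mul_ne_zero (Finset.prod_ne_zero_iff.2 fun i _ => hη i)
      (pow_ne_zero _ (Finset.prod_ne_zero_iff.2 fun i _ => pow_ne_zero _ (hη i)))
  have hsum := (mul_eq_zero.1 hev).resolve_left hne
  -- the polynomial over the subalgebra
  have hrange : ∀ f : MvPolynomial (Fin n) ℂ, aeval ξ f ∈ Algebra.adjoin ℂ (Set.range ξ) := by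
    intro f
    rw [Algebra.adjoin_range_eq_range_aeval]
    exact ⟨f, rfl⟩
  set φ : MvPolynomial (Fin n) ℂ →ₐ[ℂ] Algebra.adjoin ℂ (Set.range ξ) :=
    (aeval ξ).codRestrict _ hrange with hφ
  have hφv : ∀ f, ((φ f : Algebra.adjoin ℂ (Set.range ξ)) : Ω) = aeval ξ f := fun f => rfl
  rw [mem_cl]
  refine ⟨F.map (φ : MvPolynomial (Fin n) ℂ →+* Algebra.adjoin ℂ (Set.range ξ)), ?_, ?_⟩
  · intro h0
    apply hj
    rw [RingHom.mem_ker]
    have h1 := congrArg (fun q => Polynomial.coeff q j) h0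
    simp only [Polynomial.coeff_map, Polynomial.coeff_zero] at h1
    have h2 : aeval ξ (F.coeff j) = 0 := by
      rw [← hφv]
      have h3 : φ (F.coeff j) = 0 := h1
      rw [h3]
      rfl
    rw [nestEv, coe_eval₂Hom, eval₂_C]
    exact h2
  · rw [Polynomial.aeval_def, Polynomial.eval₂_map, Polynomial.eval₂_eq_sum_range]
    exact hsum

end Pool.Agent.Lib.MP_209724_lc.OV
end

section

namespace Pool.Agent.Lib.MP_209724_lc.OV

open MvPolynomial AlgebraicIndependent

private theorem classical_td {Ω : Type} [Field Ω] [Algebra ℂ Ω] {u w : Ω}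
    (h : AlgebraicIndependent ℂ ![u, w]) : td {u, w} = 2 := by
  have hinj := h.injective
  have hne : u ≠ w := by
    intro huw
    have h1 : (![u, w] : Fin 2 → Ω) 0 = ![u, w] 1 := by simpa using huw
    exact absurd (hinj h1) (by decide)
  have h1 : (matroid ℂ Ω).Indep {u, w} := by
    rw [matroid_indep_iff]
    have h2 := h.coe_range
    have h3 : Set.range ![u, w] = {u, w} := by
      simp [Set.pair_comm]
    rw [h3] at h2
    exact h2
  have h4 := h1.eRk_eq_encard
  rw [Set.encard_pair hne] at h4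
  exact h4

private theorem classical_aeval {Ω : Type} [Field Ω] [Algebra ℂ Ω] {A : Subalgebra ℂ Ω}
    {ψ : Ω → ℂ} (h : IsHomOn A ψ) {T : Ω} (hT : T ∈ A) (p : Polynomial ℂ) :
    Polynomial.aeval T p ∈ A ∧ ψ (Polynomial.aeval T p) = p.eval (ψ T) := by
  obtain ⟨φ, hφ⟩ := h
  have h1 : Polynomial.aeval T p = ((Polynomial.aeval (⟨T, hT⟩ : A) p : A) : Ω) := by
    have := Polynomial.aeval_algHom_apply A.val (⟨T, hT⟩ : A) p
    exact this
  refine ⟨by rw [h1]; exact Subtype.mem _, ?_⟩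
  rw [h1, hφ, ← Polynomial.aeval_algHom_apply, ← hφ, Polynomial.aeval_def,
    Polynomial.eval₂_eq_eval_map]
  simp

/-- OV-25: exponential polynomials `∑ p_j(t) e^{jt}` with at least two terms have zeros outside the
zeros of a given polynomial.

Proof. Apply `ov2_amb` in `Ω = FractionRing (MvPolynomial (Fin 2) ℂ)` with `u = X 0`, `w = X 1 =: T`
(both nonconstant, `td {u, w} = 2` by `td_pair`; `T ∉ cl {u}` because `X 0`, `X 1` are algebraically
independent: see `algebraicIndependent_of_td` and Mathlib's `AlgebraicIndependent` of `X`; if `T` were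
in `cl {u}` ... use for example `AlgebraicIndepOn.insert_iff` or the matroid), `σ = 1`, `ι = J`,
`g j = p_j(T) ≠ 0`, `x j = j T`, `S = {q(T), q(T)⁻¹}`. For `j ≠ j'`: `(j - j') T` is not algebraic over
`ℂ(u)`, so it is not in `ℚ u + ℂ`; this gives the three hypotheses (`hx3` because `J` has two elements).
Let `A, ψ` be the result (`R = 0`) and `t = ψ T` (`T ∈ A` because some `j T`, `j ≠ 0`, is in `A`; or
add `T` to `S`). Then `ψ (q(T)) = q(t)` (`IsHomOn.aeval` or induction) is not zero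
(`IsHomOn.ne_zero`), `ψ (g j) = p_j(t)`, `ψ (j T) = j t`, and the claim follows. -/
theorem classical (J : Finset ℕ) (hJ : 1 < J.card) (p : ℕ → Polynomial ℂ)
    (hp : ∀ j ∈ J, p j ≠ 0) (q : Polynomial ℂ) (hq : q ≠ 0) :
    ∃ t : ℂ, q.eval t ≠ 0 ∧ ∑ j ∈ J, (p j).eval t * Complex.exp t ^ j = 0 := by
  classical
  set Ω := FractionRing (MvPolynomial (Fin 2) ℂ) with hΩ
  let u : Ω := algebraMap (MvPolynomial (Fin 2) ℂ) Ω (X 0)
  let T : Ω := algebraMap (MvPolynomial (Fin 2) ℂ) Ω (X 1)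
  have hAI : AlgebraicIndependent ℂ ![u, T] := by
    have h1 : AlgebraicIndependent ℂ (X : Fin 2 → MvPolynomial (Fin 2) ℂ) :=
      MvPolynomial.algebraicIndependent_X (Fin 2) ℂ
    have h2 := h1.map' (f := IsScalarTower.toAlgHom ℂ (MvPolynomial (Fin 2) ℂ) Ω)
      (IsFractionRing.injective (MvPolynomial (Fin 2) ℂ) Ω)
    have h3 : (⇑(IsScalarTower.toAlgHom ℂ (MvPolynomial (Fin 2) ℂ) Ω) ∘
        (X : Fin 2 → MvPolynomial (Fin 2) ℂ)) = ![u, T] := by
      funext i
      fin_cases i <;> rfl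
    rw [h3] at h2
    exact h2
  have htd : td {u, T} = 2 := classical_td hAI
  have hT : T ∉ cl {u} := not_mem_of_td_pair htd
  have hTalg : ¬ IsAlgebraic ℂ T := by
    intro h
    exact hT (mem_cl.2 (h.extendScalars (R := ℂ) (S := Algebra.adjoin ℂ {u})
      (algebraMap ℂ (Algebra.adjoin ℂ {u})).injective))
  have hTne : ∀ r : Polynomial ℂ, r ≠ 0 → Polynomial.aeval T r ≠ 0 := by
    intro r hr h0
    exact hTalg ⟨r, hr, h0⟩
  have hTcl : T ∈ cl {u, T} := subset_cl _ (by simp)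
  have haev : ∀ r : Polynomial ℂ, Polynomial.aeval T r ∈ cl {u, T} := by
    intro r
    have h1 : Polynomial.aeval T r =
        ((Polynomial.aeval (⟨T, hTcl⟩ : Cl {u, T}) r : Cl {u, T}) : Ω) :=
      Polynomial.aeval_algHom_apply (Cl {u, T}).val (⟨T, hTcl⟩ : Cl {u, T}) r
    rw [h1]
    exact Subtype.mem _
  let g : J → Ω := fun j => Polynomial.aeval T (p j)
  let x : J → Ω := fun j => algebraMap ℂ Ω ((j : ℕ) : ℂ) * T
  have hdiff : ∀ m m' : J, m ≠ m' → x m - x m' ∉ cl {u} := by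
    intro m m' hmm h
    have hc : (((m : ℕ) : ℂ) - ((m' : ℕ) : ℂ)) ≠ 0 := by
      intro h0
      apply hmm
      apply Subtype.ext
      have h1 : ((m : ℕ) : ℂ) = ((m' : ℕ) : ℂ) := sub_eq_zero.1 h0
      exact_mod_cast h1
    have h1 : x m - x m' = algebraMap ℂ Ω (((m : ℕ) : ℂ) - ((m' : ℕ) : ℂ)) * T := by
      show algebraMap ℂ Ω ((m : ℕ) : ℂ) * T - algebraMap ℂ Ω ((m' : ℕ) : ℂ) * T = _
      rw [map_sub]
      ring
    have h2 := mul_mem_cl (const_mem_cl {u} (((m : ℕ) : ℂ) - ((m' : ℕ) : ℂ))⁻¹) h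
    rw [h1, ← mul_assoc, ← map_mul, inv_mul_cancel₀ hc, map_one, one_mul] at h2
    exact hT h2
  have hrat : ∀ f : Ω, RatLin u f → f ∈ cl {u} := by
    rintro f ⟨c, d, rfl⟩
    exact add_mem_cl (mul_mem_cl (const_mem_cl _ _) (subset_cl _ (by simp))) (const_mem_cl _ _)
  obtain ⟨A, ψ, hSA, hψ, -, -, -, hxA, -, hsum, -, -⟩ := ov2_amb htd (σ := (1 : Ω)) one_ne_zero
    (by simpa using const_mem_cl {u, T} 1) g x (fun m => hTne _ (hp m m.2)) (fun m => haev _)
    (fun m => mul_mem_cl (const_mem_cl _ _) hTcl)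
    (fun m m' hmm h => hdiff m m' hmm (hrat _ h)) (fun _ m m' hmm => hdiff m m' hmm)
    (by
      obtain ⟨a, ha, b, hb, hab⟩ := Finset.one_lt_card.1 hJ
      exact ⟨⟨a, ha⟩, ⟨b, hb⟩, hdiff _ _ (fun h => hab (congrArg Subtype.val h))⟩)
    {T, (Polynomial.aeval T q)⁻¹}
    (by
      intro f hf
      rw [Finset.coe_insert, Finset.coe_singleton] at hf
      rcases hf with rfl | hf
      · exact hTcl
      · rw [Set.mem_singleton_iff] at hf
        rw [hf]
        exact inv_mem_cl (haev q)) 0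
  have hTA : T ∈ A := hSA (by simp)
  have hqA : (Polynomial.aeval T q)⁻¹ ∈ A := hSA (by simp)
  refine ⟨ψ T, ?_, ?_⟩
  · rw [← (classical_aeval hψ hTA q).2]
    exact hψ.ne_zero (classical_aeval hψ hTA q).1 hqA (hTne q hq)
  · rw [← Finset.sum_coe_sort J, ← hsum]
    refine Finset.sum_congr rfl fun m _ => ?_
    show _ = ψ (Polynomial.aeval T (p m)) * Complex.exp (ψ (algebraMap ℂ Ω ((m : ℕ) : ℂ) * T))
    rw [(classical_aeval hψ hTA (p m)).2, hψ.mul (A.algebraMap_mem _) hTA, hψ.const,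
      Complex.exp_nat_mul]

end Pool.Agent.Lib.MP_209724_lc.OV
end

section

/-!
Zeros of exponential sums attached to a principal relation.
-/

namespace Pool.Agent.Lib.MP_209724_lc.OV

open MvPolynomial AlgebraicIndependent

variable {Ω : Type} [Field Ω] [Algebra ℂ Ω]

theorem evalC_exp {κ : Type} [Fintype κ] {A : Subalgebra ℂ Ω} {ψ : Ω → ℂ} (h : IsHomOn A ψ)
    (F : MvPolynomial κ Ω) (x : κ → Ω) (hx : ∀ i, x i ∈ A) :
    evalC ψ F (fun i => Complex.exp (ψ (x i))) =
      ∑ m ∈ F.support, ψ (F.coeff m) * Complex.exp (ψ (∑ i, algebraMap ℂ Ω (m i : ℂ) * x i)) := by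
  unfold evalC
  refine Finset.sum_congr rfl fun m _ => ?_
  congr 1
  rw [h.sum _ _ (fun i _ => A.mul_mem (A.algebraMap_mem _) (hx i)), Complex.exp_sum]
  refine Finset.prod_congr rfl fun i _ => ?_
  rw [h.mul (A.algebraMap_mem _) (hx i), h.const, ← Complex.exp_nat_mul]

/-- Zeros of the exponential sum of a principal relation. -/
theorem expsum {u w : Ω} (huw : td {u, w} = 2) {σ : Ω} (hσ0 : σ ≠ 0) (hσ : σ ∈ cl {u, w})
    {s : Set Ω} (hs : s ⊆ cl {u, w}) {κ : Type} [Fintype κ] {η : κ → Ω} (x : κ → Ω)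
    {F : MvPolynomial κ Ω} (hF : Princ s η F) (hx : ∀ i, x i ∈ cl {u, w})
    (h1 : ∀ m ∈ F.support, ∀ m' ∈ F.support, m ≠ m' →
      ¬ RatLin u (∑ i, algebraMap ℂ Ω (m i : ℂ) * x i - ∑ i, algebraMap ℂ Ω (m' i : ℂ) * x i))
    (h2 : σ ∈ cl {u} → ∀ m ∈ F.support, ∀ m' ∈ F.support, m ≠ m' →
      ∑ i, algebraMap ℂ Ω (m i : ℂ) * x i - ∑ i, algebraMap ℂ Ω (m' i : ℂ) * x i ∉ cl {u})
    (h3 : ∃ m ∈ F.support, ∃ m' ∈ F.support,
      ∑ i, algebraMap ℂ Ω (m i : ℂ) * x i - ∑ i, algebraMap ℂ Ω (m' i : ℂ) * x i ∉ cl {u})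
    {υ : Type} [Finite υ] (v : υ → MvPolynomial κ Ω) (hv : ∀ i m, (v i).coeff m ∈ cl s)
    (S : Finset Ω) (hS : (S : Set Ω) ⊆ cl {u, w}) (R : ℝ) :
    ∃ (A : Subalgebra ℂ Ω) (ψ : Ω → ℂ), (S : Set Ω) ⊆ A ∧ IsHomOn A ψ ∧ u ∈ A ∧ σ ∈ A ∧
      (∀ i, x i ∈ A) ∧ Complex.exp (ψ u) = ψ σ ∧ R < ‖ψ u‖ ∧ (∃ i, R < ‖ψ (x i)‖) ∧
      ∀ f : MvPolynomial υ ℂ, aeval (fun i => eval η (v i)) f = 0 →
        eval (fun i => evalC ψ (v i) fun i => Complex.exp (ψ (x i))) f = 0 := by
  classical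
  obtain ⟨S₀, hS₀, hgen⟩ := gen hF v hv
  have hcs : cl s ⊆ cl {u, w} := cl_subset hs
  set X : (κ →₀ ℕ) → Ω := fun m => ∑ i, algebraMap ℂ Ω (m i : ℂ) * x i with hX
  have hXmem : ∀ m, X m ∈ cl {u, w} := by
    intro m
    have h : ∀ i ∈ (Finset.univ : Finset κ),
        algebraMap ℂ Ω (m i : ℂ) * x i ∈ Cl {u, w} := fun i _ =>
      (Cl {u, w}).mul_mem ((Cl {u, w}).algebraMap_mem _) (hx i)
    exact (Cl {u, w}).sum_mem h
  set B : ℝ := ∑ m ∈ F.support, ∑ m' ∈ F.support, ∑ i, |((m i : ℝ) - m' i)| with hB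
  have hB0 : 0 ≤ B := Finset.sum_nonneg fun m _ => Finset.sum_nonneg fun m' _ =>
    Finset.sum_nonneg fun i _ => abs_nonneg _
  obtain ⟨A, ψ, hSA, hψ, huA, hσA, -, -, hexp, hsum, hR, ⟨m, hm⟩, ⟨m', hm'⟩, hR'⟩ :=
    ov2_amb huw hσ0 hσ (ι := F.support) (fun m => F.coeff m) (fun m => X m)
      (fun m => mem_support_iff.1 m.2) (fun m => hcs (hF.1 m)) (fun m => hXmem m)
      (fun m m' hmm => h1 m m.2 m' m'.2 fun h => hmm (Subtype.ext h))
      (fun h m m' hmm => h2 h m m.2 m' m'.2 fun h => hmm (Subtype.ext h))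
      (by
        obtain ⟨m, hm, m', hm', h⟩ := h3
        exact ⟨⟨m, hm⟩, ⟨m', hm'⟩, h⟩)
      (S ∪ S₀ ∪ Finset.univ.image x) (by
        rw [Finset.coe_union, Finset.coe_union, Finset.coe_image]
        rintro f ((hf | hf) | ⟨i, -, rfl⟩)
        · exact hS hf
        · exact hcs (hS₀ hf)
        · exact hx i) (max R (B * |R|))
  have hxA : ∀ i, x i ∈ A := fun i => hSA (by
    rw [Finset.coe_union, Finset.coe_image]
    exact Or.inr ⟨i, by simp, rfl⟩)
  refine ⟨A, ψ, fun f hf => hSA ?_, hψ, huA, hσA, hxA, hexp, (le_max_left _ _).trans_lt hR,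
    ?_, ?_⟩
  · rw [Finset.coe_union, Finset.coe_union]
    exact Or.inl (Or.inl hf)
  · by_contra hcon
    push Not at hcon
    have h4 : X m - X m' = ∑ i, algebraMap ℂ Ω ((m i : ℂ) - m' i) * x i := by
      simp only [hX, map_sub, sub_mul, Finset.sum_sub_distrib]
    have h5 : ‖ψ (X m - X m')‖ ≤ B * |R| := by
      rw [h4, hψ.sum _ _ (fun i _ => A.mul_mem (A.algebraMap_mem _) (hxA i))]
      calc ‖∑ i, ψ (algebraMap ℂ Ω ((m i : ℂ) - m' i) * x i)‖
          ≤ ∑ i, ‖ψ (algebraMap ℂ Ω ((m i : ℂ) - m' i) * x i)‖ := norm_sum_le _ _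
        _ ≤ ∑ i, |((m i : ℝ) - m' i)| * |R| := by
            refine Finset.sum_le_sum fun i _ => ?_
            rw [hψ.mul (A.algebraMap_mem _) (hxA i), hψ.const, norm_mul]
            have h6 : ‖((m i : ℂ) - m' i)‖ = |((m i : ℝ) - m' i)| := by
              rw [← Real.norm_eq_abs, ← Complex.norm_real]
              push_cast
              rfl
            rw [h6]
            exact mul_le_mul_of_nonneg_left ((hcon i).trans (le_abs_self R)) (abs_nonneg _)
        _ = (∑ i, |((m i : ℝ) - m' i)|) * |R| := by rw [Finset.sum_mul]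
        _ ≤ B * |R| := by
            refine mul_le_mul_of_nonneg_right ?_ (abs_nonneg _)
            have h7 : ∑ i, |((m i : ℝ) - m' i)| ≤
                ∑ m' ∈ F.support, ∑ i, |((m i : ℝ) - m' i)| :=
              Finset.single_le_sum (f := fun m' : κ →₀ ℕ => ∑ i, |((m i : ℝ) - m' i)|)
                (fun m' _ => Finset.sum_nonneg fun i _ => abs_nonneg _) hm'
            have h8 : ∑ m' ∈ F.support, ∑ i, |((m i : ℝ) - m' i)| ≤ B :=
              Finset.single_le_sum
                (f := fun m : κ →₀ ℕ => ∑ m' ∈ F.support, ∑ i, |((m i : ℝ) - m' i)|)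
                (fun m _ => Finset.sum_nonneg fun m' _ => Finset.sum_nonneg fun i _ =>
                  abs_nonneg _) hm
            exact h7.trans h8
    exact absurd ((le_max_right _ _).trans_lt hR') (not_lt.2 h5)
  · refine hgen A ψ (fun f hf => hSA ?_) hψ _ ?_
    · rw [Finset.coe_union, Finset.coe_union]
      exact Or.inl (Or.inr hf)
    · rw [evalC_exp hψ F x hxA]
      rw [← Finset.sum_coe_sort]
      exact hsum

end Pool.Agent.Lib.MP_209724_lc.OV
end

section

namespace Pool.Agent.Lib.MP_209724_lc.OV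

open MvPolynomial AlgebraicIndependent

variable {Ω : Type} [Field Ω] [Algebra ℂ Ω] {n : ℕ}

/-- OV-32: the case of a dominant projection.

Proof: `HS.final_dominant` for `Q = ker (nestEv ξ η)` (prime: kernel of a homomorphism to a field; it
contains no `X i` because `η i ≠ 0`; `hdim` by `exists_quot_equiv` and `trdeg_adjoin`; `C c ∈ Q` iff
`aeval ξ c = 0` iff `c = 0`, since `ξ` is algebraically independent by
`algebraicIndependent_of_td_range`), with `exists_nest` for the polynomials `D` and `f` of the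
definition of `HasExpD`. -/
theorem hs_dominant (hn : 0 < n) (ξ η : Fin n → Ω) (hη : ∀ i, η i ≠ 0)
    (h1 : td (Set.range ξ) = n) (h2 : td (Set.range ξ ∪ Set.range η) = n) : HasExpD ξ η := by
  intro D hD R
  obtain ⟨D', hD1, hD2⟩ := exists_nest D
  have hQ : (RingHom.ker (nestEv ξ η)).IsPrime := RingHom.ker_isPrime _
  have hX : ∀ i, (X i : MvPolynomial (Fin n) (MvPolynomial (Fin n) ℂ)) ∉ RingHom.ker (nestEv ξ η) := by
    intro i hi
    rw [RingHom.mem_ker, nestEv, coe_eval₂Hom, eval₂_X] at hi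
    exact hη i hi
  have hdim : Algebra.trdeg ℂ
      (MvPolynomial (Fin n) (MvPolynomial (Fin n) ℂ) ⧸ RingHom.ker (nestEv ξ η)) = n := by
    obtain ⟨e⟩ := exists_quot_equiv ξ η
    rw [e.trdeg_eq]
    exact trdeg_adjoin _ h2
  have hind := algebraicIndependent_of_td_range ξ h1
  have hP : ∀ c : MvPolynomial (Fin n) ℂ, C c ∈ RingHom.ker (nestEv ξ η) ↔ c = 0 := by
    intro c
    rw [RingHom.mem_ker, nestEv, coe_eval₂Hom, eval₂_C]
    exact ⟨fun h => hind.eq_zero_of_aeval_eq_zero c h, fun h => by rw [h, map_zero]⟩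
  have hDQ : D' ∉ RingHom.ker (nestEv ξ η) := by
    rw [RingHom.mem_ker, hD1]
    exact hD
  obtain ⟨x, hx1, hx2, hx3⟩ := HS.final_dominant hn _ hX hdim hP D' hDQ R
  refine ⟨x, hx1, ?_, fun f hf => ?_⟩
  · rw [← hD2]
    exact hx3
  · obtain ⟨f', hf1, hf2⟩ := exists_nest f
    rw [← hf2]
    refine hx2 f' ?_
    rw [RingHom.mem_ker, hf1]
    exact hf

end Pool.Agent.Lib.MP_209724_lc.OV
end

section

namespace Pool.Agent.Lib.MP_209724_lc.OV

open MvPolynomial AlgebraicIndependent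

variable {Ω : Type} [Field Ω] [Algebra ℂ Ω] {n : ℕ}

private theorem wf_nestEv_C (ξ η : Fin n → Ω) (a : MvPolynomial (Fin n) ℂ) :
    nestEv ξ η (C a) = aeval ξ a := by
  simp [nestEv]

private theorem wf_nestEv_X (ξ η : Fin n → Ω) (i : Fin n) : nestEv ξ η (X i) = η i := by
  simp [nestEv]

/-- the kernel of `aeval ξ` is principal when `ξ` has transcendence degree `n - 1` -/
private theorem wf_ker_principal (ξ : Fin n → Ω) (h1 : td (Set.range ξ) + 1 = n) :
    ∃ P : MvPolynomial (Fin n) ℂ, ∀ c : MvPolynomial (Fin n) ℂ, aeval ξ c = 0 ↔ P ∣ c := by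
  set ev : MvPolynomial (Fin n) ℂ →ₐ[ℂ] Ω := aeval ξ with hev
  have hprime : (RingHom.ker ev).IsPrime := RingHom.ker_isPrime ev
  have htd : ∃ k : ℕ, td (Set.range ξ) = k ∧ k + 1 = n := by
    have hne : td (Set.range ξ) ≠ ⊤ := by
      intro h
      rw [h] at h1
      simp at h1
    obtain ⟨k, hk⟩ := ENat.ne_top_iff_exists.1 hne
    refine ⟨k, hk.symm, ?_⟩
    rw [← hk] at h1
    exact_mod_cast h1
  obtain ⟨k, hk, hkn⟩ := htd
  have htr := trdeg_adjoin (Set.range ξ) hk
  have hrange : ev.range = Algebra.adjoin ℂ (Set.range ξ) :=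
    (Algebra.adjoin_range_eq_range_aeval ℂ ξ).symm
  have e1 : (MvPolynomial (Fin n) ℂ ⧸ RingHom.ker ev) ≃ₐ[ℂ] ev.range :=
    Ideal.quotientKerEquivRange ev
  have e2 : ev.range ≃ₐ[ℂ] Algebra.adjoin ℂ (Set.range ξ) := Subalgebra.equivOfEq _ _ hrange
  have htq : Algebra.trdeg ℂ (MvPolynomial (Fin n) ℂ ⧸ RingHom.ker ev) + 1 = n := by
    rw [(e1.trans e2).trdeg_eq, htr]
    exact_mod_cast hkn
  obtain ⟨P, -, hP⟩ := Elim.principal_of_trdeg (RingHom.ker ev) htq
  refine ⟨P, fun c => ?_⟩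
  rw [← Ideal.mem_span_singleton, ← hP, RingHom.mem_ker]

/-- OV-33: the case of a projection of codimension one, without algebraic monomials.

Proof: `HS.final` for `Q = ker (nestEv ξ η)` (prime: kernel of a homomorphism to a field; it
contains no `X i` because `η i ≠ 0`; `hdim` by `exists_quot_equiv` and `trdeg_adjoin`). `P` is the
generator of the kernel of `aeval ξ : MvPolynomial (Fin n) ℂ → Ω`, which exists by
`Elim.principal_of_trdeg`: the quotient by this kernel is isomorphic to `Algebra.adjoin ℂ (range ξ)`,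
of transcendence degree `n - 1` by `trdeg_adjoin` (`h1`). `hW`: `P ∣ ∑ m_i X_i - c` would give
`lin m ξ = c`, contradiction with `hadd`. `h`: the second alternative, by `mem_cl_of_algMon` and
`hmon`. Use `exists_nest` for the polynomials `D` and `f` of the definition of `HasExpD`. -/
theorem hs_final (hn : 0 < n) (ξ η : Fin n → Ω) (hη : ∀ i, η i ≠ 0)
    (h1 : td (Set.range ξ) + 1 = n) (h2 : td (Set.range ξ ∪ Set.range η) = n)
    (hadd : ∀ m : Fin n → ℤ, m ≠ 0 → ¬ IsConst (lin m ξ))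
    (hmon : ∀ m : Fin n → ℤ, m ≠ 0 → mon m η ∉ cl (Set.range ξ)) : HasExpD ξ η := by
  intro D hD R
  obtain ⟨P, hP⟩ := wf_ker_principal ξ h1
  have hprime : (RingHom.ker (nestEv ξ η)).IsPrime := RingHom.ker_isPrime _
  have hy : ∀ i, (X i : MvPolynomial (Fin n) (MvPolynomial (Fin n) ℂ)) ∉
      RingHom.ker (nestEv ξ η) := by
    intro i hi
    rw [RingHom.mem_ker, wf_nestEv_X] at hi
    exact hη i hi
  have hdim : Algebra.trdeg ℂ (MvPolynomial (Fin n) (MvPolynomial (Fin n) ℂ) ⧸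
      RingHom.ker (nestEv ξ η)) = n := by
    obtain ⟨e⟩ := exists_quot_equiv ξ η
    rw [e.trdeg_eq]
    exact trdeg_adjoin _ h2
  have hPc : ∀ c : MvPolynomial (Fin n) ℂ, C c ∈ RingHom.ker (nestEv ξ η) ↔ P ∣ c := by
    intro c
    rw [RingHom.mem_ker, wf_nestEv_C]
    exact hP c
  have hW : ∀ m : Fin n → ℤ, m ≠ 0 → ∀ c : ℂ,
      P = 0 ∨ ¬ P ∣ ∑ i, C (m i : ℂ) * X i - C c := by
    intro m hm c
    right
    intro hdvd
    rw [← hP] at hdvd
    apply hadd m hm
    refine ⟨c, ?_⟩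
    rw [map_sub, map_sum, aeval_C, sub_eq_zero] at hdvd
    rw [← hdvd, lin]
    refine Finset.sum_congr rfl fun i _ => ?_
    rw [map_mul, aeval_C, aeval_X]
  have h : P = 0 ∨ (∀ m : Fin n → ℤ, HS.AlgMon (RingHom.ker (nestEv ξ η)) m → m = 0) ∨
      ∃ v : Fin n → ℂ, (∀ m : Fin n → ℤ, HS.AlgMon (RingHom.ker (nestEv ξ η)) m →
        ∑ i, (m i : ℂ) * v i = 0) ∧ ∑ i, C (v i) * pderiv i (MV.lead P) ≠ 0 := by
    right
    left
    intro m hm
    by_contra hne
    exact hmon m hne (mem_cl_of_algMon ξ η hη m hm)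
  obtain ⟨D', hD1, hD2⟩ := exists_nest D
  have hD' : D' ∉ RingHom.ker (nestEv ξ η) := by
    rw [RingHom.mem_ker, hD1]
    exact hD
  obtain ⟨x, hx1, hx2, hx3⟩ := HS.final hn (RingHom.ker (nestEv ξ η)) hy hdim P hPc hW h D' hD' R
  refine ⟨x, hx1, ?_, fun f hf => ?_⟩
  · rw [← hD2]
    exact hx3
  · obtain ⟨f', hf1, hf2⟩ := exists_nest f
    rw [← hf2]
    apply hx2
    rw [RingHom.mem_ker, hf1]
    exact hf

end Pool.Agent.Lib.MP_209724_lc.OV
end

section

namespace Pool.Agent.Lib.MP_209724_lc.OV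

open MvPolynomial AlgebraicIndependent

variable {Ω : Type} [Field Ω] [Algebra ℂ Ω]

/-- the value of a polynomial that lifts to `A` -/
private theorem evalP_lift {A : Subalgebra ℂ Ω} {ψ : Ω → ℂ} {φ : A →ₐ[ℂ] ℂ}
    (hφ : ∀ a : A, ψ a = φ a) {G : Polynomial Ω} {g : Polynomial A}
    (hg : g.map (algebraMap A Ω) = G) (y : ℂ) :
    ∑ i ∈ G.support, ψ (G.coeff i) * y ^ i = g.eval₂ (φ : A →+* ℂ) y := by
  have hinj : Function.Injective (algebraMap A Ω) := Subtype.val_injective
  have hsupp : G.support = g.support := by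
    rw [← hg]
    exact Polynomial.support_map_of_injective g hinj
  rw [Polynomial.eval₂_eq_sum, Polynomial.sum_def, hsupp]
  refine Finset.sum_congr rfl fun i _ => ?_
  rw [← hg, Polynomial.coeff_map]
  congr 1
  exact hφ (g.coeff i)

private theorem exists_lift {A : Subalgebra ℂ Ω} {G : Polynomial Ω}
    (hG : ∀ i, G.coeff i ∈ A) : ∃ g : Polynomial A, g.map (algebraMap A Ω) = G := by
  have h1 : G ∈ Polynomial.lifts (algebraMap A Ω) := by
    rw [Polynomial.lifts_iff_coeff_lifts]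
    intro n
    exact ⟨⟨G.coeff n, hG n⟩, rfl⟩
  exact (Polynomial.mem_lifts G).1 h1

/-- OV-26a: the value of a polynomial in one variable after applying `ψ` to the coefficients is
multiplicative. Proof: write the polynomials as images of polynomials with coefficients in `A`
(`Polynomial.lifts_iff_coeff_lifts`) and use `Polynomial.eval₂_mul`; `Polynomial.eval₂` is the sum over
the support. -/
theorem evalP_mul {A : Subalgebra ℂ Ω} {ψ : Ω → ℂ} (h : IsHomOn A ψ) {G H : Polynomial Ω}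
    (hG : ∀ i, G.coeff i ∈ A) (hH : ∀ i, H.coeff i ∈ A) (y : ℂ) :
    ∑ i ∈ (G * H).support, ψ ((G * H).coeff i) * y ^ i =
      (∑ i ∈ G.support, ψ (G.coeff i) * y ^ i) * ∑ i ∈ H.support, ψ (H.coeff i) * y ^ i := by
  obtain ⟨φ, hφ⟩ := h
  obtain ⟨g, hg⟩ := exists_lift hG
  obtain ⟨k, hk⟩ := exists_lift hH
  have hgk : (g * k).map (algebraMap A Ω) = G * H := by
    rw [Polynomial.map_mul, hg, hk]
  rw [evalP_lift hφ hg, evalP_lift hφ hk, evalP_lift hφ hgk, Polynomial.eval₂_mul]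

/-- products of polynomials with coefficients in `A` have coefficients in `A` -/
private theorem coeff_prod_mem {A : Subalgebra ℂ Ω} (𝒢 : Finset (Polynomial Ω))
    (hG : ∀ G ∈ 𝒢, ∀ i, G.coeff i ∈ A) : ∀ i, (∏ G ∈ 𝒢, G).coeff i ∈ A := by
  have h1 : (∏ G ∈ 𝒢, G) ∈ Polynomial.lifts (algebraMap A Ω) := by
    refine prod_mem fun G hG' => ?_
    rw [Polynomial.lifts_iff_coeff_lifts]
    intro n
    exact ⟨⟨G.coeff n, hG G hG' n⟩, rfl⟩
  rw [Polynomial.lifts_iff_coeff_lifts] at h1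
  intro i
  obtain ⟨a, ha⟩ := h1 i
  rw [← ha]
  exact a.2

/-- OV-26: `lemmaA` for finitely many polynomials.

Proof. Apply `lemmaA_amb` to the product `∏ G ∈ 𝒢, G` (nonzero; its coefficients are in `cl {u}`, since
`cl {u} = Cl {u}` is a field: the polynomials with coefficients in `cl {u}` are closed under products)
and to `S` together with all coefficients of the `G ∈ 𝒢`; use `evalP_mul` (and induction on `𝒢`). -/
theorem lemmaA_fin [IsAlgClosed Ω] {u w : Ω} (huw : td {u, w} = 2) {s β : Ω} (hs : s ∈ cl {u})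
    (hs0 : s ≠ 0) (hsc : ¬ IsConst s) (hβ : β ∈ cl {u}) (hβr : ¬ RatLin u β)
    (𝒢 : Finset (Polynomial Ω)) (hG : ∀ G ∈ 𝒢, G ≠ 0) (hGc : ∀ G ∈ 𝒢, ∀ i, G.coeff i ∈ cl {u})
    (S : Finset Ω) (hS : (S : Set Ω) ⊆ cl {u, w}) (R : ℝ) :
    ∃ (A : Subalgebra ℂ Ω) (ψ : Ω → ℂ), (S : Set Ω) ⊆ A ∧ u ∈ A ∧ s ∈ A ∧ β ∈ A ∧
      IsHomOn A ψ ∧ Complex.exp (ψ u) = ψ s ∧ R < ‖ψ u‖ ∧
      ∀ G ∈ 𝒢, ∑ i ∈ G.support, ψ (G.coeff i) * Complex.exp (ψ β) ^ i ≠ 0 := by
  classical
  have hP0 : (∏ G ∈ 𝒢, G) ≠ 0 := Finset.prod_ne_zero_iff.2 hG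
  have hPc : ∀ i, (∏ G ∈ 𝒢, G).coeff i ∈ cl {u} :=
    coeff_prod_mem (A := (Cl {u}).toSubalgebra) 𝒢 hGc
  let S' : Finset Ω := S ∪ 𝒢.biUnion fun G => G.support.image fun i => G.coeff i
  have hS' : (S' : Set Ω) ⊆ cl {u, w} := by
    intro x hx
    rw [Finset.mem_coe, Finset.mem_union, Finset.mem_biUnion] at hx
    rcases hx with hx | ⟨G, hG', hx⟩
    · exact hS hx
    · rw [Finset.mem_image] at hx
      obtain ⟨i, _, rfl⟩ := hx
      exact cl_mono (by simp) (hGc G hG' i)
  obtain ⟨A, ψ, hSA, hu, hsA, hβA, hψ, hexp, hR, hsum⟩ :=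
    lemmaA_amb huw hs hs0 hsc hβ hβr (∏ G ∈ 𝒢, G) hP0 hPc S' hS' R
  refine ⟨A, ψ, ?_, hu, hsA, hβA, hψ, hexp, hR, ?_⟩
  · intro x hx
    exact hSA (Finset.mem_coe.2 (Finset.mem_union_left _ hx))
  · have hA : ∀ G ∈ 𝒢, ∀ i, G.coeff i ∈ A := by
      intro G hG' i
      by_cases hi : i ∈ G.support
      · exact hSA (Finset.mem_coe.2 (Finset.mem_union_right _ (Finset.mem_biUnion.2
          ⟨G, hG', Finset.mem_image_of_mem _ hi⟩)))
      · rw [Polynomial.notMem_support_iff.1 hi]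
        exact A.zero_mem
    intro G hG' h0
    apply hsum
    have hprod : (∏ H ∈ 𝒢, H) = G * ∏ H ∈ 𝒢.erase G, H :=
      (Finset.mul_prod_erase 𝒢 (fun H => H) hG').symm
    rw [hprod, evalP_mul hψ (hA G hG')
      (coeff_prod_mem _ fun H hH => hA H (Finset.mem_of_mem_erase hH)), h0, zero_mul]

end Pool.Agent.Lib.MP_209724_lc.OV
end
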