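import Mathlib
import Pool.Agent.Lib.MP_209724_lc.OV.LemmaAFin
import Pool.Agent.Lib.MP_209724_lc.HS.Branch
import Pool.Agent.Lib.MP_209724_lc.MV.GenericPoint

section

/-!
The case of a one-dimensional projection.
-/

namespace Pool.Agent.Lib.MP_209724_lc.OV

open MvPolynomial AlgebraicIndependent

variable {Ω : Type} [Field Ω] [Algebra ℂ Ω] {n : ℕ}

theorem lin_single (i : Fin n) (ξ : Fin n → Ω) : lin (Pi.single i 1) ξ = ξ i := by
  rw [lin, Finset.sum_eq_single i]
  · simp
  · intro j _ hj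
    simp [Pi.single_eq_of_ne hj]
  · intro h
    exact absurd (Finset.mem_univ i) h

omit [Algebra ℂ Ω] in
theorem mon_single (i : Fin n) (η : Fin n → Ω) : mon (Pi.single i 1) η = η i := by
  rw [mon, Finset.prod_eq_single i]
  · simp
  · intro j _ hj
    simp [Pi.single_eq_of_ne hj]
  · intro h
    exact absurd (Finset.mem_univ i) h

theorem not_isConst_of_add {ξ : Fin n → Ω}
    (hadd : ∀ m : Fin n → ℤ, m ≠ 0 → ¬ IsConst (lin m ξ)) (i : Fin n) : ¬ IsConst (ξ i) := by
  have h := hadd (Pi.single i 1) (by simp)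
  rwa [lin_single] at h

omit [Algebra ℂ Ω] in
theorem exists_two_supp {κ : Type} {η : κ → Ω} (hη : ∀ i, η i ≠ 0)
    {F : MvPolynomial κ Ω} (hF : F ≠ 0) (h : eval η F = 0) :
    ∃ m ∈ F.support, ∃ m' ∈ F.support, m ≠ m' := by
  by_contra hcon
  push Not at hcon
  obtain ⟨m, hm⟩ := support_nonempty.2 hF
  have h1 : F.support = {m} := by
    ext m'
    rw [Finset.mem_singleton]
    constructor
    · intro hm'
      exact hcon m' hm' m hm
    · rintro rfl
      exact hm
  rw [eval_eq, h1, Finset.sum_singleton, mul_eq_zero] at h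
  rcases h with h | h
  · exact mem_support_iff.1 hm h
  · rw [Finset.prod_eq_zero_iff] at h
    obtain ⟨i, _, hi⟩ := h
    exact hη i (eq_zero_of_pow_eq_zero hi)

theorem lin_sub_lin (m m' : Fin n →₀ ℕ) (ξ : Fin n → Ω) :
    ∑ i, algebraMap ℂ Ω (m i : ℂ) * ξ i - ∑ i, algebraMap ℂ Ω (m' i : ℂ) * ξ i =
      lin (fun i => (m i : ℤ) - m' i) ξ := by
  rw [lin, ← Finset.sum_sub_distrib]
  refine Finset.sum_congr rfl fun i _ => ?_
  push_cast
  ring

theorem sub_ne_zero_of_ne' {m m' : Fin n →₀ ℕ} (h : m ≠ m') :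
    (fun i => (m i : ℤ) - m' i) ≠ 0 := by
  intro h0
  apply h
  ext i
  have := congrFun h0 i
  simp only [Pi.zero_apply] at this
  omega

theorem aeval_mem {A : Subalgebra ℂ Ω} {κ : Type} {x : κ → Ω} (hx : ∀ i, x i ∈ A)
    (c : MvPolynomial κ ℂ) : aeval x c ∈ A := by
  have h1 : aeval x c ∈ Algebra.adjoin ℂ (Set.range x) := by
    rw [Algebra.adjoin_range_eq_range_aeval]
    exact ⟨c, rfl⟩
  have h2 : Algebra.adjoin ℂ (Set.range x) ≤ A := by
    apply Algebra.adjoin_le
    rintro _ ⟨i, rfl⟩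
    exact hx i
  exact h2 h1

theorem aeval_mem_cl {s : Set Ω} {κ : Type} {x : κ → Ω} (hx : ∀ i, x i ∈ cl s)
    (c : MvPolynomial κ ℂ) : aeval x c ∈ cl s :=
  aeval_mem (A := (Cl s).toSubalgebra) hx c

theorem coeff_C_mem {κ : Type} {s : Set Ω} {a : Ω} (ha : a ∈ cl s) (m : κ →₀ ℕ) :
    (C a : MvPolynomial κ Ω).coeff m ∈ cl s := by
  classical
  rw [coeff_C]
  split_ifs
  · exact ha
  · exact (Cl s).zero_mem

theorem coeff_X_mem {κ : Type} {s : Set Ω} (i : κ) (m : κ →₀ ℕ) :
    (X i : MvPolynomial κ Ω).coeff m ∈ cl s := by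
  classical
  rw [coeff_X]
  split_ifs
  · exact (Cl s).one_mem
  · exact (Cl s).zero_mem

theorem norm_lt_pi {n : ℕ} {x : Fin n → ℂ} {R : ℝ} (h : ∃ i, R < ‖x i‖) : R < ‖x‖ := by
  obtain ⟨i, hi⟩ := h
  exact hi.trans_le (norm_le_pi_norm x i)

/-- The case of a one-dimensional projection. -/
theorem caseE (hn : 0 < n) {ξ η : Fin n → Ω} (hη : ∀ i, η i ≠ 0)
    (hadd : ∀ m : Fin n → ℤ, m ≠ 0 → ¬ IsConst (lin m ξ))
    (h1 : td (Set.range ξ) = 1) (h2 : td (Set.range ξ ∪ Set.range η) = n) {w : Ω}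
    (hw : w ∉ cl (Set.range ξ)) : HasExp ξ η := by
  classical
  intro c hc R
  obtain ⟨F, hF0, hF⟩ := exists_princ (s := Set.range ξ) (by rw [h1]; decide) η
    (by rw [h2, h1, add_comm])
  set ξ₀ := ξ ⟨0, hn⟩ with hξ₀
  have hξ₀c : ¬ IsConst ξ₀ := not_isConst_of_add hadd _
  have hξ₀m : ξ₀ ∈ cl (Set.range ξ) := subset_cl _ (Set.mem_range_self _)
  have hcl : cl {ξ₀} = cl (Set.range ξ) := cl_eq_of_td_one h1 hξ₀m hξ₀c
  have huw : td {w, ξ₀} = 2 := by
    rw [Set.pair_comm]
    refine td_pair hξ₀c ?_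
    rw [hcl]
    exact hw
  have hsub : cl (Set.range ξ) ⊆ cl {w, ξ₀} := by
    rw [← hcl]
    exact cl_mono (by simp)
  have hs : Set.range ξ ⊆ cl {w, ξ₀} := (subset_cl _).trans hsub
  have hX : ∀ m : Fin n → ℤ, lin m ξ ∈ cl (Set.range ξ) := fun m =>
    lin_mem_cl m fun i => subset_cl _ (Set.mem_range_self i)
  have hXw : ∀ m : Fin n → ℤ, m ≠ 0 → lin m ξ ∉ cl {w} := by
    intro m hm h
    have h3 : lin m ξ ∉ cl ∅ := fun h => hadd m hm (isConst_iff.2 h)
    have h4 := cl_exchange (x := w) (s := ∅) (y := lin m ξ) (by simpa using h) h3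
    have h5 : cl (insert (lin m ξ) ∅) ⊆ cl (Set.range ξ) :=
      cl_subset (by
        rintro x (rfl | hx)
        · exact hX m
        · exact absurd hx (Set.notMem_empty x))
    exact hw (h5 h4)
  obtain ⟨A, ψ, hSA, hψ, huA, hσA, hxA, hexp, hR, hR', hrel⟩ :=
    expsum (u := w) (w := ξ₀) huw (σ := 1) one_ne_zero (isConst_mem_cl ⟨1, by simp⟩)
      (s := Set.range ξ) hs (κ := Fin n) (η := η) ξ (F := F) hF
      (fun i => hs (Set.mem_range_self i))
      (by
        intro m _ m' _ hmm h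
        rw [lin_sub_lin] at h
        obtain ⟨q, c', h⟩ := h
        by_cases hq : q = 0
        · subst hq
          refine hadd _ (sub_ne_zero_of_ne' hmm) ⟨c', ?_⟩
          rw [h]
          simp
        · apply hw
          have h3 : algebraMap ℂ Ω (q : ℂ) * w ∈ cl (Set.range ξ) := by
            have h4 : algebraMap ℂ Ω (q : ℂ) * w =
                lin (fun i => (m i : ℤ) - m' i) ξ - algebraMap ℂ Ω c' := by
              rw [h]
              ring
            rw [h4]
            exact sub_mem_cl (hX _) (const_mem_cl _ _)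
          exact (mul_mem_cl_iff (by exact_mod_cast hq)).1 h3)
      (by
        intro _ m _ m' _ hmm h
        rw [lin_sub_lin] at h
        exact hXw _ (sub_ne_zero_of_ne' hmm) h)
      (by
        obtain ⟨m, hm, m', hm', hmm⟩ := exists_two_supp hη hF0 hF.2.1
        refine ⟨m, hm, m', hm', ?_⟩
        rw [lin_sub_lin]
        exact hXw _ (sub_ne_zero_of_ne' hmm))
      (υ := Fin n ⊕ Fin n) (Sum.elim (fun i => C (ξ i)) X)
      (by
        rintro (i | i) m
        · exact coeff_C_mem (subset_cl _ (Set.mem_range_self i)) m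
        · exact coeff_X_mem i m)
      {(aeval ξ c)⁻¹} (by
        rw [Finset.coe_singleton, Set.singleton_subset_iff]
        exact hsub (inv_mem_cl (aeval_mem_cl (fun i => subset_cl _ (Set.mem_range_self i)) c))) R
  refine ⟨fun i => ψ (ξ i), norm_lt_pi hR', ?_, ?_⟩
  · rw [← hψ.aeval c ξ hxA]
    exact hψ.ne_zero (aeval_mem hxA c) (hSA (by simp)) hc
  · intro f hf
    have h3 := hrel f (by
      convert hf using 2
      congr 1
      funext i
      rcases i with i | i <;> simp)
    have h4 : (fun i => evalC ψ (Sum.elim (fun i => C (ξ i)) X i : MvPolynomial (Fin n) Ω)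
        fun i => Complex.exp (ψ (ξ i))) =
        Sum.elim (fun i => ψ (ξ i)) fun i => Complex.exp (ψ (ξ i)) := by
      funext i
      rcases i with i | i
      · exact evalC_C hψ _ _
      · exact evalC_X hψ _ _
    rw [h4] at h3
    exact h3

end Pool.Agent.Lib.MP_209724_lc.OV
end

section

/-!
Three variables, two-dimensional projection, one algebraic monomial: the main case.
-/

namespace Pool.Agent.Lib.MP_209724_lc.OV

open MvPolynomial AlgebraicIndependent

variable {Ω : Type} [Field Ω] [Algebra ℂ Ω]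

theorem lin_three (a b c : ℤ) (ξ : Fin 3 → Ω) :
    lin ![a, b, c] ξ = algebraMap ℂ Ω (a : ℂ) * ξ 0 + algebraMap ℂ Ω (b : ℂ) * ξ 1 +
      algebraMap ℂ Ω (c : ℂ) * ξ 2 := by
  rw [lin, Fin.sum_univ_three]
  rfl

/-- if `lin m ξ` is in `ℚ u + ℂ` then `m = 0` -/
theorem not_ratLin_of_add {ξ : Fin 3 → Ω} (hadd : ∀ m : Fin 3 → ℤ, m ≠ 0 → ¬ IsConst (lin m ξ))
    {a b : ℤ} (hab : a ≠ 0 ∨ b ≠ 0) : ¬ RatLin (ξ 0) (lin ![0, a, b] ξ) := by
  rintro ⟨q, c, h⟩
  have hd : ((q.den : ℤ) : ℂ) ≠ 0 := by exact_mod_cast q.den_nz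
  have hq : (q : ℂ) * (q.den : ℤ) = (q.num : ℂ) := by
    have := Rat.mul_den_eq_num q
    exact_mod_cast this
  refine hadd ![-q.num, q.den * a, q.den * b] ?_ ⟨(q.den : ℤ) * c, ?_⟩
  · intro h0
    have h1 := congrFun h0 1
    have h2 := congrFun h0 2
    simp at h1 h2
    rcases hab with h3 | h3
    · exact h3 h1
    · exact h3 h2
  · rw [lin_three] at h ⊢
    have h4 : algebraMap ℂ Ω ((-q.num : ℤ) : ℂ) = - (algebraMap ℂ Ω (q : ℂ) *
        algebraMap ℂ Ω ((q.den : ℤ) : ℂ)) := by
      rw [← map_mul, ← map_neg, hq]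
      push_cast
      ring_nf
    have h5 : ∀ k : ℤ, algebraMap ℂ Ω (((q.den : ℤ) * k : ℤ) : ℂ) =
        algebraMap ℂ Ω ((q.den : ℤ) : ℂ) * algebraMap ℂ Ω (k : ℂ) := by
      intro k
      rw [← map_mul]
      push_cast
      rfl
    rw [h4, h5, h5, map_mul]
    have h6 : algebraMap ℂ Ω ((0 : ℤ) : ℂ) = 0 := by simp
    rw [h6] at h
    linear_combination (algebraMap ℂ Ω ((q.den : ℤ) : ℂ)) * h

theorem diff_two (m m' : Fin 2 →₀ ℕ) (ξ : Fin 3 → Ω) :
    ∑ i, algebraMap ℂ Ω (m i : ℂ) * ![ξ 1, ξ 2] i - ∑ i, algebraMap ℂ Ω (m' i : ℂ) * ![ξ 1, ξ 2] i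
      = lin ![0, (m 0 : ℤ) - m' 0, (m 1 : ℤ) - m' 1] ξ := by
  rw [lin_three, Fin.sum_univ_two, Fin.sum_univ_two]
  simp only [Matrix.cons_val_zero, Matrix.cons_val_one]
  push_cast
  ring

theorem exists_not_mem {ξ : Fin 3 → Ω} (h2 : td (Set.range ξ) = 2) (u : Ω) :
    ∃ i, ξ i ∉ cl {u} := by
  by_contra hcon
  push Not at hcon
  have h3 : td (Set.range ξ) ≤ td {u} := td_le_of_subset_cl (by
    rintro _ ⟨i, rfl⟩
    exact hcon i)
  rw [h2] at h3
  exact absurd (h3.trans (td_singleton_le u)) (by decide)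

/-- two independent combinations of `ξ 1`, `ξ 2` -/
theorem mem_of_det {s : Set Ω} {ξ : Fin 3 → Ω} {a b c d : ℤ} (hdet : a * d - b * c ≠ 0)
    (h1 : lin ![0, a, b] ξ ∈ cl s) (h2 : lin ![0, c, d] ξ ∈ cl s) :
    ξ 1 ∈ cl s ∧ ξ 2 ∈ cl s := by
  have hc : (((a * d - b * c : ℤ)) : ℂ) ≠ 0 := by exact_mod_cast hdet
  rw [lin_three] at h1 h2
  constructor
  · rw [← mul_mem_cl_iff hc]
    have h3 := sub_mem_cl (mul_mem_cl (const_mem_cl s (d : ℂ)) h1)
      (mul_mem_cl (const_mem_cl s (b : ℂ)) h2)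
    convert h3 using 1
    push_cast
    ring
  · rw [← mul_mem_cl_iff hc]
    have h3 := sub_mem_cl (mul_mem_cl (const_mem_cl s (a : ℂ)) h2)
      (mul_mem_cl (const_mem_cl s (c : ℂ)) h1)
    convert h3 using 1
    push_cast
    ring

theorem caseD {ξ η : Fin 3 → Ω} (h : FR ξ η) (h2 : td (Set.range ξ) = 2)
    (h0 : η 0 ∈ cl (Set.range ξ))
    (hmon : ∀ a b : ℤ, (a ≠ 0 ∨ b ≠ 0) → η 1 ^ a * η 2 ^ b ∉ cl (Set.range ξ))
    (hcase : η 0 ∈ cl {ξ 0} → ∀ a b : ℤ, (a ≠ 0 ∨ b ≠ 0) → lin ![0, a, b] ξ ∉ cl {ξ 0}) :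
    HasExp ξ η := by
  classical
  intro c hc R
  have hall : cl (Set.range ξ ∪ Set.range ![η 1, η 2]) = cl (Set.range ξ ∪ Set.range η) := by
    refine cl_eq_of ?_ ?_
    · rintro _ (hx | ⟨i, rfl⟩)
      · exact subset_cl _ (Or.inl hx)
      · fin_cases i
        · exact subset_cl _ (Or.inr ⟨1, rfl⟩)
        · exact subset_cl _ (Or.inr ⟨2, rfl⟩)
    · rintro _ (hx | ⟨i, rfl⟩)
      · exact subset_cl _ (Or.inl hx)
      · fin_cases i
        · exact cl_mono Set.subset_union_left h0
        · exact subset_cl _ (Or.inr ⟨0, rfl⟩)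
        · exact subset_cl _ (Or.inr ⟨1, rfl⟩)
  obtain ⟨F, hF0, hF⟩ := exists_princ (s := Set.range ξ) (by rw [h2]; decide) ![η 1, η 2]
    (by
      rw [td_eq_of_cl hall, h.dim, h2]
      norm_num)
  have hη' : ∀ i, ![η 1, η 2] i ≠ 0 := by
    intro i
    fin_cases i
    · exact h.ne 1
    · exact h.ne 2
  obtain ⟨i, hi⟩ := exists_not_mem h2 (ξ 0)
  have huc : ¬ IsConst (ξ 0) := not_isConst_of_add h.add 0
  have huw : td {ξ 0, ξ i} = 2 := td_pair huc hi
  have hcl : cl {ξ 0, ξ i} = cl (Set.range ξ) :=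
    cl_eq_of_td_two h2 (subset_cl _ (Set.mem_range_self _)) (subset_cl _ (Set.mem_range_self _))
      huw
  have hξ : ∀ i, ξ i ∈ cl (Set.range ξ) := fun i => subset_cl _ (Set.mem_range_self i)
  obtain ⟨A, ψ, hSA, hψ, huA, hσA, hxA, hexp, hR, -, hrel⟩ :=
    expsum (u := ξ 0) (w := ξ i) huw (σ := η 0) (h.ne 0) (by rw [hcl]; exact h0)
      (s := Set.range ξ) (by rw [hcl]; exact subset_cl _) (κ := Fin 2) (η := ![η 1, η 2])
      ![ξ 1, ξ 2] (F := F) hF
      (by
        intro i
        rw [hcl]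
        fin_cases i
        · exact hξ 1
        · exact hξ 2)
      (by
        intro m _ m' _ hmm
        rw [diff_two]
        apply not_ratLin_of_add h.add
        by_contra hcon
        push Not at hcon
        apply hmm
        ext j
        fin_cases j
        · have := hcon.1
          simp only [Fin.mk_zero, Fin.isValue] at this ⊢
          omega
        · have := hcon.2
          simp only [Fin.mk_one, Fin.isValue] at this ⊢
          omega)
      (by
        intro hσ m _ m' _ hmm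
        rw [diff_two]
        apply hcase hσ
        by_contra hcon
        push Not at hcon
        apply hmm
        ext j
        fin_cases j
        · have := hcon.1
          simp only [Fin.mk_zero, Fin.isValue] at this ⊢
          omega
        · have := hcon.2
          simp only [Fin.mk_one, Fin.isValue] at this ⊢
          omega)
      (by
        obtain ⟨m, hm, m', hm', m'', hm'', hdet⟩ :=
          exists_supp hη' (s := Set.range ξ) hmon hF0 hF.1 hF.2.1
        by_contra hcon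
        push Not at hcon
        have e1 := hcon m' hm' m hm
        have e2 := hcon m'' hm'' m hm
        rw [diff_two] at e1 e2
        obtain ⟨e3, e4⟩ := mem_of_det hdet e1 e2
        have e5 : td (Set.range ξ) ≤ td {ξ 0} := td_le_of_subset_cl (by
          rintro _ ⟨j, rfl⟩
          fin_cases j
          · exact subset_cl _ rfl
          · exact e3
          · exact e4)
        rw [h2] at e5
        exact absurd (e5.trans (td_singleton_le _)) (by decide))
      (υ := Fin 3 ⊕ Fin 3) (Sum.elim (fun i => C (ξ i)) ![C (η 0), X 0, X 1])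
      (by
        rintro (i | i) m
        · exact coeff_C_mem (hξ i) m
        · fin_cases i
          · exact coeff_C_mem h0 m
          · exact coeff_X_mem 0 m
          · exact coeff_X_mem 1 m)
      {(aeval ξ c)⁻¹} (by
        rw [Finset.coe_singleton, Set.singleton_subset_iff, hcl]
        exact inv_mem_cl (aeval_mem_cl hξ c)) R
  have hξA : ∀ i, ξ i ∈ A := by
    intro i
    fin_cases i
    · exact huA
    · exact hxA 0
    · exact hxA 1
  refine ⟨fun i => ψ (ξ i), norm_lt_pi ⟨0, hR⟩, ?_, ?_⟩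
  · rw [← hψ.aeval c ξ hξA]
    exact hψ.ne_zero (aeval_mem hξA c) (hSA (by simp)) hc
  · intro f hf
    have h3 := hrel f (by
      convert hf using 2
      congr 1
      funext i
      rcases i with i | i
      · simp
      · fin_cases i <;> simp)
    have h4 : (fun i => evalC ψ (Sum.elim (fun i => C (ξ i)) ![C (η 0), X 0, X 1] i :
        MvPolynomial (Fin 2) Ω) fun i => Complex.exp (ψ (![ξ 1, ξ 2] i))) =
        Sum.elim (fun i => ψ (ξ i)) fun i => Complex.exp (ψ (ξ i)) := by
      funext i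
      rcases i with i | i
      · exact evalC_C hψ _ _
      · fin_cases i
        · exact (evalC_C hψ _ _).trans hexp.symm
        · exact evalC_X hψ _ _
        · exact evalC_X hψ _ _
    rw [h4] at h3
    exact h3

end Pool.Agent.Lib.MP_209724_lc.OV
end

section

/-!
Three variables, two-dimensional projection, one algebraic monomial: the degenerate case, in which
`η 0` and `ξ 1` are algebraic over `ℂ(ξ 0)`.
-/

namespace Pool.Agent.Lib.MP_209724_lc.OV

open MvPolynomial AlgebraicIndependent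

variable {Ω : Type} [Field Ω] [Algebra ℂ Ω]

/-- values of sums of monomials in one variable -/
theorem evalP_sum {A : Subalgebra ℂ Ω} {ψ : Ω → ℂ} (hψ : IsHomOn A ψ) {ι : Type} (T : Finset ι)
    (d : ι → ℕ) (a : ι → Ω) (ha : ∀ m ∈ T, a m ∈ A) (y : ℂ) :
    ∑ i ∈ (∑ m ∈ T, Polynomial.monomial (d m) (a m)).support,
      ψ ((∑ m ∈ T, Polynomial.monomial (d m) (a m)).coeff i) * y ^ i =
      ∑ m ∈ T, ψ (a m) * y ^ d m := by
  classical
  set G := ∑ m ∈ T, Polynomial.monomial (d m) (a m) with hG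
  have hcoeff : ∀ i, G.coeff i = ∑ m ∈ T, if d m = i then a m else 0 := by
    intro i
    rw [hG, Polynomial.finsetSum_coeff]
    refine Finset.sum_congr rfl fun m _ => ?_
    rw [Polynomial.coeff_monomial]
  have h1 : ∀ i, ψ (G.coeff i) = ∑ m ∈ T, if d m = i then ψ (a m) else 0 := by
    intro i
    rw [hcoeff, hψ.sum _ _ (fun m hm => by
      split_ifs
      · exact ha m hm
      · exact A.zero_mem)]
    refine Finset.sum_congr rfl fun m _ => ?_
    split_ifs
    · rfl
    · exact hψ.zero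
  have h2 : ∑ i ∈ G.support, ψ (G.coeff i) * y ^ i =
      ∑ i ∈ G.support ∪ T.image d, ψ (G.coeff i) * y ^ i := by
    refine Finset.sum_subset Finset.subset_union_left fun i _ hi => ?_
    rw [Polynomial.notMem_support_iff.1 hi, hψ.zero, zero_mul]
  rw [h2]
  simp only [h1, Finset.sum_mul]
  rw [Finset.sum_comm]
  refine Finset.sum_congr rfl fun m hm => ?_
  rw [Finset.sum_eq_single (d m)]
  · rw [if_pos rfl]
  · intro i _ hi
    rw [if_neg (Ne.symm hi), zero_mul]
  · intro h
    exact absurd (Finset.mem_union_right _ (Finset.mem_image_of_mem d hm)) h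

/-- a sum of monomials is not zero if one degree occurs exactly once -/
theorem sum_monomial_ne_zero {R ι : Type} [Semiring R] (T : Finset ι) (d : ι → ℕ) (a : ι → R)
    {m : ι} (hm : m ∈ T) (ha : a m ≠ 0) (hd : ∀ m' ∈ T, d m' = d m → m' = m) :
    ∑ m ∈ T, Polynomial.monomial (d m) (a m) ≠ 0 := by
  intro h
  apply ha
  have h1 := congrArg (fun p => Polynomial.coeff p (d m)) h
  simp only [Polynomial.finsetSum_coeff, Polynomial.coeff_monomial, Polynomial.coeff_zero] at h1
  rw [Finset.sum_eq_single m] at h1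
  · rwa [if_pos rfl] at h1
  · intro m' hm' hne
    rw [if_neg fun h => hne (hd m' hm' h)]
  · intro h
    exact absurd hm h

omit [Algebra ℂ Ω] in
theorem eval_three (F : MvPolynomial (Fin 3) Ω) (θ : Fin 3 → Ω) :
    eval θ F = ∑ m ∈ F.support, F.coeff m * (θ 0 ^ m 0 * θ 1 ^ m 1 * θ 2 ^ m 2) := by
  rw [eval_eq']
  refine Finset.sum_congr rfl fun m _ => ?_
  rw [Fin.prod_univ_three]

theorem ext_three {m m' : Fin 3 →₀ ℕ} (h0 : m 0 = m' 0) (h1 : m 1 = m' 1) (h2 : m 2 = m' 2) :
    m = m' := by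
  ext i
  fin_cases i
  · exact h0
  · exact h1
  · exact h2

/-- the degree in the last variable is not constant -/
theorem exists_two_last {s : Set Ω} (hs : td s ≠ ⊤) {θ : Fin 3 → Ω}
    (h : td (s ∪ Set.range ![θ 0, θ 1]) = td s + 2) (hθ : θ 2 ≠ 0) {F : MvPolynomial (Fin 3) Ω}
    (hF0 : F ≠ 0) (hFc : ∀ m, F.coeff m ∈ cl s) (hFe : eval θ F = 0) :
    ∃ m ∈ F.support, ∃ m' ∈ F.support, m 2 ≠ m' 2 := by
  classical
  by_contra hcon
  push Not at hcon
  obtain ⟨m₀, hm₀⟩ := support_nonempty.2 hF0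
  set f : (Fin 3 →₀ ℕ) → (Fin 2 →₀ ℕ) := fun m => Finsupp.equivFunOnFinite.symm ![m 0, m 1]
    with hf
  set F₁ : MvPolynomial (Fin 2) Ω := ∑ m ∈ F.support, monomial (f m) (F.coeff m) with hF₁
  have hcoeff : ∀ i, F₁.coeff i = ∑ m ∈ F.support, if f m = i then F.coeff m else 0 := by
    intro i
    rw [hF₁, coeff_sum]
    refine Finset.sum_congr rfl fun m _ => ?_
    rw [coeff_monomial]
  have h1 : F₁ = 0 := by
    refine princ_zero hs ![θ 0, θ 1] (by rw [h]; norm_num) F₁ ?_ ?_
    · intro i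
      rw [hcoeff]
      refine sum_mem_cl _ _ fun m _ => ?_
      split_ifs
      · exact hFc m
      · exact (Cl s).zero_mem
    · have h2 : eval ![θ 0, θ 1] F₁ * θ 2 ^ m₀ 2 = 0 := by
        rw [← hFe, eval_three, hF₁, map_sum, Finset.sum_mul]
        refine Finset.sum_congr rfl fun m hm => ?_
        rw [eval_monomial, Finsupp.prod_fintype _ _ (fun i => pow_zero _), Fin.prod_univ_two]
        rw [hcon m₀ hm₀ m hm]
        simp only [hf, Finsupp.equivFunOnFinite_symm_apply_apply, Matrix.cons_val_zero,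
          Matrix.cons_val_one]
        ring
      rcases mul_eq_zero.1 h2 with h3 | h3
      · exact h3
      · exact absurd h3 (pow_ne_zero _ hθ)
  have h2 := hcoeff (f m₀)
  rw [h1, coeff_zero, Finset.sum_eq_single m₀] at h2
  · rw [if_pos rfl] at h2
    exact mem_support_iff.1 hm₀ h2.symm
  · intro m hm hne
    rw [if_neg]
    intro h3
    apply hne
    have h4 : ∀ i, f m i = f m₀ i := fun i => by rw [h3]
    have h5 := h4 0
    have h6 := h4 1
    simp only [hf, Finsupp.equivFunOnFinite_symm_apply_apply, Matrix.cons_val_zero,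
      Matrix.cons_val_one] at h5 h6
    exact ext_three h5 h6 (hcon m hm m₀ hm₀)
  · intro h3
    exact absurd hm₀ h3

/-- the coefficient of `X₂ ^ k` in `c(ξ₀, ξ₁, X₂)` -/
noncomputable def cofC (c : MvPolynomial (Fin 3) ℂ) (ξ : Fin 3 → Ω) (k : ℕ) : Ω :=
  ∑ m ∈ c.support with m 2 = k, algebraMap ℂ Ω (c.coeff m) * (ξ 0 ^ m 0 * ξ 1 ^ m 1)

theorem exists_cofC {c : MvPolynomial (Fin 3) ℂ} {ξ : Fin 3 → Ω} (hc : aeval ξ c ≠ 0) :
    ∃ k, cofC c ξ k ≠ 0 := by
  classical
  by_contra hcon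
  push Not at hcon
  apply hc
  have h1 : aeval ξ c = ∑ m ∈ c.support, algebraMap ℂ Ω (c.coeff m) *
      (ξ 0 ^ m 0 * ξ 1 ^ m 1) * ξ 2 ^ m 2 := by
    rw [aeval_def, eval₂_eq']
    refine Finset.sum_congr rfl fun m _ => ?_
    rw [Fin.prod_univ_three]
    ring
  rw [h1, ← Finset.sum_fiberwise_of_maps_to (s := c.support) (t := c.support.image fun m => m 2)
    (g := fun m => m 2) (fun m hm => Finset.mem_image_of_mem _ hm)]
  refine Finset.sum_eq_zero fun k _ => ?_
  have h2 : ∑ m ∈ c.support with m 2 = k, algebraMap ℂ Ω (c.coeff m) *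
      (ξ 0 ^ m 0 * ξ 1 ^ m 1) * ξ 2 ^ m 2 = cofC c ξ k * ξ 2 ^ k := by
    rw [cofC, Finset.sum_mul]
    refine Finset.sum_congr rfl fun m hm => ?_
    rw [(Finset.mem_filter.1 hm).2]
  rw [h2, hcon k, zero_mul]

/-- Three variables, two-dimensional projection, the degenerate case. -/
theorem caseC [IsAlgClosed Ω] {ξ η : Fin 3 → Ω} (h : FR ξ η) (h2 : td (Set.range ξ) = 2)
    (h0 : η 0 ∈ cl {ξ 0}) (h1 : ξ 1 ∈ cl {ξ 0}) (hmon : η 1 ∉ cl (Set.range ξ)) :
    HasExp ξ η := by
  classical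
  intro c hc R
  -- closures
  have huc : ¬ IsConst (ξ 0) := not_isConst_of_add h.add 0
  have hu1 : td {ξ 0} = 1 := td_singleton huc
  have hτ : ξ 2 ∉ cl {ξ 0} := by
    intro hcon
    obtain ⟨i, hi⟩ := exists_not_mem h2 (ξ 0)
    apply hi
    fin_cases i
    · exact subset_cl _ rfl
    · exact h1
    · exact hcon
  have huw : td {ξ 0, ξ 2} = 2 := td_pair huc hτ
  have hξ : ∀ i, ξ i ∈ cl (Set.range ξ) := fun i => subset_cl _ (Set.mem_range_self i)
  have hcl : cl {ξ 0, ξ 2} = cl (Set.range ξ) := cl_eq_of_td_two h2 (hξ 0) (hξ 2) huw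
  have hall : cl ({ξ 0} ∪ Set.range ![ξ 2, η 1, η 2]) = cl (Set.range ξ ∪ Set.range η) := by
    refine cl_eq_of ?_ ?_
    · rintro _ (rfl | ⟨i, rfl⟩)
      · exact subset_cl _ (Or.inl ⟨0, rfl⟩)
      · fin_cases i
        · exact subset_cl _ (Or.inl ⟨2, rfl⟩)
        · exact subset_cl _ (Or.inr ⟨1, rfl⟩)
        · exact subset_cl _ (Or.inr ⟨2, rfl⟩)
    · rintro _ (⟨i, rfl⟩ | ⟨i, rfl⟩)
      · fin_cases i
        · exact subset_cl _ (Or.inl rfl)
        · exact cl_mono Set.subset_union_left h1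
        · exact subset_cl _ (Or.inr ⟨0, rfl⟩)
      · fin_cases i
        · exact cl_mono Set.subset_union_left h0
        · exact subset_cl _ (Or.inr ⟨1, rfl⟩)
        · exact subset_cl _ (Or.inr ⟨2, rfl⟩)
  obtain ⟨F, hF0, hF⟩ := exists_princ (s := {ξ 0}) (by rw [hu1]; decide) ![ξ 2, η 1, η 2]
    (by
      rw [td_eq_of_cl hall, h.dim, hu1]
      norm_num)
  -- two degrees in the last variable
  obtain ⟨m₁, hm₁, m₂, hm₂, hm⟩ := exists_two_last (s := {ξ 0}) (by rw [hu1]; decide)
    (θ := ![ξ 2, η 1, η 2]) (by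
      have e1 : ({ξ 0} : Set Ω) ∪ Set.range ![(![ξ 2, η 1, η 2] : Fin 3 → Ω) 0,
          (![ξ 2, η 1, η 2] : Fin 3 → Ω) 1] = insert (η 1) {ξ 0, ξ 2} := by
        simp only [Matrix.cons_val_zero, Matrix.cons_val_one, Matrix.range_cons,
          Matrix.range_empty, Set.union_empty]
        ext x
        simp only [Set.mem_union, Set.mem_singleton_iff, Set.mem_insert_iff]
        tauto
      rw [e1, td_insert_eq (by rw [hcl]; exact hmon), huw, hu1]
      norm_num)
    (h.ne 2) hF0 hF.1 hF.2.1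
  obtain ⟨k, hk⟩ := exists_cofC hc
  -- the finite set
  have hu0 : ξ 0 ∈ cl {ξ 0} := subset_cl {ξ 0} rfl
  have hξ01 : ∀ m : Fin 3 →₀ ℕ, ξ 0 ^ m 0 * ξ 1 ^ m 1 ∈ cl {ξ 0} := fun m =>
    mul_mem_cl (pow_mem_cl hu0 _) (pow_mem_cl h1 _)
  have hcof : cofC c ξ k ∈ cl {ξ 0} := by
    unfold cofC
    refine sum_mem_cl _ _ fun m _ => ?_
    exact mul_mem_cl (const_mem_cl _ _) (hξ01 m)
  set v : Fin 3 ⊕ Fin 3 → MvPolynomial (Fin 3) Ω :=
    Sum.elim ![C (ξ 0), C (ξ 1), X 0] ![C (η 0), X 1, X 2] with hv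
  obtain ⟨S₀, hS₀, hgen⟩ := gen hF v (by
    rintro (i | i) m
    · fin_cases i
      · exact coeff_C_mem hu0 m
      · exact coeff_C_mem h1 m
      · exact coeff_X_mem 0 m
    · fin_cases i
      · exact coeff_C_mem h0 m
      · exact coeff_X_mem 1 m
      · exact coeff_X_mem 2 m)
  -- the polynomials in `Y₁`
  set G : (Fin 3 →₀ ℕ) → Polynomial Ω := fun m' =>
    ∑ m ∈ F.support with m 0 = m' 0 ∧ m 2 = m' 2, Polynomial.monomial (m 1) (F.coeff m) with hG
  have hG0 : ∀ m' ∈ F.support, G m' ≠ 0 := by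
    intro m' hm'
    have e1 : m' ∈ F.support.filter fun m => m 0 = m' 0 ∧ m 2 = m' 2 :=
      Finset.mem_filter.2 ⟨hm', rfl, rfl⟩
    refine sum_monomial_ne_zero (F.support.filter fun m => m 0 = m' 0 ∧ m 2 = m' 2)
      (fun m => m 1) (fun m => F.coeff m) (m := m') e1 (mem_support_iff.1 hm') ?_
    intro m hm h3
    obtain ⟨-, h4, h5⟩ := Finset.mem_filter.1 hm
    exact ext_three h4 h3 h5
  have hGc : ∀ m' i, (G m').coeff i ∈ cl {ξ 0} := by
    intro m' i
    rw [hG]
    simp only
    rw [Polynomial.finsetSum_coeff]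
    refine sum_mem_cl _ _ fun m _ => ?_
    rw [Polynomial.coeff_monomial]
    split_ifs
    · exact hF.1 m
    · exact (Cl _).zero_mem
  -- the analytic input
  have hsub : cl {ξ 0} ⊆ cl {ξ 0, ξ 2} := cl_mono (by simp)
  have hη0c : ¬ IsConst (η 0) := by
    have := h.mul (Pi.single 0 1) (by simp)
    rwa [mon_single] at this
  have hβ : ¬ RatLin (ξ 0) (ξ 1) := by
    have := not_ratLin_of_add (ξ := ξ) h.add (a := 1) (b := 0) (Or.inl one_ne_zero)
    rw [lin_three] at this
    simpa using this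
  obtain ⟨A, ψ, hSA, huA, hσA, hβA, hψ, hexp, hR, hnz⟩ :=
    lemmaA_fin (u := ξ 0) (w := ξ 2) huw h0 (h.ne 0) hη0c h1 hβ {G m₁, G m₂}
      (by
        intro G' hG'
        rcases Finset.mem_insert.1 hG' with rfl | h3
        · exact hG0 m₁ hm₁
        · rw [Finset.mem_singleton.1 h3]
          exact hG0 m₂ hm₂)
      (by
        intro G' hG' i
        rcases Finset.mem_insert.1 hG' with rfl | h3
        · exact hGc m₁ i
        · rw [Finset.mem_singleton.1 h3]
          exact hGc m₂ i)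
      (S₀ ∪ {(cofC c ξ k)⁻¹} ∪ F.support.image fun m => F.coeff m) (by
        intro f hf
        rw [Finset.coe_union, Finset.coe_union, Finset.coe_singleton, Finset.coe_image] at hf
        apply hsub
        rcases hf with (hf | rfl) | ⟨m, -, rfl⟩
        · have := hS₀ hf
          exact this
        · exact inv_mem_cl hcof
        · exact hF.1 m) R
  have hFA : ∀ m ∈ F.support, F.coeff m ∈ A := fun m hm =>
    hSA (by
      rw [Finset.coe_union, Finset.coe_image]
      exact Or.inr ⟨m, hm, rfl⟩)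
  set y₁ := Complex.exp (ψ (ξ 1)) with hy₁
  -- the exponential polynomial in `T`
  set p : ℕ → Polynomial ℂ := fun j =>
    ∑ m ∈ F.support with m 2 = j, Polynomial.monomial (m 0) (ψ (F.coeff m) * y₁ ^ m 1) with hp
  have hpne : ∀ m' ∈ F.support, (∑ i ∈ (G m').support, ψ ((G m').coeff i) * y₁ ^ i ≠ 0) →
      p (m' 2) ≠ 0 := by
    intro m' hm' hne h3
    apply hne
    rw [hG]
    simp only
    rw [evalP_sum hψ _ (fun m => m 1) (fun m => F.coeff m)
      (fun m hm => hFA m (Finset.mem_filter.1 hm).1)]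
    have h4 := congrArg (fun q => Polynomial.coeff q (m' 0)) h3
    simp only [hp, Polynomial.finsetSum_coeff, Polynomial.coeff_monomial,
      Polynomial.coeff_zero] at h4
    rw [← Finset.sum_filter, Finset.filter_filter] at h4
    rw [← h4]
    refine Finset.sum_congr ?_ fun m _ => rfl
    ext m
    simp only [Finset.mem_filter]
    tauto
  have hp₁ := hpne m₁ hm₁ (hnz _ (by simp))
  have hp₂ := hpne m₂ hm₂ (hnz _ (by simp))
  set J : Finset ℕ := (F.support.image fun m => m 2).filter fun j => p j ≠ 0 with hJ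
  have hJc : 1 < J.card := by
    rw [Finset.one_lt_card]
    exact ⟨m₁ 2, Finset.mem_filter.2 ⟨Finset.mem_image_of_mem _ hm₁, hp₁⟩,
      m₂ 2, Finset.mem_filter.2 ⟨Finset.mem_image_of_mem _ hm₂, hp₂⟩, hm⟩
  -- the polynomial `c(x₀, x₁, T)`
  set q : Polynomial ℂ := ∑ m ∈ c.support,
    Polynomial.monomial (m 2) (c.coeff m * (ψ (ξ 0) ^ m 0 * ψ (ξ 1) ^ m 1)) with hq
  have hcofψ : ψ (cofC c ξ k) ≠ 0 := by
    refine hψ.ne_zero ?_ (hSA ?_) hk
    · exact A.sum_mem fun m _ => A.mul_mem (A.algebraMap_mem _)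
        (A.mul_mem (A.pow_mem huA _) (A.pow_mem hβA _))
    · rw [Finset.coe_union, Finset.coe_union, Finset.coe_singleton]
      exact Or.inl (Or.inr rfl)
  have hq0 : q ≠ 0 := by
    intro h3
    apply hcofψ
    have h4 := congrArg (fun q => Polynomial.coeff q k) h3
    simp only [hq, Polynomial.finsetSum_coeff, Polynomial.coeff_monomial,
      Polynomial.coeff_zero] at h4
    rw [← Finset.sum_filter] at h4
    rw [← h4, cofC, hψ.sum _ _ fun m _ => A.mul_mem (A.algebraMap_mem _)
      (A.mul_mem (A.pow_mem huA _) (A.pow_mem hβA _))]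
    refine Finset.sum_congr rfl fun m _ => ?_
    rw [hψ.mul (A.algebraMap_mem _) (A.mul_mem (A.pow_mem huA _) (A.pow_mem hβA _)), hψ.const,
      hψ.mul (A.pow_mem huA _) (A.pow_mem hβA _), hψ.pow huA, hψ.pow hβA]
  obtain ⟨t, hqt, ht⟩ := classical J hJc p (fun j hj => (Finset.mem_filter.1 hj).2) q hq0
  -- the point
  refine ⟨![ψ (ξ 0), ψ (ξ 1), t], norm_lt_pi ⟨0, hR⟩, ?_, ?_⟩
  · have h3 : eval ![ψ (ξ 0), ψ (ξ 1), t] c = q.eval t := by
      rw [eval_eq', hq, Polynomial.eval_finsetSum]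
      refine Finset.sum_congr rfl fun m _ => ?_
      rw [Polynomial.eval_monomial, Fin.prod_univ_three]
      simp only [Matrix.cons_val_zero, Matrix.cons_val_one, Matrix.cons_val]
      ring
    rw [h3]
    exact hqt
  · intro f hf
    have h3 := hgen A ψ (fun x hx => hSA (by
        rw [Finset.coe_union, Finset.coe_union]
        exact Or.inl (Or.inl hx))) hψ ![t, y₁, Complex.exp t] (by
      unfold evalC
      rw [← ht]
      have h4 : ∑ j ∈ J, (p j).eval t * Complex.exp t ^ j =
          ∑ j ∈ F.support.image fun m => m 2, (p j).eval t * Complex.exp t ^ j := by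
        refine Finset.sum_subset (Finset.filter_subset _ _) fun j hj hj' => ?_
        have h5 : p j = 0 := by
          by_contra h6
          exact hj' (Finset.mem_filter.2 ⟨hj, h6⟩)
        rw [h5, Polynomial.eval_zero, zero_mul]
      rw [h4, ← Finset.sum_fiberwise_of_maps_to (s := F.support)
        (t := F.support.image fun m => m 2) (g := fun m => m 2)
        (fun m hm => Finset.mem_image_of_mem _ hm)]
      refine Finset.sum_congr rfl fun j _ => ?_
      rw [hp]
      simp only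
      rw [Polynomial.eval_finsetSum, Finset.sum_mul]
      refine Finset.sum_congr rfl fun m hm => ?_
      rw [Polynomial.eval_monomial, Fin.prod_univ_three, ← (Finset.mem_filter.1 hm).2]
      simp only [Matrix.cons_val_zero, Matrix.cons_val_one, Matrix.cons_val]
      ring) f (by
      convert hf using 2
      congr 1
      funext i
      rcases i with i | i
      · fin_cases i <;> simp [hv]
      · fin_cases i <;> simp [hv])
    have h4 : (fun i => evalC ψ (v i) ![t, y₁, Complex.exp t]) =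
        Sum.elim ![ψ (ξ 0), ψ (ξ 1), t]
          fun i => Complex.exp ((![ψ (ξ 0), ψ (ξ 1), t] : Fin 3 → ℂ) i) := by
      funext i
      rcases i with i | i
      · fin_cases i
        · exact evalC_C hψ _ _
        · exact evalC_C hψ _ _
        · exact evalC_X hψ _ _
      · fin_cases i
        · exact (evalC_C hψ _ _).trans hexp.symm
        · exact evalC_X hψ _ _
        · exact evalC_X hψ _ _
    rw [h4] at h3
    exact h3

end Pool.Agent.Lib.MP_209724_lc.OV
end

section

/-!
Two variables.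
-/

namespace Pool.Agent.Lib.MP_209724_lc.OV

open MvPolynomial AlgebraicIndependent

variable {Ω : Type} [Field Ω] [Algebra ℂ Ω]

theorem coeff_aeval_mem {κ υ : Type} {A : Subalgebra ℂ Ω} (v : υ → MvPolynomial κ Ω)
    (hv : ∀ i m, (v i).coeff m ∈ A) (D : MvPolynomial υ ℂ) :
    ∀ m, (aeval v D).coeff m ∈ A := by
  classical
  induction D using MvPolynomial.induction_on with
  | C a =>
    intro m
    rw [aeval_C, MvPolynomial.algebraMap_apply, coeff_C]
    split_ifs
    · exact A.algebraMap_mem a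
    · exact A.zero_mem
  | add p q hp hq =>
    intro m
    rw [map_add, coeff_add]
    exact A.add_mem (hp m) (hq m)
  | mul_X p i hp =>
    intro m
    rw [map_mul, aeval_X, coeff_mul]
    exact A.sum_mem fun x _ => A.mul_mem (hp _) (hv i _)

theorem lin_two (a b : ℤ) (ξ : Fin 2 → Ω) :
    lin ![a, b] ξ = algebraMap ℂ Ω (a : ℂ) * ξ 0 + algebraMap ℂ Ω (b : ℂ) * ξ 1 := by
  rw [lin, Fin.sum_univ_two]
  rfl

/-- Two variables, one-dimensional projection, one algebraic monomial. -/
theorem n2a [IsAlgClosed Ω] {ξ η : Fin 2 → Ω} (h : FR ξ η) (h1 : td (Set.range ξ) = 1)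
    (h0 : η 0 ∈ cl (Set.range ξ)) : HasExpD ξ η := by
  classical
  intro D hD R
  have huc : ¬ IsConst (ξ 0) := not_isConst_of_add h.add 0
  have hξ : ∀ i, ξ i ∈ cl (Set.range ξ) := fun i => subset_cl _ (Set.mem_range_self i)
  have hcl : cl {ξ 0} = cl (Set.range ξ) := cl_eq_of_td_one h1 (hξ 0) huc
  rw [← hcl] at h0 hξ
  have hu1 : td {ξ 0} = 1 := td_singleton huc
  have hη1 : η 1 ∉ cl {ξ 0} := by
    intro hcon
    have e1 : td (Set.range ξ ∪ Set.range η) ≤ td {ξ 0} := td_le_of_subset_cl (by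
      rintro _ (⟨i, rfl⟩ | ⟨i, rfl⟩)
      · exact hξ i
      · fin_cases i
        · exact h0
        · exact hcon)
    rw [h.dim, hu1] at e1
    exact absurd e1 (by decide)
  have huw : td {ξ 0, η 1} = 2 := td_pair huc hη1
  have hsub : cl {ξ 0} ⊆ cl {ξ 0, η 1} := cl_mono (by simp)
  -- no relations for `η 1`
  have hF : Princ {ξ 0} ![η 1] (0 : MvPolynomial (Fin 1) Ω) := by
    refine ⟨fun m => by rw [coeff_zero]; exact (Cl _).zero_mem, map_zero _, fun f hf hf0 => ?_⟩
    refine ⟨0, fun m => by rw [coeff_zero]; exact (Cl _).zero_mem, ?_⟩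
    rw [mul_zero]
    refine princ_zero (s := {ξ 0}) (by rw [hu1]; decide) ![η 1] ?_ f hf hf0
    have e1 : ({ξ 0} : Set Ω) ∪ Set.range ![η 1] = {ξ 0, η 1} := by
      simp only [Matrix.range_cons, Matrix.range_empty, Set.union_empty]
      rfl
    rw [e1, huw, hu1]
    norm_num
  set v : Fin 2 ⊕ Fin 2 → MvPolynomial (Fin 1) Ω :=
    Sum.elim (fun i => C (ξ i)) ![C (η 0), X 0] with hv
  have hvc : ∀ i m, (v i).coeff m ∈ cl {ξ 0} := by
    rintro (i | i) m
    · exact coeff_C_mem (hξ i) m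
    · fin_cases i
      · exact coeff_C_mem h0 m
      · exact coeff_X_mem 0 m
  obtain ⟨S₀, hS₀, hgen⟩ := gen hF v hvc
  have hveval : (fun i => eval ![η 1] (v i)) = Sum.elim ξ η := by
    funext i
    rcases i with i | i
    · simp [hv]
    · fin_cases i <;> simp [hv]
  set F' : MvPolynomial (Fin 1) Ω := aeval v D with hF'
  have hF'e : eval ![η 1] F' = aeval (Sum.elim ξ η) D := by
    rw [hF', ← hveval]
    exact comp_aeval_apply v
      ((aeval ![η 1] : MvPolynomial (Fin 1) Ω →ₐ[Ω] Ω).restrictScalars ℂ) D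
  have hF'0 : F' ≠ 0 := by
    intro e1
    rw [e1, map_zero] at hF'e
    exact hD hF'e.symm
  have hF'c : ∀ m, F'.coeff m ∈ cl {ξ 0} :=
    coeff_aeval_mem (A := (Cl {ξ 0}).toSubalgebra) v hvc D
  set G : Polynomial Ω := ∑ m ∈ F'.support, Polynomial.monomial (m 0) (F'.coeff m) with hG
  have hG0 : G ≠ 0 := by
    obtain ⟨m, hm⟩ := support_nonempty.2 hF'0
    refine sum_monomial_ne_zero F'.support (fun m => m 0) (fun m => F'.coeff m) hm
      (mem_support_iff.1 hm) ?_
    intro m' _ e1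
    refine Finsupp.ext fun i => ?_
    fin_cases i
    exact e1
  have hGc : ∀ i, G.coeff i ∈ cl {ξ 0} := by
    intro i
    rw [hG, Polynomial.finsetSum_coeff]
    refine sum_mem_cl _ _ fun m _ => ?_
    rw [Polynomial.coeff_monomial]
    split_ifs
    · exact hF'c m
    · exact (Cl _).zero_mem
  have hη0c : ¬ IsConst (η 0) := by
    have := h.mul (Pi.single 0 1) (by simp)
    rwa [mon_single] at this
  have hβ : ¬ RatLin (ξ 0) (ξ 1) := by
    rintro ⟨q, c, e1⟩
    have hq : (q : ℂ) * (q.den : ℤ) = (q.num : ℂ) := by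
      have := Rat.mul_den_eq_num q
      exact_mod_cast this
    refine h.add ![-q.num, q.den] ?_ ⟨(q.den : ℤ) * c, ?_⟩
    · intro e2
      have e3 := congrFun e2 1
      simp at e3
    · rw [lin_two, e1]
      have e4 : algebraMap ℂ Ω ((-q.num : ℤ) : ℂ) = - (algebraMap ℂ Ω (q : ℂ) *
          algebraMap ℂ Ω ((q.den : ℤ) : ℂ)) := by
        rw [← map_mul, ← map_neg, hq]
        push_cast
        ring_nf
      rw [e4, map_mul]
      ring
  obtain ⟨A, ψ, hSA, huA, hσA, hβA, hψ, hexp, hR, hnz⟩ :=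
    lemmaA_amb (u := ξ 0) (w := η 1) huw h0 (h.ne 0) hη0c (hξ 1) hβ G hG0 hGc
      (S₀ ∪ F'.support.image fun m => F'.coeff m) (by
        intro f hf
        rw [Finset.coe_union, Finset.coe_image] at hf
        apply hsub
        rcases hf with hf | ⟨m, -, rfl⟩
        · exact hS₀ hf
        · exact hF'c m) R
  have hF'A : ∀ m ∈ F'.support, F'.coeff m ∈ A := fun m hm =>
    hSA (by
      rw [Finset.coe_union, Finset.coe_image]
      exact Or.inr ⟨m, hm, rfl⟩)
  have hξA : ∀ i, ξ i ∈ A := by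
    intro i
    fin_cases i
    · exact huA
    · exact hβA
  have hvA : ∀ i m, (v i).coeff m ∈ A := by
    rintro (i | i) m
    · show (C (ξ i) : MvPolynomial (Fin 1) Ω).coeff m ∈ A
      rw [coeff_C]
      split_ifs
      · exact hξA i
      · exact A.zero_mem
    · fin_cases i
      · show (C (η 0) : MvPolynomial (Fin 1) Ω).coeff m ∈ A
        rw [coeff_C]
        split_ifs
        · exact hσA
        · exact A.zero_mem
      · show (X 0 : MvPolynomial (Fin 1) Ω).coeff m ∈ A
        rw [coeff_X]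
        split_ifs
        · exact A.one_mem
        · exact A.zero_mem
  have hpt : (fun i => evalC ψ (v i) ![Complex.exp (ψ (ξ 1))]) =
      Sum.elim (fun i => ψ (ξ i)) fun i => Complex.exp (ψ (ξ i)) := by
    funext i
    rcases i with i | i
    · exact evalC_C hψ _ _
    · fin_cases i
      · exact (evalC_C hψ _ _).trans hexp.symm
      · exact evalC_X hψ _ _
  refine ⟨fun i => ψ (ξ i), norm_lt_pi ⟨0, hR⟩, ?_, ?_⟩
  · rw [← hpt, ← evalC_aeval hψ v hvA]
    intro e1
    apply hnz
    rw [hG, evalP_sum hψ F'.support (fun m => m 0) (fun m => F'.coeff m) hF'A, ← e1]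
    unfold evalC
    refine Finset.sum_congr rfl fun m _ => ?_
    rw [Fin.prod_univ_one]
    rfl
  · intro f hf
    have h3 := hgen A ψ (fun x hx => hSA (by
        rw [Finset.coe_union]
        exact Or.inl hx)) hψ ![Complex.exp (ψ (ξ 1))] (by
      unfold evalC
      simp) f (by
      rw [hveval]
      exact hf)
    rw [hpt] at h3
    exact h3

theorem one_le_td {n : ℕ} (hn : 0 < n) {ξ : Fin n → Ω}
    (hadd : ∀ m : Fin n → ℤ, m ≠ 0 → ¬ IsConst (lin m ξ)) : 1 ≤ td (Set.range ξ) := by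
  rw [← td_singleton (not_isConst_of_add hadd ⟨0, hn⟩)]
  exact td_mono (by
    rintro _ rfl
    exact Set.mem_range_self _)

/-- Two variables. -/
theorem n2 [IsAlgClosed Ω] {ξ η : Fin 2 → Ω} (h : FR ξ η) : HasExpD ξ η := by
  have h1 : 1 ≤ td (Set.range ξ) := one_le_td (by norm_num) h.add
  have h2 : td (Set.range ξ) ≤ 2 := by
    have := td_mono (Set.subset_union_left (s := Set.range ξ) (t := Set.range η))
    rw [h.dim] at this
    exact_mod_cast this
  have h3 : td (Set.range ξ) = 1 ∨ td (Set.range ξ) = 2 := by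
    obtain ⟨k, hk⟩ := ENat.ne_top_iff_exists.1 (ne_top_of_le_ne_top (by decide) h2)
    rw [← hk] at h1 h2 ⊢
    have h1' : 1 ≤ k := by exact_mod_cast h1
    have h2' : k ≤ 2 := by exact_mod_cast h2
    interval_cases k
    · left; rfl
    · right; rfl
  rcases h3 with h3 | h3
  · by_cases hmon : ∀ m : Fin 2 → ℤ, m ≠ 0 → mon m η ∉ cl (Set.range ξ)
    · refine hs_final (by norm_num) ξ η h.ne ?_ (by rw [h.dim]) h.add hmon
      rw [h3]
      norm_num
    · push Not at hmon
      obtain ⟨m, hm, hmem⟩ := hmon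
      have hdet : (!![m 0, m 1; -m 1, m 0] : Matrix (Fin 2) (Fin 2) ℤ).det ≠ 0 := by
        rw [Matrix.det_fin_two_of]
        intro e1
        apply hm
        have e2 : m 0 * m 0 + m 1 * m 1 = 0 := by linarith
        funext i
        fin_cases i
        · show m 0 = 0
          nlinarith [mul_self_nonneg (m 0), mul_self_nonneg (m 1)]
        · show m 1 = 0
          nlinarith [mul_self_nonneg (m 0), mul_self_nonneg (m 1)]
      obtain ⟨N, ξ', η', hN, -, hη', hFR, hcl, -, -, -, hD⟩ := bc _ hdet h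
      refine hD (n2a hFR (by rw [td_eq_of_cl hcl, h3]) ?_)
      rw [hcl]
      refine mem_cl_of_pow hN ?_
      rw [hη' 0]
      convert hmem using 1
      congr 1
      funext i
      fin_cases i <;> rfl
  · exact hs_dominant (by norm_num) ξ η h.ne (by rw [h3]; norm_num) (by rw [h.dim])

end Pool.Agent.Lib.MP_209724_lc.OV
end

section

/-!
Three variables, two-dimensional projection, two algebraic monomials.
-/

namespace Pool.Agent.Lib.MP_209724_lc.OV

open MvPolynomial AlgebraicIndependent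

variable {Ω : Type} [Field Ω] [Algebra ℂ Ω]

/-- extension of homomorphisms to algebraic extensions -/
theorem exists_extension {υ : Type} [Fintype υ] (w : υ → Ω) (S : Finset Ω)
    (hS : (S : Set Ω) ⊆ cl (Set.range w)) :
    ∃ D : MvPolynomial υ ℂ, aeval w D ≠ 0 ∧ ∀ y : υ → ℂ, eval y D ≠ 0 →
      (∀ f : MvPolynomial υ ℂ, aeval w f = 0 → eval y f = 0) →
      ∃ (A : Subalgebra ℂ Ω) (ψ : Ω → ℂ), IsHomOn A ψ ∧ (S : Set Ω) ⊆ A ∧ (∀ i, w i ∈ A) ∧
        ∀ i, ψ (w i) = y i := by
  classical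
  set B : Subalgebra ℂ Ω := (aeval w : MvPolynomial υ ℂ →ₐ[ℂ] Ω).range with hB
  have hBadj : B = Algebra.adjoin ℂ (Set.range w) := (Algebra.adjoin_range_eq_range_aeval ℂ w).symm
  set W : Finset Ω := S ∪ Finset.univ.image w with hW
  set A : Subalgebra ℂ Ω := Algebra.adjoin ℂ (W : Set Ω) with hA
  have hwA : ∀ i, w i ∈ A := fun i => Algebra.subset_adjoin (by
    rw [hW, Finset.coe_union, Finset.coe_image]
    exact Or.inr ⟨i, by simp, rfl⟩)
  have hSA : (S : Set Ω) ⊆ A := fun x hx => Algebra.subset_adjoin (by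
    rw [hW, Finset.coe_union]
    exact Or.inl hx)
  have hBA : B ≤ A := by
    rw [hBadj]
    apply Algebra.adjoin_le
    rintro _ ⟨i, rfl⟩
    exact hwA i
  have hFG : A.FG := Subalgebra.fg_adjoin_finset W
  have hle : A ≤ (Cl (Set.range w)).toSubalgebra := by
    apply Algebra.adjoin_le
    intro x hx
    rw [hW, Finset.coe_union, Finset.coe_image] at hx
    rcases hx with hx | ⟨i, -, rfl⟩
    · exact hS hx
    · exact subset_cl _ (Set.mem_range_self i)
  have halg : ∀ x ∈ A, IsAlgebraic B x := by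
    intro x hx
    have h1 : IsAlgebraic (Algebra.adjoin ℂ (Set.range w)) x := hle hx
    rw [← hBadj] at h1
    exact h1
  obtain ⟨b, hb, hext⟩ := MV.exists_ext B A hBA hFG halg 0 A.zero_mem
  obtain ⟨D, hD⟩ := b.2
  refine ⟨D, ?_, fun y hyD hrel => ?_⟩
  · intro h0
    apply hb
    apply Subtype.ext
    rw [← hD]
    exact h0
  · have hsurj : Function.Surjective (aeval w : MvPolynomial υ ℂ →ₐ[ℂ] Ω).rangeRestrict :=
      AlgHom.rangeRestrict_surjective _
    let φ : B →ₐ[ℂ] ℂ := AlgHom.liftOfSurjective (aeval w : MvPolynomial υ ℂ →ₐ[ℂ] Ω).rangeRestrict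
      hsurj (aeval y) (by
        intro f hf
        have h1 : aeval w f = 0 := congrArg Subtype.val ((RingHom.mem_ker).1 hf)
        rw [RingHom.mem_ker]
        show aeval y f = 0
        rw [aeval_eq_eval]
        exact hrel f h1)
    have hφ : ∀ f, φ ((aeval w : MvPolynomial υ ℂ →ₐ[ℂ] Ω).rangeRestrict f) = eval y f := by
      intro f
      rw [AlgHom.liftOfSurjective_apply, aeval_eq_eval]
    have hφb : φ b ≠ 0 := by
      have h1 : b = (aeval w : MvPolynomial υ ℂ →ₐ[ℂ] Ω).rangeRestrict D := Subtype.ext hD.symm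
      rw [h1, hφ]
      exact hyD
    obtain ⟨ψ, hψ, -⟩ := hext φ hφb 0 (by
      intro h hh
      have h1 : (h.coeff 0 : Ω) = 0 := by
        rw [← hh]
        have h2 : Polynomial.aeval (0 : Ω) h = algebraMap B Ω (h.coeff 0) := by
          rw [Polynomial.aeval_def, Polynomial.eval₂_at_zero]
        rw [h2]
        rfl
      have h2 : h.coeff 0 = 0 := Subtype.ext h1
      rw [← Polynomial.coeff_zero_eq_eval_zero, Polynomial.coeff_map, h2, map_zero])
    refine ⟨A, fun x => if hx : x ∈ A then ψ ⟨x, hx⟩ else 0, ⟨ψ, fun a => ?_⟩, hSA, hwA,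
      fun i => ?_⟩
    · simp
    · have h1 : ψ ⟨w i, hwA i⟩ = y i := by
        have h2 := hψ ((aeval w : MvPolynomial υ ℂ →ₐ[ℂ] Ω).rangeRestrict (X i))
        rw [hφ, eval_X] at h2
        rw [← h2]
        congr 1
        apply Subtype.ext
        show w i = aeval w (X i)
        rw [aeval_X]
      simp only
      rw [dif_pos (hwA i)]
      exact h1

/-- Three variables, two-dimensional projection, two algebraic monomials. -/
theorem caseB [IsAlgClosed Ω] {ξ η : Fin 3 → Ω} (h : FR ξ η) (h2 : td (Set.range ξ) = 2)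
    (h0 : η 0 ∈ cl (Set.range ξ)) (h1 : η 1 ∈ cl (Set.range ξ)) : HasExp ξ η := by
  classical
  have hξ : ∀ i, ξ i ∈ cl (Set.range ξ) := fun i => subset_cl _ (Set.mem_range_self i)
  set ξ₂ : Fin 2 → Ω := ![ξ 0, ξ 1] with hξ₂
  set η₂ : Fin 2 → Ω := ![η 0, η 1] with hη₂
  have hlin : ∀ m : Fin 2 → ℤ, lin m ξ₂ = lin ![m 0, m 1, 0] ξ := by
    intro m
    rw [lin_three, lin, Fin.sum_univ_two]
    simp [hξ₂]
  have hmon : ∀ m : Fin 2 → ℤ, mon m η₂ = mon ![m 0, m 1, 0] η := by
    intro m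
    rw [mon, mon, Fin.prod_univ_two, Fin.prod_univ_three]
    simp [hη₂]
  have hind : ∀ a b : Fin 2 → ℤ, LinearIndependent ℤ ![a, b] →
      LinearIndependent ℤ ![![a 0, a 1, 0], ![b 0, b 1, 0]] := by
    intro a b hab
    rw [LinearIndependent.pair_iff] at hab ⊢
    intro s t hst
    apply hab s t
    funext i
    fin_cases i
    · simpa using congrFun hst 0
    · simpa using congrFun hst 1
  have hsub : Set.range ξ₂ ∪ Set.range η₂ ⊆ cl (Set.range ξ) := by
    rintro _ (⟨i, rfl⟩ | ⟨i, rfl⟩)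
    · fin_cases i
      · exact hξ 0
      · exact hξ 1
    · fin_cases i
      · exact h0
      · exact h1
  have hrot : ∀ a b : Fin 2 → ℤ, LinearIndependent ℤ ![a, b] →
      2 ≤ td {lin a ξ₂, lin b ξ₂, mon a η₂, mon b η₂} := by
    intro a b hab
    rw [hlin, hlin, hmon, hmon]
    exact h.rot _ _ (hind a b hab)
  have hdim : td (Set.range ξ₂ ∪ Set.range η₂) = 2 := by
    refine le_antisymm ?_ ?_
    · have := td_le_of_subset_cl hsub
      rwa [h2] at this
    · refine (hrot (Pi.single 0 1) (Pi.single 1 1) ?_).trans (td_mono ?_)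
      · rw [LinearIndependent.pair_iff]
        intro s t hst
        have e1 := congrFun hst 0
        have e2 := congrFun hst 1
        simp at e1 e2
        exact ⟨e1, e2⟩
      · rw [lin_single, lin_single, mon_single, mon_single]
        rintro x (rfl | rfl | rfl | rfl)
        · exact Or.inl (Set.mem_range_self _)
        · exact Or.inl (Set.mem_range_self _)
        · exact Or.inr (Set.mem_range_self _)
        · exact Or.inr (Set.mem_range_self _)
  have hFR : FR ξ₂ η₂ := by
    refine ⟨?_, ?_, ?_, hrot, hdim⟩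
    · intro i
      fin_cases i
      · exact h.ne 0
      · exact h.ne 1
    · intro m hm
      rw [hlin]
      apply h.add
      intro e
      apply hm
      funext i
      fin_cases i
      · exact congrFun e 0
      · exact congrFun e 1
    · intro m hm
      rw [hmon]
      apply h.mul
      intro e
      apply hm
      funext i
      fin_cases i
      · exact congrFun e 0
      · exact congrFun e 1
  have hcl : cl (Set.range ξ₂ ∪ Set.range η₂) = cl (Set.range ξ) :=
    cl_eq_of_td hsub (by rw [h2]; decide) (by rw [h2, hdim])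
  have hexp2 := n2 hFR
  -- `η 2` is transcendental
  have hη2 : η 2 ∉ cl (Set.range ξ) := by
    intro hcon
    have e1 : td (Set.range ξ ∪ Set.range η) ≤ td (Set.range ξ) := td_le_of_subset_cl (by
      rintro _ (⟨i, rfl⟩ | ⟨i, rfl⟩)
      · exact hξ i
      · fin_cases i
        · exact h0
        · exact h1
        · exact hcon)
    rw [h.dim, h2] at e1
    exact absurd e1 (by decide)
  have hF : Princ (Set.range ξ) ![η 2] (0 : MvPolynomial (Fin 1) Ω) := by
    refine ⟨fun m => by rw [coeff_zero]; exact (Cl _).zero_mem, map_zero _, fun f hf hf0 => ?_⟩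
    refine ⟨0, fun m => by rw [coeff_zero]; exact (Cl _).zero_mem, ?_⟩
    rw [mul_zero]
    refine princ_zero (s := Set.range ξ) (by rw [h2]; decide) ![η 2] ?_ f hf hf0
    have e1 : Set.range ξ ∪ Set.range ![η 2] = insert (η 2) (Set.range ξ) := by
      simp only [Matrix.range_cons, Matrix.range_empty, Set.union_empty]
      rw [Set.union_singleton]
    rw [e1, td_insert_eq hη2, h2]
    norm_num
  intro c hc R
  set v : Fin 3 ⊕ Fin 3 → MvPolynomial (Fin 1) Ω :=
    Sum.elim (fun i => C (ξ i)) ![C (η 0), C (η 1), X 0] with hv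
  have hvc : ∀ i m, (v i).coeff m ∈ cl (Set.range ξ) := by
    rintro (i | i) m
    · exact coeff_C_mem (hξ i) m
    · fin_cases i
      · exact coeff_C_mem h0 m
      · exact coeff_C_mem h1 m
      · exact coeff_X_mem 0 m
  obtain ⟨S₀, hS₀, hgen⟩ := gen hF v hvc
  have hw : Set.range (Sum.elim ξ₂ η₂) = Set.range ξ₂ ∪ Set.range η₂ := Set.Sum.elim_range _ _
  obtain ⟨D, hD, hext⟩ := exists_extension (Sum.elim ξ₂ η₂) (S₀ ∪ {ξ 2, (aeval ξ c)⁻¹}) (by
    rw [hw, hcl, Finset.coe_union]
    rintro x (hx | hx)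
    · exact hS₀ hx
    · rw [Finset.coe_insert, Finset.coe_singleton] at hx
      rcases hx with rfl | rfl
      · exact hξ 2
      · exact inv_mem_cl (aeval_mem_cl hξ c))
  obtain ⟨x, hxR, hxD, hxrel⟩ := hexp2 D hD R
  obtain ⟨A, ψ, hψ, hSA, hwA, hψw⟩ := hext _ hxD hxrel
  have hξA : ∀ i, ξ i ∈ A := by
    intro i
    fin_cases i
    · exact hwA (Sum.inl 0)
    · exact hwA (Sum.inl 1)
    · exact hSA (by simp)
  have hψ0 : ψ (ξ 0) = x 0 := hψw (Sum.inl 0)
  have hψ1 : ψ (ξ 1) = x 1 := hψw (Sum.inl 1)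
  have hψη0 : ψ (η 0) = Complex.exp (x 0) := hψw (Sum.inr 0)
  have hψη1 : ψ (η 1) = Complex.exp (x 1) := hψw (Sum.inr 1)
  refine ⟨fun i => ψ (ξ i), ?_, ?_, ?_⟩
  · refine hxR.trans_le ?_
    rw [pi_norm_le_iff_of_nonneg (norm_nonneg _)]
    intro i
    fin_cases i
    · show ‖x 0‖ ≤ _
      rw [← hψ0]
      exact norm_le_pi_norm (fun i => ψ (ξ i)) 0
    · show ‖x 1‖ ≤ _
      rw [← hψ1]
      exact norm_le_pi_norm (fun i => ψ (ξ i)) 1
  · rw [← hψ.aeval c ξ hξA]
    exact hψ.ne_zero (aeval_mem hξA c) (hSA (by simp)) hc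
  · intro f hf
    have h3 := hgen A ψ (fun x hx => hSA (by
        rw [Finset.coe_union]
        exact Or.inl hx)) hψ ![Complex.exp (ψ (ξ 2))] (by
      unfold evalC
      simp) f (by
      convert hf using 2
      congr 1
      funext i
      rcases i with i | i
      · simp [hv]
      · fin_cases i <;> simp [hv])
    have h4 : (fun i => evalC ψ (v i) ![Complex.exp (ψ (ξ 2))]) =
        Sum.elim (fun i => ψ (ξ i)) fun i => Complex.exp (ψ (ξ i)) := by
      funext i
      rcases i with i | i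
      · exact evalC_C hψ _ _
      · fin_cases i
        · refine (evalC_C hψ _ _).trans ?_
          rw [hψη0, ← hψ0]
          rfl
        · refine (evalC_C hψ _ _).trans ?_
          rw [hψη1, ← hψ1]
          rfl
        · exact evalC_X hψ _ _
    rw [h4] at h3
    exact h3

end Pool.Agent.Lib.MP_209724_lc.OV
end

section

/-!
Three variables.
-/

namespace Pool.Agent.Lib.MP_209724_lc.OV

open MvPolynomial AlgebraicIndependent

variable {Ω : Type} [Field Ω] [Algebra ℂ Ω]

theorem HasExpD.hasExp {ι M : Type} [Fintype ι] [Field M] [Algebra ℂ M] {ξ η : ι → M}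
    (h : HasExpD ξ η) : HasExp ξ η := by
  intro c hc R
  have h1 : aeval (Sum.elim ξ η) (rename Sum.inl c) = aeval ξ c := by
    rw [aeval_rename, Sum.elim_comp_inl]
  obtain ⟨x, hx, hxD, hrel⟩ := h (rename Sum.inl c) (by rw [h1]; exact hc) R
  refine ⟨x, hx, ?_, hrel⟩
  rw [eval_rename, Sum.elim_comp_inl] at hxD
  exact hxD

/-- a matrix with given nonzero first row and nonzero determinant -/
theorem exists_matrix_one {m : Fin 3 → ℤ} (hm : m ≠ 0) :
    ∃ A : Matrix (Fin 3) (Fin 3) ℤ, A 0 = m ∧ A.det ≠ 0 := by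
  by_cases h0 : m 0 ≠ 0
  · refine ⟨![m, ![0, 1, 0], ![0, 0, 1]], rfl, ?_⟩
    rw [Matrix.det_fin_three]
    simpa using h0
  by_cases h1 : m 1 ≠ 0
  · refine ⟨![m, ![1, 0, 0], ![0, 0, 1]], rfl, ?_⟩
    rw [Matrix.det_fin_three]
    simpa using h1
  by_cases h2 : m 2 ≠ 0
  · refine ⟨![m, ![1, 0, 0], ![0, 1, 0]], rfl, ?_⟩
    rw [Matrix.det_fin_three]
    simpa using h2
  · push Not at h0 h1 h2
    exact absurd (by
      funext i
      fin_cases i
      · exact h0
      · exact h1
      · exact h2) hm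

/-- a matrix with two given independent first rows and nonzero determinant -/
theorem exists_matrix_two {a b : Fin 3 → ℤ} (hab : LinearIndependent ℤ ![a, b]) :
    ∃ A : Matrix (Fin 3) (Fin 3) ℤ, A 0 = a ∧ A 1 = b ∧ A.det ≠ 0 := by
  refine ⟨![a, b, ![a 1 * b 2 - a 2 * b 1, a 2 * b 0 - a 0 * b 2, a 0 * b 1 - a 1 * b 0]], rfl,
    rfl, ?_⟩
  rw [Matrix.det_fin_three]
  intro h
  have h' : (a 1 * b 2 - a 2 * b 1) ^ 2 + (a 2 * b 0 - a 0 * b 2) ^ 2 +
      (a 0 * b 1 - a 1 * b 0) ^ 2 = 0 := by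
    simp at h
    linarith
  have h0 : a 1 * b 2 - a 2 * b 1 = 0 := by
    nlinarith [sq_nonneg (a 1 * b 2 - a 2 * b 1), sq_nonneg (a 2 * b 0 - a 0 * b 2),
      sq_nonneg (a 0 * b 1 - a 1 * b 0)]
  have h1 : a 2 * b 0 - a 0 * b 2 = 0 := by
    nlinarith [sq_nonneg (a 1 * b 2 - a 2 * b 1), sq_nonneg (a 2 * b 0 - a 0 * b 2),
      sq_nonneg (a 0 * b 1 - a 1 * b 0)]
  have h2 : a 0 * b 1 - a 1 * b 0 = 0 := by
    nlinarith [sq_nonneg (a 1 * b 2 - a 2 * b 1), sq_nonneg (a 2 * b 0 - a 0 * b 2),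
      sq_nonneg (a 0 * b 1 - a 1 * b 0)]
  rw [LinearIndependent.pair_iff] at hab
  -- `b i • a - a i • b = 0` for all `i`
  have key : ∀ i, b i • a - a i • b = 0 := by
    intro i
    funext j
    simp only [Pi.sub_apply, Pi.smul_apply, smul_eq_mul, Pi.zero_apply]
    fin_cases i <;> fin_cases j <;> simp <;> linarith
  have hb : ∀ i, b i = 0 := fun i => (hab (b i) (-a i) (by
    have := key i
    rw [neg_smul, ← sub_eq_add_neg]
    exact this)).1
  have := hab 0 1 (by
    rw [zero_smul, one_smul, zero_add]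
    funext i
    exact hb i)
  exact one_ne_zero this.2

/-- two vectors which are not independent -/
theorem exists_rel {a b : Fin 3 → ℤ} (hab : ¬ LinearIndependent ℤ ![a, b]) (ha : a ≠ 0) :
    ∃ s t : ℤ, t ≠ 0 ∧ t • b = s • a := by
  rw [LinearIndependent.pair_iff] at hab
  push Not at hab
  obtain ⟨s, t, hst, hne⟩ := hab
  refine ⟨-s, t, ?_, ?_⟩
  · intro ht
    subst ht
    rw [zero_smul, add_zero] at hst
    have hs : s ≠ 0 := fun hs => hne hs rfl
    apply ha
    funext i
    have := congrFun hst i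
    simp only [Pi.smul_apply, smul_eq_mul, Pi.zero_apply, mul_eq_zero] at this
    exact this.resolve_left hs
  · rw [neg_smul]
    exact (neg_eq_of_add_eq_zero_right hst).symm

/-- Three variables, two-dimensional projection, one algebraic monomial. -/
theorem caseCD [IsAlgClosed Ω] {ξ η : Fin 3 → Ω} (h : FR ξ η) (h2 : td (Set.range ξ) = 2)
    (h0 : η 0 ∈ cl (Set.range ξ))
    (hmon : ∀ m : Fin 3 → ℤ, mon m η ∈ cl (Set.range ξ) → m 1 = 0 ∧ m 2 = 0) :
    HasExp ξ η := by
  have hmon' : ∀ a b : ℤ, (a ≠ 0 ∨ b ≠ 0) → η 1 ^ a * η 2 ^ b ∉ cl (Set.range ξ) := by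
    intro a b hab hcon
    have e1 : mon ![0, a, b] η = η 1 ^ a * η 2 ^ b := by
      rw [mon, Fin.prod_univ_three]
      simp
    obtain ⟨e2, e3⟩ := hmon ![0, a, b] (by rw [e1]; exact hcon)
    rcases hab with h3 | h3
    · exact h3 e2
    · exact h3 e3
  by_cases hcase : η 0 ∈ cl {ξ 0} → ∀ a b : ℤ, (a ≠ 0 ∨ b ≠ 0) → lin ![0, a, b] ξ ∉ cl {ξ 0}
  · exact caseD h h2 h0 hmon' hcase
  · push Not at hcase
    obtain ⟨hη0, a, b, hab, hlin⟩ := hcase
    have hdet : (!![1, 0, 0; 0, a, b; 0, -b, a] : Matrix (Fin 3) (Fin 3) ℤ).det ≠ 0 := by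
      rw [Matrix.det_fin_three]
      simp
      intro e1
      rcases hab with h3 | h3
      · apply h3
        nlinarith [mul_self_nonneg a, mul_self_nonneg b]
      · apply h3
        nlinarith [mul_self_nonneg a, mul_self_nonneg b]
    obtain ⟨N, ξ', η', hN, hξ', hη', hFR, hcl, -, hm, hE, -⟩ := bc _ hdet h
    have hNc : (N : ℂ) ≠ 0 := by exact_mod_cast hN.ne'
    have e0 : lin ((!![1, 0, 0; 0, a, b; 0, -b, a] : Matrix (Fin 3) (Fin 3) ℤ) 0) ξ = ξ 0 := by
      have : (!![1, 0, 0; 0, a, b; 0, -b, a] : Matrix (Fin 3) (Fin 3) ℤ) 0 = ![1, 0, 0] := rfl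
      rw [this, lin_three]
      simp
    have e1 : lin ((!![1, 0, 0; 0, a, b; 0, -b, a] : Matrix (Fin 3) (Fin 3) ℤ) 1) ξ =
        lin ![0, a, b] ξ := rfl
    have e2 : mon ((!![1, 0, 0; 0, a, b; 0, -b, a] : Matrix (Fin 3) (Fin 3) ℤ) 0) η = η 0 := by
      have : (!![1, 0, 0; 0, a, b; 0, -b, a] : Matrix (Fin 3) (Fin 3) ℤ) 0 = ![1, 0, 0] := rfl
      rw [this, mon, Fin.prod_univ_three]
      simp
    have hξ0 : ξ 0 ∈ cl {ξ' 0} := by
      have e3 := hξ' 0
      rw [e0] at e3
      rw [← e3]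
      exact mul_mem_cl (const_mem_cl _ _) (subset_cl {ξ' 0} rfl)
    have hcl0 : cl {ξ 0} ⊆ cl {ξ' 0} := cl_subset (Set.singleton_subset_iff.2 hξ0)
    refine hE (caseC hFR (by rw [td_eq_of_cl hcl, h2]) ?_ ?_ ?_)
    · refine mem_cl_of_pow hN ?_
      rw [hη' 0, e2]
      exact hcl0 hη0
    · rw [← mul_mem_cl_iff hNc, hξ' 1, e1]
      exact hcl0 hlin
    · rw [hcl]
      intro hcon
      have e3 := hm (Pi.single 1 1)
      rw [mon_single] at e3
      have e4 := pow_mem_cl hcon N
      rw [e3] at e4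
      obtain ⟨e5, e6⟩ := hmon _ e4
      simp [Fin.sum_univ_three] at e5 e6
      rcases hab with h3 | h3
      · exact h3 e5
      · exact h3 e6

/-- Three variables. -/
theorem n3 [IsAlgClosed Ω] {ξ η : Fin 3 → Ω} (h : FR ξ η) : HasExp ξ η := by
  have h1 : 1 ≤ td (Set.range ξ) := one_le_td (by norm_num) h.add
  have h2 : td (Set.range ξ) ≤ 3 := by
    have := td_mono (Set.subset_union_left (s := Set.range ξ) (t := Set.range η))
    rw [h.dim] at this
    exact_mod_cast this
  have h3 : td (Set.range ξ) = 1 ∨ td (Set.range ξ) = 2 ∨ td (Set.range ξ) = 3 := by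
    obtain ⟨k, hk⟩ := ENat.ne_top_iff_exists.1 (ne_top_of_le_ne_top (by decide) h2)
    rw [← hk] at h1 h2 ⊢
    have h1' : 1 ≤ k := by exact_mod_cast h1
    have h2' : k ≤ 3 := by exact_mod_cast h2
    interval_cases k
    · left; rfl
    · right; left; rfl
    · right; right; rfl
  rcases h3 with h3 | h3 | h3
  · -- one-dimensional projection
    obtain ⟨w, hw⟩ : ∃ w, w ∉ cl (Set.range ξ) := by
      by_contra hcon
      push Not at hcon
      have e1 : td (Set.range ξ ∪ Set.range η) ≤ td (Set.range ξ) :=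
        td_le_of_subset_cl fun x _ => hcon x
      rw [h.dim, h3] at e1
      exact absurd e1 (by decide)
    exact caseE (by norm_num) h.ne h.add h3 h.dim hw
  · by_cases hmon : ∀ m : Fin 3 → ℤ, m ≠ 0 → mon m η ∉ cl (Set.range ξ)
    · refine (hs_final (by norm_num) ξ η h.ne ?_ (by rw [h.dim]) h.add hmon).hasExp
      rw [h3]
      norm_num
    · push Not at hmon
      obtain ⟨m, hm, hmem⟩ := hmon
      by_cases hmon2 : ∀ m' : Fin 3 → ℤ, mon m' η ∈ cl (Set.range ξ) →
          ¬ LinearIndependent ℤ ![m, m']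
      · -- one algebraic monomial
        obtain ⟨A, hA0, hdet⟩ := exists_matrix_one hm
        obtain ⟨N, ξ', η', hN, hξ', hη', hFR, hcl, -, hmm, hE, -⟩ := bc A hdet h
        refine hE (caseCD hFR (by rw [td_eq_of_cl hcl, h3]) ?_ ?_)
        · rw [hcl]
          refine mem_cl_of_pow hN ?_
          rw [hη' 0, hA0]
          exact hmem
        · intro m' hm'
          rw [hcl] at hm'
          have e1 := pow_mem_cl hm' N
          rw [hmm m'] at e1
          obtain ⟨s, t, ht, e2⟩ := exists_rel (hmon2 _ e1) hm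
          -- `t m' A = s m = (s e₀) A`
          have e3 : Matrix.vecMul (t • m' - s • Pi.single 0 1) A = 0 := by
            funext j
            have e4 := congrFun e2 j
            simp only [Pi.smul_apply, smul_eq_mul] at e4
            rw [Matrix.sub_vecMul, Matrix.smul_vecMul, Matrix.smul_vecMul,
              Matrix.single_one_vecMul]
            simp only [Pi.sub_apply, Pi.smul_apply, smul_eq_mul, Pi.zero_apply]
            have e5 : Matrix.vecMul m' A j = ∑ i, m' i * A i j := rfl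
            have e6 : A.row 0 j = m j := by
              rw [← hA0]
              rfl
            rw [e5, e6, e4, sub_self]
          have e4 := Matrix.eq_zero_of_vecMul_eq_zero hdet e3
          have e5 := congrFun e4 1
          have e6 := congrFun e4 2
          simp [ht] at e5 e6
          exact ⟨e5, e6⟩
      · -- two algebraic monomials
        push Not at hmon2
        obtain ⟨m', hm', hind⟩ := hmon2
        obtain ⟨A, hA0, hA1, hdet⟩ := exists_matrix_two hind
        obtain ⟨N, ξ', η', hN, hξ', hη', hFR, hcl, -, hmm, hE, -⟩ := bc A hdet h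
        refine hE (caseB hFR (by rw [td_eq_of_cl hcl, h3]) ?_ ?_)
        · rw [hcl]
          refine mem_cl_of_pow hN ?_
          rw [hη' 0, hA0]
          exact hmem
        · rw [hcl]
          refine mem_cl_of_pow hN ?_
          rw [hη' 1, hA1]
          exact hm'
  · exact (hs_dominant (by norm_num) ξ η h.ne (by rw [h3]; norm_num) (by rw [h.dim])).hasExp

end Pool.Agent.Lib.MP_209724_lc.OV
end

section

/-!
Varieties of dimension larger than `n`, and the main theorem for tuples in a field.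
-/

namespace Pool.Agent.Lib.MP_209724_lc.OV

open MvPolynomial AlgebraicIndependent

variable {Ω : Type} [Field Ω] [Algebra ℂ Ω] {n : ℕ}

theorem HasExp.of_rel {ξ η η' : Fin n → Ω} (h : HasExp ξ η')
    (hrel : ∀ f : MvPolynomial (Fin n) Ω, (∀ m, f.coeff m ∈ cl (Set.range ξ)) →
      eval η f = 0 → eval η' f = 0) : HasExp ξ η := by
  intro c hc R
  obtain ⟨x, hx, hxc, hf⟩ := h c hc R
  refine ⟨x, hx, hxc, fun f hf0 => hf f ?_⟩
  set v : Fin n ⊕ Fin n → MvPolynomial (Fin n) Ω := Sum.elim (fun i => C (ξ i)) X with hv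
  have hvc : ∀ i m, (v i).coeff m ∈ (Cl (Set.range ξ)).toSubalgebra := by
    rintro (i | i) m
    · exact coeff_C_mem (subset_cl _ (Set.mem_range_self i)) m
    · exact coeff_X_mem i m
  have hev : ∀ y : Fin n → Ω, eval y (aeval v f) = aeval (Sum.elim ξ y) f := by
    intro y
    have h1 : (fun i => eval y (v i)) = Sum.elim ξ y := by
      funext i
      rcases i with i | i <;> simp [hv]
    rw [← h1]
    exact comp_aeval_apply v ((aeval y : MvPolynomial (Fin n) Ω →ₐ[Ω] Ω).restrictScalars ℂ) f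
  rw [← hev]
  refine hrel _ (coeff_aeval_mem v hvc f) ?_
  rw [hev]
  exact hf0

/-- dominant projections, arbitrary dimension -/
theorem dominant_all [IsAlgClosed Ω] (hn : 0 < n) {ξ η : Fin n → Ω} (hη : ∀ i, η i ≠ 0)
    (h1 : td (Set.range ξ) = n) : HasExp ξ η := by
  obtain ⟨η', hη', hne, hrel⟩ := exists_spec (Set.range ξ) η hη
  refine HasExp.of_rel (η' := η') (hs_dominant hn ξ η' hne h1 ?_).hasExp hrel
  rw [td_union_eq_of_subset (by
    rintro _ ⟨i, rfl⟩
    exact hη' i), h1]

/-- replacing one of algebraically independent elements by `1` -/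
theorem of_update [DecidableEq (Fin n)] {ξ η : Fin n → Ω} {d : ℕ} (h1 : td (Set.range ξ) = d)
    (h2 : td (Set.range ξ ∪ Set.range η) = d + n) (i₀ : Fin n)
    (h : HasExp ξ (Function.update η i₀ 1)) : HasExp ξ η := by
  refine h.of_rel fun f hf hf0 => ?_
  rw [princ_zero (s := Set.range ξ) (by rw [h1]; exact ENat.natCast_ne_top d) η
    (by rw [h2, h1]) f hf hf0, map_zero]

theorem td_update [DecidableEq (Fin n)] {ξ η : Fin n → Ω} {d : ℕ} (h1 : td (Set.range ξ) = d)
    (h2 : td (Set.range ξ ∪ Set.range η) = d + n) (i₀ : Fin n) :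
    td (Set.range ξ ∪ Set.range (Function.update η i₀ 1)) + 1 = d + n := by
  set s := Set.range ξ ∪ Set.range (Function.update η i₀ 1) with hs
  have e1 : cl (insert (η i₀) s) = cl (Set.range ξ ∪ Set.range η) := by
    refine cl_eq_of ?_ ?_
    · rintro x (rfl | hx | ⟨i, rfl⟩)
      · exact subset_cl _ (Or.inr ⟨i₀, rfl⟩)
      · exact subset_cl _ (Or.inl hx)
      · by_cases hi : i = i₀
        · subst hi
          rw [Function.update_self]
          exact isConst_mem_cl ⟨1, by simp⟩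
        · rw [Function.update_of_ne hi]
          exact subset_cl _ (Or.inr ⟨i, rfl⟩)
    · rintro x (hx | ⟨i, rfl⟩)
      · exact subset_cl _ (Or.inr (Or.inl hx))
      · by_cases hi : i = i₀
        · subst hi
          exact subset_cl _ (Or.inl rfl)
        · refine subset_cl _ (Or.inr (Or.inr ⟨i, ?_⟩))
          rw [Function.update_of_ne hi]
  have e2 : td (insert (η i₀) s) = d + n := by
    rw [td_eq_of_cl e1, h2]
  by_cases h3 : η i₀ ∈ cl s
  · exfalso
    rw [td_insert_of_mem h3] at e2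
    -- `td s ≤ d + (n - 1)`
    have e3 : s ⊆ cl (Set.range ξ ∪ (η '' {i | i ≠ i₀})) := by
      rintro x (hx | ⟨i, rfl⟩)
      · exact subset_cl _ (Or.inl hx)
      · by_cases hi : i = i₀
        · subst hi
          rw [Function.update_self]
          exact isConst_mem_cl ⟨1, by simp⟩
        · rw [Function.update_of_ne hi]
          exact subset_cl _ (Or.inr ⟨i, hi, rfl⟩)
    have e4 : td s ≤ d + (n - 1 : ℕ) := by
      refine (td_le_of_subset_cl e3).trans ((td_union_le _ _).trans ?_)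
      rw [h1]
      refine add_le_add le_rfl ((td_le_encard _).trans ?_)
      refine (Set.encard_image_le _ _).trans ?_
      have e5 : ({i | i ≠ i₀} : Set (Fin n)) = ((Finset.univ.erase i₀ : Finset (Fin n)) : Set _) := by
        ext i
        simp
      rw [e5, Set.encard_coe_eq_coe_finsetCard, Finset.card_erase_of_mem (Finset.mem_univ _),
        Finset.card_univ, Fintype.card_fin]
    rw [e2] at e4
    have e6 : d + n ≤ d + (n - 1) := by exact_mod_cast e4
    have e7 : 0 < n := i₀.pos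
    omega
  · rw [← td_insert_eq h3, e2]

/-- Three variables, two-dimensional projection, one relation. -/
theorem caseF {ξ η : Fin 3 → Ω} (hη : ∀ i, η i ≠ 0)
    (hadd : ∀ m : Fin 3 → ℤ, m ≠ 0 → ¬ IsConst (lin m ξ))
    (h1 : td (Set.range ξ) = 2) (h2 : td (Set.range ξ ∪ Set.range η) = 4) : HasExp ξ η := by
  classical
  intro c hc R
  obtain ⟨F, hF0, hF⟩ := exists_princ (s := Set.range ξ) (by rw [h1]; decide) η
    (by rw [h2, h1]; norm_num)
  set T : Finset Ω := (F.support ×ˢ F.support).image (fun p =>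
    lin (fun i => (p.1 i : ℤ) - p.2 i) ξ) with hT
  set T' := T.filter fun X => ¬ IsConst X with hT'
  obtain ⟨u, hu, huc, huT⟩ := exists_generic h1 T' fun X hX => (Finset.mem_filter.1 hX).2
  have hdiff : ∀ m ∈ F.support, ∀ m' ∈ F.support, m ≠ m' →
      lin (fun i => (m i : ℤ) - m' i) ξ ∉ cl {u} := by
    intro m hm m' hm' hmm
    refine huT _ (Finset.mem_filter.2 ⟨Finset.mem_image.2 ⟨(m, m'),
      Finset.mem_product.2 ⟨hm, hm'⟩, rfl⟩, hadd _ (sub_ne_zero_of_ne' hmm)⟩)
  obtain ⟨i, hi⟩ := exists_not_mem h1 u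
  have huw : td {u, ξ i} = 2 := td_pair huc hi
  have hξ : ∀ i, ξ i ∈ cl (Set.range ξ) := fun i => subset_cl _ (Set.mem_range_self i)
  have hcl : cl {u, ξ i} = cl (Set.range ξ) := cl_eq_of_td_two h1 hu (hξ i) huw
  obtain ⟨A, ψ, hSA, hψ, huA, hσA, hxA, hexp, hR, hR', hrel⟩ :=
    expsum (u := u) (w := ξ i) huw (σ := 1) one_ne_zero (isConst_mem_cl ⟨1, by simp⟩)
      (s := Set.range ξ) (by rw [hcl]; exact subset_cl _) (κ := Fin 3) (η := η) ξ (F := F) hF
      (fun i => by rw [hcl]; exact hξ i)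
      (by
        intro m hm m' hm' hmm h
        rw [lin_sub_lin] at h
        apply hdiff m hm m' hm' hmm
        obtain ⟨q, c', h⟩ := h
        rw [h]
        exact add_mem_cl (mul_mem_cl (const_mem_cl _ _) (subset_cl {u} rfl)) (const_mem_cl _ _))
      (by
        intro _ m hm m' hm' hmm h
        rw [lin_sub_lin] at h
        exact hdiff m hm m' hm' hmm h)
      (by
        obtain ⟨m, hm, m', hm', hmm⟩ := exists_two_supp hη hF0 hF.2.1
        refine ⟨m, hm, m', hm', ?_⟩
        rw [lin_sub_lin]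
        exact hdiff m hm m' hm' hmm)
      (υ := Fin 3 ⊕ Fin 3) (Sum.elim (fun i => C (ξ i)) X)
      (by
        rintro (i | i) m
        · exact coeff_C_mem (hξ i) m
        · exact coeff_X_mem i m)
      {(aeval ξ c)⁻¹} (by
        rw [Finset.coe_singleton, Set.singleton_subset_iff, hcl]
        exact inv_mem_cl (aeval_mem_cl hξ c)) R
  refine ⟨fun i => ψ (ξ i), norm_lt_pi hR', ?_, ?_⟩
  · rw [← hψ.aeval c ξ hxA]
    exact hψ.ne_zero (aeval_mem hxA c) (hSA (by simp)) hc
  · intro f hf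
    have h3 := hrel f (by
      convert hf using 2
      congr 1
      funext i
      rcases i with i | i <;> simp)
    have h4 : (fun i => evalC ψ (Sum.elim (fun i => C (ξ i)) X i : MvPolynomial (Fin 3) Ω)
        fun i => Complex.exp (ψ (ξ i))) =
        Sum.elim (fun i => ψ (ξ i)) fun i => Complex.exp (ψ (ξ i)) := by
      funext i
      rcases i with i | i
      · exact evalC_C hψ _ _
      · exact evalC_X hψ _ _
    rw [h4] at h3
    exact h3

theorem enat_cancel {a : ℕ∞} {k : ℕ} (h : a + 1 = k + 1) : a = k := by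
  have h1 : a ≠ ⊤ := by
    rintro rfl
    rw [top_add] at h
    exact ENat.natCast_ne_top (k + 1) h.symm
  obtain ⟨j, rfl⟩ := ENat.ne_top_iff_exists.1 h1
  have h2 : j + 1 = k + 1 := by exact_mod_cast h
  have h3 : j = k := by omega
  rw [h3]

theorem exists_eq_natCast {a : ℕ∞} {k : ℕ} (h : a ≤ k) : ∃ j : ℕ, a = j ∧ j ≤ k := by
  obtain ⟨j, hj⟩ := ENat.ne_top_iff_exists.1 (ne_top_of_le_ne_top (ENat.natCast_ne_top k) h)
  refine ⟨j, hj.symm, ?_⟩
  rw [← hj] at h
  exact_mod_cast h

/-- projections of dimension one, all dimensions -/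
theorem dim_one_all (hn : 0 < n) {ξ η : Fin n → Ω} (hη : ∀ i, η i ≠ 0)
    (hadd : ∀ m : Fin n → ℤ, m ≠ 0 → ¬ IsConst (lin m ξ)) (h1 : td (Set.range ξ) = 1)
    (hdim : n ≤ td (Set.range ξ ∪ Set.range η)) (hn1 : 2 ≤ n) : HasExp ξ η := by
  classical
  have hle : td (Set.range ξ ∪ Set.range η) ≤ ((1 + n : ℕ) : ℕ∞) := by
    refine (td_union_le _ _).trans ?_
    rw [h1]
    push_cast
    refine add_le_add le_rfl ((td_le_encard _).trans ?_)
    rw [← Set.image_univ]
    refine (Set.encard_image_le _ _).trans ?_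
    simp
  obtain ⟨j, hj, hj1⟩ := exists_eq_natCast hle
  have hj2 : n ≤ j := by
    rw [hj] at hdim
    exact_mod_cast hdim
  have hw : ∀ η' : Fin n → Ω, td (Set.range ξ ∪ Set.range η') = n → ∃ w, w ∉ cl (Set.range ξ) := by
    intro η' hη'
    by_contra hcon
    push Not at hcon
    have e1 : td (Set.range ξ ∪ Set.range η') ≤ td (Set.range ξ) :=
      td_le_of_subset_cl fun x _ => hcon x
    rw [hη', h1] at e1
    have : n ≤ 1 := by exact_mod_cast e1
    omega
  have h3 : j = n ∨ j = 1 + n := by omega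
  rcases h3 with rfl | rfl
  · obtain ⟨w, hw⟩ := hw η hj
    exact caseE hn hη hadd h1 hj hw
  · have h1' : td (Set.range ξ) = ((1 : ℕ) : ℕ∞) := by rw [h1]; rfl
    have h2' : td (Set.range ξ ∪ Set.range η) = ((1 : ℕ) : ℕ∞) + n := by
      rw [hj]
      push_cast
      rfl
    refine of_update h1' h2' ⟨0, hn⟩ ?_
    have e1 := td_update h1' h2' ⟨0, hn⟩
    have e2 : td (Set.range ξ ∪ Set.range (Function.update η ⟨0, hn⟩ 1)) = n := by
      have e3 : ((1 : ℕ) : ℕ∞) + n = (n : ℕ∞) + 1 := by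
        rw [add_comm]
        rfl
      rw [e3] at e1
      exact enat_cancel e1
    obtain ⟨w, hw⟩ := hw _ e2
    refine caseE hn (fun i => ?_) hadd h1 e2 hw
    by_cases hi : i = ⟨0, hn⟩
    · subst hi
      rw [Function.update_self]
      exact one_ne_zero
    · rw [Function.update_of_ne hi]
      exact hη i

/-- The main theorem for tuples in an algebraically closed field. -/
theorem main_field [IsAlgClosed Ω] (hn : 0 < n) {ξ η : Fin n → Ω} (hη : ∀ i, η i ≠ 0)
    (hadd : ∀ m : Fin n → ℤ, m ≠ 0 → ¬ IsConst (lin m ξ))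
    (hmul : ∀ m : Fin n → ℤ, m ≠ 0 → ¬ IsConst (mon m η))
    (hrot : ∀ a b : Fin n → ℤ, LinearIndependent ℤ ![a, b] →
      2 ≤ td {lin a ξ, lin b ξ, mon a η, mon b η})
    (hdim : n ≤ td (Set.range ξ ∪ Set.range η)) (h : n ≤ 3 ∨ td (Set.range ξ) = 1) :
    HasExp ξ η := by
  classical
  by_cases hd : td (Set.range ξ) = n
  · exact dominant_all hn hη hd
  have h1 : 1 ≤ td (Set.range ξ) := one_le_td hn hadd
  have hle : td (Set.range ξ) ≤ n := by
    refine (td_le_encard _).trans ?_
    rw [← Set.image_univ]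
    refine (Set.encard_image_le _ _).trans ?_
    simp
  by_cases hd1 : td (Set.range ξ) = 1
  · refine dim_one_all hn hη hadd hd1 hdim ?_
    by_contra hcon
    have : n = 1 := by omega
    subst this
    exact hd (by rw [hd1]; rfl)
  · have hn3 : n ≤ 3 := h.resolve_right hd1
    obtain ⟨d, hd', hdn⟩ := exists_eq_natCast hle
    have hd1' : d ≠ 1 := fun h => hd1 (by rw [hd', h]; rfl)
    have hd0 : 1 ≤ d := by
      rw [hd'] at h1
      exact_mod_cast h1
    have hdn' : d ≠ n := fun h => hd (by rw [hd', h])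
    have hn3' : n = 3 := by omega
    subst hn3'
    have hd2 : d = 2 := by omega
    subst hd2
    have h2 : td (Set.range ξ) = 2 := by rw [hd']; rfl
    have hle2 : td (Set.range ξ ∪ Set.range η) ≤ ((5 : ℕ) : ℕ∞) := by
      refine (td_union_le _ _).trans ?_
      rw [h2]
      have : td (Set.range η) ≤ 3 := by
        refine (td_le_encard _).trans ?_
        rw [← Set.image_univ]
        refine (Set.encard_image_le _ _).trans ?_
        simp
      exact (add_le_add le_rfl this).trans (by norm_num)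
    obtain ⟨j, hj, hj5⟩ := exists_eq_natCast hle2
    have hj3 : 3 ≤ j := by
      rw [hj] at hdim
      exact_mod_cast hdim
    have hj' : j = 3 ∨ j = 4 ∨ j = 5 := by omega
    rcases hj' with rfl | rfl | rfl
    · exact n3 ⟨hη, hadd, hmul, hrot, hj⟩
    · exact caseF hη hadd h2 (by rw [hj]; rfl)
    · have h2' : td (Set.range ξ) = ((2 : ℕ) : ℕ∞) := by rw [h2]; rfl
      have h3' : td (Set.range ξ ∪ Set.range η) = ((2 : ℕ) : ℕ∞) + (3 : ℕ) := by
        rw [hj]
        norm_num
      refine of_update h2' h3' 0 (caseF (fun i => ?_) hadd h2 ?_)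
      · by_cases hi : i = 0
        · subst hi
          rw [Function.update_self]
          exact one_ne_zero
        · rw [Function.update_of_ne hi]
          exact hη i
      · have e1 := td_update h2' h3' 0
        have e3 : ((2 : ℕ) : ℕ∞) + (3 : ℕ) = (4 : ℕ∞) + 1 := by norm_num
        rw [e3] at e1
        exact enat_cancel (k := 4) e1

end Pool.Agent.Lib.MP_209724_lc.OV
end
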