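import Mathlib
import Pool.Agent.Lib.MP_209724_lc.OV.AllDim
import Pool.Agent.Lib.MP_209724_lc.SC.Ed3

/-!
The main theorem for tuples in an arbitrary field.
-/

namespace Pool.Agent.Lib.MP_209724_lc.OV

open MvPolynomial AlgebraicIndependent

variable {n : ℕ}

theorem hasExp_of_map {L Ω : Type} [Field L] [Algebra ℂ L] [Field Ω] [Algebra ℂ Ω]
    (i : L →ₐ[ℂ] Ω) {x y : Fin n → L} (h : HasExp (fun j => i (x j)) fun j => i (y j)) :
    HasExp x y := by
  intro c hc R
  obtain ⟨z, hz, hzc, hf⟩ := h c (by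
    rw [← comp_aeval_apply]
    intro h0
    exact hc ((map_eq_zero_iff i i.injective).1 h0)) R
  refine ⟨z, hz, hzc, fun f hf0 => hf f ?_⟩
  have h1 : Sum.elim (fun j => i (x j)) (fun j => i (y j)) = fun j => i (Sum.elim x y j) := by
    funext j
    rcases j with j | j <;> rfl
  rw [h1, ← comp_aeval_apply, hf0, map_zero]

theorem trdeg_adjoin_image {L Ω : Type} [Field L] [Algebra ℂ L] [Field Ω] [Algebra ℂ Ω]
    (i : L →ₐ[ℂ] Ω) (s : Set L) :
    Algebra.trdeg ℂ (Algebra.adjoin ℂ (i '' s)) = Algebra.trdeg ℂ (Algebra.adjoin ℂ s) := by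
  have e : Algebra.adjoin ℂ s ≃ₐ[ℂ] Algebra.adjoin ℂ (i '' s) :=
    ((Algebra.adjoin ℂ s).equivMapOfInjective i i.injective).trans
      (Subalgebra.equivOfEq _ _ (Algebra.adjoin_image ℂ i s).symm)
  exact e.symm.trdeg_eq

/-- two independent rows -/
theorem rank_two {a b : Fin n → ℤ} (hab : LinearIndependent ℤ ![a, b]) :
    ∃ B : Matrix (Fin n) (Fin n) ℤ, (∀ i, B i = a ∨ B i = b ∨ B i = 0) ∧
      2 ≤ (B.map (Int.cast : ℤ → ℚ)).rank := by
  classical
  have hind : LinearIndependent ℚ ![(fun j => (a j : ℚ)), fun j => (b j : ℚ)] := by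
    rw [LinearIndependent.pair_iff] at hab ⊢
    intro s t hst
    have hs : s * s.den = s.num := Rat.mul_den_eq_num s
    have ht : t * t.den = t.num := Rat.mul_den_eq_num t
    have h1 := hab (s.num * t.den) (t.num * s.den) (by
      funext j
      have h2 := congrFun hst j
      simp only [Pi.add_apply, Pi.smul_apply, smul_eq_mul, Pi.zero_apply] at h2 ⊢
      have h3 : ((s.num * t.den * a j + t.num * s.den * b j : ℤ) : ℚ) = 0 := by
        push_cast
        rw [← hs, ← ht]
        linear_combination (s.den : ℚ) * t.den * h2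
      exact_mod_cast h3)
    have hs0 : (s.den : ℤ) ≠ 0 := by exact_mod_cast s.den_nz
    have ht0 : (t.den : ℤ) ≠ 0 := by exact_mod_cast t.den_nz
    obtain ⟨h2, h3⟩ := h1
    rw [mul_eq_zero] at h2 h3
    exact ⟨Rat.num_eq_zero.1 (h2.resolve_right ht0), Rat.num_eq_zero.1 (h3.resolve_right hs0)⟩
  have hn : 2 ≤ n := by
    have := hind.fintype_card_le_finrank
    simpa using this
  set i₀ : Fin n := ⟨0, by omega⟩
  set i₁ : Fin n := ⟨1, by omega⟩
  have hne : i₁ ≠ i₀ := by
    intro h
    have := congrArg Fin.val h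
    simp [i₀, i₁] at this
  refine ⟨fun i => if i = i₀ then a else if i = i₁ then b else 0, fun i => ?_, ?_⟩
  · simp only
    split_ifs
    · exact Or.inl rfl
    · exact Or.inr (Or.inl rfl)
    · exact Or.inr (Or.inr rfl)
  · rw [Matrix.rank_eq_finrank_span_row]
    have h1 : Submodule.span ℚ (Set.range ![(fun j => (a j : ℚ)), fun j => (b j : ℚ)]) ≤
        Submodule.span ℚ (Set.range (Matrix.row (Matrix.map
          (fun i => if i = i₀ then a else if i = i₁ then b else 0 : Matrix (Fin n) (Fin n) ℤ)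
          (Int.cast : ℤ → ℚ)))) := by
      apply Submodule.span_mono
      rintro _ ⟨i, rfl⟩
      fin_cases i
      · refine ⟨i₀, ?_⟩
        funext j
        simp [Matrix.row, Matrix.map_apply]
      · refine ⟨i₁, ?_⟩
        funext j
        simp [Matrix.row, Matrix.map_apply, hne]
    have h2 := Submodule.finrank_mono h1
    rw [finrank_span_eq_card hind] at h2
    simpa using h2

/-- The main theorem for tuples in a field. -/
theorem transfer {L : Type} [Field L] [Algebra ℂ L] (hn : 0 < n) (x y : Fin n → L)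
    (hy : ∀ i, y i ≠ 0)
    (hfree : ∀ m : Fin n → ℤ, m ≠ 0 → ∀ c : ℂ, ∑ i, (m i : L) * x i ≠ algebraMap ℂ L c ∧
      ∏ i, y i ^ m i ≠ algebraMap ℂ L c)
    (hrot : ∀ B : Matrix (Fin n) (Fin n) ℤ, ((B.map (Int.cast : ℤ → ℚ)).rank : Cardinal) ≤
      Algebra.trdeg ℂ (Algebra.adjoin ℂ (Set.range (fun i => ∑ j, (B i j : L) * x j) ∪
        Set.range fun i => ∏ j, y j ^ B i j)))
    (h : n ≤ 3 ∨ Algebra.trdeg ℂ (Algebra.adjoin ℂ (Set.range x)) = 1) : HasExp x y := by
  classical
  set Ω := AlgebraicClosure L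
  set i : L →ₐ[ℂ] Ω := IsScalarTower.toAlgHom ℂ L Ω with hi
  apply hasExp_of_map i
  have hlin : ∀ m : Fin n → ℤ, lin m (fun j => i (x j)) = i (∑ j, (m j : L) * x j) := by
    intro m
    rw [lin, map_sum]
    refine Finset.sum_congr rfl fun j _ => ?_
    rw [map_mul, map_intCast, map_intCast]
  have hmon : ∀ m : Fin n → ℤ, mon m (fun j => i (y j)) = i (∏ j, y j ^ m j) := by
    intro m
    rw [mon, map_prod]
    refine Finset.prod_congr rfl fun j _ => ?_
    rw [map_zpow₀]
  have hcB : ∀ (B : Matrix (Fin n) (Fin n) ℤ) (k : ℕ), k ≤ (B.map (Int.cast : ℤ → ℚ)).rank →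
      (k : ℕ∞) ≤ td (Set.range (fun j => lin (B j) fun j => i (x j)) ∪
        Set.range fun j => mon (B j) fun j => i (y j)) := by
    intro B k hk
    apply le_td_of_trdeg_adjoin
    have e1 : Set.range (fun j => lin (B j) fun j => i (x j)) ∪
        Set.range (fun j => mon (B j) fun j => i (y j)) =
        i '' (Set.range (fun i => ∑ j, (B i j : L) * x j) ∪
          Set.range fun i => ∏ j, y j ^ B i j) := by
      rw [Set.image_union, ← Set.range_comp, ← Set.range_comp]
      congr 1
      · congr 1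
        funext j
        exact hlin (B j)
      · congr 1
        funext j
        exact hmon (B j)
    rw [e1, trdeg_adjoin_image]
    refine le_trans ?_ (hrot B)
    exact_mod_cast hk
  refine main_field hn (fun j h0 => hy j ((map_eq_zero_iff i i.injective).1 h0)) ?_ ?_ ?_ ?_ ?_
  · rintro m hm ⟨c, hc⟩
    rw [hlin, ← i.commutes c] at hc
    exact (hfree m hm c).1 (i.injective hc)
  · rintro m hm ⟨c, hc⟩
    rw [hmon, ← i.commutes c] at hc
    exact (hfree m hm c).2 (i.injective hc)
  · intro a b hab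
    obtain ⟨B, hB, hrank⟩ := rank_two hab
    refine (hcB B 2 hrank).trans (td_le_of_subset_cl ?_)
    rintro _ (⟨j, rfl⟩ | ⟨j, rfl⟩)
    · simp only
      rcases hB j with h1 | h1 | h1
      · rw [h1]
        exact subset_cl _ (by simp)
      · rw [h1]
        exact subset_cl _ (by simp)
      · rw [h1]
        refine isConst_mem_cl ⟨0, ?_⟩
        simp [lin]
    · simp only
      rcases hB j with h1 | h1 | h1
      · rw [h1]
        exact subset_cl _ (by simp)
      · rw [h1]
        exact subset_cl _ (by simp)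
      · rw [h1]
        refine isConst_mem_cl ⟨1, ?_⟩
        simp [mon]
  · refine (hcB 1 n ?_).trans (td_mono ?_)
    · have e1 : ((1 : Matrix (Fin n) (Fin n) ℤ).map (Int.cast : ℤ → ℚ)) = 1 := by
        ext a b
        rw [Matrix.map_apply, Matrix.one_apply, Matrix.one_apply]
        split_ifs <;> simp
      rw [e1, Matrix.rank_one]
      simp
    · have e1 : ∀ j : Fin n, (1 : Matrix (Fin n) (Fin n) ℤ) j = Pi.single j 1 := by
        intro j
        funext k
        rw [Matrix.one_apply, Pi.single_apply]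
        simp only [eq_comm]
      rintro _ (⟨j, rfl⟩ | ⟨j, rfl⟩)
      · left
        simp only
        rw [e1, lin_single]
        exact ⟨j, rfl⟩
      · right
        simp only
        rw [e1, mon_single]
        exact ⟨j, rfl⟩
  · rcases h with h | h
    · exact Or.inl h
    · right
      have e1 : Set.range (fun j => i (x j)) = i '' Set.range x := by
        rw [← Set.range_comp]
        rfl
      have e2 := td_of_trdeg_adjoin (n := 1) (Set.range fun j => i (x j)) (by
        rw [e1, trdeg_adjoin_image, h]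
        simp)
      rw [e2]
      rfl

end Pool.Agent.Lib.MP_209724_lc.OV
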